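import Pool.Agent.R289.Conv

set_option autoImplicit false

/-!
# The group `ℤ × S₃` and a nilpotent element of its group algebra
-/

namespace Pool.Agent.R289.Blk

open scoped ENNReal
open Filter Topology Pool.Agent.R289.Conv

/-- The discrete group `ℤ × S₃`. -/
abbrev GG : Type := Multiplicative ℤ × Equiv.Perm (Fin 3)

/-- group elements as elements of the group algebra -/
noncomputable def dl (g : GG) : MonoidAlgebra ℂ GG := MonoidAlgebra.single g 1

theorem dl_mul (g h : GG) : dl g * dl h = dl (g * h) := by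
  rw [dl, dl, MonoidAlgebra.single_mul_single, one_mul]; rfl

theorem dl_one : dl 1 = 1 := rfl

/-- the generator of `ℤ` -/
def zg : GG := (Multiplicative.ofAdd 1, 1)
/-- a transposition -/
def sg : GG := (1, Equiv.swap 0 1)
/-- another transposition -/
def tg : GG := (1, Equiv.swap 1 2)

noncomputable def z : MonoidAlgebra ℂ GG := dl zg

/-- the nilpotent element `(1 - s) t (1 + s)` -/
noncomputable def N : MonoidAlgebra ℂ GG := (1 - dl sg) * dl tg * (1 + dl sg)

theorem sg_sq : sg * sg = 1 := by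
  refine Prod.ext (by simp [sg]) ?_
  show Equiv.swap 0 1 * Equiv.swap 0 1 = 1
  exact Equiv.swap_mul_self 0 1

theorem N_sq : N * N = 0 := by
  have h : (1 + dl sg) * (1 - dl sg) = 0 := by
    have h1 : dl sg * dl sg = 1 := by rw [dl_mul, sg_sq, dl_one]
    rw [mul_sub, add_mul, add_mul, h1, mul_one, one_mul, mul_one]
    abel
  rw [N]
  calc (1 - dl sg) * dl tg * (1 + dl sg) * ((1 - dl sg) * dl tg * (1 + dl sg))
      = (1 - dl sg) * dl tg * ((1 + dl sg) * (1 - dl sg)) * dl tg * (1 + dl sg) := by noncomm_ring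
    _ = 0 := by rw [h]; simp

theorem z_comm (a : MonoidAlgebra ℂ GG) : z * a = a * z := by
  have hzg : ∀ g : GG, zg * g = g * zg := by
    intro g
    refine Prod.ext (mul_comm _ _) ?_
    show (1 : Equiv.Perm (Fin 3)) * g.2 = g.2 * 1
    rw [one_mul, mul_one]
  induction a using MonoidAlgebra.induction_on with
  | of g =>
    show dl zg * dl g = dl g * dl zg
    rw [dl_mul, dl_mul, hzg]
  | add f g h1 h2 => rw [mul_add, add_mul, h1, h2]
  | smul r f h => rw [mul_smul_comm, smul_mul_assoc, h]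

theorem z_pow (k : ℕ) : z ^ k = dl (Multiplicative.ofAdd (k : ℤ), 1) := by
  induction k with
  | zero => rfl
  | succ k ih =>
    rw [pow_succ, ih, z, dl_mul]
    congr 1

/-- integration of a function against an element of the group algebra -/
noncomputable def ev (h : GG → ℂ) : MonoidAlgebra ℂ GG →ₗ[ℂ] ℂ where
  toFun a := ∑' g, a.coeff g * h g
  map_add' a b := by
    rw [← Summable.tsum_add]
    · refine tsum_congr fun g => ?_
      rw [MonoidAlgebra.coeff_add, Finsupp.add_apply, add_mul]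
    · refine summable_of_ne_finset_zero (s := a.coeff.support) fun g hg => ?_
      rw [Finsupp.notMem_support_iff.1 hg, zero_mul]
    · refine summable_of_ne_finset_zero (s := b.coeff.support) fun g hg => ?_
      rw [Finsupp.notMem_support_iff.1 hg, zero_mul]
  map_smul' c a := by
    rw [RingHom.id_apply, smul_eq_mul, ← tsum_mul_left]
    refine tsum_congr fun g => ?_
    rw [MonoidAlgebra.coeff_smul, Finsupp.smul_apply, smul_eq_mul, mul_assoc]

theorem ev_dl (h : GG → ℂ) (g : GG) : ev h (dl g) = h g := by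
  show ∑' x, (dl g).coeff x * h x = h g
  rw [tsum_eq_single g]
  · show (Finsupp.single g 1 : GG →₀ ℂ) g * h g = h g
    rw [Finsupp.single_eq_same, one_mul]
  · intro x hx
    show (Finsupp.single g 1 : GG →₀ ℂ) x * h x = 0
    rw [Finsupp.single_eq_of_ne hx, zero_mul]

/-- the value of `ev h` on `z ^ k * N` -/
noncomputable def hN (h : GG → ℂ) (k : ℕ) : ℂ :=
  h (Multiplicative.ofAdd (k : ℤ), Equiv.swap 1 2)
    + h (Multiplicative.ofAdd (k : ℤ), Equiv.swap 1 2 * Equiv.swap 0 1)
    - h (Multiplicative.ofAdd (k : ℤ), Equiv.swap 0 1 * Equiv.swap 1 2)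
    - h (Multiplicative.ofAdd (k : ℤ), Equiv.swap 0 1 * Equiv.swap 1 2 * Equiv.swap 0 1)

theorem N_eq : N = dl tg + dl (tg * sg) - dl (sg * tg) - dl (sg * tg * sg) := by
  rw [N, ← dl_mul, ← dl_mul, ← dl_mul, ← dl_mul]
  noncomm_ring

theorem ev_zN (h : GG → ℂ) (k : ℕ) : ev h (z ^ k * N) = hN h k := by
  rw [z_pow, N_eq, mul_sub, mul_sub, mul_add, dl_mul, dl_mul, dl_mul, dl_mul, map_sub, map_sub,
    map_add, ev_dl, ev_dl, ev_dl, ev_dl, hN]
  congr 3

theorem ev_z (h : GG → ℂ) (k : ℕ) : ev h (z ^ k) = h (Multiplicative.ofAdd (k : ℤ), 1) := by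
  rw [z_pow, ev_dl]

end Pool.Agent.R289.Blk
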