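import Pool.Agent.R289.L1

set_option autoImplicit false
set_option linter.unusedSectionVars false

/-!
# The discrete group `⊕_ℕ ℤ/2` and orthogonal idempotents of its group algebra
-/

namespace Pool.Agent.R289.Cantor

open scoped ENNReal
open Filter Topology Pool.Agent.R289.Conv Pool.Agent.R289.L1

/-- The discrete group `⊕_ℕ ℤ/2`, written multiplicatively. -/
abbrev BG : Type := Multiplicative (ℕ →₀ ZMod 2)

/-- group elements as elements of the group algebra -/
noncomputable def dl (g : BG) : MonoidAlgebra ℂ BG := MonoidAlgebra.single g 1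

theorem dl_mul (g h : BG) : dl g * dl h = dl (g * h) := by
  rw [dl, dl, MonoidAlgebra.single_mul_single, one_mul]; rfl

theorem dl_one : dl 1 = 1 := rfl

/-- the generators -/
noncomputable def gen (n : ℕ) : BG := Multiplicative.ofAdd (Finsupp.single n 1)

theorem gen_sq (n : ℕ) : gen n * gen n = 1 := by
  have h : (Finsupp.single n 1 + Finsupp.single n 1 : ℕ →₀ ZMod 2) = 0 := by
    rw [← Finsupp.single_add, show (1 : ZMod 2) + 1 = 0 by decide, Finsupp.single_zero]
  exact congrArg Multiplicative.ofAdd h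

/-- the factor `(1 + g_i) / 2` -/
noncomputable def fac (i : ℕ) : MonoidAlgebra ℂ BG := (2⁻¹ : ℂ) • (1 + dl (gen i))

theorem fac_mul_gen (i : ℕ) : fac i * dl (gen i) = fac i := by
  rw [fac, smul_mul_assoc, add_mul, one_mul, dl_mul, gen_sq, dl_one, add_comm]

theorem fac_mul_self (i : ℕ) : fac i * fac i = fac i := by
  nth_rw 2 [fac]
  rw [mul_smul_comm, mul_add, mul_one, fac_mul_gen, ← two_smul ℂ (fac i), smul_smul]
  norm_num

/-- the idempotents `P_n` -/
noncomputable def P (n : ℕ) : MonoidAlgebra ℂ BG := ∏ i ∈ Finset.range n, fac i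

theorem P_succ (n : ℕ) : P (n + 1) = P n * fac n := Finset.prod_range_succ _ _

theorem P_self (n : ℕ) : P n * P n = P n := by
  rw [P, ← Finset.prod_mul_distrib]
  exact Finset.prod_congr rfl fun i _ => fac_mul_self i

theorem P_add (n k : ℕ) : P n * P (n + k) = P (n + k) := by
  induction k with
  | zero => exact P_self n
  | succ k ih => rw [← add_assoc, P_succ, ← mul_assoc, ih]

theorem P_mul_of_le {n m : ℕ} (h : n ≤ m) : P n * P m = P m := by
  obtain ⟨k, rfl⟩ := Nat.exists_eq_add_of_le h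
  exact P_add n k

/-- the orthogonal idempotents -/
noncomputable def e (n : ℕ) : MonoidAlgebra ℂ BG := P n - P (n + 1)

theorem e_self (n : ℕ) : e n * e n = e n := by
  rw [e, sub_mul, mul_sub, mul_sub, P_self, P_self, mul_comm (P (n + 1)) (P n),
    P_mul_of_le (Nat.le_succ n)]
  abel

theorem e_lt {n m : ℕ} (h : n < m) : e n * e m = 0 := by
  rw [e, e, sub_mul, mul_sub, mul_sub, P_mul_of_le h.le, P_mul_of_le (by omega),
    P_mul_of_le (by omega), P_mul_of_le (by omega)]
  abel

theorem e_ne {n m : ℕ} (h : n ≠ m) : e n * e m = 0 := by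
  rcases lt_or_gt_of_ne h with h | h
  · exact e_lt h
  · rw [mul_comm, e_lt h]

theorem P_gen {i n : ℕ} (h : i < n) : P n * dl (gen i) = P n := by
  rw [P, ← Finset.mul_prod_erase _ _ (Finset.mem_range.2 h), mul_comm (fac i), mul_assoc,
    fac_mul_gen]

theorem P_kill (g : BG) : ∃ N, ∀ n, N ≤ n → P n * dl g = P n := by
  induction g using Multiplicative.rec with
  | _ g =>
  induction g using Finsupp.induction_linear with
  | zero => exact ⟨0, fun n _ => by rw [show (Multiplicative.ofAdd (0 : ℕ →₀ ZMod 2)) = 1 from rfl,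
      dl_one, mul_one]⟩
  | add f g hf hg =>
    obtain ⟨N1, h1⟩ := hf
    obtain ⟨N2, h2⟩ := hg
    refine ⟨max N1 N2, fun n hn => ?_⟩
    rw [ofAdd_add, ← dl_mul, ← mul_assoc, h1 n (le_trans (le_max_left _ _) hn),
      h2 n (le_trans (le_max_right _ _) hn)]
  | single i b =>
    refine ⟨i + 1, fun n hn => ?_⟩
    have hb : b = 0 ∨ b = 1 := by revert b; decide
    rcases hb with rfl | rfl
    · rw [Finsupp.single_zero]
      rw [show (Multiplicative.ofAdd (0 : ℕ →₀ ZMod 2)) = 1 from rfl, dl_one, mul_one]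
    · exact P_gen (by omega)

/-- the characters -/
noncomputable def chi (n : ℕ) : BG →* ℂ where
  toFun x := if (Multiplicative.toAdd x) n = 0 then 1 else -1
  map_one' := by simp
  map_mul' x y := by
    rw [toAdd_mul, Finsupp.add_apply]
    generalize (Multiplicative.toAdd x) n = a
    generalize (Multiplicative.toAdd y) n = b
    have ha : a = 0 ∨ a = 1 := by revert a; decide
    have hb : b = 0 ∨ b = 1 := by revert b; decide
    have h11 : (1 : ZMod 2) + 1 = 0 := by decide
    rcases ha with rfl | rfl <;> rcases hb with rfl | rfl <;> simp [h11]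

theorem chi_gen_self (n : ℕ) : chi n (gen n) = -1 := by
  show (if (Finsupp.single n 1 : ℕ →₀ ZMod 2) n = 0 then (1 : ℂ) else -1) = -1
  rw [Finsupp.single_eq_same, if_neg (by decide)]

theorem chi_gen_ne {i n : ℕ} (h : i ≠ n) : chi n (gen i) = 1 := by
  show (if (Finsupp.single i 1 : ℕ →₀ ZMod 2) n = 0 then (1 : ℂ) else -1) = 1
  rw [Finsupp.single_eq_of_ne (Ne.symm h), if_pos rfl]

theorem norm_chi (n : ℕ) (x : BG) : ‖chi n x‖ = 1 := by
  show ‖(if (Multiplicative.toAdd x) n = 0 then (1 : ℂ) else -1)‖ = 1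
  split_ifs <;> simp

theorem chi_eventually (x : BG) : ∀ᶠ n in atTop, chi n x = 1 := by
  have h : {n | (Multiplicative.toAdd x) n ≠ 0}.Finite := by
    have := (Multiplicative.toAdd x).hasFiniteSupport
    exact this
  have h2 := h.compl_mem_cofinite
  rw [Nat.cofinite_eq_atTop] at h2
  filter_upwards [h2] with n hn
  have h3 : (Multiplicative.toAdd x) n = 0 := by
    by_contra h4
    exact hn h4
  show (if (Multiplicative.toAdd x) n = 0 then (1 : ℂ) else -1) = 1
  rw [if_pos h3]

/-- the characters on the group algebra -/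
noncomputable def X (n : ℕ) : MonoidAlgebra ℂ BG →ₐ[ℂ] ℂ := MonoidAlgebra.lift ℂ ℂ BG (chi n)

theorem X_dl (n : ℕ) (g : BG) : X n (dl g) = chi n g := by
  rw [X, dl, MonoidAlgebra.lift_single, one_smul]

theorem X_P (n : ℕ) : X n (P n) = 1 := by
  rw [P, map_prod]
  refine Finset.prod_eq_one fun i hi => ?_
  rw [fac, map_smul, map_add, map_one, X_dl, chi_gen_ne (Finset.mem_range.1 hi).ne]
  norm_num

theorem X_e (n : ℕ) : X n (e n) = 1 := by
  rw [e, P_succ, map_sub, map_mul, X_P, fac, map_smul, map_add, map_one, X_dl, chi_gen_self]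
  norm_num

section ell1

/-- `P_n` and `e_n` as operators on `ℓ¹` -/
noncomputable def Pop (n : ℕ) : Ell BG 1 →L[ℂ] Ell BG 1 := lam hp1 (P n)
noncomputable def Eop (n : ℕ) : Ell BG 1 →L[ℂ] Ell BG 1 := lam hp1 (e n)

theorem lam_dl (g : BG) (f : Ell BG 1) : lam hp1 (dl g) f = L hp1 g f := by
  rw [dl, lam_single, one_smul]

theorem norm_fac (i : ℕ) (f : Ell BG 1) : ‖lam hp1 (fac i) f‖ ≤ ‖f‖ := by
  rw [fac, map_smul, map_add, map_one, smul_apply, norm_smul]
  have h : ‖(1 + lam hp1 (dl (gen i))) f‖ ≤ ‖f‖ + ‖f‖ := by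
    have h5 : ‖f + lam hp1 (dl (gen i)) f‖ ≤ _ := norm_add_le _ _
    rw [lam_dl, norm_L_apply] at h5
    rw [← lam_dl] at h5
    exact h5
  have h2 : ‖(2⁻¹ : ℂ)‖ = 2⁻¹ := by simp
  rw [h2]
  linarith

theorem norm_P (n : ℕ) (f : Ell BG 1) : ‖Pop n f‖ ≤ ‖f‖ := by
  induction n with
  | zero => rw [Pop, P, Finset.prod_range_zero, map_one]; exact le_rfl
  | succ n ih =>
    rw [Pop, P_succ, mul_comm, map_mul]
    exact (norm_fac n _).trans ih

theorem Eop_eq (n : ℕ) (f : Ell BG 1) : Eop n f = Pop n f - Pop (n + 1) f := by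
  rw [Eop, e, map_sub]; rfl

theorem norm_E (n : ℕ) (f : Ell BG 1) : ‖Eop n f‖ ≤ 2 * ‖f‖ := by
  rw [Eop_eq]
  have h1 := norm_sub_le (Pop n f) (Pop (n + 1) f)
  have h2 := norm_P n f
  have h3 := norm_P (n + 1) f
  linarith

theorem Eop_L (n : ℕ) (y : BG) (f : Ell BG 1) : Eop n (L hp1 y f) = L hp1 y (Eop n f) := by
  rw [← lam_dl, ← lam_dl]
  have h : lam hp1 (e n * dl y) = lam hp1 (dl y * e n) := by rw [mul_comm]
  rw [map_mul, map_mul] at h
  exact congrArg (fun S : Ell BG 1 →L[ℂ] Ell BG 1 => S f) h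

theorem Eop_Cop (n : ℕ) (ν f : Ell BG 1) : Eop n (Cop hp1 ν f) = Cop hp1 ν (Eop n f) :=
  map_Cop hp1 (Eop n) (Eop_L n) ν f

theorem Eop_Eop_self (n : ℕ) (f : Ell BG 1) : Eop n (Eop n f) = Eop n f := by
  have h : lam hp1 (e n * e n) = lam hp1 (e n) := by rw [e_self]
  rw [map_mul] at h
  exact congrArg (fun S : Ell BG 1 →L[ℂ] Ell BG 1 => S f) h

theorem Eop_Eop_ne {n m : ℕ} (hnm : n ≠ m) (f : Ell BG 1) : Eop n (Eop m f) = 0 := by
  have h : lam hp1 (e n * e m) = lam hp1 0 := by rw [e_ne hnm]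
  rw [map_mul, map_zero] at h
  exact congrArg (fun S : Ell BG 1 →L[ℂ] Ell BG 1 => S f) h

/-- the characters on `ℓ¹` -/
noncomputable def Y (n : ℕ) (f : Ell BG 1) : ℂ := ∑' g, f g • chi n g

theorem summable_Y (n : ℕ) (f : Ell BG 1) : Summable (fun g => f g • chi n g) :=
  summable_smul f (fun g => chi n g) 1 (fun g => (norm_chi n g).le)

theorem Y_add (n : ℕ) (f g : Ell BG 1) : Y n (f + g) = Y n f + Y n g := by
  rw [Y, Y, Y, ← (summable_Y n f).tsum_add (summable_Y n g)]
  refine tsum_congr fun x => ?_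
  rw [← add_smul]; rfl

theorem Y_smul (n : ℕ) (c : ℂ) (f : Ell BG 1) : Y n (c • f) = c * Y n f := by
  rw [Y, Y, ← smul_eq_mul, ← (summable_Y n f).tsum_const_smul]
  refine tsum_congr fun x => ?_
  rw [smul_smul]; rfl

theorem Y_L (n : ℕ) (y : BG) (f : Ell BG 1) : Y n (L hp1 y f) = chi n y * Y n f := by
  rw [Y, Y, ← (Equiv.mulLeft y).tsum_eq (fun g => L hp1 y f g • chi n g), ← smul_eq_mul,
    ← (summable_Y n f).tsum_const_smul]
  refine tsum_congr fun x => ?_
  show L hp1 y f (y * x) • chi n (y * x) = _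
  rw [Conv.L_apply, inv_mul_cancel_left, map_mul, smul_eq_mul, smul_eq_mul, smul_eq_mul]
  ring

theorem Y_lam (n : ℕ) (a : MonoidAlgebra ℂ BG) (f : Ell BG 1) :
    Y n (lam hp1 a f) = X n a * Y n f := by
  induction a using MonoidAlgebra.induction_on with
  | of g =>
    show Y n (lam hp1 (dl g) f) = X n (dl g) * Y n f
    rw [lam_dl, Y_L, X_dl]
  | add a b ha hb =>
    rw [map_add, map_add, add_mul, ← ha, ← hb, ← Y_add]; rfl
  | smul r a ha =>
    rw [map_smul, map_smul, smul_eq_mul, mul_assoc, ← ha, ← Y_smul]; rfl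

theorem Y_E (n : ℕ) (f : Ell BG 1) : Y n (Eop n f) = Y n f := by
  rw [Eop, Y_lam, X_e, one_mul]

/-- the augmentation -/
noncomputable def aug (f : Ell BG 1) : ℂ := ∑' g, f g

theorem Y_tendsto (f : Ell BG 1) : Tendsto (fun n => Y n f) atTop (𝓝 (aug f)) := by
  refine tendsto_tsum_of_dominated_convergence (bound := fun g => ‖f g‖) (summable_norm f)
    (fun g => ?_) (Eventually.of_forall fun n g => ?_)
  · refine tendsto_const_nhds.congr' ?_
    filter_upwards [chi_eventually g] with n hn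
    rw [hn, smul_eq_mul, mul_one]
  · rw [norm_smul, norm_chi, mul_one]

theorem lp_hasSum (f : Ell BG 1) : HasSum (fun g => f g • L hp1 g (delta 1)) f := by
  classical
  have h := lp.hasSum_single (E := fun _ : BG => ℂ) (p := 1) (by simp) f
  convert h using 2 with g
  ext x
  show f g • (L hp1 g (delta 1)) x = _
  rw [Conv.L_apply, delta_apply]
  by_cases hx : x = g
  · subst hx
    rw [inv_mul_cancel, if_pos rfl, lp.single_apply_self, smul_eq_mul, mul_one]
  · rw [lp.single_apply_ne _ _ _ hx, if_neg, smul_zero]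
    intro h
    rw [inv_mul_eq_one] at h
    exact hx h.symm

theorem Pop_tendsto (f : Ell BG 1) (hf : aug f = 0) :
    Tendsto (fun n => Pop n f) atTop (𝓝 0) := by
  have h1 : ∀ n, Pop n f = ∑' g, f g • (Pop n (L hp1 g (delta 1)) - Pop n (delta 1)) := by
    intro n
    have a1 := (lp_hasSum f).mapL (Pop n)
    have a2 : HasSum (fun g => f g • Pop n (delta 1)) (0 : Ell BG 1) := by
      have := (summable_norm f).of_norm.hasSum.smul_const (Pop n (delta 1))
      rw [show ∑' b, f b = 0 from hf, zero_smul] at this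
      exact this
    have a3 := a1.sub a2
    rw [sub_zero] at a3
    rw [← a3.tsum_eq]
    refine tsum_congr fun g => ?_
    rw [map_smul, smul_sub]
  have h2 : Tendsto (fun n => ∑' g, f g • (Pop n (L hp1 g (delta 1)) - Pop n (delta 1)))
      atTop (𝓝 (∑' _ : BG, (0 : Ell BG 1))) := by
    refine tendsto_tsum_of_dominated_convergence (bound := fun g => ‖f g‖ * 2)
      ((summable_norm f).mul_right 2) (fun g => ?_) (Eventually.of_forall fun n g => ?_)
    · refine tendsto_const_nhds.congr' ?_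
      obtain ⟨N, hN⟩ := P_kill g
      filter_upwards [eventually_ge_atTop N] with n hn
      have : Pop n (L hp1 g (delta 1)) = Pop n (delta 1) := by
        rw [← lam_dl]
        have h : lam hp1 (P n * dl g) = lam hp1 (P n) := by rw [hN n hn]
        rw [map_mul] at h
        exact congrArg (fun S : Ell BG 1 →L[ℂ] Ell BG 1 => S (delta 1)) h
      rw [this, sub_self, smul_zero]
    · rw [norm_smul]
      refine mul_le_mul_of_nonneg_left ?_ (norm_nonneg _)
      refine (norm_sub_le _ _).trans ?_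
      have b1 := norm_P n (L hp1 g (delta 1))
      have b2 := norm_P n (delta 1)
      rw [norm_L_apply, norm_delta (by simp)] at b1
      rw [norm_delta (by simp)] at b2
      linarith
  rw [tsum_zero] at h2
  exact h2.congr fun n => (h1 n).symm

theorem Eop_tendsto (f : Ell BG 1) (hf : aug f = 0) :
    Tendsto (fun n => Eop n f) atTop (𝓝 0) := by
  have h := (Pop_tendsto f hf).sub ((Pop_tendsto f hf).comp (tendsto_add_atTop_nat 1))
  rw [sub_zero] at h
  exact h.congr fun n => (Eop_eq n f).symm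

/-- unit vectors `u_n` with `e_n u_n = u_n` -/
theorem exists_unit (n : ℕ) : ∃ u : Ell BG 1, ‖u‖ = 1 ∧ Eop n u = u := by
  set v := Eop n (delta 1) with hv
  have hv0 : v ≠ 0 := by
    intro h
    have h1 := Y_E n (delta 1)
    rw [← hv, h] at h1
    have h2 : Y n (0 : Ell BG 1) = 0 := by
      rw [Y]; simp
    have h3 : Y n (delta 1) = 1 := by
      classical
      rw [Y, tsum_eq_single 1]
      · rw [map_one, delta_apply, if_pos rfl, smul_eq_mul, mul_one]
      · intro x hx
        rw [delta_apply, if_neg hx, zero_smul]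
    rw [h2, h3] at h1
    exact zero_ne_one h1
  have hn : ‖v‖ ≠ 0 := norm_ne_zero_iff.2 hv0
  refine ⟨((‖v‖⁻¹ : ℝ) : ℂ) • v, ?_, ?_⟩
  · rw [norm_smul, Complex.norm_real, norm_inv, norm_norm, inv_mul_cancel₀ hn]
  · rw [map_smul, hv, Eop_Eop_self]

end ell1

end Pool.Agent.R289.Cantor
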