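import Mathlib

set_option autoImplicit false
set_option linter.unusedSectionVars false

/-!
# Left convolution by finitely supported measures on `ℓ^p` of a discrete group
-/

namespace Pool.Agent.R289.Conv

open scoped ENNReal
open Filter Topology

universe u

variable {G : Type u} [Group G]

/-- The Banach space `ℓ^p(G)`. -/
abbrev Ell (G : Type u) (p : ℝ≥0∞) : Type u := lp (fun _ : G => ℂ) p

/-- The convolution `(μ * f)(x) = ∑_y μ(y) f(y⁻¹ x)` of complex functions on the discrete
group `G`. The complex measures on `G` are identified with the summable functions. -/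
noncomputable def conv (μ f : G → ℂ) (x : G) : ℂ := ∑' y, μ y * f (y⁻¹ * x)

open Classical in
/-- The convolution powers `μ^k`; `μ^0` is the point mass at the identity. -/
noncomputable def cpow (μ : G → ℂ) : ℕ → G → ℂ
  | 0 => fun x => if x = 1 then 1 else 0
  | k + 1 => conv μ (cpow μ k)

section translation

variable {p : ℝ≥0∞} (hp : 0 < p.toReal)

include hp

theorem memlp_comp (e : G ≃ G) (f : Ell G p) : Memℓp (fun x => f (e x)) p := by
  rw [memℓp_gen_iff hp]
  exact (e.summable_iff (f := fun x => ‖f x‖ ^ p.toReal)).2 ((memℓp_gen_iff hp).1 (lp.memℓp f))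

theorem norm_comp (e : G ≃ G) (f g : Ell G p) (h : ∀ x, g x = f (e x)) : ‖g‖ = ‖f‖ := by
  rw [lp.norm_eq_tsum_rpow hp, lp.norm_eq_tsum_rpow hp]
  congr 1
  simp only [h]
  exact e.tsum_eq (fun x => ‖f x‖ ^ p.toReal)

end translation

variable {p : ℝ≥0∞} [Fact (1 ≤ p)]

/-- Left translation `(L_g f)(x) = f (g⁻¹ x)` on `ℓ^p(G)`, `p < ∞`. -/
noncomputable def L (hp : 0 < p.toReal) (g : G) : Ell G p →L[ℂ] Ell G p :=
  LinearMap.mkContinuous
    { toFun := fun f => ⟨fun x => f (g⁻¹ * x), memlp_comp hp (Equiv.mulLeft g⁻¹) f⟩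
      map_add' := fun _ _ => rfl
      map_smul' := fun _ _ => rfl } 1 (fun f => by
      rw [one_mul]
      exact (norm_comp hp (Equiv.mulLeft g⁻¹) f _ (fun _ => rfl)).le)

theorem L_apply (hp : 0 < p.toReal) (g : G) (f : Ell G p) (x : G) :
    L hp g f x = f (g⁻¹ * x) := rfl

theorem norm_L_apply (hp : 0 < p.toReal) (g : G) (f : Ell G p) : ‖L hp g f‖ = ‖f‖ :=
  norm_comp hp (Equiv.mulLeft g⁻¹) f _ (fun _ => rfl)

/-- Left translations as a homomorphism. -/
noncomputable def Lhom (hp : 0 < p.toReal) : G →* (Ell G p →L[ℂ] Ell G p) where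
  toFun := L hp
  map_one' := by
    ext f x
    rw [L_apply, inv_one, one_mul]; rfl
  map_mul' g h := by
    ext f x
    change _ = L hp g (L hp h f) x
    rw [L_apply, L_apply, L_apply, mul_inv_rev, mul_assoc]

/-- The convolution operators `λ_p(μ)`. -/
noncomputable def lam (hp : 0 < p.toReal) : MonoidAlgebra ℂ G →ₐ[ℂ] (Ell G p →L[ℂ] Ell G p) :=
  MonoidAlgebra.lift ℂ (Ell G p →L[ℂ] Ell G p) G (Lhom hp)

theorem lam_single (hp : 0 < p.toReal) (g : G) (c : ℂ) :
    lam hp (MonoidAlgebra.single g c) = c • L hp g := by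
  rw [lam, MonoidAlgebra.lift_single]; rfl

theorem lam_eq_sum (hp : 0 < p.toReal) (μ : MonoidAlgebra ℂ G) :
    lam hp μ = ∑ g ∈ μ.coeff.support, μ.coeff g • L hp g := by
  rw [lam, MonoidAlgebra.lift_apply]; rfl

theorem lam_apply (hp : 0 < p.toReal) (μ : MonoidAlgebra ℂ G) (f : Ell G p) (x : G) :
    lam hp μ f x = conv μ.coeff f x := by
  rw [lam_eq_sum, conv, tsum_eq_sum (s := μ.coeff.support)]
  · have : ∀ s : Finset G, (∑ g ∈ s, μ.coeff g • L hp g) f x
        = ∑ g ∈ s, μ.coeff g * f (g⁻¹ * x) := by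
      classical
      intro s
      induction s using Finset.induction_on with
      | empty => simp
      | insert a s ha ih =>
        rw [Finset.sum_insert ha, Finset.sum_insert ha, ← ih]
        rfl
    exact this _
  · intro b hb
    rw [Finsupp.notMem_support_iff.1 hb, zero_mul]

open Classical in
/-- The point mass at the identity. -/
noncomputable def delta (p : ℝ≥0∞) : Ell G p := lp.single p (1 : G) (1 : ℂ)

theorem delta_apply (x : G) [Decidable (x = 1)] :
    (delta p : Ell G p) x = if x = 1 then 1 else 0 := by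
  classical
  rw [delta]
  split_ifs with h
  · subst h; rw [lp.single_apply_self]
  · rw [lp.single_apply_ne _ _ _ h]

theorem norm_delta (hp : 0 < p) : ‖(delta p : Ell G p)‖ = 1 := by
  classical
  rw [delta, lp.norm_single hp, norm_one]

theorem lam_delta (hp : 0 < p.toReal) (μ : MonoidAlgebra ℂ G) (x : G) :
    lam hp μ (delta p) x = μ.coeff x := by
  classical
  rw [lam_apply, conv, tsum_eq_single x]
  · rw [inv_mul_cancel, delta_apply, if_pos rfl, mul_one]
  · intro y hy
    have : y⁻¹ * x ≠ 1 := fun h => hy (by rw [inv_mul_eq_one] at h; exact h)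
    rw [delta_apply, if_neg this, mul_zero]

theorem coeff_mul (a b : MonoidAlgebra ℂ G) : (a * b).coeff = conv a.coeff b.coeff := by
  have h1 : Fact ((1 : ℝ≥0∞) ≤ 1) := ⟨le_rfl⟩
  have hp : 0 < (1 : ℝ≥0∞).toReal := by simp
  funext x
  rw [← lam_delta (p := 1) hp, map_mul]
  change lam hp a (lam hp b (delta 1)) x = _
  rw [lam_apply]
  congr 1
  funext y
  exact lam_delta hp b y

theorem coeff_pow (a : MonoidAlgebra ℂ G) (k : ℕ) : (a ^ k).coeff = cpow a.coeff k := by
  classical
  induction k with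
  | zero =>
    funext x
    rw [pow_zero, cpow, MonoidAlgebra.one_def]
    change (Finsupp.single 1 1 : G →₀ ℂ) x = _
    rw [Finsupp.single_apply]
    simp only [eq_comm]
  | succ k ih => rw [pow_succ', coeff_mul, ih]; rfl

end Pool.Agent.R289.Conv
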