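import Mathlib

set_option autoImplicit false

/-!
# A mean ergodic operator that is not power bounded

`U` an isometry, `N` a nilpotent operator commuting with it, `A = (1 + U) / 2`, `B = (1 - U) / 2`
and `T = -A + B N`.
-/

namespace Pool.Agent.R289.Erg

open Filter Topology

variable {H : Type*} [NormedAddCommGroup H] [InnerProductSpace ℂ H]

/-- `(1 + U) / 2` -/
noncomputable def opA (U : H →L[ℂ] H) : H →L[ℂ] H := (2⁻¹ : ℂ) • (1 + U)
/-- `(1 - U) / 2` -/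
noncomputable def opB (U : H →L[ℂ] H) : H →L[ℂ] H := (2⁻¹ : ℂ) • (1 - U)
/-- `-A + B N` -/
noncomputable def opT (U N : H →L[ℂ] H) : H →L[ℂ] H := -opA U + opB U * N

variable (U N : H →L[ℂ] H)

theorem opA_apply (x : H) : opA U x = (2⁻¹ : ℂ) • (x + U x) := rfl
theorem opB_apply (x : H) : opB U x = (2⁻¹ : ℂ) • (x - U x) := rfl

theorem sq_add (hU : ∀ x, ‖U x‖ = ‖x‖) (x : H) : ‖opB U x‖ ^ 2 = ‖x‖ ^ 2 - ‖opA U x‖ ^ 2 := by
  have h := parallelogram_law_with_norm ℂ x (U x)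
  rw [opA_apply, opB_apply, norm_smul, norm_smul]
  have h2 : ‖(2⁻¹ : ℂ)‖ = 2⁻¹ := by simp
  rw [h2, hU] at *
  nlinarith

theorem opA_le (hU : ∀ x, ‖U x‖ = ‖x‖) (x : H) : ‖opA U x‖ ≤ ‖x‖ := by
  have h := sq_add U hU x
  have h1 : ‖opA U x‖ ^ 2 ≤ ‖x‖ ^ 2 := by nlinarith [sq_nonneg ‖opB U x‖]
  exact (sq_le_sq₀ (norm_nonneg _) (norm_nonneg _)).1 h1

theorem opB_le (hU : ∀ x, ‖U x‖ = ‖x‖) (x : H) : ‖opB U x‖ ≤ ‖x‖ := by
  have h := sq_add U hU x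
  have h1 : ‖opB U x‖ ^ 2 ≤ ‖x‖ ^ 2 := by nlinarith [sq_nonneg ‖opA U x‖]
  exact (sq_le_sq₀ (norm_nonneg _) (norm_nonneg _)).1 h1

theorem pow_A_le (hU : ∀ x, ‖U x‖ = ‖x‖) (n : ℕ) (x : H) : ‖(opA U ^ n) x‖ ≤ ‖x‖ := by
  induction n with
  | zero => simp
  | succ n ih => rw [pow_succ']; exact (opA_le U hU _).trans ih

theorem comm_AB : Commute (opA U) (opB U) := by
  unfold Commute SemiconjBy opA opB
  rw [smul_mul_smul_comm, smul_mul_smul_comm]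
  congr 1
  noncomm_ring

theorem comm_AB_apply (n : ℕ) (x : H) : (opA U ^ n) (opB U x) = opB U ((opA U ^ n) x) := by
  have h := ((comm_AB U).pow_left n).eq
  exact congrArg (fun S : H →L[ℂ] H => S x) h

theorem sq_ABn (hU : ∀ x, ‖U x‖ = ‖x‖) (n : ℕ) (x : H) :
    ‖(opA U ^ n) (opB U x)‖ ^ 2 = ‖(opA U ^ n) x‖ ^ 2 - ‖(opA U ^ (n + 1)) x‖ ^ 2 := by
  rw [comm_AB_apply, sq_add U hU, pow_succ' (opA U) n]
  rfl

theorem sq_decr (hU : ∀ x, ‖U x‖ = ‖x‖) (n : ℕ) (x : H) :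
    ((n : ℝ) + 1) * ‖(opA U ^ n) (opB U x)‖ ^ 2 ≤ ‖x‖ ^ 2 - ‖(opA U ^ (n + 1)) x‖ ^ 2 := by
  induction n with
  | zero =>
    rw [sq_ABn U hU]
    simp
  | succ n ih =>
    have h1 : ‖(opA U ^ (n + 1)) (opB U x)‖ ^ 2 ≤ ‖(opA U ^ n) (opB U x)‖ ^ 2 := by
      apply pow_le_pow_left₀ (norm_nonneg _)
      rw [pow_succ']
      exact opA_le U hU _
    have h2 := sq_ABn U hU (n + 1) x
    rw [Nat.cast_succ]
    nlinarith

theorem ABn_le (hU : ∀ x, ‖U x‖ = ‖x‖) (n : ℕ) (x : H) :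
    ‖(opA U ^ n) (opB U x)‖ ≤ (Real.sqrt ((n : ℝ) + 1))⁻¹ * ‖x‖ := by
  have h := sq_decr U hU n x
  have hn : (0 : ℝ) < (n : ℝ) + 1 := by positivity
  have h1 : ‖(opA U ^ n) (opB U x)‖ ^ 2 ≤ ((Real.sqrt ((n : ℝ) + 1))⁻¹ * ‖x‖) ^ 2 := by
    rw [mul_pow, inv_pow, Real.sq_sqrt hn.le, inv_mul_eq_div, le_div_iff₀ hn]
    nlinarith [sq_nonneg ‖(opA U ^ (n + 1)) x‖]
  exact (sq_le_sq₀ (norm_nonneg _) (by positivity)).1 h1

theorem tendsto_sqrt : Tendsto (fun n : ℕ => (Real.sqrt ((n : ℝ) + 1))⁻¹) atTop (𝓝 0) := by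
  refine Tendsto.inv_tendsto_atTop ?_
  exact Real.tendsto_sqrt_atTop.comp (tendsto_atTop_add_const_right _ _ tendsto_natCast_atTop_atTop)

variable {U N}

theorem comm_BN (h : Commute U N) : Commute (opB U) N := by
  unfold opB
  exact ((Commute.one_left N).sub_left h).smul_left _

theorem comm_AN (h : Commute U N) : Commute (opA U) N := by
  unfold opA
  exact ((Commute.one_left N).add_left h).smul_left _

theorem pow_T (h : Commute U N) (hN : N * N = 0) (n : ℕ) :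
    opT U N ^ (n + 1) = (-1 : ℂ) ^ (n + 1) • (opA U ^ (n + 1) -
      ((n : ℂ) + 1) • (opA U ^ n * (opB U * N))) := by
  have hW : opB U * N * (opB U * N) = 0 := by
    calc opB U * N * (opB U * N) = opB U * (N * opB U) * N := by noncomm_ring
      _ = opB U * (opB U * N) * N := by rw [(comm_BN h).eq]
      _ = opB U * opB U * (N * N) := by noncomm_ring
      _ = 0 := by rw [hN, mul_zero]
  have hAW : opB U * N * opA U = opA U * (opB U * N) := by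
    rw [mul_assoc, ← (comm_AN h).eq, ← mul_assoc, ← (comm_AB U).eq, mul_assoc]
  induction n with
  | zero => simp [opT, sub_eq_add_neg]
  | succ n ih =>
    rw [pow_succ, ih, opT]
    set A := opA U
    set W := opB U * N
    rw [smul_mul_assoc, pow_succ (-1 : ℂ) (n + 1), mul_smul]
    congr 1
    rw [neg_one_smul, neg_sub, sub_mul, mul_add, mul_add, smul_mul_assoc, smul_mul_assoc,
      mul_assoc (A ^ n) W W, hW, mul_zero, smul_zero, add_zero, mul_neg, mul_neg,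
      mul_assoc (A ^ n) W A, hAW, ← mul_assoc (A ^ n), ← pow_succ, ← pow_succ]
    push_cast
    rw [show ((n : ℂ) + 1 + 1) = ((n : ℂ) + 1) + 1 by ring, add_smul ((n : ℂ) + 1), one_smul,
      smul_neg]
    abel

theorem norm_T_le (hU : ∀ x, ‖U x‖ = ‖x‖) (h : Commute U N) (hN : N * N = 0) (n : ℕ) (x : H) :
    ‖(opT U N ^ (n + 1)) x‖ ≤
      ‖x‖ + ((n : ℝ) + 1) * ((Real.sqrt ((n : ℝ) + 1))⁻¹ * (‖N‖ * ‖x‖)) := by
  rw [pow_T h hN]
  have e : ((-1 : ℂ) ^ (n + 1) • (opA U ^ (n + 1) -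
      ((n : ℂ) + 1) • (opA U ^ n * (opB U * N)))) x =
      (-1 : ℂ) ^ (n + 1) • ((opA U ^ (n + 1)) x - ((n : ℂ) + 1) • (opA U ^ n) (opB U (N x))) := rfl
  rw [e, norm_smul, norm_pow, norm_neg, norm_one, one_pow, one_mul]
  refine (norm_sub_le _ _).trans (add_le_add (pow_A_le U hU _ _) ?_)
  rw [norm_smul]
  have e2 : ‖((n : ℂ) + 1)‖ = (n : ℝ) + 1 := by
    have : ((n : ℂ) + 1) = (((n + 1 : ℕ)) : ℂ) := by push_cast; ring
    rw [this, Complex.norm_natCast]; push_cast; ring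
  rw [e2]
  refine mul_le_mul_of_nonneg_left ((ABn_le U hU _ _).trans ?_) (by positivity)
  exact mul_le_mul_of_nonneg_left (N.le_opNorm x) (by positivity)

/-- `1 - T` is bounded below. -/
theorem below (hU : ∀ x, ‖U x‖ = ‖x‖) (h : Commute U N) (hN : N * N = 0) (x : H) :
    ‖x‖ ≤ (1 + ‖N‖) * ‖x - opT U N x‖ := by
  have h1 : ∀ y : H, ‖y‖ ≤ ‖y + opA U y‖ := by
    intro y
    have e : y + opA U y = (2⁻¹ : ℂ) • ((3 : ℂ) • y + U y) := by
      rw [opA_apply, smul_add, smul_add, smul_smul, ← add_assoc]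
      congr 1
      nth_rw 1 [← one_smul ℂ y]
      rw [← add_smul]
      norm_num
    have e1 : ‖(3 : ℂ) • y‖ - ‖U y‖ ≤ ‖(3 : ℂ) • y + U y‖ := by
      have := norm_sub_norm_le ((3 : ℂ) • y) (-U y)
      rwa [norm_neg, sub_neg_eq_add] at this
    rw [norm_smul, hU] at e1
    have e3 : ‖(3 : ℂ)‖ = 3 := by simp
    rw [e3] at e1
    rw [e, norm_smul]
    have e2 : ‖(2⁻¹ : ℂ)‖ = 2⁻¹ := by simp
    rw [e2]
    linarith
  have hNN : ∀ y, N (N y) = 0 := fun y => congrArg (fun S : H →L[ℂ] H => S y) hN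
  have hBN : ∀ y, N (opB U y) = opB U (N y) := fun y =>
    (congrArg (fun S : H →L[ℂ] H => S y) (comm_BN h).eq).symm
  have hAN : ∀ y, N (opA U y) = opA U (N y) := fun y =>
    (congrArg (fun S : H →L[ℂ] H => S y) (comm_AN h).eq).symm
  have eT : x - opT U N x = x + opA U x - opB U (N x) := by
    show x - (-opA U x + opB U (N x)) = _
    abel
  have h2 : N (x - opT U N x) = N x + opA U (N x) := by
    rw [eT, map_sub, map_add, hAN, hBN, hNN, map_zero, sub_zero]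
  have h3 : ‖N x‖ ≤ ‖N‖ * ‖x - opT U N x‖ := by
    calc ‖N x‖ ≤ ‖N x + opA U (N x)‖ := h1 _
      _ = ‖N (x - opT U N x)‖ := by rw [h2]
      _ ≤ _ := N.le_opNorm _
  have h4 : x + opA U x = (x - opT U N x) + opB U (N x) := by rw [eT]; abel
  calc ‖x‖ ≤ ‖x + opA U x‖ := h1 x
    _ ≤ ‖x - opT U N x‖ + ‖opB U (N x)‖ := by rw [h4]; exact norm_add_le _ _
    _ ≤ ‖x - opT U N x‖ + ‖N x‖ := by gcongr; exact opB_le U hU _
    _ ≤ ‖x - opT U N x‖ + ‖N‖ * ‖x - opT U N x‖ := by gcongr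
    _ = _ := by ring

theorem telescope (T : H →L[ℂ] H) (n : ℕ) (x : H) :
    (∑ k ∈ Finset.range n, (T ^ k) x) - T (∑ k ∈ Finset.range n, (T ^ k) x) = x - (T ^ n) x := by
  induction n with
  | zero => simp
  | succ n ih =>
    rw [Finset.sum_range_succ, map_add]
    have e : T ((T ^ n) x) = (T ^ (n + 1)) x := by rw [pow_succ']; rfl
    rw [e, add_sub_add_comm, ih]
    abel

theorem mean_tendsto (hU : ∀ x, ‖U x‖ = ‖x‖) (h : Commute U N) (hN : N * N = 0) (x : H) :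
    Tendsto (fun n : ℕ => (n : ℂ)⁻¹ • ∑ k ∈ Finset.range n, (opT U N ^ k) x) atTop (𝓝 0) := by
  rw [← tendsto_add_atTop_iff_nat 1]
  have hb : ∀ n : ℕ, ‖((n + 1 : ℕ) : ℂ)⁻¹ • ∑ k ∈ Finset.range (n + 1), (opT U N ^ k) x‖ ≤
      (1 + ‖N‖) * (((n : ℝ) + 1)⁻¹ * (2 * ‖x‖) + (Real.sqrt ((n : ℝ) + 1))⁻¹ * (‖N‖ * ‖x‖)) := by
    intro n
    have hn : (0 : ℝ) < (n : ℝ) + 1 := by positivity
    rw [norm_smul, norm_inv, Complex.norm_natCast]
    have h1 := below hU h hN (∑ k ∈ Finset.range (n + 1), (opT U N ^ k) x)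
    rw [telescope] at h1
    have h2 : ‖x - (opT U N ^ (n + 1)) x‖ ≤
        2 * ‖x‖ + ((n : ℝ) + 1) * ((Real.sqrt ((n : ℝ) + 1))⁻¹ * (‖N‖ * ‖x‖)) := by
      refine (norm_sub_le _ _).trans ?_
      have := norm_T_le hU h hN n x
      linarith
    rw [Nat.cast_succ]
    calc ((n : ℝ) + 1)⁻¹ * ‖∑ k ∈ Finset.range (n + 1), (opT U N ^ k) x‖
        ≤ ((n : ℝ) + 1)⁻¹ * ((1 + ‖N‖) *
          (2 * ‖x‖ + ((n : ℝ) + 1) * ((Real.sqrt ((n : ℝ) + 1))⁻¹ * (‖N‖ * ‖x‖)))) := by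
          refine mul_le_mul_of_nonneg_left (h1.trans ?_) (by positivity)
          exact mul_le_mul_of_nonneg_left h2 (by positivity)
      _ = _ := by
          have := hn.ne'
          field_simp
  refine squeeze_zero_norm hb ?_
  have t1 : Tendsto (fun n : ℕ => ((n : ℝ) + 1)⁻¹) atTop (𝓝 0) :=
    (tendsto_atTop_add_const_right _ _ tendsto_natCast_atTop_atTop).inv_tendsto_atTop
  have := ((t1.mul_const (2 * ‖x‖)).add (tendsto_sqrt.mul_const (‖N‖ * ‖x‖))).const_mul (1 + ‖N‖)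
  simpa using this

/-- the sum of `1 / (k+1)^2` over `n ≤ k < m` is at most `1 / n` -/
theorem tail_le (n : ℕ) (hn : 0 < n) (m : ℕ) (hm : n ≤ m) :
    ∑ k ∈ Finset.Ico n m, (((k : ℝ) + 1) ^ 2)⁻¹ ≤ (n : ℝ)⁻¹ - (m : ℝ)⁻¹ := by
  induction m, hm using Nat.le_induction with
  | base => simp
  | succ m hm ih =>
    rw [Finset.sum_Ico_succ_top hm]
    have hm0 : (0 : ℝ) < m := by exact_mod_cast lt_of_lt_of_le hn hm
    have : (((m : ℝ) + 1) ^ 2)⁻¹ ≤ (m : ℝ)⁻¹ - ((m + 1 : ℕ) : ℝ)⁻¹ := by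
      push_cast
      rw [inv_sub_inv hm0.ne' (by positivity), inv_eq_one_div, div_le_div_iff₀ (by positivity)
        (by positivity)]
      nlinarith
    linarith

theorem not_bounded (hU : ∀ x, ‖U x‖ = ‖x‖) (h : Commute U N) (hN : N * N = 0)
    (hx : ∀ ε : ℝ, 0 < ε → ∃ x v : H, x = v - U v ∧ ‖x‖ ≤ ‖N x‖ ∧ ‖x - U x‖ ≤ ε * ‖N x‖ ∧ N x ≠ 0)
    (M : ℝ) : ∃ n : ℕ, M < ‖opT U N ^ n‖ := by
  by_contra hcon
  push Not at hcon
  have hM0 : 0 ≤ M := (norm_nonneg _).trans (hcon 0)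
  have hAN : ∀ (n : ℕ) (y : H), (opA U ^ n) (N y) = N ((opA U ^ n) y) := fun n y =>
    (congrArg (fun S : H →L[ℂ] H => S y) ((comm_AN h).pow_left n).eq)
  have hBN : ∀ y, opB U (N y) = N (opB U y) := fun y =>
    (congrArg (fun S : H →L[ℂ] H => S y) (comm_BN h).eq)
  set C := M + 1 with hC
  have hC0 : 0 < C := by positivity
  -- the bound for the nilpotent part
  have h1 : ∀ (n : ℕ) (y : H), ‖(opA U ^ n) (opB U (N y))‖ ≤ C * ((n : ℝ) + 1)⁻¹ * ‖y‖ := by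
    intro n y
    have hn : (0 : ℝ) < (n : ℝ) + 1 := by positivity
    have e1 : ‖(opT U N ^ (n + 1)) y‖ ≤ M * ‖y‖ :=
      (ContinuousLinearMap.le_opNorm _ _).trans (mul_le_mul_of_nonneg_right (hcon _) (norm_nonneg _))
    rw [pow_T h hN] at e1
    have e : ((-1 : ℂ) ^ (n + 1) • (opA U ^ (n + 1) -
      ((n : ℂ) + 1) • (opA U ^ n * (opB U * N)))) y =
      (-1 : ℂ) ^ (n + 1) • ((opA U ^ (n + 1)) y - ((n : ℂ) + 1) • (opA U ^ n) (opB U (N y))) := rfl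
    rw [e, norm_smul, norm_pow, norm_neg, norm_one, one_pow, one_mul] at e1
    have e2 : ‖((n : ℂ) + 1)‖ = (n : ℝ) + 1 := by
      have : ((n : ℂ) + 1) = (((n + 1 : ℕ)) : ℂ) := by push_cast; ring
      rw [this, Complex.norm_natCast]; push_cast; ring
    have e3 : ((n : ℝ) + 1) * ‖(opA U ^ n) (opB U (N y))‖ ≤ C * ‖y‖ := by
      rw [← e2, ← norm_smul]
      have e4 := norm_sub_norm_le (((n : ℂ) + 1) • (opA U ^ n) (opB U (N y)))
        ((opA U ^ (n + 1)) y)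
      rw [norm_sub_rev] at e4
      have e5 := pow_A_le U hU (n + 1) y
      rw [hC]
      linarith
    rw [mul_assoc, mul_comm, mul_assoc, inv_mul_eq_div, le_div_iff₀ hn]
    linarith
  -- sum
  have h2 : ∀ (y : H) (n m : ℕ), 0 < n → n ≤ m →
      ‖(opA U ^ n) (N y)‖ ^ 2 ≤ ‖(opA U ^ m) (N y)‖ ^ 2 + C ^ 2 * ‖y‖ ^ 2 * (n : ℝ)⁻¹ := by
    intro y n m hn hm
    have e1 : ‖(opA U ^ n) (N y)‖ ^ 2 - ‖(opA U ^ m) (N y)‖ ^ 2 =
        ∑ k ∈ Finset.Ico n m, ‖(opA U ^ k) (opB U (N y))‖ ^ 2 := by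
      induction m, hm using Nat.le_induction with
      | base => simp
      | succ m hm ih =>
        rw [Finset.sum_Ico_succ_top hm, ← ih, sq_ABn U hU]
        ring
    have e2 : ∑ k ∈ Finset.Ico n m, ‖(opA U ^ k) (opB U (N y))‖ ^ 2 ≤
        ∑ k ∈ Finset.Ico n m, C ^ 2 * ‖y‖ ^ 2 * (((k : ℝ) + 1) ^ 2)⁻¹ := by
      refine Finset.sum_le_sum fun k _ => ?_
      have := pow_le_pow_left₀ (norm_nonneg _) (h1 k y) 2
      refine this.trans (le_of_eq ?_)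
      rw [mul_pow, mul_pow, inv_pow]
      ring
    rw [← Finset.mul_sum] at e2
    have e3 := mul_le_mul_of_nonneg_left (tail_le n hn m hm)
      (show 0 ≤ C ^ 2 * ‖y‖ ^ 2 by positivity)
    have e4 : 0 ≤ C ^ 2 * ‖y‖ ^ 2 * (m : ℝ)⁻¹ := by positivity
    nlinarith
  -- let m go to infinity
  have h3 : ∀ (v : H) (n : ℕ), 0 < n →
      ‖(opA U ^ n) (N (v - U v))‖ ^ 2 ≤ C ^ 2 * ‖v - U v‖ ^ 2 * (n : ℝ)⁻¹ := by
    intro v n hn
    have e1 : Tendsto (fun m : ℕ => ‖(opA U ^ m) (N (v - U v))‖ ^ 2 +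
        C ^ 2 * ‖v - U v‖ ^ 2 * (n : ℝ)⁻¹) atTop (𝓝 (0 ^ 2 + C ^ 2 * ‖v - U v‖ ^ 2 * (n : ℝ)⁻¹)) := by
      refine Tendsto.add_const _ (Tendsto.pow ?_ 2)
      have e2 : ∀ m : ℕ, ‖(opA U ^ m) (N (v - U v))‖ ≤
          (Real.sqrt ((m : ℝ) + 1))⁻¹ * (2 * ‖N v‖) := by
        intro m
        have e3 : N (v - U v) = (2 : ℂ) • opB U (N v) := by
          rw [hBN, ← map_smul, opB_apply, smul_smul]
          norm_num
        rw [e3, map_smul, norm_smul]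
        have e4 : ‖(2 : ℂ)‖ = 2 := by simp
        rw [e4]
        have := ABn_le U hU m (N v)
        linarith
      refine squeeze_zero (fun _ => norm_nonneg _) e2 ?_
      simpa using tendsto_sqrt.mul_const (2 * ‖N v‖)
    have e5 := ge_of_tendsto e1 (eventually_atTop.2 ⟨n, fun m hm => h2 (v - U v) n m hn hm⟩)
    simpa using e5
  -- choose n
  obtain ⟨n, hn⟩ := exists_nat_gt (4 * C ^ 2)
  have hn0 : (0 : ℝ) < n := lt_of_le_of_lt (by positivity) hn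
  have hn0' : 0 < n := by exact_mod_cast hn0
  obtain ⟨x, v, hxv, hx1, hx2, hx3⟩ := hx (((n : ℝ) * (‖N‖ + 1))⁻¹) (by positivity)
  have h4 : ‖(opA U ^ n) (N x)‖ ≤ 2⁻¹ * ‖N x‖ := by
    have e1 := h3 v n hn0'
    rw [← hxv] at e1
    have e2 : C ^ 2 * ‖x‖ ^ 2 * (n : ℝ)⁻¹ ≤ (2⁻¹ * ‖N x‖) ^ 2 := by
      rw [mul_inv_le_iff₀ hn0]
      have e3 : ‖x‖ ^ 2 ≤ ‖N x‖ ^ 2 := pow_le_pow_left₀ (norm_nonneg _) hx1 2
      have e4 : C ^ 2 * ‖x‖ ^ 2 ≤ C ^ 2 * ‖N x‖ ^ 2 := mul_le_mul_of_nonneg_left e3 (by positivity)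
      nlinarith [sq_nonneg ‖N x‖]
    exact (sq_le_sq₀ (norm_nonneg _) (by positivity)).1 (e1.trans e2)
  have h5 : ∀ (k : ℕ) (y : H), ‖y - (opA U ^ k) y‖ ≤ k * ‖opB U y‖ := by
    intro k y
    induction k with
    | zero => simp
    | succ k ih =>
      have e1 : y - opA U y = opB U y := by
        rw [opA_apply, opB_apply, ← sub_eq_zero]
        have : y = (2⁻¹ : ℂ) • (y + y) := by rw [← two_smul ℂ y, smul_smul]; norm_num
        nth_rw 1 [this]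
        rw [← smul_sub, ← smul_sub]
        convert smul_zero (2⁻¹ : ℂ) using 2
        abel
      have e2 : y - (opA U ^ (k + 1)) y = (y - (opA U ^ k) y) + (opA U ^ k) (y - opA U y) := by
        rw [map_sub, pow_succ]
        show _ = y - (opA U ^ k) y + ((opA U ^ k) y - (opA U ^ k * opA U) y)
        abel
      rw [e2, e1]
      refine (norm_add_le _ _).trans ?_
      have := pow_A_le U hU k (opB U y)
      rw [Nat.cast_succ]
      linarith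
  have h6 := h5 n (N x)
  rw [hBN] at h6
  have h7 : ‖N (opB U x)‖ ≤ ‖N‖ * (2⁻¹ * ‖x - U x‖) := by
    refine (N.le_opNorm _).trans ?_
    rw [opB_apply, norm_smul]
    simp
  have h8 : ‖N x‖ ≤ ‖N x - (opA U ^ n) (N x)‖ + ‖(opA U ^ n) (N x)‖ := by
    have := norm_add_le (N x - (opA U ^ n) (N x)) ((opA U ^ n) (N x))
    rwa [sub_add_cancel] at this
  have h9 : 0 < ‖N x‖ := norm_pos_iff.2 hx3
  have h10 : (n : ℝ) * (‖N‖ * (2⁻¹ * ‖x - U x‖)) < 2⁻¹ * ‖N x‖ := by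
    have e1 : (n : ℝ) * (‖N‖ * (2⁻¹ * ‖x - U x‖)) ≤
        (n : ℝ) * (‖N‖ * (2⁻¹ * ((((n : ℝ) * (‖N‖ + 1))⁻¹) * ‖N x‖))) := by
      gcongr
    refine lt_of_le_of_lt e1 ?_
    have e2 : (n : ℝ) * (‖N‖ * (2⁻¹ * ((((n : ℝ) * (‖N‖ + 1))⁻¹) * ‖N x‖))) =
        (‖N‖ / (‖N‖ + 1)) * (2⁻¹ * ‖N x‖) := by
      have : (‖N‖ + 1) ≠ 0 := by positivity
      field_simp
    rw [e2]
    have e3 : ‖N‖ / (‖N‖ + 1) < 1 := by
      rw [div_lt_one (by positivity)]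
      linarith
    nlinarith
  have h11 : (n : ℝ) * ‖N (opB U x)‖ ≤ n * (‖N‖ * (2⁻¹ * ‖x - U x‖)) :=
    mul_le_mul_of_nonneg_left h7 hn0.le
  linarith

end Pool.Agent.R289.Erg
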