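import Mathlib

/-!
Kronecker's theorem for two independent points of the unit circle (by Weyl sums; the proof follows
`Pool.Agent.R612.CO.Kro`).
-/

set_option autoImplicit false

namespace Pool.Agent.R289.Kron2

open MeasureTheory Set Filter Topology

noncomputable section

/-- averages over `0, …, n - 1` -/
def av (n : ℕ) (f : ℕ → ℂ) : ℂ := (n : ℂ)⁻¹ * ∑ k ∈ Finset.range n, f k

lemma av_const (c : ℂ) : Tendsto (fun n : ℕ => av n (fun _ => c)) atTop (𝓝 c) := by
  refine tendsto_const_nhds.congr' ?_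
  filter_upwards [eventually_gt_atTop 0] with n hn
  have : (n : ℂ) ≠ 0 := by exact_mod_cast hn.ne'
  unfold av
  rw [Finset.sum_const, Finset.card_range, nsmul_eq_mul]
  field_simp

lemma av_bound {f : ℕ → ℂ} {B : ℝ} {n : ℕ} (hn : 0 < n) (h : ∀ t, ‖f t‖ ≤ B) : ‖av n f‖ ≤ B := by
  unfold av
  have hB : 0 ≤ B := (norm_nonneg _).trans (h 0)
  have h1 : ‖∑ k ∈ Finset.range n, f k‖ ≤ n * B := by
    refine (norm_sum_le _ _).trans ?_
    refine (Finset.sum_le_sum fun k _ => h k).trans ?_
    simp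
  rw [norm_mul, norm_inv, Complex.norm_natCast]
  have : (0 : ℝ) < n := by exact_mod_cast hn
  rw [inv_mul_le_iff₀ this]
  exact h1

lemma av_sub {f g : ℕ → ℂ} (n : ℕ) : av n f - av n g = av n (fun t => f t - g t) := by
  unfold av
  rw [Finset.sum_sub_distrib]
  ring

lemma av_geom {w : ℂ} (hw : w ≠ 1) (hw1 : ‖w‖ = 1) :
    Tendsto (fun n : ℕ => av n (fun k => w ^ k)) atTop (𝓝 0) := by
  have hne : w - 1 ≠ 0 := sub_ne_zero.2 hw
  rw [tendsto_zero_iff_norm_tendsto_zero]
  have hlim : Tendsto (fun n : ℕ => ((n : ℝ))⁻¹ * (2 / ‖w - 1‖)) atTop (𝓝 0) := by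
    have := (tendsto_inv_atTop_nhds_zero_nat (𝕜 := ℝ)).mul_const (2 / ‖w - 1‖)
    rwa [zero_mul] at this
  refine squeeze_zero (fun n => norm_nonneg _) (fun n => ?_) hlim
  unfold av
  rw [geom_sum_eq hw, norm_mul, norm_inv, Complex.norm_natCast, norm_div]
  have : ‖w ^ n - 1‖ ≤ 2 := by
    refine (norm_sub_le _ _).trans ?_
    rw [norm_pow, hw1, one_pow, norm_one]
    norm_num
  gcongr

variable {ι : Type} [Fintype ι]

/-- Haar measure of the torus -/
def haarT (ι : Type) [Fintype ι] : Measure (UnitAddTorus ι) :=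
  Measure.pi fun _ : ι => (AddCircle.haarAddCircle : Measure UnitAddCircle)

instance : IsProbabilityMeasure (haarT ι) := by unfold haarT; infer_instance

instance : Measure.IsOpenPosMeasure (haarT ι) := by unfold haarT; infer_instance

/-- the orbit -/
def orb (ω : ι → ℝ) (k : ℕ) : UnitAddTorus ι := fun i => ((k * ω i : ℝ) : UnitAddCircle)

lemma integral_fourier {n : ℤ} (hn : n ≠ 0) :
    ∫ x : UnitAddCircle, (fourier n x : ℂ) ∂AddCircle.haarAddCircle = 0 := by
  have h := orthonormal_iff_ite.1 (orthonormal_fourier (T := (1:ℝ))) 0 n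
  rw [if_neg (Ne.symm hn)] at h
  rw [ContinuousMap.inner_toLp] at h
  simpa using h

lemma mF_orb (ω : ι → ℝ) (n : ι → ℤ) (k : ℕ) : UnitAddTorus.mFourier n (orb ω k) =
    Complex.exp (((2 * Real.pi * ∑ i, (n i : ℝ) * ω i : ℝ) : ℂ) * Complex.I) ^ k := by
  have h1 : ∀ i, fourier (n i) (orb ω k i) =
      Complex.exp (2 * Real.pi * Complex.I * n i * (k * ω i) / 1) := by
    intro i
    unfold orb
    rw [fourier_coe_apply]
    push_cast
    ring_nf
  unfold UnitAddTorus.mFourier
  rw [ContinuousMap.coe_mk, Finset.prod_congr rfl (fun i _ => h1 i), ← Complex.exp_sum,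
    ← Complex.exp_nat_mul]
  congr 1
  push_cast
  rw [Finset.mul_sum, Finset.sum_mul, Finset.mul_sum]
  refine Finset.sum_congr rfl fun i _ => ?_
  ring

theorem weyl {ω : ι → ℝ} (hω : ∀ n : ι → ℤ, ∀ m : ℤ, ∑ i, (n i : ℝ) * ω i = m → n = 0)
    (Φ : C(UnitAddTorus ι, ℂ)) :
    Tendsto (fun n : ℕ => av n (fun t => Φ (orb ω t))) atTop (𝓝 (∫ x, Φ x ∂(haarT ι))) := by
  have hmono : ∀ n : ι → ℤ, Tendsto (fun N : ℕ => av N (fun t =>
      UnitAddTorus.mFourier n (orb ω t))) atTop
      (𝓝 (∫ x, UnitAddTorus.mFourier n x ∂(haarT ι))) := by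
    intro n
    by_cases hn : n = 0
    · subst hn
      simp only [UnitAddTorus.mFourier_zero, ContinuousMap.one_apply]
      rw [integral_const, probReal_univ, one_smul]
      exact av_const 1
    · have hint : ∫ x, UnitAddTorus.mFourier n x ∂(haarT ι) = 0 := by
        unfold haarT UnitAddTorus.mFourier
        rw [ContinuousMap.coe_mk]
        have hp := integral_fintype_prod_eq_prod (𝕜 := ℂ) (ι := ι) (E := fun _ => UnitAddCircle)
          (f := fun i x => (fourier (n i) x : ℂ)) (μ := fun _ => AddCircle.haarAddCircle)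
        rw [hp]
        obtain ⟨i, hi⟩ := Function.ne_iff.mp hn
        exact Finset.prod_eq_zero (Finset.mem_univ i) (integral_fourier hi)
      rw [hint]
      simp only [mF_orb]
      refine av_geom ?_ ?_
      · intro h
        rw [Complex.exp_eq_one_iff] at h
        obtain ⟨m, hm⟩ := h
        refine hn (hω n m ?_)
        have h2 : ((2 * Real.pi * ∑ i, (n i : ℝ) * ω i : ℝ) : ℂ) =
            ((m * (2 * Real.pi) : ℝ) : ℂ) := by
          have h3 : ((2 * Real.pi * ∑ i, (n i : ℝ) * ω i : ℝ) : ℂ) * Complex.I =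
              ((m * (2 * Real.pi) : ℝ) : ℂ) * Complex.I := by
            rw [hm]
            push_cast
            ring
          exact mul_right_cancel₀ Complex.I_ne_zero h3
        have h4 : 2 * Real.pi * ∑ i, (n i : ℝ) * ω i = m * (2 * Real.pi) := by exact_mod_cast h2
        have h5 : (0 : ℝ) < 2 * Real.pi := by positivity
        have h6 : 2 * Real.pi * (∑ i, (n i : ℝ) * ω i - m) = 0 := by linarith
        rcases mul_eq_zero.1 h6 with h7 | h7
        · exact absurd h7 h5.ne'
        · linarith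
      · rw [Complex.norm_exp_ofReal_mul_I]
  let S : Submodule ℂ C(UnitAddTorus ι, ℂ) :=
    { carrier := {Φ | Tendsto (fun T : ℕ => av T (fun t => Φ (orb ω t))) atTop
        (𝓝 (∫ x, Φ x ∂(haarT ι)))}
      add_mem' := by
        intro f g hf hg
        have h1 : ∀ T : ℕ, av T (fun t => (f + g) (orb ω t)) = av T (fun t => f (orb ω t)) +
            av T (fun t => g (orb ω t)) := by
          intro T
          unfold av
          simp only [ContinuousMap.add_apply]
          rw [Finset.sum_add_distrib]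
          ring
        have h2 : ∫ x, (f + g) x ∂(haarT ι) = ∫ x, f x ∂(haarT ι) + ∫ x, g x ∂(haarT ι) := by
          simp only [ContinuousMap.add_apply]
          exact integral_add (f.continuous.integrable_of_hasCompactSupport
            (HasCompactSupport.of_compactSpace _))
            (g.continuous.integrable_of_hasCompactSupport (HasCompactSupport.of_compactSpace _))
        change Tendsto _ _ _
        rw [h2]
        simp only [h1]
        exact Tendsto.add hf hg
      zero_mem' := by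
        change Tendsto _ _ _
        simp only [ContinuousMap.zero_apply, integral_zero]
        exact av_const 0
      smul_mem' := by
        intro c f hf
        change Tendsto _ _ _
        have h1 : ∀ T : ℕ, av T (fun t => (c • f) (orb ω t)) = c * av T (fun t => f (orb ω t)) := by
          intro T
          unfold av
          simp only [ContinuousMap.smul_apply, smul_eq_mul]
          rw [← Finset.mul_sum]
          ring
        have h2 : ∫ x, (c • f) x ∂(haarT ι) = c * ∫ x, f x ∂(haarT ι) := by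
          simp only [ContinuousMap.smul_apply, smul_eq_mul]
          exact integral_const_mul c _
        rw [h2]
        simp only [h1]
        exact Tendsto.const_mul c hf }
  have hcl : S.topologicalClosure ≤ S := by
    intro Φ hΦ
    change Tendsto _ _ _
    rw [Metric.tendsto_nhds]
    intro ε hε
    have hΦ' : Φ ∈ closure (S : Set C(UnitAddTorus ι, ℂ)) := hΦ
    rw [Metric.mem_closure_iff] at hΦ'
    obtain ⟨Ψ, hΨ, hd⟩ := hΦ' (ε / 3) (by positivity)
    have hΨ' : Tendsto (fun T : ℕ => av T (fun t => Ψ (orb ω t))) atTop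
      (𝓝 (∫ x, Ψ x ∂(haarT ι))) := hΨ
    rw [Metric.tendsto_nhds] at hΨ'
    filter_upwards [hΨ' (ε / 3) (by positivity), eventually_gt_atTop 0] with T h1 hT
    have hpt : ∀ x, ‖Φ x - Ψ x‖ ≤ ε / 3 := fun x => by
      rw [← dist_eq_norm]
      exact (ContinuousMap.dist_apply_le_dist x).trans hd.le
    have h2 : ‖av T (fun t => Φ (orb ω t)) - av T (fun t => Ψ (orb ω t))‖ ≤ ε / 3 := by
      rw [av_sub T]
      exact av_bound hT fun t => hpt _
    have h3 : ‖∫ x, Φ x ∂(haarT ι) - ∫ x, Ψ x ∂(haarT ι)‖ ≤ ε / 3 := by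
      rw [← integral_sub (Φ.continuous.integrable_of_hasCompactSupport
        (HasCompactSupport.of_compactSpace _))
        (Ψ.continuous.integrable_of_hasCompactSupport (HasCompactSupport.of_compactSpace _))]
      have := norm_integral_le_of_norm_le_const (μ := haarT ι) (Eventually.of_forall hpt)
      rwa [probReal_univ, mul_one] at this
    rw [dist_eq_norm] at h1 ⊢
    have e : av T (fun t => Φ (orb ω t)) - ∫ x, Φ x ∂(haarT ι) =
        (av T (fun t => Φ (orb ω t)) - av T (fun t => Ψ (orb ω t))) +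
        (av T (fun t => Ψ (orb ω t)) - ∫ x, Ψ x ∂(haarT ι)) -
        (∫ x, Φ x ∂(haarT ι) - ∫ x, Ψ x ∂(haarT ι)) := by ring
    rw [e]
    have h4 := norm_sub_le ((av T (fun t => Φ (orb ω t)) - av T (fun t => Ψ (orb ω t))) +
        (av T (fun t => Ψ (orb ω t)) - ∫ x, Ψ x ∂(haarT ι)))
        (∫ x, Φ x ∂(haarT ι) - ∫ x, Ψ x ∂(haarT ι))
    have h5 := norm_add_le (av T (fun t => Φ (orb ω t)) - av T (fun t => Ψ (orb ω t)))
        (av T (fun t => Ψ (orb ω t)) - ∫ x, Ψ x ∂(haarT ι))
    linarith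
  have hspan : Submodule.span ℂ (range (UnitAddTorus.mFourier (d := ι))) ≤ S := by
    rw [Submodule.span_le]
    rintro _ ⟨n, rfl⟩
    exact hmono n
  have htop : (⊤ : Submodule ℂ C(UnitAddTorus ι, ℂ)) ≤ S := by
    rw [← UnitAddTorus.span_mFourier_closure_eq_top]
    exact (Submodule.topologicalClosure_mono hspan).trans hcl
  exact htop (Submodule.mem_top (x := Φ))

/-- **Kronecker's theorem** -/
theorem kronecker {ω : ι → ℝ} (hω : ∀ n : ι → ℤ, ∀ m : ℤ, ∑ i, (n i : ℝ) * ω i = m → n = 0)
    {U : Set (UnitAddTorus ι)} (hU : IsOpen U) {x : UnitAddTorus ι} (hx : x ∈ U) :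
    ∃ k : ℕ, orb ω k ∈ U := by
  by_contra hno
  push Not at hno
  obtain ⟨f, hf0, hf1, hf⟩ := exists_continuous_zero_one_of_isClosed (s := Uᶜ) (t := {x})
    hU.isClosed_compl isClosed_singleton (Set.disjoint_singleton_right.2 fun h => h hx)
  have h1 := weyl hω ⟨fun y => ((f y : ℝ) : ℂ), Complex.continuous_ofReal.comp f.continuous⟩
  have h2 : ∀ n : ℕ, av n (fun t => ((f (orb ω t) : ℝ) : ℂ)) = 0 := by
    intro n
    unfold av
    rw [Finset.sum_eq_zero, mul_zero]
    intro k _
    have := hf0 (hno k)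
    rw [this]
    simp
  simp only [ContinuousMap.coe_mk, h2] at h1
  have h3 := tendsto_nhds_unique h1 tendsto_const_nhds
  rw [integral_complex_ofReal] at h3
  have h4 : ∫ y, f y ∂(haarT ι) = 0 := by exact_mod_cast h3
  have h5 : 0 < ∫ y, f y ∂(haarT ι) := by
    refine Continuous.integral_pos_of_hasCompactSupport_nonneg_nonzero f.continuous
      (HasCompactSupport.of_compactSpace _) (fun y => (hf y).1) (x := x) ?_
    have := hf1 (Set.mem_singleton x)
    rw [this]
    simp
  exact absurd h4 h5.ne'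


/-- two independent points of the circle have jointly dense powers -/
theorem exists_pow_near {σ τ : ℂ} (hσ : ‖σ‖ = 1) (hτ : ‖τ‖ = 1)
    (hind : ∀ m k : ℤ, σ ^ m * τ ^ k = 1 → m = 0 ∧ k = 0) {a b : ℂ} (ha : ‖a‖ = 1) (hb : ‖b‖ = 1)
    {ε : ℝ} (hε : 0 < ε) (N : ℕ) : ∃ n : ℕ, N ≤ n ∧ ‖σ ^ n - a‖ < ε ∧ ‖τ ^ n - b‖ < ε := by
  have key : ∀ a b : ℂ, ‖a‖ = 1 → ‖b‖ = 1 → ∃ n : ℕ, ‖σ ^ n - a‖ < ε ∧ ‖τ ^ n - b‖ < ε := by
    intro a b ha hb
    have hpi : (0 : ℝ) < 2 * Real.pi := by positivity
    have hpi' : (2 * (Real.pi : ℂ)) ≠ 0 := by exact_mod_cast hpi.ne'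
    -- angles
    let an : ℂ → ℝ := fun z => z.arg / (2 * Real.pi)
    have han : ∀ z : ℂ, ‖z‖ = 1 → Complex.exp (2 * Real.pi * Complex.I * (an z : ℝ)) = z := by
      intro z hz
      have h1 : (2 * Real.pi * Complex.I * ((an z : ℝ) : ℂ)) = z.arg * Complex.I := by
        simp only [an]
        push_cast
        field_simp
      rw [h1]
      have h2 := Complex.norm_mul_exp_arg_mul_I z
      rw [hz, Complex.ofReal_one, one_mul] at h2
      exact h2
    have hcirc : ∀ (t : ℝ), ((AddCircle.toCircle (t : UnitAddCircle) : Circle) : ℂ) =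
        Complex.exp (2 * Real.pi * Complex.I * (t : ℝ)) := by
      intro t
      rw [AddCircle.toCircle_apply_mk, Circle.coe_exp]
      congr 1
      push_cast
      ring
    let ω : Fin 2 → ℝ := ![an σ, an τ]
    have hω : ∀ n : Fin 2 → ℤ, ∀ m : ℤ, ∑ i, (n i : ℝ) * ω i = m → n = 0 := by
      intro n m h
      rw [Fin.sum_univ_two] at h
      have h1 : σ ^ (n 0) * τ ^ (n 1) = 1 := by
        rw [← han σ hσ, ← han τ hτ, ← Complex.exp_int_mul, ← Complex.exp_int_mul,
          ← Complex.exp_add]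
        have h2 : (n 0 : ℂ) * (2 * Real.pi * Complex.I * (an σ : ℝ)) +
            (n 1 : ℂ) * (2 * Real.pi * Complex.I * (an τ : ℝ)) =
            (m : ℂ) * (2 * Real.pi * Complex.I) := by
          have h3 : ((n 0 : ℝ) * an σ + (n 1 : ℝ) * an τ : ℝ) = (m : ℝ) := h
          have h4 : ((n 0 : ℂ) * (an σ : ℝ) + (n 1 : ℂ) * (an τ : ℝ)) = (m : ℂ) := by
            exact_mod_cast h3
          rw [← h4]
          ring
        rw [h2]
        exact Complex.exp_int_mul_two_pi_mul_I m
      obtain ⟨h5, h6⟩ := hind _ _ h1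
      funext i
      fin_cases i
      · exact h5
      · exact h6
    let U : Set (UnitAddTorus (Fin 2)) :=
      {y | ‖((AddCircle.toCircle (y 0) : Circle) : ℂ) - a‖ < ε ∧
        ‖((AddCircle.toCircle (y 1) : Circle) : ℂ) - b‖ < ε}
    have hcont : ∀ i : Fin 2, Continuous fun y : UnitAddTorus (Fin 2) =>
        ((AddCircle.toCircle (y i) : Circle) : ℂ) := by
      intro i
      exact continuous_subtype_val.comp (AddCircle.continuous_toCircle.comp (continuous_apply i))
    have hU : IsOpen U := by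
      refine IsOpen.inter ?_ ?_
      · exact isOpen_lt ((hcont 0).sub continuous_const).norm continuous_const
      · exact isOpen_lt ((hcont 1).sub continuous_const).norm continuous_const
    have hx : (fun i => (((![an a, an b] : Fin 2 → ℝ) i : ℝ) : UnitAddCircle)) ∈ U := by
      constructor
      · show ‖((AddCircle.toCircle ((an a : ℝ) : UnitAddCircle) : Circle) : ℂ) - a‖ < ε
        rw [hcirc, han a ha, sub_self, norm_zero]
        exact hε
      · show ‖((AddCircle.toCircle ((an b : ℝ) : UnitAddCircle) : Circle) : ℂ) - b‖ < ε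
        rw [hcirc, han b hb, sub_self, norm_zero]
        exact hε
    obtain ⟨k, hk1, hk2⟩ := kronecker hω hU hx
    refine ⟨k, ?_, ?_⟩
    · have h1 : ((AddCircle.toCircle (orb ω k 0) : Circle) : ℂ) = σ ^ k := by
        show ((AddCircle.toCircle ((k * an σ : ℝ) : UnitAddCircle) : Circle) : ℂ) = σ ^ k
        rw [hcirc]
        conv_rhs => rw [← han σ hσ]
        rw [← Complex.exp_nat_mul]
        congr 1
        push_cast
        ring
      rw [h1] at hk1
      exact hk1
    · have h1 : ((AddCircle.toCircle (orb ω k 1) : Circle) : ℂ) = τ ^ k := by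
        show ((AddCircle.toCircle ((k * an τ : ℝ) : UnitAddCircle) : Circle) : ℂ) = τ ^ k
        rw [hcirc]
        conv_rhs => rw [← han τ hτ]
        rw [← Complex.exp_nat_mul]
        congr 1
        push_cast
        ring
      rw [h1] at hk2
      exact hk2
  have hσ0 : σ ≠ 0 := by
    intro h
    rw [h, norm_zero] at hσ
    norm_num at hσ
  have hτ0 : τ ≠ 0 := by
    intro h
    rw [h, norm_zero] at hτ
    norm_num at hτ
  obtain ⟨k, hk1, hk2⟩ := key (a * (σ ^ N)⁻¹) (b * (τ ^ N)⁻¹)
    (by rw [norm_mul, norm_inv, norm_pow, hσ, ha]; simp)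
    (by rw [norm_mul, norm_inv, norm_pow, hτ, hb]; simp)
  refine ⟨k + N, by omega, ?_, ?_⟩
  · have h1 : σ ^ (k + N) - a = (σ ^ k - a * (σ ^ N)⁻¹) * σ ^ N := by
      rw [sub_mul, pow_add, mul_assoc, inv_mul_cancel₀ (pow_ne_zero _ hσ0), mul_one]
    rw [h1, norm_mul, norm_pow, hσ, one_pow, mul_one]
    exact hk1
  · have h1 : τ ^ (k + N) - b = (τ ^ k - b * (τ ^ N)⁻¹) * τ ^ N := by
      rw [sub_mul, pow_add, mul_assoc, inv_mul_cancel₀ (pow_ne_zero _ hτ0), mul_one]
    rw [h1, norm_mul, norm_pow, hτ, one_pow, mul_one]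
    exact hk2

end

end Pool.Agent.R289.Kron2
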