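import Pool.Agent.R289.Conv

set_option autoImplicit false
set_option linter.unusedSectionVars false

/-!
# The convolution algebra `ℓ¹(G)` of a discrete group
-/

namespace Pool.Agent.R289.L1

open scoped ENNReal
open Filter Topology Pool.Agent.R289.Conv

universe u

variable {G : Type u} [Group G]

theorem hp1 : 0 < (1 : ℝ≥0∞).toReal := by simp

theorem summable_norm (ν : Ell G 1) : Summable (fun y => ‖ν y‖) := by
  have := (memℓp_gen_iff hp1).1 (lp.memℓp ν)
  simpa using this

theorem norm_eq (ν : Ell G 1) : ‖ν‖ = ∑' y, ‖ν y‖ := by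
  rw [lp.norm_eq_tsum_rpow hp1]
  simp

theorem memlp_of_summable (f : G → ℂ) (h : Summable fun y => ‖f y‖) : Memℓp f 1 := by
  rw [memℓp_gen_iff hp1]
  simpa using h

section
variable {E : Type*} [NormedAddCommGroup E] [NormedSpace ℂ E] [CompleteSpace E]

theorem summable_norm_smul (ν : Ell G 1) (F : G → E) (C : ℝ) (hF : ∀ y, ‖F y‖ ≤ C) :
    Summable (fun y => ‖ν y • F y‖) := by
  refine Summable.of_nonneg_of_le (fun _ => norm_nonneg _) (fun y => ?_)
    ((summable_norm ν).mul_right C)
  rw [norm_smul]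
  exact mul_le_mul_of_nonneg_left (hF y) (norm_nonneg _)

theorem summable_smul (ν : Ell G 1) (F : G → E) (C : ℝ) (hF : ∀ y, ‖F y‖ ≤ C) :
    Summable (fun y => ν y • F y) := (summable_norm_smul ν F C hF).of_norm

theorem norm_tsum_smul_le (ν : Ell G 1) (F : G → E) (C : ℝ) (hF : ∀ y, ‖F y‖ ≤ C) :
    ‖∑' y, ν y • F y‖ ≤ ‖ν‖ * C := by
  refine (norm_tsum_le_tsum_norm (summable_norm_smul ν F C hF)).trans ?_
  rw [norm_eq, ← tsum_mul_right]
  refine Summable.tsum_le_tsum (fun y => ?_) (summable_norm_smul ν F C hF)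
    ((summable_norm ν).mul_right C)
  rw [norm_smul]
  exact mul_le_mul_of_nonneg_left (hF y) (norm_nonneg _)

end

variable {p : ℝ≥0∞} [Fact (1 ≤ p)]

/-- evaluation at a point -/
noncomputable def evp (x : G) : Ell G p →L[ℂ] ℂ :=
  LinearMap.mkContinuous
    { toFun := fun f => f x
      map_add' := fun _ _ => rfl
      map_smul' := fun _ _ => rfl } 1 (fun f => by
      rw [one_mul]
      exact lp.norm_apply_le_norm (E := fun _ : G => ℂ) (p := p)
        (fun h => by
          have := (Fact.out : (1 : ℝ≥0∞) ≤ p)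
          rw [h] at this
          simp at this) f x)

theorem evp_apply (x : G) (f : Ell G p) : evp x f = f x := rfl

/-- convolution with `ν ∈ ℓ¹(G)` as a series in `ℓ^p(G)` -/
noncomputable def Cop (hp : 0 < p.toReal) (ν : Ell G 1) (f : Ell G p) : Ell G p :=
  ∑' y, ν y • L hp y f

theorem Cop_apply (hp : 0 < p.toReal) (ν : Ell G 1) (f : Ell G p) (x : G) :
    Cop hp ν f x = conv ν f x := by
  have h := (evp (p := p) x).map_tsum (summable_smul ν (fun y => L hp y f) ‖f‖
    (fun y => (norm_L_apply hp y f).le))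
  rw [evp_apply] at h
  exact h

theorem norm_Cop_le (hp : 0 < p.toReal) (ν : Ell G 1) (f : Ell G p) :
    ‖Cop hp ν f‖ ≤ ‖ν‖ * ‖f‖ :=
  norm_tsum_smul_le ν (fun y => L hp y f) ‖f‖ (fun y => (norm_L_apply hp y f).le)

/-- An operator commuting with all left translations commutes with convolution. -/
theorem map_Cop (hp : 0 < p.toReal) (T : Ell G p →L[ℂ] Ell G p)
    (hT : ∀ y f, T (L hp y f) = L hp y (T f)) (ν : Ell G 1) (f : Ell G p) :
    T (Cop hp ν f) = Cop hp ν (T f) := by
  have h := T.map_tsum (summable_smul ν (fun y => L hp y f) ‖f‖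
    (fun y => (norm_L_apply hp y f).le))
  unfold Cop
  rw [h]
  refine tsum_congr fun y => ?_
  rw [map_smul, hT]

end Pool.Agent.R289.L1
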