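import Mathlib

/-!
# A smooth variational principle with quadratic perturbations
-/

namespace R289.NH

open Filter Topology
open scoped InnerProductSpace

theorem pick {E : Type*} {D : Set E} {Ψ : E → ℝ} (hb : BddBelow (Ψ '' D)) {z : E} (hz : z ∈ D)
    {ε : ℝ} (hε : 0 < ε) : ∃ w ∈ D, (∀ v ∈ D, Ψ w ≤ Ψ v + ε) ∧ Ψ w ≤ Ψ z := by
  have hne : (Ψ '' D).Nonempty := ⟨_, z, hz, rfl⟩
  obtain ⟨_, ⟨w, hw, rfl⟩, hlt⟩ := Real.lt_sInf_add_pos hne hε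
  have hw' : ∀ v ∈ D, Ψ w ≤ Ψ v + ε := fun v hv => by
    have := csInf_le hb ⟨v, hv, rfl⟩
    linarith
  by_cases h : Ψ w ≤ Ψ z
  · exact ⟨w, hw, hw', h⟩
  · push Not at h
    refine ⟨z, hz, fun v hv => ?_, le_refl _⟩
    have := hw' v hv
    linarith

theorem quad_min {E : Type*} [NormedAddCommGroup E] [InnerProductSpace ℂ E] [CompleteSpace E]
    {D : Set E} (hD : IsClosed D) {Φ : E → ℝ} (hΦ : ContinuousOn Φ D) (hb : BddBelow (Φ '' D))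
    {z0 : E} (hz0 : z0 ∈ D) {R : ℝ} (hR : ∀ z ∈ D, ‖z - z0‖ ≤ R) {lam : ℝ} (hl : 0 < lam) :
    ∃ p zb : E, zb ∈ D ∧ ‖p - z0‖ ≤ R ∧
      ∀ z ∈ D, Φ zb + lam * ‖zb - p‖ ^ 2 ≤ Φ z + lam * ‖z - p‖ ^ 2 := by
  have hR0 : 0 ≤ R := (norm_nonneg _).trans (hR z0 hz0)
  have hnorm : ∀ z ∈ D, ‖z‖ ≤ ‖z0‖ + R := by
    intro z hz
    calc ‖z‖ = ‖z0 + (z - z0)‖ := by congr 1; abel
      _ ≤ ‖z0‖ + ‖z - z0‖ := norm_add_le _ _
      _ ≤ ‖z0‖ + R := by gcongr; exact hR z hz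
  set C : ℝ := ‖z0‖ + R with hC
  have hC0 : 0 ≤ C := by positivity
  let lk : ℕ → ℝ := fun k => lam * (1 / 2) ^ (k + 1)
  let Lk : ℕ → ℝ := fun k => lam * (1 - (1 / 2) ^ k)
  have hlk : ∀ k, 0 < lk k := fun k => by positivity
  have hLk : ∀ k, Lk (k + 1) = Lk k + lk k := by
    intro k; simp only [Lk, lk, pow_succ]; ring
  have hLk0 : ∀ k, 0 ≤ Lk k := by
    intro k
    have : (1 / 2 : ℝ) ^ k ≤ 1 := pow_le_one₀ (by norm_num) (by norm_num)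
    have h2 : 0 ≤ 1 - (1 / 2 : ℝ) ^ k := by linarith
    exact mul_nonneg hl.le h2
  let Ψ : ℕ → E → E → ℝ := fun k p z => Φ z + Lk k * ‖z‖ ^ 2 - 2 * RCLike.re ⟪p, z⟫_ℂ
  have hΨb : ∀ k p, BddBelow ((Ψ k p) '' D) := by
    intro k p
    obtain ⟨c, hc⟩ := hb
    refine ⟨c - 2 * (‖p‖ * C), ?_⟩
    rintro _ ⟨z, hz, rfl⟩
    have h1 : c ≤ Φ z := hc ⟨z, hz, rfl⟩
    have h2 : 0 ≤ Lk k * ‖z‖ ^ 2 := mul_nonneg (hLk0 k) (by positivity)
    have h3 : RCLike.re ⟪p, z⟫_ℂ ≤ ‖p‖ * C := by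
      calc RCLike.re ⟪p, z⟫_ℂ ≤ ‖⟪p, z⟫_ℂ‖ := RCLike.re_le_norm _
        _ ≤ ‖p‖ * ‖z‖ := norm_inner_le_norm _ _
        _ ≤ ‖p‖ * C := by gcongr; exact hnorm z hz
    show c - 2 * (‖p‖ * C) ≤ Φ z + Lk k * ‖z‖ ^ 2 - 2 * RCLike.re ⟪p, z⟫_ℂ
    linarith
  let ek : ℕ → ℝ := fun k => lk k * (1 / 4) ^ k
  have hek : ∀ k, 0 < ek k := fun k => by
    have := hlk k
    positivity
  -- the recursive construction
  let St := {s : E × E // s.1 ∈ D}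
  have hstep : ∀ (k : ℕ) (s : St), ∃ t : St,
      t.1.2 = s.1.2 + ((lk k : ℝ) : ℂ) • s.1.1 ∧
      (∀ v ∈ D, Ψ (k + 1) t.1.2 t.1.1 ≤ Ψ (k + 1) t.1.2 v + ek (k + 1)) ∧
      Ψ (k + 1) t.1.2 t.1.1 ≤ Ψ (k + 1) t.1.2 s.1.1 := by
    intro k s
    obtain ⟨w, hw, hw1, hw2⟩ := pick (hΨb (k + 1) (s.1.2 + ((lk k : ℝ) : ℂ) • s.1.1)) s.2
      (hek (k + 1))
    exact ⟨⟨(w, s.1.2 + ((lk k : ℝ) : ℂ) • s.1.1), hw⟩, rfl, hw1, hw2⟩
  choose nxt hnxt1 hnxt2 hnxt3 using hstep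
  obtain ⟨w0, hw0, hw01, _⟩ := pick (hΨb 0 0) hz0 (hek 0)
  let seq : ℕ → St := fun n => Nat.rec (⟨(w0, 0), hw0⟩ : St) (fun n s => nxt n s) n
  let z : ℕ → E := fun n => (seq n).1.1
  let p : ℕ → E := fun n => (seq n).1.2
  have hzD : ∀ n, z n ∈ D := fun n => (seq n).2
  have hp : ∀ n, p (n + 1) = p n + ((lk n : ℝ) : ℂ) • z n := fun n => hnxt1 n (seq n)
  have hp0 : p 0 = 0 := rfl
  have hmin : ∀ n, ∀ v ∈ D, Ψ n (p n) (z n) ≤ Ψ n (p n) v + ek n := by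
    intro n
    cases n with
    | zero => exact hw01
    | succ n => exact hnxt2 n (seq n)
  have hdec : ∀ n, Ψ (n + 1) (p (n + 1)) (z (n + 1)) ≤ Ψ (n + 1) (p (n + 1)) (z n) :=
    fun n => hnxt3 n (seq n)
  -- consecutive distances
  have hrel : ∀ n v, Ψ (n + 1) (p (n + 1)) v =
      Ψ n (p n) v + lk n * (‖v - z n‖ ^ 2 - ‖z n‖ ^ 2) := by
    intro n v
    have h1 : ‖v - z n‖ ^ 2 = ‖v‖ ^ 2 - 2 * RCLike.re ⟪z n, v⟫_ℂ + ‖z n‖ ^ 2 := by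
      rw [@norm_sub_sq ℂ, inner_re_symm]
    show Φ v + Lk (n + 1) * ‖v‖ ^ 2 - 2 * RCLike.re ⟪p (n + 1), v⟫_ℂ =
      Φ v + Lk n * ‖v‖ ^ 2 - 2 * RCLike.re ⟪p n, v⟫_ℂ + lk n * (‖v - z n‖ ^ 2 - ‖z n‖ ^ 2)
    rw [h1, hp n, inner_add_left, inner_smul_left, Complex.conj_ofReal, hLk n, map_add]
    have h2 : RCLike.re (((lk n : ℝ) : ℂ) * ⟪z n, v⟫_ℂ) = lk n * RCLike.re ⟪z n, v⟫_ℂ := by
      rw [RCLike.re_to_complex, Complex.re_ofReal_mul]; rfl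
    rw [h2]
    ring
  have hdist : ∀ n, dist (z n) (z (n + 1)) ≤ 1 * (1 / 2) ^ n := by
    intro n
    have h1 := hdec n
    have h2 := hmin n (z (n + 1)) (hzD (n + 1))
    rw [hrel n, hrel n, sub_self, norm_zero] at h1
    have h3 : lk n * ‖z (n + 1) - z n‖ ^ 2 ≤ lk n * (1 / 4) ^ n := by
      have h4 : lk n * ‖z (n + 1) - z n‖ ^ 2 ≤ ek n := by nlinarith
      exact h4
    have h4 : ‖z (n + 1) - z n‖ ^ 2 ≤ ((1 / 2) ^ n) ^ 2 := by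
      have h5 := le_of_mul_le_mul_left h3 (hlk n)
      have h6 : ((1 / 2 : ℝ) ^ n) ^ 2 = (1 / 4) ^ n := by
        rw [← pow_mul, mul_comm, pow_mul]; norm_num
      rw [h6]; exact h5
    rw [dist_comm, dist_eq_norm, one_mul]
    exact le_of_sq_le_sq h4 (by positivity)
  have hzc : CauchySeq z := cauchySeq_of_le_geometric _ _ (by norm_num) hdist
  obtain ⟨zb, hzb⟩ := cauchySeq_tendsto_of_complete hzc
  have hzbD : zb ∈ D := hD.mem_of_tendsto hzb (Eventually.of_forall hzD)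
  have hpc : CauchySeq p := by
    apply cauchySeq_of_le_geometric (1 / 2) (lam * C) (by norm_num)
    intro n
    rw [dist_comm, dist_eq_norm, hp n, add_sub_cancel_left, norm_smul, Complex.norm_real,
      Real.norm_eq_abs, abs_of_pos (hlk n)]
    calc lk n * ‖z n‖ ≤ lk n * C := by
          have := hlk n
          gcongr
          exact hnorm _ (hzD n)
      _ ≤ lam * C * (1 / 2) ^ n := by
          simp only [lk, pow_succ]
          have : 0 ≤ lam * C * (1 / 2) ^ n := by positivity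
          nlinarith
  obtain ⟨pb, hpb⟩ := cauchySeq_tendsto_of_complete hpc
  have hpbound : ∀ n, ‖p n - ((Lk n : ℝ) : ℂ) • z0‖ ≤ Lk n * R := by
    intro n
    induction n with
    | zero =>
      rw [hp0]
      simp [Lk]
    | succ n ih =>
      have h1 : p (n + 1) - ((Lk (n + 1) : ℝ) : ℂ) • z0 =
          (p n - ((Lk n : ℝ) : ℂ) • z0) + ((lk n : ℝ) : ℂ) • (z n - z0) := by
        rw [hp n, hLk n]
        push_cast
        module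
      rw [h1]
      calc _ ≤ ‖p n - ((Lk n : ℝ) : ℂ) • z0‖ + ‖((lk n : ℝ) : ℂ) • (z n - z0)‖ := norm_add_le _ _
        _ ≤ Lk n * R + lk n * R := by
            rw [norm_smul, Complex.norm_real, Real.norm_eq_abs, abs_of_pos (hlk n)]
            have := hlk n
            gcongr
            exact hR _ (hzD n)
        _ = Lk (n + 1) * R := by rw [hLk n]; ring
  have hLt : Tendsto Lk atTop (𝓝 lam) := by
    have h1 : Tendsto (fun k : ℕ => (1 / 2 : ℝ) ^ k) atTop (𝓝 0) :=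
      tendsto_pow_atTop_nhds_zero_of_lt_one (by norm_num) (by norm_num)
    have h2 : Tendsto (fun k : ℕ => lam * (1 - (1 / 2 : ℝ) ^ k)) atTop (𝓝 (lam * (1 - 0))) :=
      (h1.const_sub 1).const_mul lam
    rw [sub_zero, mul_one] at h2
    exact h2
  have het : Tendsto ek atTop (𝓝 0) := by
    have h1 : Tendsto (fun k : ℕ => lam * (1 / 2) * ((1 / 8 : ℝ) ^ k)) atTop
        (𝓝 (lam * (1 / 2) * 0)) :=
      (tendsto_pow_atTop_nhds_zero_of_lt_one (by norm_num) (by norm_num)).const_mul _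
    rw [mul_zero] at h1
    refine h1.congr (fun k => ?_)
    simp only [ek, lk]
    rw [show (1 / 8 : ℝ) = (1 / 2) * (1 / 4) by norm_num, mul_pow, pow_succ]
    ring
  have hcomp : ∀ v ∈ D, Φ zb + lam * ‖zb‖ ^ 2 - 2 * RCLike.re ⟪pb, zb⟫_ℂ ≤
      Φ v + lam * ‖v‖ ^ 2 - 2 * RCLike.re ⟪pb, v⟫_ℂ := by
    intro v hv
    have hΦz : Tendsto (fun n => Φ (z n)) atTop (𝓝 (Φ zb)) := by
      have h1 : Tendsto z atTop (𝓝[D] zb) :=
        tendsto_nhdsWithin_iff.2 ⟨hzb, Eventually.of_forall hzD⟩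
      exact (hΦ zb hzbD).tendsto.comp h1
    have hL1 : Tendsto (fun n => Φ (z n) + Lk n * ‖z n‖ ^ 2 - 2 * RCLike.re ⟪p n, z n⟫_ℂ) atTop
        (𝓝 (Φ zb + lam * ‖zb‖ ^ 2 - 2 * RCLike.re ⟪pb, zb⟫_ℂ)) := by
      refine (hΦz.add (hLt.mul (hzb.norm.pow 2))).sub (Tendsto.const_mul 2 ?_)
      exact (RCLike.continuous_re.tendsto _).comp (hpb.inner hzb)
    have hL2 : Tendsto (fun n => Φ v + Lk n * ‖v‖ ^ 2 - 2 * RCLike.re ⟪p n, v⟫_ℂ + ek n) atTop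
        (𝓝 (Φ v + lam * ‖v‖ ^ 2 - 2 * RCLike.re ⟪pb, v⟫_ℂ + 0)) := by
      refine ((tendsto_const_nhds.add (hLt.mul_const _)).sub (Tendsto.const_mul 2 ?_)).add het
      exact (RCLike.continuous_re.tendsto _).comp (hpb.inner tendsto_const_nhds)
    rw [add_zero] at hL2
    exact le_of_tendsto_of_tendsto' hL1 hL2 (fun n => hmin n v hv)
  have hlc : ((lam : ℝ) : ℂ) ≠ 0 := by exact_mod_cast hl.ne'
  refine ⟨((lam⁻¹ : ℝ) : ℂ) • pb, zb, hzbD, ?_, fun v hv => ?_⟩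
  · have h1 : Tendsto (fun n => ‖p n - ((Lk n : ℝ) : ℂ) • z0‖) atTop
        (𝓝 (‖pb - ((lam : ℝ) : ℂ) • z0‖)) := by
      refine (hpb.sub ?_).norm
      exact ((Complex.continuous_ofReal.tendsto _).comp hLt).smul_const z0
    have h2 : Tendsto (fun n => Lk n * R) atTop (𝓝 (lam * R)) := hLt.mul_const _
    have h3 : ‖pb - ((lam : ℝ) : ℂ) • z0‖ ≤ lam * R :=
      le_of_tendsto_of_tendsto' h1 h2 hpbound
    have h4 : ((lam⁻¹ : ℝ) : ℂ) • pb - z0 =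
        ((lam⁻¹ : ℝ) : ℂ) • (pb - ((lam : ℝ) : ℂ) • z0) := by
      rw [smul_sub, smul_smul]
      have : ((lam⁻¹ : ℝ) : ℂ) * ((lam : ℝ) : ℂ) = 1 := by
        rw [← Complex.ofReal_mul, inv_mul_cancel₀ hl.ne', Complex.ofReal_one]
      rw [this, one_smul]
    rw [h4, norm_smul, Complex.norm_real, Real.norm_eq_abs, abs_of_pos (inv_pos.2 hl)]
    rw [inv_mul_le_iff₀ hl]
    exact h3
  · have key : ∀ y : E, lam * ‖y - ((lam⁻¹ : ℝ) : ℂ) • pb‖ ^ 2 =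
        lam * ‖y‖ ^ 2 - 2 * RCLike.re ⟪pb, y⟫_ℂ + lam * ‖((lam⁻¹ : ℝ) : ℂ) • pb‖ ^ 2 := by
      intro y
      rw [@norm_sub_sq ℂ, inner_re_symm, inner_smul_left, Complex.conj_ofReal]
      have h2 : RCLike.re (((lam⁻¹ : ℝ) : ℂ) * ⟪pb, y⟫_ℂ) = lam⁻¹ * RCLike.re ⟪pb, y⟫_ℂ := by
        rw [RCLike.re_to_complex, Complex.re_ofReal_mul]; rfl
      rw [h2]
      field_simp
    have := hcomp v hv
    rw [key, key]
    linarith

end R289.NH
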