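import Pool.Agent.R289.NH1

/-!
# One-parameter groups and quadratic forms of finite rank
-/

namespace R289.NH

open Filter Topology
open scoped InnerProductSpace Nat

/-! ### the exponential -/

section Exp

variable {𝔸 : Type*} [NormedRing 𝔸] [NormedAlgebra ℂ 𝔸] [CompleteSpace 𝔸]

/-- the group `s ↦ exp (s U)` -/
noncomputable def EU (U : 𝔸) (s : ℂ) : 𝔸 := NormedSpace.exp (s • U)

theorem two_pow_le_fact (m k : ℕ) (hk : 1 ≤ k) : (2 : ℝ) ^ m ≤ ((m + k)! : ℕ) := by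
  have h1 : 2 ^ m ≤ (m + 1)! := by
    induction m with
    | zero => simp
    | succ m ih =>
      rw [Nat.factorial_succ, pow_succ, mul_comm]
      exact Nat.mul_le_mul (by omega) ih
  have h2 : (m + 1)! ≤ (m + k)! := Nat.factorial_le (by omega)
  exact_mod_cast h1.trans h2

theorem exp_tail (x : 𝔸) (hx : ‖x‖ ≤ 1) (k : ℕ) (hk : 1 ≤ k) :
    ‖NormedSpace.exp x - ∑ m ∈ Finset.range k, ((m ! : ℂ)⁻¹) • x ^ m‖ ≤ 2 * ‖x‖ ^ k := by
  have hs : HasSum (fun n : ℕ => ((n ! : ℂ)⁻¹) • x ^ n) (NormedSpace.exp x) :=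
    NormedSpace.exp_series_hasSum_exp' x
  have h1 : HasSum (fun m : ℕ => (((m + k)! : ℕ) : ℂ)⁻¹ • x ^ (m + k))
      (NormedSpace.exp x - ∑ m ∈ Finset.range k, ((m ! : ℂ)⁻¹) • x ^ m) := by
    rw [hasSum_nat_add_iff (f := fun n : ℕ => ((n ! : ℂ)⁻¹) • x ^ n) k]
    simpa using hs
  have h2 : HasSum (fun m : ℕ => ‖x‖ ^ k * (1 / 2) ^ m) (‖x‖ ^ k * 2) :=
    hasSum_geometric_two.mul_left _
  rw [← h1.tsum_eq, mul_comm 2]
  apply tsum_of_norm_bounded h2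
  intro m
  rw [norm_smul, norm_inv]
  have h3 : ‖(((m + k)! : ℕ) : ℂ)‖ = ((m + k)! : ℕ) := by
    rw [Complex.norm_natCast]
  rw [h3]
  have h4 : ‖x ^ (m + k)‖ ≤ ‖x‖ ^ (m + k) := norm_pow_le' x (by omega)
  have h5 : ‖x‖ ^ (m + k) ≤ ‖x‖ ^ k := pow_le_pow_of_le_one (norm_nonneg _) hx (by omega)
  have h6 := two_pow_le_fact m k hk
  have h7 : (((m + k)! : ℕ) : ℝ)⁻¹ ≤ (1 / 2) ^ m := by
    rw [one_div, inv_pow]
    exact inv_anti₀ (by positivity) h6
  calc (((m + k)! : ℕ) : ℝ)⁻¹ * ‖x ^ (m + k)‖ ≤ (1 / 2) ^ m * ‖x‖ ^ k := by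
        gcongr
        exact h4.trans h5
    _ = ‖x‖ ^ k * (1 / 2) ^ m := mul_comm _ _

variable {U : 𝔸} (hU : ‖U‖ ≤ 1)

include hU

theorem norm_smul_le (s : ℂ) : ‖s • U‖ ≤ ‖s‖ := by
  rw [norm_smul]
  calc ‖s‖ * ‖U‖ ≤ ‖s‖ * 1 := by gcongr
    _ = ‖s‖ := mul_one _

theorem EU_bound1 {s : ℂ} (hs : ‖s‖ ≤ 1) : ‖EU U s - 1‖ ≤ 2 * ‖s‖ := by
  have h1 := exp_tail (s • U) ((norm_smul_le hU s).trans hs) 1 le_rfl
  simp only [Finset.range_one, Finset.sum_singleton, Nat.factorial_zero, Nat.cast_one, inv_one,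
    pow_zero, one_smul, pow_one] at h1
  have h2 := norm_smul_le hU s
  exact h1.trans (by linarith)

theorem EU_bound2 {s : ℂ} (hs : ‖s‖ ≤ 1) : ‖EU U s - 1 - s • U‖ ≤ 2 * ‖s‖ ^ 2 := by
  have h1 := exp_tail (s • U) ((norm_smul_le hU s).trans hs) 2 (by norm_num)
  have h3 : ∑ m ∈ Finset.range 2, ((m ! : ℂ)⁻¹) • (s • U) ^ m = 1 + s • U := by
    rw [Finset.sum_range_succ, Finset.sum_range_one]
    simp
  rw [h3, ← sub_sub] at h1
  have h2 : ‖s • U‖ ^ 2 ≤ ‖s‖ ^ 2 := by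
    have := norm_smul_le hU s
    gcongr
  exact h1.trans (by linarith)

theorem EU_bound3 {s : ℂ} (hs : ‖s‖ ≤ 1) :
    ‖EU U s - 1 - s • U - (s ^ 2 / 2) • U ^ 2‖ ≤ 2 * ‖s‖ ^ 3 := by
  have h1 := exp_tail (s • U) ((norm_smul_le hU s).trans hs) 3 (by norm_num)
  have h3 : ∑ m ∈ Finset.range 3, ((m ! : ℂ)⁻¹) • (s • U) ^ m =
      1 + s • U + (s ^ 2 / 2) • U ^ 2 := by
    have e2 : (s • U) ^ 2 = s ^ 2 • U ^ 2 := smul_pow s U 2
    rw [Finset.sum_range_succ, Finset.sum_range_succ, Finset.sum_range_one, e2]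
    simp only [Nat.factorial_zero, Nat.cast_one, inv_one, pow_zero, one_smul, Nat.factorial_one,
      pow_one, Nat.factorial_two, Nat.cast_ofNat]
    rw [smul_smul, show (2 : ℂ)⁻¹ * s ^ 2 = s ^ 2 / 2 by ring]
  rw [h3, ← sub_sub, ← sub_sub] at h1
  have h2 : ‖s • U‖ ^ 3 ≤ ‖s‖ ^ 3 := by
    have := norm_smul_le hU s
    gcongr
  exact h1.trans (by linarith)

omit hU

theorem EU_add (s t : ℂ) : EU U (s + t) = EU U s * EU U t := by
  unfold EU
  rw [add_smul]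
  let _ : NormedAlgebra ℚ 𝔸 := NormedAlgebra.restrictScalars ℚ ℂ 𝔸
  apply NormedSpace.exp_add_of_commute
  exact ((Commute.refl U).smul_left s).smul_right t

theorem EU_zero : EU U 0 = 1 := by
  unfold EU
  rw [zero_smul]
  let _ : NormedAlgebra ℚ 𝔸 := NormedAlgebra.restrictScalars ℚ ℂ 𝔸
  exact NormedSpace.exp_zero

theorem EU_neg_mul (s : ℂ) : EU U (-s) * EU U s = 1 := by
  rw [← EU_add, neg_add_cancel, EU_zero]

theorem EU_mul_neg (s : ℂ) : EU U s * EU U (-s) = 1 := by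
  rw [← EU_add, add_neg_cancel, EU_zero]

theorem EU_comm (s : ℂ) : EU U s * U = U * EU U s := by
  have h1 : Commute U (s • U) := (Commute.refl U).smul_right s
  let _ : NormedAlgebra ℚ 𝔸 := NormedAlgebra.restrictScalars ℚ ℂ 𝔸
  have h2 : Commute U (NormedSpace.exp (s • U)) := h1.exp_right
  exact h2.eq.symm

theorem EU_continuous : Continuous (fun s : ℂ => EU U s) := by
  unfold EU
  let _ : NormedAlgebra ℚ 𝔸 := NormedAlgebra.restrictScalars ℚ ℂ 𝔸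
  exact NormedSpace.exp_continuous.comp (continuous_id.smul continuous_const)

end Exp

/-! ### quadratic forms of finite rank -/

variable {H : Type*} [NormedAddCommGroup H] [InnerProductSpace ℂ H]

/-- `∑ |⟪b, v⟫|²` over the list `bs` -/
noncomputable def qf (bs : List H) (v : H) : ℝ := (bs.map fun b => ‖⟪b, v⟫_ℂ‖ ^ 2).sum

/-- `∑ ‖b‖²` -/
noncomputable def qn (bs : List H) : ℝ := (bs.map fun b => ‖b‖ ^ 2).sum

@[simp] theorem qf_nil (v : H) : qf ([] : List H) v = 0 := by simp [qf]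

theorem qf_cons (b : H) (bs : List H) (v : H) : qf (b :: bs) v = ‖⟪b, v⟫_ℂ‖ ^ 2 + qf bs v := by
  simp [qf]

@[simp] theorem qn_nil : qn ([] : List H) = 0 := by simp [qn]

theorem qn_cons (b : H) (bs : List H) : qn (b :: bs) = ‖b‖ ^ 2 + qn bs := by
  simp [qn]

theorem qf_nonneg (bs : List H) (v : H) : 0 ≤ qf bs v := by
  induction bs with
  | nil => simp
  | cons b bs ih => rw [qf_cons]; positivity

theorem qn_nonneg (bs : List H) : 0 ≤ qn bs := by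
  induction bs with
  | nil => simp
  | cons b bs ih => rw [qn_cons]; positivity

theorem qf_le (bs : List H) (v : H) : qf bs v ≤ qn bs * ‖v‖ ^ 2 := by
  induction bs with
  | nil => simp
  | cons b bs ih =>
    rw [qf_cons, qn_cons, add_mul]
    have h1 : ‖⟪b, v⟫_ℂ‖ ^ 2 ≤ (‖b‖ * ‖v‖) ^ 2 := by
      gcongr
      exact norm_inner_le_norm _ _
    rw [mul_pow] at h1
    linarith

theorem three_sq (a b c : ℂ) : ‖a + b + c‖ ^ 2 ≤ 3 * (‖a‖ ^ 2 + ‖b‖ ^ 2 + ‖c‖ ^ 2) := by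
  have h1 : ‖a + b + c‖ ≤ ‖a‖ + ‖b‖ + ‖c‖ := norm_add₃_le
  have h2 : ‖a + b + c‖ ^ 2 ≤ (‖a‖ + ‖b‖ + ‖c‖) ^ 2 := by gcongr
  nlinarith [sq_nonneg (‖a‖ - ‖b‖), sq_nonneg (‖b‖ - ‖c‖), sq_nonneg (‖a‖ - ‖c‖)]

theorem qf_add3 (bs : List H) (a b c : H) : qf bs (a + b + c) ≤ 3 * (qf bs a + qf bs b + qf bs c) := by
  induction bs with
  | nil => simp
  | cons d bs ih =>
    rw [qf_cons, qf_cons, qf_cons, qf_cons, inner_add_right, inner_add_right]
    have := three_sq ⟪d, a⟫_ℂ ⟪d, b⟫_ℂ ⟪d, c⟫_ℂ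
    linarith

theorem qf_smul (bs : List H) (c : ℂ) (v : H) : qf bs (c • v) = ‖c‖ ^ 2 * qf bs v := by
  induction bs with
  | nil => simp
  | cons b bs ih =>
    rw [qf_cons, qf_cons, ih, inner_smul_right, norm_mul]
    ring

/-- scaling of the vectors by a real number -/
theorem qf_map_smul (bs : List H) (c : ℝ) (v : H) :
    qf (bs.map fun b => (c : ℂ) • b) v = c ^ 2 * qf bs v := by
  induction bs with
  | nil => simp
  | cons b bs ih =>
    rw [List.map_cons, qf_cons, qf_cons, ih, inner_smul_left, norm_mul, Complex.conj_ofReal,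
      Complex.norm_real, Real.norm_eq_abs, mul_pow, sq_abs]
    ring

theorem qn_map_smul (bs : List H) (c : ℝ) :
    qn (bs.map fun b => (c : ℂ) • b) = c ^ 2 * qn bs := by
  induction bs with
  | nil => simp
  | cons b bs ih =>
    rw [List.map_cons, qn_cons, qn_cons, ih, norm_smul, Complex.norm_real, Real.norm_eq_abs,
      mul_pow, sq_abs]
    ring

/-- polarisation -/
theorem qf_polar (bs : List H) (h : H) : ∃ q : H, ‖q‖ ≤ qn bs * ‖h‖ ∧
    ∀ v, qf bs (h + v) = qf bs h + 2 * RCLike.re ⟪q, v⟫_ℂ + qf bs v := by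
  induction bs with
  | nil => exact ⟨0, by simp, by simp⟩
  | cons b bs ih =>
    obtain ⟨q, hq, hqv⟩ := ih
    refine ⟨⟪b, h⟫_ℂ • b + q, ?_, ?_⟩
    · calc ‖⟪b, h⟫_ℂ • b + q‖ ≤ ‖⟪b, h⟫_ℂ • b‖ + ‖q‖ := norm_add_le _ _
        _ ≤ (‖b‖ * ‖h‖) * ‖b‖ + qn bs * ‖h‖ := by
          rw [norm_smul]
          gcongr
          exact norm_inner_le_norm _ _
        _ = qn (b :: bs) * ‖h‖ := by rw [qn_cons]; ring
    · intro v
      rw [qf_cons, qf_cons, qf_cons, hqv, inner_add_right, inner_add_left, inner_smul_left]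
      have h1 : ‖⟪b, h⟫_ℂ + ⟪b, v⟫_ℂ‖ ^ 2 =
          ‖⟪b, h⟫_ℂ‖ ^ 2 + 2 * RCLike.re ((starRingEnd ℂ) ⟪b, h⟫_ℂ * ⟪b, v⟫_ℂ) + ‖⟪b, v⟫_ℂ‖ ^ 2 := by
        rw [RCLike.re_to_complex, Complex.sq_norm, Complex.sq_norm, Complex.sq_norm,
          Complex.normSq_add, mul_comm ((starRingEnd ℂ) ⟪b, h⟫_ℂ), ← Complex.conj_re]
        simp only [map_mul, Complex.conj_conj]
        rw [mul_comm ⟪b, v⟫_ℂ]
        ring
      rw [h1, map_add]
      ring

theorem qf_comp [CompleteSpace H] (bs : List H) (A : H →L[ℂ] H) (v : H) :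
    qf bs (A v) = qf (bs.map fun b => (star A) b) v := by
  induction bs with
  | nil => simp
  | cons b bs ih =>
    rw [List.map_cons, qf_cons, qf_cons, ih, ContinuousLinearMap.star_eq_adjoint,
      ContinuousLinearMap.adjoint_inner_left]

theorem qf_continuous (bs : List H) : Continuous (qf bs) := by
  induction bs with
  | nil =>
    have : qf ([] : List H) = fun _ => 0 := by funext v; simp
    rw [this]; exact continuous_const
  | cons b bs ih =>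
    have : qf (b :: bs) = fun v => ‖⟪b, v⟫_ℂ‖ ^ 2 + qf bs v := by funext v; rw [qf_cons]
    rw [this]
    exact ((continuous_const.inner continuous_id).norm.pow 2).add ih

end R289.NH
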