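import Pool.Agent.R289.VN4

/-!
# Weak compactness of the unit ball; extreme points; self-adjoint contractions are weak limits of
unitaries
-/

namespace R289.VN

open scoped InnerProductSpace
open ContinuousLinearMap Module Set

variable {H : Type*} [NormedAddCommGroup H] [InnerProductSpace ℂ H] [CompleteSpace H]



/-- the sesquilinear form of an operator -/
noncomputable def frm (x : H →L[ℂ] H) : H × H → ℂ := fun p => inner ℂ p.1 (x p.2)

theorem frm_injective : Function.Injective (frm : (H →L[ℂ] H) → H × H → ℂ) := by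
  intro x y h
  exact ext_inner' (fun ξ η => congrFun h (ξ, η))

theorem compact_ball : IsCompact (frm '' {x : H →L[ℂ] H | ‖x‖ ≤ 1}) := by
  have hc : IsCompact (Set.univ.pi (fun p : H × H => Metric.closedBall (0 : ℂ) (‖p.1‖ * ‖p.2‖))) :=
    isCompact_univ_pi (fun p => isCompact_closedBall _ _)
  let K1 : Set (H × H → ℂ) := {f | ∀ ξ ξ' η, f (ξ + ξ', η) = f (ξ, η) + f (ξ', η)}
  let K2 : Set (H × H → ℂ) := {f | ∀ (c : ℂ) ξ η, f (c • ξ, η) = (starRingEnd ℂ) c * f (ξ, η)}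
  let K3 : Set (H × H → ℂ) := {f | ∀ ξ η η', f (ξ, η + η') = f (ξ, η) + f (ξ, η')}
  let K4 : Set (H × H → ℂ) := {f | ∀ (c : ℂ) ξ η, f (ξ, c • η) = c * f (ξ, η)}
  have h1 : IsClosed K1 := by
    simp only [K1, Set.ofPred_forall]
    exact isClosed_iInter fun ξ => isClosed_iInter fun ξ' => isClosed_iInter fun η =>
      isClosed_eq (by fun_prop) (by fun_prop)
  have h2 : IsClosed K2 := by
    simp only [K2, Set.ofPred_forall]
    exact isClosed_iInter fun c => isClosed_iInter fun ξ => isClosed_iInter fun η =>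
      isClosed_eq (by fun_prop) (by fun_prop)
  have h3 : IsClosed K3 := by
    simp only [K3, Set.ofPred_forall]
    exact isClosed_iInter fun ξ => isClosed_iInter fun ξ' => isClosed_iInter fun η =>
      isClosed_eq (by fun_prop) (by fun_prop)
  have h4 : IsClosed K4 := by
    simp only [K4, Set.ofPred_forall]
    exact isClosed_iInter fun c => isClosed_iInter fun ξ => isClosed_iInter fun η =>
      isClosed_eq (by fun_prop) (by fun_prop)
  have heq : frm '' {x : H →L[ℂ] H | ‖x‖ ≤ 1} =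
      (Set.univ.pi (fun p : H × H => Metric.closedBall (0 : ℂ) (‖p.1‖ * ‖p.2‖))) ∩
        (K1 ∩ K2 ∩ K3 ∩ K4) := by
    ext f
    constructor
    · rintro ⟨x, hx, rfl⟩
      refine ⟨?_, ⟨⟨⟨?_, ?_⟩, ?_⟩, ?_⟩⟩
      · intro p _
        rw [mem_closedBall_zero_iff]
        calc ‖frm x p‖ ≤ ‖p.1‖ * ‖x p.2‖ := norm_inner_le_norm _ _
          _ ≤ ‖p.1‖ * (‖x‖ * ‖p.2‖) := by gcongr; exact x.le_opNorm _
          _ ≤ ‖p.1‖ * (1 * ‖p.2‖) := by gcongr; exact hx
          _ = _ := by rw [one_mul]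
      · intro ξ ξ' η; exact inner_add_left _ _ _
      · intro c ξ η; exact inner_smul_left _ _ _
      · intro ξ η η'
        show ⟪ξ, x (η + η')⟫_ℂ = ⟪ξ, x η⟫_ℂ + ⟪ξ, x η'⟫_ℂ
        rw [map_add, inner_add_right]
      · intro c ξ η
        show ⟪ξ, x (c • η)⟫_ℂ = c * ⟪ξ, x η⟫_ℂ
        rw [map_smul, inner_smul_right]
    · rintro ⟨hb, ⟨⟨⟨k1, k2⟩, k3⟩, k4⟩⟩
      have hb' : ∀ ξ η, ‖f (ξ, η)‖ ≤ ‖ξ‖ * ‖η‖ := by
        intro ξ η
        have := hb (ξ, η) (Set.mem_univ _)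
        rwa [mem_closedBall_zero_iff] at this
      let L : H → StrongDual ℂ H := fun η =>
        LinearMap.mkContinuous
          { toFun := fun ξ => (starRingEnd ℂ) (f (ξ, η))
            map_add' := fun ξ ξ' => by rw [k1, map_add]
            map_smul' := fun c ξ => by
              rw [k2, map_mul, Complex.conj_conj]
              rfl } ‖η‖ (fun ξ => by
                show ‖(starRingEnd ℂ) (f (ξ, η))‖ ≤ _
                rw [RCLike.norm_conj, mul_comm]
                exact hb' ξ η)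
      let T0 : H → H := fun η => (InnerProductSpace.toDual ℂ H).symm (L η)
      have hT0 : ∀ ξ η, ⟪ξ, T0 η⟫_ℂ = f (ξ, η) := by
        intro ξ η
        rw [← inner_conj_symm]
        show (starRingEnd ℂ) (inner ℂ ((InnerProductSpace.toDual ℂ H).symm (L η)) ξ) = _
        rw [InnerProductSpace.toDual_symm_apply]
        exact Complex.conj_conj _
      let T : (H →L[ℂ] H) := LinearMap.mkContinuous
        { toFun := T0
          map_add' := fun η η' => by
            apply ext_inner_left ℂ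
            intro ξ
            rw [inner_add_right, hT0, hT0, hT0, k3]
          map_smul' := fun c η => by
            apply ext_inner_left ℂ
            intro ξ
            rw [RingHom.id_apply, inner_smul_right, hT0, hT0, k4] } 1 (fun η => by
            show ‖T0 η‖ ≤ 1 * ‖η‖
            rw [one_mul]
            have h5 : ‖T0 η‖ ^ 2 ≤ ‖T0 η‖ * ‖η‖ := by
              have h6 := hb' (T0 η) η
              rw [← hT0, inner_self_eq_norm_sq_to_K] at h6
              simpa using h6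
            by_cases h : ‖T0 η‖ = 0
            · rw [h]; positivity
            · have : 0 < ‖T0 η‖ := lt_of_le_of_ne (norm_nonneg _) (Ne.symm h)
              nlinarith)
      refine ⟨T, ?_, ?_⟩
      · exact LinearMap.mkContinuous_norm_le _ zero_le_one _
      · funext p
        exact hT0 p.1 p.2
  rw [heq]
  exact hc.inter_right (((h1.inter h2).inter h3).inter h4)

variable (M : VonNeumannAlgebra H)

/-- forms of elements of `M`, as a closed condition -/
theorem mem_iff_frm (x : (H →L[ℂ] H)) : x ∈ M ↔ ∀ y : (H →L[ℂ] H), (∀ g ∈ M, g * y = y * g) →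
    ∀ ξ η, frm x (ξ, y η) = frm x (star y ξ, η) := by
  rw [mem_iff]
  refine forall_congr' fun y => imp_congr_right fun _ => ?_
  constructor
  · intro h ξ η
    show ⟪ξ, x (y η)⟫_ℂ = ⟪star y ξ, x η⟫_ℂ
    rw [inner_star_left, ← mul_apply_eq_comp, h, mul_apply_eq_comp]
  · intro h
    apply ext_inner'
    intro ξ η
    have := h ξ η
    rw [mul_apply_eq_comp, mul_apply_eq_comp, ← inner_star_left y ξ (x η)]
    exact this

theorem closed_mem : IsClosed {f : H × H → ℂ | ∀ y : (H →L[ℂ] H), (∀ g ∈ M, g * y = y * g) →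
    ∀ ξ η, f (ξ, y η) = f (star y ξ, η)} := by
  simp only [Set.ofPred_forall]
  exact isClosed_iInter fun y => isClosed_iInter fun _ => isClosed_iInter fun ξ =>
    isClosed_iInter fun η => isClosed_eq (continuous_apply _) (continuous_apply _)

variable {M}

theorem Unit01.norm_apply_le {a : (H →L[ℂ] H)} (ha : Unit01 a) (ξ : H) : ‖a ξ‖ ≤ ‖ξ‖ := by
  have h1 := ha.sq_le ξ
  have h2 := (ha.2 ξ).2
  exact le_of_sq_le_sq (h1.trans h2) (norm_nonneg _)

theorem Unit01.norm_le {a : (H →L[ℂ] H)} (ha : Unit01 a) : ‖a‖ ≤ 1 :=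
  ContinuousLinearMap.opNorm_le_bound _ zero_le_one (fun ξ => by simpa using ha.norm_apply_le ξ)

theorem Unit01.compl {a : (H →L[ℂ] H)} (ha : Unit01 a) : Unit01 (1 - a) := by
  refine ⟨by rw [star_sub, star_one, ha.1], fun ξ => ?_⟩
  have h1 : RCLike.re ⟪(1 - a) ξ, ξ⟫_ℂ = ‖ξ‖ ^ 2 - RCLike.re ⟪a ξ, ξ⟫_ℂ := by
    rw [sub_apply, inner_sub_left, map_sub, one_apply_eq_self, re_inner_self]
  rw [h1]
  constructor
  · linarith [(ha.2 ξ).2]
  · linarith [(ha.2 ξ).1]

theorem exists_extreme (F : Finset H) {a0 : (H →L[ℂ] H)} (ha0M : a0 ∈ M) (ha0 : Unit01 a0) :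
    ∃ a ∈ M, Unit01 a ∧ FiniteDimensional ℂ (cut M (a - a * a)) ∧
      ∀ ξ ∈ F, ∀ η ∈ F, ⟪ξ, a η⟫_ℂ = ⟪ξ, a0 η⟫_ℂ := by
  classical
  let K : Set (H →L[ℂ] H) := {a | a ∈ M ∧ Unit01 a ∧ ∀ ξ ∈ F, ∀ η ∈ F, ⟪ξ, a η⟫_ℂ = ⟪ξ, a0 η⟫_ℂ}
  have hKeq : frm '' K = (frm '' {x : (H →L[ℂ] H) | ‖x‖ ≤ 1}) ∩
      ({f | ∀ y : (H →L[ℂ] H), (∀ g ∈ M, g * y = y * g) → ∀ ξ η, f (ξ, y η) = f (star y ξ, η)} ∩
      ({f | ∀ ξ η, f (ξ, η) = (starRingEnd ℂ) (f (η, ξ))} ∩
      ({f | ∀ ξ, 0 ≤ (f (ξ, ξ)).re} ∩ ({f | ∀ ξ, (f (ξ, ξ)).re ≤ ‖ξ‖ ^ 2} ∩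
      {f | ∀ ξ ∈ F, ∀ η ∈ F, f (ξ, η) = frm a0 (ξ, η)})))) := by
    ext f
    constructor
    · rintro ⟨a, ⟨haM, ha, haF⟩, rfl⟩
      refine ⟨⟨a, ha.norm_le, rfl⟩, (mem_iff_frm M a).1 haM, ?_, ?_, ?_, ?_⟩
      · intro ξ η
        show ⟪ξ, a η⟫_ℂ = (starRingEnd ℂ) ⟪η, a ξ⟫_ℂ
        rw [inner_conj_symm, inner_sa ha.1]
      · intro ξ
        show 0 ≤ (⟪ξ, a ξ⟫_ℂ : ℂ).re
        rw [← inner_sa ha.1]
        exact (ha.2 ξ).1
      · intro ξ
        show (⟪ξ, a ξ⟫_ℂ : ℂ).re ≤ _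
        rw [← inner_sa ha.1]
        exact (ha.2 ξ).2
      · intro ξ hξ η hη
        exact haF ξ hξ η hη
    · rintro ⟨⟨a, ha1, rfl⟩, haM, hsym, hpos, hle, haF⟩
      have hsa : star a = a := by
        apply ext_inner'
        intro ξ η
        rw [inner_star_right, ← inner_conj_symm]
        exact (hsym ξ η).symm
      refine ⟨a, ⟨(mem_iff_frm M a).2 haM, ⟨hsa, fun ξ => ?_⟩, fun ξ hξ η hη => haF ξ hξ η hη⟩, rfl⟩
      rw [inner_sa hsa]
      exact ⟨hpos ξ, hle ξ⟩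
  have hKc : IsCompact (frm '' K) := by
    rw [hKeq]
    apply compact_ball.inter_right
    refine (closed_mem M).inter (IsClosed.inter ?_ (IsClosed.inter ?_ (IsClosed.inter ?_ ?_)))
    · simp only [Set.ofPred_forall]
      exact isClosed_iInter fun ξ => isClosed_iInter fun η =>
        isClosed_eq (continuous_apply _) (Complex.continuous_conj.comp (continuous_apply _))
    · simp only [Set.ofPred_forall]
      exact isClosed_iInter fun ξ => isClosed_le continuous_const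
        (Complex.continuous_re.comp (continuous_apply _))
    · simp only [Set.ofPred_forall]
      exact isClosed_iInter fun ξ => isClosed_le
        (Complex.continuous_re.comp (continuous_apply _)) continuous_const
    · simp only [Set.ofPred_forall]
      exact isClosed_iInter fun ξ => isClosed_iInter fun _ => isClosed_iInter fun η =>
        isClosed_iInter fun _ => isClosed_eq (continuous_apply _) continuous_const
  have hKne : (frm '' K).Nonempty := ⟨frm a0, a0, ⟨ha0M, ha0, fun _ _ _ _ => rfl⟩, rfl⟩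
  obtain ⟨f, hf⟩ := hKc.extremePoints_nonempty hKne
  rw [mem_extremePoints] at hf
  obtain ⟨⟨a, ⟨haM, ha, haF⟩, rfl⟩, hext⟩ := hf
  refine ⟨a, haM, ha, ?_, haF⟩
  set d : (H →L[ℂ] H) := a - a * a with hd
  have hdM : d ∈ M := sub_mem haM (mul_mem haM haM)
  have hds : star d = d := by rw [hd, star_sub, star_mul, ha.1]
  -- bounds for `d`
  have hdb : ∀ ξ, ‖d ξ‖ ^ 2 ≤ RCLike.re ⟪a ξ, ξ⟫_ℂ ∧ ‖d ξ‖ ^ 2 ≤ ‖ξ‖ ^ 2 - RCLike.re ⟪a ξ, ξ⟫_ℂ := by
    intro ξ
    have h1 : d ξ = (1 - a) (a ξ) := by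
      rw [hd, sub_apply, mul_apply_eq_comp, sub_apply, one_apply_eq_self]
    have h2 : d ξ = a ((1 - a) ξ) := by
      rw [hd, sub_apply, mul_apply_eq_comp, sub_apply, one_apply_eq_self, map_sub]
    have h3 : RCLike.re ⟪(1 - a) ξ, ξ⟫_ℂ = ‖ξ‖ ^ 2 - RCLike.re ⟪a ξ, ξ⟫_ℂ := by
      rw [sub_apply, inner_sub_left, map_sub, one_apply_eq_self, re_inner_self]
    constructor
    · rw [h1]
      have h4 := ha.compl.norm_apply_le (a ξ)
      calc ‖(1 - a) (a ξ)‖ ^ 2 ≤ ‖a ξ‖ ^ 2 := by gcongr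
        _ ≤ _ := ha.sq_le ξ
    · rw [h2, ← h3]
      have h4 := ha.norm_apply_le ((1 - a) ξ)
      calc ‖a ((1 - a) ξ)‖ ^ 2 ≤ ‖(1 - a) ξ‖ ^ 2 := by gcongr
        _ ≤ _ := ha.compl.sq_le ξ
  clear_value d
  -- no nonzero self-adjoint perturbation
  have key : ∀ c ∈ M, star c = c → (∀ ξ ∈ F, ∀ η ∈ F, ⟪ξ, (d * c * d) η⟫_ℂ = 0) → d * c * d = 0 := by
    intro c hcM hcs hcF
    set s : ℝ := (‖c‖ + 1)⁻¹ with hs
    have hspos : 0 < s := by positivity
    have hsc : s * ‖c‖ ≤ 1 := by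
      rw [hs, inv_mul_le_iff₀ (by positivity)]; linarith
    set z : (H →L[ℂ] H) := (s : ℂ) • (d * c * d) with hz
    have hzM : z ∈ M := smul_mem' M _ (mul_mem (mul_mem hdM hcM) hdM)
    have hzs : star z = z := by
      rw [hz, star_smul, star_mul, star_mul, hds, hcs, Complex.star_def, Complex.conj_ofReal,
        mul_assoc]
    have hzb : ∀ ξ, |RCLike.re ⟪z ξ, ξ⟫_ℂ| ≤ ‖d ξ‖ ^ 2 := by
      intro ξ
      have h1 : ⟪z ξ, ξ⟫_ℂ = (s : ℂ) * ⟪c (d ξ), d ξ⟫_ℂ := by
        rw [hz, smul_apply, inner_smul_left, Complex.conj_ofReal, mul_apply_eq_comp,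
          mul_apply_eq_comp, inner_sa hds]
      calc |RCLike.re ⟪z ξ, ξ⟫_ℂ| ≤ ‖⟪z ξ, ξ⟫_ℂ‖ := RCLike.abs_re_le_norm _
        _ = s * ‖⟪c (d ξ), d ξ⟫_ℂ‖ := by
          rw [h1, norm_mul, Complex.norm_real, Real.norm_eq_abs, abs_of_pos hspos]
        _ ≤ s * (‖c (d ξ)‖ * ‖d ξ‖) := by gcongr; exact norm_inner_le_norm _ _
        _ ≤ s * (‖c‖ * ‖d ξ‖ * ‖d ξ‖) := by gcongr; exact c.le_opNorm _
        _ = (s * ‖c‖) * ‖d ξ‖ ^ 2 := by ring
        _ ≤ 1 * ‖d ξ‖ ^ 2 := by gcongr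
        _ = ‖d ξ‖ ^ 2 := one_mul _
    have hzF : ∀ ξ ∈ F, ∀ η ∈ F, ⟪ξ, z η⟫_ℂ = 0 := by
      intro ξ hξ η hη
      rw [hz, smul_apply, inner_smul_right, hcF ξ hξ η hη, mul_zero]
    have hmem1 : a + z ∈ K := by
      refine ⟨add_mem haM hzM, ⟨by rw [star_add, ha.1, hzs], fun ξ => ?_⟩, fun ξ hξ η hη => ?_⟩
      · rw [add_apply, inner_add_left, map_add]
        have h1 := abs_le.1 (hzb ξ)
        have h2 := hdb ξ
        constructor
        · linarith [h1.1, h2.1]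
        · linarith [h1.2, h2.2]
      · rw [add_apply, inner_add_right, hzF ξ hξ η hη, add_zero, haF ξ hξ η hη]
    have hmem2 : a - z ∈ K := by
      refine ⟨sub_mem haM hzM, ⟨by rw [star_sub, ha.1, hzs], fun ξ => ?_⟩, fun ξ hξ η hη => ?_⟩
      · rw [sub_apply, inner_sub_left, map_sub]
        have h1 := abs_le.1 (hzb ξ)
        have h2 := hdb ξ
        constructor
        · linarith [h1.2, h2.1]
        · linarith [h1.1, h2.2]
      · rw [sub_apply, inner_sub_right, hzF ξ hξ η hη, sub_zero, haF ξ hξ η hη]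
    have hseg : frm a ∈ openSegment ℝ (frm (a + z)) (frm (a - z)) := by
      refine ⟨1 / 2, 1 / 2, by norm_num, by norm_num, by norm_num, ?_⟩
      funext p
      show (1 / 2 : ℝ) • ⟪p.1, (a + z) p.2⟫_ℂ + (1 / 2 : ℝ) • ⟪p.1, (a - z) p.2⟫_ℂ = ⟪p.1, a p.2⟫_ℂ
      rw [add_apply, sub_apply, inner_add_right, inner_sub_right]
      module
    have h3 := (hext _ ⟨a + z, hmem1, rfl⟩ _ ⟨a - z, hmem2, rfl⟩ hseg)
    have h4 : frm (a + z) = frm a := by

      exact h3.1
    have h5 : a + z = a := frm_injective h4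
    have h6 : z = 0 := by simpa using h5
    rw [hz] at h6
    have h7 : (s : ℂ) ≠ 0 := by exact_mod_cast hspos.ne'
    exact (smul_eq_zero.1 h6).resolve_left h7
  -- the evaluation map on the cut is injective
  let Ψ : cut M d →ₗ[ℂ] ((F × F) → ℂ) :=
    { toFun := fun y p => ⟪(p.1 : H), (y : (H →L[ℂ] H)) (p.2 : H)⟫_ℂ
      map_add' := fun y y' => by
        funext p
        show ⟪(p.1 : H), ((y : (H →L[ℂ] H)) + (y' : (H →L[ℂ] H))) (p.2 : H)⟫_ℂ = _
        rw [add_apply, inner_add_right]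
        rfl
      map_smul' := fun c y => by
        funext p
        show ⟪(p.1 : H), (c • (y : (H →L[ℂ] H))) (p.2 : H)⟫_ℂ = _
        rw [smul_apply, inner_smul_right]
        rfl }
  have hinj : Function.Injective Ψ := by
    rw [← LinearMap.ker_eq_bot, LinearMap.ker_eq_bot']
    rintro ⟨y, x, hxM, rfl⟩ hy
    have hy1 : ∀ ξ ∈ F, ∀ η ∈ F, ⟪ξ, (d * x * d) η⟫_ℂ = 0 := by
      intro ξ hξ η hη
      exact congrFun hy (⟨ξ, hξ⟩, ⟨η, hη⟩)
    have hy2 : ∀ ξ ∈ F, ∀ η ∈ F, ⟪ξ, (d * star x * d) η⟫_ℂ = 0 := by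
      intro ξ hξ η hη
      have h1 : d * star x * d = star (d * x * d) := by
        rw [star_mul, star_mul, hds, mul_assoc]
      rw [h1, inner_star_right, ← inner_conj_symm, hy1 η hη ξ hξ, map_zero]
    have k1 := key (x + star x) (add_mem hxM (star_mem hxM))
      (by rw [star_add, star_star, add_comm]) (fun ξ hξ η hη => by
        rw [mul_add, add_mul, add_apply, inner_add_right, hy1 ξ hξ η hη, hy2 ξ hξ η hη, add_zero])
    have k2 := key (Complex.I • (x - star x)) (smul_mem' M _ (sub_mem hxM (star_mem hxM)))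
      (by rw [star_smul, star_sub, star_star, Complex.star_def, Complex.conj_I, neg_smul,
            ← smul_neg, neg_sub]) (fun ξ hξ η hη => by
        rw [mul_smul_comm, smul_mul_assoc, smul_apply, mul_sub, sub_mul, sub_apply,
          inner_smul_right, inner_sub_right, hy1 ξ hξ η hη, hy2 ξ hξ η hη]
        simp)
    have k3 : d * (x - star x) * d = 0 := by
      rw [mul_smul_comm, smul_mul_assoc] at k2
      exact (smul_eq_zero.1 k2).resolve_left Complex.I_ne_zero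
    have k4 : d * x * d = 0 := by
      have h1 : d * x * d = (1 / 2 : ℂ) • (d * (x + star x) * d) +
          (1 / 2 : ℂ) • (d * (x - star x) * d) := by
        rw [mul_add, add_mul, mul_sub, sub_mul]
        module
      rw [h1, k1, k3, smul_zero, add_zero]
    exact Subtype.ext k4
  exact FiniteDimensional.of_injective Ψ hinj

theorem sa_inW (hM : NoFD M) {b : (H →L[ℂ] H)} (hbM : b ∈ M) (hb : star b = b) (hb1 : ‖b‖ ≤ 1) :
    InW M b := by
  apply InW.closure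
  intro F ε hε
  set a0 : (H →L[ℂ] H) := (1 / 2 : ℂ) • (1 + b) with ha0
  have ha0M : a0 ∈ M := smul_mem' M _ (add_mem (one_mem M) hbM)
  have hU : Unit01 a0 := by
    refine ⟨by rw [ha0, star_smul, star_add, star_one, hb]; simp, fun ξ => ?_⟩
    have h1 : RCLike.re ⟪a0 ξ, ξ⟫_ℂ = (1 / 2) * (‖ξ‖ ^ 2 + RCLike.re ⟪b ξ, ξ⟫_ℂ) := by
      have h2 : a0 ξ = ((1 / 2 : ℝ) : ℂ) • (ξ + b ξ) := by
        rw [ha0]
        simp
      rw [h2, inner_smul_left, Complex.conj_ofReal, RCLike.re_to_complex, Complex.re_ofReal_mul,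
        inner_add_left, Complex.add_re]
      have h3 := re_inner_self ξ
      rw [RCLike.re_to_complex] at h3
      rw [h3]
      rfl
    have h2 : |RCLike.re ⟪b ξ, ξ⟫_ℂ| ≤ ‖ξ‖ ^ 2 := by
      calc |RCLike.re ⟪b ξ, ξ⟫_ℂ| ≤ ‖⟪b ξ, ξ⟫_ℂ‖ := RCLike.abs_re_le_norm _
        _ ≤ ‖b ξ‖ * ‖ξ‖ := norm_inner_le_norm _ _
        _ ≤ (‖b‖ * ‖ξ‖) * ‖ξ‖ := by gcongr; exact b.le_opNorm _
        _ ≤ (1 * ‖ξ‖) * ‖ξ‖ := by gcongr
        _ = ‖ξ‖ ^ 2 := by ring
    rw [h1]
    have h3 := abs_le.1 h2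
    constructor
    · linarith [h3.1]
    · linarith [h3.2]
  obtain ⟨a, haM, ha, hfd, haF⟩ := exists_extreme F ha0M hU
  refine ⟨(2 : ℂ) • a - 1, two_sub_one_inW hM _ a haM ha hfd (Nat.lt_succ_self _), ?_⟩
  intro ξ hξ η hη
  have h1 : (b - ((2 : ℂ) • a - 1)) η = (2 : ℂ) • (a0 η - a η) := by
    rw [ha0]
    simp only [sub_apply, smul_apply, add_apply, one_apply_eq_self]
    module
  rw [h1, inner_smul_right, inner_sub_right, haF ξ hξ η hη, sub_self, mul_zero, norm_zero]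
  exact hε

end R289.VN
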