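import Pool.Agent.R289.NH2
import Pool.Agent.R289.VN5

/-!
# Weak mixing of a unitary operator without eigenvalues
-/

namespace R289.NH

open Filter Topology
open scoped InnerProductSpace
open R289.VN

variable {H : Type*} [NormedAddCommGroup H] [InnerProductSpace ℂ H] [CompleteSpace H]

/-- `T` is a unitary operator without eigenvalues -/
structure UNE (T : H →L[ℂ] H) : Prop where
  st : star T * T = 1
  ts : T * star T = 1
  ne : ∀ (μ : ℂ) (v : H), T v = μ • v → v = 0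

theorem UNE.isom {T : H →L[ℂ] H} (hT : UNE T) (v : H) : ‖T v‖ = ‖v‖ := by
  have h1 : ‖T v‖ ^ 2 = ‖v‖ ^ 2 := by
    rw [← re_inner_self, ← re_inner_self, ← inner_star_right, ← mul_apply_eq_comp, hT.st]
    simp
  have h2 := norm_nonneg (T v)
  have h3 := norm_nonneg v
  exact (sq_eq_sq₀ h2 h3).1 h1

theorem UNE.inner {T : H →L[ℂ] H} (hT : UNE T) (v w : H) : ⟪T v, T w⟫_ℂ = ⟪v, w⟫_ℂ := by
  rw [← inner_star_right T v (T w), ← mul_apply_eq_comp, hT.st, one_apply_eq_self]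

theorem UNE.sq {T : H →L[ℂ] H} (hT : UNE T) : UNE (T * T) := by
  refine ⟨?_, ?_, ?_⟩
  · rw [star_mul, mul_assoc, ← mul_assoc (star T) T T, hT.st, one_mul, hT.st]
  · rw [star_mul, mul_assoc, ← mul_assoc T (star T), hT.ts, one_mul, hT.ts]
  · intro μ v hv
    obtain ⟨ν, hν⟩ : ∃ ν : ℂ, μ = ν ^ 2 := by
      obtain ⟨ν, hν⟩ := IsAlgClosed.exists_pow_nat_eq μ (n := 2) (by norm_num)
      exact ⟨ν, hν.symm⟩
    have h1 : T (T v + ν • v) = ν • (T v + ν • v) := by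
      rw [map_add, map_smul, smul_add, smul_smul, ← pow_two, ← hν]
      have : T (T v) = μ • v := by rw [← mul_apply_eq_comp]; exact hv
      rw [this, add_comm]
    have h2 := hT.ne _ _ h1
    have h3 : T v = (-ν) • v := by
      rw [neg_smul]
      exact eq_neg_of_add_eq_zero_left h2
    exact hT.ne _ _ h3

theorem UNE.pow_isom {T : H →L[ℂ] H} (hT : UNE T) (n : ℕ) (v : H) : ‖(T ^ n) v‖ = ‖v‖ := by
  induction n with
  | zero => simp
  | succ n ih => rw [pow_succ', mul_apply_eq_comp, hT.isom, ih]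

/-- averages of the rank-one operators attached to the orbit of `b` -/
noncomputable def avg (T : H →L[ℂ] H) (b : H) (N : ℕ) : H →L[ℂ] H :=
  ((N : ℂ)⁻¹) • ∑ n ∈ Finset.range N, ((innerSL ℂ ((T ^ n) b)).smulRight ((T ^ n) b))

theorem avg_form (T : H →L[ℂ] H) (b : H) (N : ℕ) (ξ η : H) :
    ⟪ξ, avg T b N η⟫_ℂ = (N : ℂ)⁻¹ * ∑ n ∈ Finset.range N, ⟪ξ, (T ^ n) b⟫_ℂ * ⟪(T ^ n) b, η⟫_ℂ := by
  rw [avg, smul_apply, inner_smul_right, sum_apply, inner_sum]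
  congr 1
  refine Finset.sum_congr rfl (fun n _ => ?_)
  rw [ContinuousLinearMap.smulRight_apply, inner_smul_right, innerSL_apply_apply, mul_comm]

theorem avg_norm {T : H →L[ℂ] H} (hT : UNE T) {b : H} (hb : ‖b‖ ≤ 1) (N : ℕ) :
    ‖avg T b N‖ ≤ 1 := by
  rw [avg, norm_smul, norm_inv, Complex.norm_natCast]
  have h1 : ‖∑ n ∈ Finset.range N, ((innerSL ℂ ((T ^ n) b)).smulRight ((T ^ n) b))‖ ≤ N := by
    calc _ ≤ ∑ n ∈ Finset.range N, ‖((innerSL ℂ ((T ^ n) b)).smulRight ((T ^ n) b))‖ :=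
          norm_sum_le _ _
      _ ≤ ∑ _n ∈ Finset.range N, (1 : ℝ) := by
          apply Finset.sum_le_sum
          intro n _
          rw [ContinuousLinearMap.norm_smulRight_apply, innerSL_apply_norm, hT.pow_isom]
          nlinarith [norm_nonneg b]
      _ = N := by simp
  by_cases hN : N = 0
  · subst hN; simp
  have hNp : (0 : ℝ) < N := by exact_mod_cast Nat.pos_of_ne_zero hN
  rw [inv_mul_le_iff₀ hNp, mul_one]
  exact h1

theorem finite_of_trace {V : Submodule ℂ H} (hVc : IsClosed (V : Set H)) {μ : ℝ} (hμ : 0 < μ)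
    (h : ∀ (s : Finset H), (∀ v ∈ s, v ∈ V) → Orthonormal ℂ (fun v : s => (v : H)) →
      (s.card : ℝ) * μ ≤ 1) : FiniteDimensional ℂ V := by
  classical
  have : CompleteSpace V := hVc.completeSpace_coe
  obtain ⟨w, b, hb⟩ := exists_hilbertBasis ℂ V
  have hw : w.Finite := by
    by_contra hinf
    obtain ⟨k, hk⟩ := exists_nat_gt (1 / μ)
    obtain ⟨t, htw, htc⟩ := Set.Infinite.exists_subset_card_eq (s := w) hinf k
    have horth : Orthonormal ℂ (fun v : t => (v : V)) := by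
      have h1 : Orthonormal ℂ (fun v : w => (v : V)) := by
        have := b.orthonormal
        rwa [hb] at this
      exact h1.comp (fun v : t => (⟨v.1, htw v.2⟩ : w)) (fun a b hab => by
        have := congrArg (fun z : w => (z : V)) hab
        exact Subtype.ext this)
    let s : Finset H := t.image (fun v : V => (v : H))
    have hcard : s.card = k := by
      rw [← htc]
      exact Finset.card_image_of_injective _ Subtype.val_injective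
    have h1 := h s (by
      intro v hv
      obtain ⟨v', _, rfl⟩ := Finset.mem_image.1 hv
      exact v'.2) (by
      rw [orthonormal_iff_ite] at horth ⊢
      rintro ⟨v, hv⟩ ⟨u, hu⟩
      obtain ⟨v', hv', rfl⟩ := Finset.mem_image.1 hv
      obtain ⟨u', hu', rfl⟩ := Finset.mem_image.1 hu
      have := horth ⟨v', hv'⟩ ⟨u', hu'⟩
      rw [Submodule.coe_inner] at this
      simp only at this ⊢
      rw [this]
      by_cases hvu : v' = u'
      · subst hvu; simp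
      · rw [if_neg (by simpa using hvu), if_neg (by
          intro h
          apply hvu
          have := congrArg (fun z : s => (z : H)) h
          exact Subtype.ext this)])
    rw [hcard] at h1
    rw [div_lt_iff₀ hμ] at hk
    linarith
  have hspan : Submodule.span ℂ (w : Set V) = ⊤ := by
    have h1 := b.dense_span
    rw [hb, Subtype.range_coe] at h1
    have h2 : FiniteDimensional ℂ (Submodule.span ℂ (w : Set V)) :=
      FiniteDimensional.span_of_finite ℂ hw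
    rwa [(Submodule.closed_of_finiteDimensional _).submodule_topologicalClosure_eq] at h1
  have h3 : (⊤ : Submodule ℂ V).FG := by
    rw [← hspan]
    exact Submodule.fg_span hw
  exact ⟨h3⟩

theorem eigen_of_finite {T : H →L[ℂ] H} {V : Submodule ℂ H} [FiniteDimensional ℂ V]
    (hV : V ≠ ⊥) (hTV : ∀ v ∈ V, T v ∈ V) : ∃ (μ : ℂ) (v : H), v ≠ 0 ∧ T v = μ • v := by
  have : Nontrivial V := Submodule.nontrivial_iff_ne_bot.2 hV
  let f : Module.End ℂ V := (T : H →ₗ[ℂ] H).restrict hTV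
  obtain ⟨μ, hμ⟩ := Module.End.exists_eigenvalue f
  obtain ⟨v, hv⟩ := hμ.exists_hasEigenvector
  refine ⟨μ, v, ?_, ?_⟩
  · intro h
    exact hv.2 (Subtype.ext h)
  · have := hv.apply_eq_smul
    exact congrArg Subtype.val this

/-- a positive operator of trace at most one commuting with `T` vanishes -/
theorem commuting_zero {T : H →L[ℂ] H} (hT : UNE T) {A : H →L[ℂ] H} (hA : star A = A)
    (hpos : ∀ ξ, 0 ≤ RCLike.re ⟪A ξ, ξ⟫_ℂ) (hcomm : A * T = T * A)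
    (htr : ∀ (s : Finset H), Orthonormal ℂ (fun v : s => (v : H)) →
      ∑ v ∈ s, RCLike.re ⟪A v, v⟫_ℂ ≤ 1) : A = 0 := by
  by_contra hA0
  obtain ⟨μ, hμ, q, hq, hqc, hq1, hq0⟩ : ∃ μ : ℝ, 0 < μ ∧ ∃ q : H →L[ℂ] H, IsP q ∧
      (∀ y, A * y = y * A → q * y = y * q) ∧
      (∀ ξ, q ξ = ξ → μ * ‖ξ‖ ^ 2 ≤ RCLike.re ⟪A ξ, ξ⟫_ℂ) ∧ q ≠ 0 := by
    by_contra hcon
    push Not at hcon
    apply hA0
    apply eq_zero_of_form hA
    intro ξ
    apply le_antisymm _ (hpos ξ)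
    apply le_of_forall_pos_le_add
    intro ε hε
    have hμ : 0 < ε / (‖ξ‖ ^ 2 + 1) := by positivity
    obtain ⟨q, hq, hqc, hq1, hq2⟩ := slice A hA (ε / (‖ξ‖ ^ 2 + 1))
    have h0 := hcon _ hμ q hq hqc hq1
    have h1 := hq2 ξ (by rw [h0]; simp)
    refine h1.trans ?_
    rw [zero_add, div_mul_eq_mul_div, div_le_iff₀ (by positivity)]
    nlinarith [sq_nonneg ‖ξ‖]
  have hqT : q * T = T * q := hqc T hcomm
  let V : Submodule ℂ H := LinearMap.ker (1 - q : H →L[ℂ] H).toLinearMap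
  have hVc : IsClosed (V : Set H) := ContinuousLinearMap.isClosed_ker (1 - q : H →L[ℂ] H)
  have hVmem : ∀ v, v ∈ V ↔ q v = v := by
    intro v
    constructor
    · intro h
      have h1 : (1 - q : H →L[ℂ] H) v = 0 := h
      rw [sub_apply, one_apply_eq_self, sub_eq_zero] at h1
      exact h1.symm
    · intro h
      show (1 - q : H →L[ℂ] H) v = 0
      rw [sub_apply, one_apply_eq_self, h, sub_self]
  have hfd : FiniteDimensional ℂ V := by
    apply finite_of_trace hVc hμ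
    intro s hs horth
    have h1 := htr s horth
    have h2 : ∑ _v ∈ s, μ ≤ ∑ v ∈ s, RCLike.re ⟪A v, v⟫_ℂ := by
      apply Finset.sum_le_sum
      intro v hv
      have h3 := hq1 v ((hVmem v).1 (hs v hv))
      have h4 : ‖v‖ = 1 := horth.1 ⟨v, hv⟩
      rw [h4] at h3
      linarith
    rw [Finset.sum_const, nsmul_eq_mul] at h2
    linarith
  have hVne : V ≠ ⊥ := by
    intro hbot
    apply hq0
    ext ξ
    have h1 : q ξ ∈ V := (hVmem _).2 (by rw [← mul_apply_eq_comp, hq.idem])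
    rw [hbot, Submodule.mem_bot] at h1
    rw [h1, zero_apply]
  obtain ⟨ν, v, hv, hTv⟩ := eigen_of_finite (T := T) hVne (by
    intro v hv
    rw [hVmem] at hv ⊢
    rw [← mul_apply_eq_comp, hqT, mul_apply_eq_comp, hv])
  exact hv (hT.ne ν v hTv)

theorem mix1 {T : H →L[ℂ] H} (hT : UNE T) {b : H} (hb : ‖b‖ ≤ 1) (a : H) :
    Tendsto (fun N : ℕ => (N : ℝ)⁻¹ * ∑ n ∈ Finset.range N, ‖⟪a, (T ^ n) b⟫_ℂ‖ ^ 2) atTop (𝓝 0) := by
  rw [tendsto_iff_ultrafilter]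
  intro 𝒰 h𝒰
  have hle : ((𝒰.map (fun N => frm (avg T b N)) : Ultrafilter (H × H → ℂ)) : Filter _) ≤
      𝓟 (frm '' {x : H →L[ℂ] H | ‖x‖ ≤ 1}) := by
    refine le_principal_iff.2 ?_
    show (fun N => frm (avg T b N)) ⁻¹' _ ∈ (𝒰 : Filter ℕ)
    exact Filter.univ_mem' (fun N => ⟨avg T b N, avg_norm hT hb N, rfl⟩)
  obtain ⟨f, ⟨A, hA1, rfl⟩, hlim⟩ := compact_ball.ultrafilter_le_nhds _ hle
  have hlim2 : ∀ ξ η, Tendsto (fun N => ⟪ξ, avg T b N η⟫_ℂ) 𝒰 (𝓝 ⟪ξ, A η⟫_ℂ) := by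
    intro ξ η
    have h1 : Tendsto (fun N => frm (avg T b N)) (𝒰 : Filter ℕ) (𝓝 (frm A)) := hlim
    exact ((continuous_apply (ξ, η)).tendsto _).comp h1
  have hsa : star A = A := by
    apply ext_inner'
    intro ξ η
    rw [inner_star_right, ← inner_conj_symm]
    have h1 := (Complex.continuous_conj.tendsto _).comp (hlim2 η ξ)
    refine tendsto_nhds_unique h1 ((hlim2 ξ η).congr (fun N => ?_))
    show ⟪ξ, avg T b N η⟫_ℂ = (starRingEnd ℂ) ⟪η, avg T b N ξ⟫_ℂ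
    rw [avg_form, avg_form, map_mul, map_sum, map_inv₀, Complex.conj_natCast]
    congr 1
    refine Finset.sum_congr rfl (fun n _ => ?_)
    rw [map_mul, inner_conj_symm, inner_conj_symm, mul_comm]
  have hform : ∀ N ξ, ⟪ξ, avg T b N ξ⟫_ℂ =
      (((N : ℝ)⁻¹ * ∑ n ∈ Finset.range N, ‖⟪ξ, (T ^ n) b⟫_ℂ‖ ^ 2 : ℝ) : ℂ) := by
    intro N ξ
    rw [avg_form, Complex.ofReal_mul, Complex.ofReal_inv, Complex.ofReal_natCast,
      Complex.ofReal_sum]
    congr 1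
    refine Finset.sum_congr rfl (fun n _ => ?_)
    rw [← inner_conj_symm ((T ^ n) b) ξ, Complex.mul_conj, Complex.normSq_eq_norm_sq]
  have hformlim : ∀ ξ, Tendsto
      (fun N : ℕ => (N : ℝ)⁻¹ * ∑ n ∈ Finset.range N, ‖⟪ξ, (T ^ n) b⟫_ℂ‖ ^ 2) 𝒰
      (𝓝 (RCLike.re ⟪A ξ, ξ⟫_ℂ)) := by
    intro ξ
    have h1 := (RCLike.continuous_re.tendsto _).comp (hlim2 ξ ξ)
    rw [inner_sa hsa]
    refine h1.congr (fun N => ?_)
    show RCLike.re ⟪ξ, avg T b N ξ⟫_ℂ = _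
    rw [hform]
    rfl
  have hA0 : A = 0 := by
    apply commuting_zero hT hsa
    · intro ξ
      apply ge_of_tendsto' (hformlim ξ)
      intro N
      positivity
    · -- commutation
      apply ext_inner'
      intro ξ η
      have h1 : Tendsto (fun N => ⟪ξ, avg T b N (T η)⟫_ℂ) 𝒰 (𝓝 ⟪ξ, (A * T) η⟫_ℂ) := hlim2 ξ (T η)
      have h2 : Tendsto (fun N => ⟪star T ξ, avg T b N η⟫_ℂ) 𝒰 (𝓝 ⟪ξ, (T * A) η⟫_ℂ) := by
        have := hlim2 (star T ξ) η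
        rwa [inner_star_left] at this
      have h3 : Tendsto (fun N : ℕ => ⟪star T ξ, avg T b N η⟫_ℂ - ⟪ξ, avg T b N (T η)⟫_ℂ) 𝒰
          (𝓝 0) := by
        have h4 : Tendsto (fun N : ℕ => ⟪star T ξ, avg T b N η⟫_ℂ - ⟪ξ, avg T b N (T η)⟫_ℂ) atTop
            (𝓝 0) := by
          rw [tendsto_zero_iff_norm_tendsto_zero]
          apply squeeze_zero (g := fun N : ℕ => (N : ℝ)⁻¹ * (2 * (‖ξ‖ * ‖η‖)))
          · intro N; exact norm_nonneg _
          · intro N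
            rw [avg_form, avg_form, ← mul_sub, ← Finset.sum_sub_distrib]
            have h5 : ∑ n ∈ Finset.range N, (⟪star T ξ, (T ^ n) b⟫_ℂ * ⟪(T ^ n) b, η⟫_ℂ -
                ⟪ξ, (T ^ n) b⟫_ℂ * ⟪(T ^ n) b, T η⟫_ℂ) =
                ∑ n ∈ Finset.range N, (⟪ξ, (T ^ (n + 1)) b⟫_ℂ * ⟪(T ^ (n + 1)) b, T η⟫_ℂ -
                ⟪ξ, (T ^ n) b⟫_ℂ * ⟪(T ^ n) b, T η⟫_ℂ) := by
              refine Finset.sum_congr rfl (fun n _ => ?_)
              congr 1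
              rw [pow_succ', mul_apply_eq_comp, inner_star_left, hT.inner]
            rw [h5, Finset.sum_range_sub (fun n => ⟪ξ, (T ^ n) b⟫_ℂ * ⟪(T ^ n) b, T η⟫_ℂ), norm_mul,
              norm_inv, Complex.norm_natCast]
            have h6 : ∀ n, ‖⟪ξ, (T ^ n) b⟫_ℂ * ⟪(T ^ n) b, T η⟫_ℂ‖ ≤ ‖ξ‖ * ‖η‖ := by
              intro n
              rw [norm_mul]
              calc ‖⟪ξ, (T ^ n) b⟫_ℂ‖ * ‖⟪(T ^ n) b, T η⟫_ℂ‖
                  ≤ (‖ξ‖ * ‖(T ^ n) b‖) * (‖(T ^ n) b‖ * ‖T η‖) := by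
                    gcongr
                    · exact norm_inner_le_norm _ _
                    · exact norm_inner_le_norm _ _
                _ ≤ (‖ξ‖ * 1) * (1 * ‖η‖) := by
                    rw [hT.pow_isom, hT.isom]
                    gcongr
                _ = ‖ξ‖ * ‖η‖ := by ring
            have h7 := h6 N
            have h8 := h6 0
            gcongr
            calc _ ≤ ‖⟪ξ, (T ^ N) b⟫_ℂ * ⟪(T ^ N) b, T η⟫_ℂ‖ + ‖⟪ξ, (T ^ 0) b⟫_ℂ * ⟪(T ^ 0) b, T η⟫_ℂ‖ :=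
                  norm_sub_le _ _
              _ ≤ 2 * (‖ξ‖ * ‖η‖) := by linarith
          · have h9 : Tendsto (fun N : ℕ => (N : ℝ)⁻¹) atTop (𝓝 0) :=
              tendsto_inv_atTop_nhds_zero_nat
            simpa using h9.mul_const (2 * (‖ξ‖ * ‖η‖))
        exact h4.mono_left h𝒰
      have h10 := h2.sub h1
      have h11 := tendsto_nhds_unique h10 h3
      exact (sub_eq_zero.1 h11).symm
    · -- trace
      intro s horth
      have h1 : Tendsto (fun N : ℕ => ∑ v ∈ s, ((N : ℝ)⁻¹ * ∑ n ∈ Finset.range N,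
          ‖⟪v, (T ^ n) b⟫_ℂ‖ ^ 2)) 𝒰 (𝓝 (∑ v ∈ s, RCLike.re ⟪A v, v⟫_ℂ)) :=
        tendsto_finset_sum _ (fun v _ => hformlim v)
      apply le_of_tendsto' h1
      intro N
      rw [← Finset.mul_sum, Finset.sum_comm]
      have h2 : ∀ n, ∑ v ∈ s, ‖⟪v, (T ^ n) b⟫_ℂ‖ ^ 2 ≤ 1 := by
        intro n
        have h3 := horth.sum_inner_products_le (s := Finset.univ) ((T ^ n) b)
        rw [← Finset.sum_coe_sort s (fun v => ‖⟪v, (T ^ n) b⟫_ℂ‖ ^ 2)]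
        refine h3.trans ?_
        rw [hT.pow_isom]
        exact pow_le_one₀ (norm_nonneg _) hb
      by_cases hN : N = 0
      · subst hN; simp
      have hNp : (0 : ℝ) < N := by exact_mod_cast Nat.pos_of_ne_zero hN
      rw [inv_mul_le_iff₀ hNp, mul_one]
      calc ∑ n ∈ Finset.range N, ∑ v ∈ s, ‖⟪v, (T ^ n) b⟫_ℂ‖ ^ 2 ≤ ∑ _n ∈ Finset.range N, (1 : ℝ) :=
            Finset.sum_le_sum (fun n _ => h2 n)
        _ = N := by simp
  have h5 := hformlim a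
  rw [hA0] at h5
  simpa using h5

theorem mix2 {T : H →L[ℂ] H} (hT : UNE T) (a b : H) :
    Tendsto (fun N : ℕ => (N : ℝ)⁻¹ * ∑ n ∈ Finset.range N, ‖⟪a, (T ^ n) b⟫_ℂ‖ ^ 2) atTop (𝓝 0) := by
  set c : ℝ := (‖b‖ + 1)⁻¹ with hc
  have hc0 : 0 < c := by positivity
  have h1 := mix1 hT (b := (c : ℂ) • b) (by
    rw [norm_smul, Complex.norm_real, Real.norm_eq_abs, abs_of_pos hc0, hc,
      inv_mul_le_iff₀ (by positivity)]
    linarith) a
  have h2 := h1.const_mul ((c ^ 2)⁻¹)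
  rw [mul_zero] at h2
  refine h2.congr (fun N => ?_)
  have h3 : ∀ n, ‖⟪a, (T ^ n) ((c : ℂ) • b)⟫_ℂ‖ ^ 2 = c ^ 2 * ‖⟪a, (T ^ n) b⟫_ℂ‖ ^ 2 := by
    intro n
    rw [map_smul, inner_smul_right, norm_mul, Complex.norm_real, Real.norm_eq_abs, mul_pow, sq_abs]
  simp only [h3]
  rw [← Finset.mul_sum]
  field_simp

theorem mixing {T : H →L[ℂ] H} (hT : UNE T) (F : Finset H) {ε : ℝ} (hε : 0 < ε) (n0 : ℕ) :
    ∃ n, n0 ≤ n ∧ ∀ a ∈ F, ∀ b ∈ F, ‖⟪a, (T ^ n) b⟫_ℂ‖ < ε ∧ ‖⟪a, (T ^ (2 * n)) b⟫_ℂ‖ < ε := by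
  by_contra hcon
  push Not at hcon
  let S : ℕ → ℝ := fun n => ∑ a ∈ F, ∑ b ∈ F,
    (‖⟪a, (T ^ n) b⟫_ℂ‖ ^ 2 + ‖⟪a, ((T * T) ^ n) b⟫_ℂ‖ ^ 2)
  have hS : ∀ n, n0 ≤ n → ε ^ 2 ≤ S n := by
    intro n hn
    obtain ⟨a, ha, b, hb, h⟩ := hcon n hn
    have hterm : ε ^ 2 ≤ ‖⟪a, (T ^ n) b⟫_ℂ‖ ^ 2 + ‖⟪a, ((T * T) ^ n) b⟫_ℂ‖ ^ 2 := by
      by_cases h1 : ‖⟪a, (T ^ n) b⟫_ℂ‖ < ε
      · have h2 := h h1
        rw [pow_mul, pow_two] at h2
        have h3 : ε ^ 2 ≤ ‖⟪a, ((T * T) ^ n) b⟫_ℂ‖ ^ 2 := by gcongr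
        have h4 : 0 ≤ ‖⟪a, (T ^ n) b⟫_ℂ‖ ^ 2 := by positivity
        linarith
      · push Not at h1
        have h3 : ε ^ 2 ≤ ‖⟪a, (T ^ n) b⟫_ℂ‖ ^ 2 := by gcongr
        have h4 : 0 ≤ ‖⟪a, ((T * T) ^ n) b⟫_ℂ‖ ^ 2 := by positivity
        linarith
    calc ε ^ 2 ≤ ‖⟪a, (T ^ n) b⟫_ℂ‖ ^ 2 + ‖⟪a, ((T * T) ^ n) b⟫_ℂ‖ ^ 2 := hterm
      _ ≤ ∑ b ∈ F, (‖⟪a, (T ^ n) b⟫_ℂ‖ ^ 2 + ‖⟪a, ((T * T) ^ n) b⟫_ℂ‖ ^ 2) :=
        Finset.single_le_sum (f := fun b => ‖⟪a, (T ^ n) b⟫_ℂ‖ ^ 2 + ‖⟪a, ((T * T) ^ n) b⟫_ℂ‖ ^ 2)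
          (fun _ _ => by positivity) hb
      _ ≤ S n := Finset.single_le_sum (f := fun a => ∑ b ∈ F,
          (‖⟪a, (T ^ n) b⟫_ℂ‖ ^ 2 + ‖⟪a, ((T * T) ^ n) b⟫_ℂ‖ ^ 2))
          (fun _ _ => Finset.sum_nonneg (fun _ _ => by positivity)) ha
  have hlim : Tendsto (fun N : ℕ => (N : ℝ)⁻¹ * ∑ n ∈ Finset.range N, S n) atTop (𝓝 0) := by
    have h1 : Tendsto (fun N : ℕ => ∑ a ∈ F, ∑ b ∈ F,
        ((N : ℝ)⁻¹ * ∑ n ∈ Finset.range N, ‖⟪a, (T ^ n) b⟫_ℂ‖ ^ 2 +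
         (N : ℝ)⁻¹ * ∑ n ∈ Finset.range N, ‖⟪a, ((T * T) ^ n) b⟫_ℂ‖ ^ 2)) atTop
        (𝓝 (∑ a ∈ F, ∑ b ∈ F, ((0 : ℝ) + 0))) :=
      tendsto_finset_sum _ (fun a _ => tendsto_finset_sum _ (fun b _ =>
        (mix2 hT a b).add (mix2 hT.sq a b)))
    have h2 : (∑ a ∈ F, ∑ b ∈ F, ((0 : ℝ) + 0)) = 0 := by simp
    rw [h2] at h1
    refine h1.congr (fun N => ?_)
    have h3 : ∑ n ∈ Finset.range N, S n = ∑ a ∈ F, ∑ b ∈ F, ∑ n ∈ Finset.range N,
        (‖⟪a, (T ^ n) b⟫_ℂ‖ ^ 2 + ‖⟪a, ((T * T) ^ n) b⟫_ℂ‖ ^ 2) := by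
      simp only [S]
      rw [Finset.sum_comm]
      refine Finset.sum_congr rfl (fun a _ => ?_)
      rw [Finset.sum_comm]
    rw [h3, Finset.mul_sum]
    refine Finset.sum_congr rfl (fun a _ => ?_)
    rw [Finset.mul_sum]
    refine Finset.sum_congr rfl (fun b _ => ?_)
    rw [Finset.sum_add_distrib, mul_add]
  have hev : ∀ᶠ N : ℕ in atTop, (N : ℝ)⁻¹ * ∑ n ∈ Finset.range N, S n < ε ^ 2 / 2 :=
    hlim.eventually (gt_mem_nhds (by positivity))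
  obtain ⟨N, hN1, hN2⟩ := (hev.and (eventually_ge_atTop (2 * n0 + 1))).exists
  have hNp : (0 : ℝ) < N := by
    have : 0 < N := by omega
    exact_mod_cast this
  rw [inv_mul_lt_iff₀ hNp] at hN1
  have h1 : ((N : ℝ) - n0) * ε ^ 2 ≤ ∑ n ∈ Finset.range N, S n := by
    have hsub : Finset.Ico n0 N ⊆ Finset.range N := by
      intro n hn
      rw [Finset.mem_Ico] at hn
      exact Finset.mem_range.2 hn.2
    have h2 : ∑ n ∈ Finset.Ico n0 N, S n ≤ ∑ n ∈ Finset.range N, S n :=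
      Finset.sum_le_sum_of_subset_of_nonneg hsub (fun n _ _ =>
        Finset.sum_nonneg (fun _ _ => Finset.sum_nonneg (fun _ _ => by positivity)))
    have h3 : ∑ _n ∈ Finset.Ico n0 N, ε ^ 2 ≤ ∑ n ∈ Finset.Ico n0 N, S n :=
      Finset.sum_le_sum (fun n hn => hS n (Finset.mem_Ico.1 hn).1)
    rw [Finset.sum_const, Nat.card_Ico, nsmul_eq_mul, Nat.cast_sub (by omega)] at h3
    linarith
  have h2 : (2 * (n0 : ℝ) + 1) ≤ N := by exact_mod_cast hN2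
  nlinarith [sq_nonneg ε, sq_pos_of_pos hε]

end R289.NH
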