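import Pool.Agent.R289.NH3

/-!
# States and the lower bound
-/

namespace R289.NH

open Filter Topology
open scoped InnerProductSpace
open R289.VN

variable {H : Type*} [NormedAddCommGroup H] [InnerProductSpace ℂ H] [CompleteSpace H]

/-- a norm equivalent to the Hilbert norm -/
structure EqN (q : H → ℝ) (a b : ℝ) : Prop where
  add : ∀ x y, q (x + y) ≤ q x + q y
  smul : ∀ (c : ℂ) x, q (c • x) = ‖c‖ * q x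
  lo : ∀ x, a * ‖x‖ ≤ q x
  hi : ∀ x, q x ≤ b * ‖x‖
  pos : 0 < a

theorem EqN.qpos {q : H → ℝ} {a b : ℝ} (hq : EqN q a b) {x : H} (hx : x ≠ 0) : 0 < q x :=
  lt_of_lt_of_le (mul_pos hq.pos (norm_pos_iff.2 hx)) (hq.lo x)

theorem EqN.cont {q : H → ℝ} {a b : ℝ} (hq : EqN q a b) : Continuous q := by
  have h1 : ∀ x y, q x - q y ≤ b * ‖x - y‖ := by
    intro x y
    have h2 := hq.add y (x - y)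
    rw [add_sub_cancel] at h2
    have h3 := hq.hi (x - y)
    linarith
  have hb : 0 ≤ |b| := abs_nonneg b
  have h4 : LipschitzWith (Real.toNNReal |b|) q := by
    apply LipschitzWith.of_dist_le_mul
    intro x y
    rw [Real.coe_toNNReal _ hb, Real.dist_eq, dist_eq_norm]
    have h5 : b * ‖x - y‖ ≤ |b| * ‖x - y‖ := by
      gcongr; exact le_abs_self b
    rw [abs_le]
    constructor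
    · have := h1 y x
      rw [norm_sub_rev] at this
      linarith
    · have := h1 x y
      linarith
  exact h4.continuous

/-- `x` admits the support functional `⟪ℓ, ·⟫` (for `log q`) with quadratic growth up to a form of
finite rank. -/
def St (q : H → ℝ) (x ℓ : H) (κ : ℝ) (bs : List H) (ρ : ℝ) : Prop :=
  0 < κ ∧ 0 < ρ ∧ ρ < ‖x‖ ∧ ∀ v, ‖v‖ ≤ ρ →
    Real.log (q x) + RCLike.re ⟪ℓ, v⟫_ℂ + κ * ‖v‖ ^ 2 - qf bs v ≤ Real.log (q (x + v))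

/-- there are suitable parameters -/
def Good (q : H → ℝ) (x ℓ : H) : Prop := ∃ κ bs ρ, St q x ℓ κ bs ρ

/-- the new list of vectors -/
noncomputable def nbs (κ : ℝ) (U : H →L[ℂ] H) (x ℓ : H) (bs : List H) : List H :=
  ((Real.sqrt (8 * κ / ‖x‖ ^ 2) : ℝ) : ℂ) • (U x) ::
    ((Real.sqrt (2 / (κ * ‖x‖ ^ 2)) : ℝ) : ℂ) • ((star U) ℓ) ::
      bs.map fun b => ((Real.sqrt 3 : ℝ) : ℂ) • b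

theorem qf_nbs {κ : ℝ} (hκ : 0 < κ) (U : H →L[ℂ] H) (x ℓ : H) (bs : List H) (u : H) :
    qf (nbs κ U x ℓ bs) u = (8 * κ / ‖x‖ ^ 2) * ‖⟪U x, u⟫_ℂ‖ ^ 2 +
      (2 / (κ * ‖x‖ ^ 2)) * ‖⟪(star U) ℓ, u⟫_ℂ‖ ^ 2 + 3 * qf bs u := by
  rw [nbs, qf_cons, qf_cons, qf_map_smul, inner_smul_left, inner_smul_left, norm_mul, norm_mul,
    Complex.conj_ofReal, Complex.conj_ofReal, Complex.norm_real, Complex.norm_real,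
    Real.norm_eq_abs, Real.norm_eq_abs, mul_pow, mul_pow, sq_abs, sq_abs,
    Real.sq_sqrt (by positivity), Real.sq_sqrt (by positivity), Real.sq_sqrt (by positivity)]
  ring

theorem qn_nbs {κ : ℝ} (hκ : 0 < κ) {U : H →L[ℂ] H} (hU : ‖U‖ ≤ 1) (x ℓ : H) (bs : List H) :
    qn (nbs κ U x ℓ bs) ≤ (8 * κ / ‖x‖ ^ 2) * ‖x‖ ^ 2 +
      (2 / (κ * ‖x‖ ^ 2)) * ‖ℓ‖ ^ 2 + 3 * qn bs := by
  rw [nbs, qn_cons, qn_cons, qn_map_smul, norm_smul, norm_smul, Complex.norm_real,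
    Complex.norm_real, Real.norm_eq_abs, Real.norm_eq_abs, mul_pow, mul_pow, sq_abs, sq_abs,
    Real.sq_sqrt (by positivity), Real.sq_sqrt (by positivity), Real.sq_sqrt (by positivity)]
  have h1 : ‖U x‖ ≤ ‖x‖ := by
    calc ‖U x‖ ≤ ‖U‖ * ‖x‖ := U.le_opNorm _
      _ ≤ 1 * ‖x‖ := by gcongr
      _ = ‖x‖ := one_mul _
  have h2 : ‖(star U) ℓ‖ ≤ ‖ℓ‖ := by
    calc ‖(star U) ℓ‖ ≤ ‖star U‖ * ‖ℓ‖ := (star U).le_opNorm _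
      _ ≤ 1 * ‖ℓ‖ := by rw [norm_star]; gcongr
      _ = ‖ℓ‖ := one_mul _
  have h3 : ‖U x‖ ^ 2 ≤ ‖x‖ ^ 2 := by gcongr
  have h4 : ‖(star U) ℓ‖ ^ 2 ≤ ‖ℓ‖ ^ 2 := by gcongr
  have h5 : 8 * κ / ‖x‖ ^ 2 * ‖U x‖ ^ 2 ≤ 8 * κ / ‖x‖ ^ 2 * ‖x‖ ^ 2 := by gcongr
  have h6 : 2 / (κ * ‖x‖ ^ 2) * ‖(star U) ℓ‖ ^ 2 ≤ 2 / (κ * ‖x‖ ^ 2) * ‖ℓ‖ ^ 2 := by gcongr
  linarith

/-- the displacement `exp(sU)(x+u) - x` -/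
theorem disp {U : H →L[ℂ] H} (hU : ‖U‖ ≤ 1) (x u : H) {s : ℂ} (hu : ‖u‖ ≤ 1) (hs : ‖s‖ ≤ 1) :
    ‖(EU U s) (x + u) - x - (u + s • U x)‖ ≤ (2 * ‖x‖ + 3) * (‖s‖ * (‖u‖ + ‖s‖)) := by
  have h1 : (EU U s) (x + u) - x - (u + s • U x) =
      s • U u + (EU U s - 1 - s • U) (x + u) := by
    simp only [sub_apply, smul_apply, one_apply_eq_self, map_add, smul_add]
    abel
  rw [h1]
  have h2 : ‖U u‖ ≤ ‖u‖ := by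
    calc ‖U u‖ ≤ ‖U‖ * ‖u‖ := U.le_opNorm _
      _ ≤ 1 * ‖u‖ := by gcongr
      _ = ‖u‖ := one_mul _
  calc ‖s • U u + (EU U s - 1 - s • U) (x + u)‖
      ≤ ‖s • U u‖ + ‖(EU U s - 1 - s • U) (x + u)‖ := norm_add_le _ _
    _ ≤ ‖s‖ * ‖u‖ + (2 * ‖s‖ ^ 2) * (‖x‖ + ‖u‖) := by
        rw [norm_smul]
        gcongr
        calc ‖(EU U s - 1 - s • U) (x + u)‖ ≤ ‖EU U s - 1 - s • U‖ * ‖x + u‖ :=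
              ContinuousLinearMap.le_opNorm _ _
          _ ≤ (2 * ‖s‖ ^ 2) * (‖x‖ + ‖u‖) := by
            gcongr
            · exact EU_bound2 hU hs
            · exact norm_add_le _ _
    _ ≤ (2 * ‖x‖ + 3) * (‖s‖ * (‖u‖ + ‖s‖)) := by
        have hs0 := norm_nonneg s
        have hu0 := norm_nonneg u
        have hx0 := norm_nonneg x
        nlinarith [mul_nonneg hs0 hu0, mul_nonneg hs0 hs0, mul_nonneg (mul_nonneg hs0 hu0) hx0,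
          mul_nonneg (mul_nonneg hs0 hs0) (sub_nonneg.2 hu)]

theorem inner_disp {U : H →L[ℂ] H} (hU : ‖U‖ ≤ 1) (x u ℓ : H) {s : ℂ} (hu : ‖u‖ ≤ 1)
    (hs : ‖s‖ ≤ 1) {τ : ℝ} (h1 : ‖⟪ℓ, U x⟫_ℂ‖ ≤ τ) (h2 : ‖⟪ℓ, U (U x)⟫_ℂ‖ ≤ τ) :
    RCLike.re ⟪ℓ, u⟫_ℂ - τ * ‖s‖ - τ * ‖s‖ ^ 2 - ‖s‖ * ‖⟪(star U) ℓ, u⟫_ℂ‖ -
      ‖ℓ‖ * (2 * ‖x‖ + 3) * (‖u‖ + ‖s‖) ^ 3 ≤ RCLike.re ⟪ℓ, (EU U s) (x + u) - x⟫_ℂ := by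
  have hexp : (EU U s) (x + u) - x = u + s • U x + s • U u + (s ^ 2 / 2) • U (U x) +
      (s ^ 2 / 2) • U (U u) + (EU U s - 1 - s • U - (s ^ 2 / 2) • U ^ 2 : H →L[ℂ] H) (x + u) := by
    simp only [sub_apply, smul_apply, one_apply_eq_self, map_add, smul_add, pow_two,
      mul_apply_eq_comp]
    abel
  have hsplit : RCLike.re ⟪ℓ, (EU U s) (x + u) - x⟫_ℂ = RCLike.re ⟪ℓ, u⟫_ℂ +
      RCLike.re ⟪ℓ, s • U x⟫_ℂ + RCLike.re ⟪ℓ, s • U u⟫_ℂ + RCLike.re ⟪ℓ, (s ^ 2 / 2) • U (U x)⟫_ℂ +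
      RCLike.re ⟪ℓ, (s ^ 2 / 2) • U (U u)⟫_ℂ +
      RCLike.re ⟪ℓ, (EU U s - 1 - s • U - (s ^ 2 / 2) • U ^ 2 : H →L[ℂ] H) (x + u)⟫_ℂ := by
    conv_lhs => rw [hexp]
    simp only [inner_add_right, map_add]
  rw [hsplit]
  have hre : ∀ z : ℂ, -‖z‖ ≤ RCLike.re z := fun z => by
    have := RCLike.abs_re_le_norm z
    linarith [neg_abs_le (RCLike.re z)]
  have hUle : ∀ y, ‖U y‖ ≤ ‖y‖ := fun y => by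
    calc ‖U y‖ ≤ ‖U‖ * ‖y‖ := U.le_opNorm _
      _ ≤ 1 * ‖y‖ := by gcongr
      _ = ‖y‖ := one_mul _
  have hs0 := norm_nonneg s
  have hu0 := norm_nonneg u
  have hx0 := norm_nonneg x
  have hl0 := norm_nonneg ℓ
  have b1 : ‖⟪ℓ, s • U x⟫_ℂ‖ ≤ τ * ‖s‖ := by
    rw [inner_smul_right, norm_mul, mul_comm]
    gcongr
  have b2 : ‖⟪ℓ, s • U u⟫_ℂ‖ = ‖s‖ * ‖⟪(star U) ℓ, u⟫_ℂ‖ := by
    rw [inner_smul_right, norm_mul, inner_star_left]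
  have hn2 : ‖s ^ 2 / 2‖ = ‖s‖ ^ 2 / 2 := by simp
  have b3 : ‖⟪ℓ, (s ^ 2 / 2) • U (U x)⟫_ℂ‖ ≤ τ * ‖s‖ ^ 2 := by
    rw [inner_smul_right, norm_mul, hn2]
    have hτ : 0 ≤ τ := (norm_nonneg _).trans h1
    nlinarith [sq_nonneg ‖s‖, mul_nonneg hτ (sq_nonneg ‖s‖)]
  have b4 : ‖⟪ℓ, (s ^ 2 / 2) • U (U u)⟫_ℂ‖ ≤ ‖ℓ‖ * (‖s‖ ^ 2 * ‖u‖) := by
    rw [inner_smul_right, norm_mul, hn2]
    have h3 : ‖⟪ℓ, U (U u)⟫_ℂ‖ ≤ ‖ℓ‖ * ‖u‖ :=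
      (norm_inner_le_norm _ _).trans (by gcongr; exact (hUle _).trans (hUle _))
    calc ‖s‖ ^ 2 / 2 * ‖⟪ℓ, U (U u)⟫_ℂ‖ ≤ ‖s‖ ^ 2 / 2 * (‖ℓ‖ * ‖u‖) := by gcongr
      _ ≤ ‖ℓ‖ * (‖s‖ ^ 2 * ‖u‖) := by
        have : 0 ≤ ‖s‖ ^ 2 * (‖ℓ‖ * ‖u‖) := by positivity
        nlinarith
  have b5 : ‖⟪ℓ, (EU U s - 1 - s • U - (s ^ 2 / 2) • U ^ 2 : H →L[ℂ] H) (x + u)⟫_ℂ‖ ≤
      ‖ℓ‖ * ((2 * ‖s‖ ^ 3) * (‖x‖ + 1)) := by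
    calc _ ≤ ‖ℓ‖ * ‖(EU U s - 1 - s • U - (s ^ 2 / 2) • U ^ 2 : H →L[ℂ] H) (x + u)‖ := norm_inner_le_norm _ _
      _ ≤ ‖ℓ‖ * (‖EU U s - 1 - s • U - (s ^ 2 / 2) • U ^ 2‖ * ‖x + u‖) := by
          gcongr; exact ContinuousLinearMap.le_opNorm _ _
      _ ≤ ‖ℓ‖ * ((2 * ‖s‖ ^ 3) * (‖x‖ + 1)) := by
          gcongr
          · exact EU_bound3 hU hs
          · exact (norm_add_le _ _).trans (by gcongr)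
  have c1 := hre ⟪ℓ, s • U x⟫_ℂ
  have c2 := hre ⟪ℓ, s • U u⟫_ℂ
  have c3 := hre ⟪ℓ, (s ^ 2 / 2) • U (U x)⟫_ℂ
  have c4 := hre ⟪ℓ, (s ^ 2 / 2) • U (U u)⟫_ℂ
  have c5 := hre ⟪ℓ, (EU U s - 1 - s • U - (s ^ 2 / 2) • U ^ 2 : H →L[ℂ] H) (x + u)⟫_ℂ
  have hcub : ‖ℓ‖ * (‖s‖ ^ 2 * ‖u‖) + ‖ℓ‖ * ((2 * ‖s‖ ^ 3) * (‖x‖ + 1)) ≤
      ‖ℓ‖ * (2 * ‖x‖ + 3) * (‖u‖ + ‖s‖) ^ 3 := by
    have e1 : ‖s‖ ^ 2 * ‖u‖ ≤ (‖u‖ + ‖s‖) ^ 3 := by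
      have := mul_nonneg (mul_nonneg hu0 hu0) hu0
      have := mul_nonneg (mul_nonneg hu0 hu0) hs0
      have := mul_nonneg (mul_nonneg hu0 hs0) hs0
      have := mul_nonneg (mul_nonneg hs0 hs0) hs0
      nlinarith
    have e2 : ‖s‖ ^ 3 ≤ (‖u‖ + ‖s‖) ^ 3 := by
      gcongr; linarith
    calc _ = ‖ℓ‖ * (‖s‖ ^ 2 * ‖u‖ + 2 * (‖x‖ + 1) * ‖s‖ ^ 3) := by ring
      _ ≤ ‖ℓ‖ * ((‖u‖ + ‖s‖) ^ 3 + 2 * (‖x‖ + 1) * (‖u‖ + ‖s‖) ^ 3) := by gcongr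
      _ = _ := by ring
  rw [b2] at c2
  linarith

/-- the constant in front of the cubic terms -/
noncomputable def Gam (x ℓ : H) (κ : ℝ) (bs : List H) : ℝ :=
  ‖ℓ‖ * (2 * ‖x‖ + 3) + 2 * κ * ((1 + ‖x‖) * (2 * ‖x‖ + 3)) + 3 * (qn bs * (2 * ‖x‖ + 3) ^ 2)

/-- the growth constant -/
noncomputable def mm (x : H) (κ : ℝ) : ℝ := min (κ / 2) (κ * ‖x‖ ^ 2 / 2)

theorem lower {q : H → ℝ} {x ℓ : H} {κ ρ : ℝ} {bs : List H} (hSt : St q x ℓ κ bs ρ)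
    {U : H →L[ℂ] H} (hUi : ∀ v, ‖U v‖ = ‖v‖) (hU : ‖U‖ ≤ 1) {τ δ : ℝ} {c : ℂ}
    (hδ1 : 2 * δ ≤ 1) (hδρ : 2 * δ * (3 * ‖x‖ + 4) ≤ ρ)
    (hδΓ : Gam x ℓ κ bs * (2 * δ) ≤ mm x κ / 4)
    (hτ : 16 * τ ≤ κ * ‖x‖ ^ 2) (h1 : ‖⟪ℓ, U x⟫_ℂ‖ ≤ τ) (h2 : ‖⟪ℓ, U (U x)⟫_ℂ‖ ≤ τ)
    (h3 : qf bs (U x) ≤ τ) (hc : ‖c‖ ≤ τ) {u : H} {s : ℂ} (hu : ‖u‖ ≤ δ) (hs : ‖s‖ ≤ δ) :
    Real.log (q x) - 2 * τ * (‖u‖ + ‖s‖) + mm x κ / 4 * (‖u‖ + ‖s‖) ^ 2 ≤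
      Real.log (q ((EU U s) (x + u))) - RCLike.re ⟪ℓ, u⟫_ℂ - (s * c).re +
        qf (nbs κ U x ℓ bs) u - κ / 2 * ‖u‖ ^ 2 := by
  obtain ⟨hκ, hρ, hρx, hmain⟩ := hSt
  have hs0 := norm_nonneg s
  have hu0 := norm_nonneg u
  have hx0 : 0 < ‖x‖ := hρ.trans hρx
  have hl0 := norm_nonneg ℓ
  have hqn := qn_nonneg bs
  have hu1 : ‖u‖ ≤ 1 := by linarith
  have hs1 : ‖s‖ ≤ 1 := by linarith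
  set ω : ℝ := ‖u‖ + ‖s‖ with hω
  have hω0 : 0 ≤ ω := by positivity
  have hω1 : ω ≤ 1 := by linarith
  have hω2 : ω ≤ 2 * δ := by linarith
  have hsω : ‖s‖ ≤ ω := by linarith
  set v : H := (EU U s) (x + u) - x with hv
  set e : H := v - (u + s • U x) with he
  have hve : v = (u + s • U x) + e := by rw [he]; abel
  have hd := disp hU x u hu1 hs1
  have hel : ‖e‖ ≤ (2 * ‖x‖ + 3) * ω ^ 2 := by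
    refine hd.trans ?_
    have : ‖s‖ * (‖u‖ + ‖s‖) ≤ ω ^ 2 := by
      rw [pow_two]
      exact mul_le_mul_of_nonneg_right hsω hω0
    gcongr
  have hwl : ‖u + s • U x‖ ≤ (1 + ‖x‖) * ω := by
    calc ‖u + s • U x‖ ≤ ‖u‖ + ‖s‖ * ‖x‖ := by
          refine (norm_add_le _ _).trans ?_
          rw [norm_smul, hUi]
      _ ≤ (1 + ‖x‖) * ω := by
          rw [hω]
          nlinarith [mul_nonneg hu0 hx0.le]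
  have hωsq : ω ^ 2 ≤ ω := by nlinarith
  have hvl : ‖v‖ ≤ ρ := by
    calc ‖v‖ ≤ ‖u + s • U x‖ + ‖e‖ := by
          conv_lhs => rw [hve]
          exact norm_add_le _ _
      _ ≤ (1 + ‖x‖) * ω + (2 * ‖x‖ + 3) * ω := by
          have : (2 * ‖x‖ + 3) * ω ^ 2 ≤ (2 * ‖x‖ + 3) * ω := by gcongr
          linarith
      _ = ω * (3 * ‖x‖ + 4) := by ring
      _ ≤ 2 * δ * (3 * ‖x‖ + 4) := by gcongr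
      _ ≤ ρ := hδρ
  have hm := hmain v hvl
  have hxv : x + v = (EU U s) (x + u) := by rw [hv]; abel
  rw [hxv] at hm
  -- the three estimates
  have k1 := inner_disp hU x u ℓ hu1 hs1 h1 h2
  rw [← hv, ← hω] at k1
  have k2 : ‖u‖ ^ 2 + ‖s‖ ^ 2 * ‖x‖ ^ 2 - 2 * (‖s‖ * ‖⟪U x, u⟫_ℂ‖) -
      2 * ((1 + ‖x‖) * (2 * ‖x‖ + 3)) * ω ^ 3 ≤ ‖v‖ ^ 2 := by
    have e1 : ‖v‖ ^ 2 = ‖u + s • U x‖ ^ 2 + 2 * RCLike.re ⟪u + s • U x, e⟫_ℂ + ‖e‖ ^ 2 := by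
      conv_lhs => rw [hve]
      exact @norm_add_sq ℂ _ _ _ _ _ _
    have e2 : ‖u + s • U x‖ ^ 2 = ‖u‖ ^ 2 + 2 * RCLike.re ⟪u, s • U x⟫_ℂ + ‖s • U x‖ ^ 2 :=
      @norm_add_sq ℂ _ _ _ _ _ _
    have e3 : ‖s • U x‖ ^ 2 = ‖s‖ ^ 2 * ‖x‖ ^ 2 := by
      rw [norm_smul, hUi, mul_pow]
    have e4 : -(‖s‖ * ‖⟪U x, u⟫_ℂ‖) ≤ RCLike.re ⟪u, s • U x⟫_ℂ := by
      have e5 : ‖⟪u, s • U x⟫_ℂ‖ = ‖s‖ * ‖⟪U x, u⟫_ℂ‖ := by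
        rw [inner_smul_right, norm_mul, norm_inner_symm]
      have := RCLike.abs_re_le_norm ⟪u, s • U x⟫_ℂ
      rw [e5] at this
      linarith [neg_abs_le (RCLike.re ⟪u, s • U x⟫_ℂ)]
    have e6 : -((1 + ‖x‖) * (2 * ‖x‖ + 3) * ω ^ 3) ≤ RCLike.re ⟪u + s • U x, e⟫_ℂ := by
      have e7 : ‖⟪u + s • U x, e⟫_ℂ‖ ≤ ((1 + ‖x‖) * ω) * ((2 * ‖x‖ + 3) * ω ^ 2) :=
        (norm_inner_le_norm _ _).trans (mul_le_mul hwl hel (norm_nonneg _) (by positivity))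
      have := RCLike.abs_re_le_norm ⟪u + s • U x, e⟫_ℂ
      have e8 : ((1 + ‖x‖) * ω) * ((2 * ‖x‖ + 3) * ω ^ 2) =
          (1 + ‖x‖) * (2 * ‖x‖ + 3) * ω ^ 3 := by ring
      rw [e8] at e7
      linarith [neg_abs_le (RCLike.re ⟪u + s • U x, e⟫_ℂ)]
    rw [e1, e2, e3]
    have e9 : 0 ≤ ‖e‖ ^ 2 := by positivity
    linarith
  have k3 : qf bs v ≤ 3 * qf bs u + 3 * τ * ‖s‖ ^ 2 + 3 * (qn bs * (2 * ‖x‖ + 3) ^ 2) * ω ^ 3 := by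
    have e1 : qf bs v ≤ 3 * (qf bs u + qf bs (s • U x) + qf bs e) := by
      conv_lhs => rw [hve]
      exact qf_add3 bs u (s • U x) e
    have e2 : qf bs (s • U x) ≤ ‖s‖ ^ 2 * τ := by
      rw [qf_smul]; gcongr
    have e3 : qf bs e ≤ qn bs * (2 * ‖x‖ + 3) ^ 2 * ω ^ 3 := by
      have e4 : ‖e‖ ^ 2 ≤ (2 * ‖x‖ + 3) ^ 2 * ω ^ 3 := by
        calc ‖e‖ ^ 2 ≤ ((2 * ‖x‖ + 3) * ω ^ 2) ^ 2 := by gcongr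
          _ = (2 * ‖x‖ + 3) ^ 2 * (ω ^ 3 * ω) := by ring
          _ ≤ (2 * ‖x‖ + 3) ^ 2 * (ω ^ 3 * 1) := by gcongr
          _ = _ := by ring
      calc qf bs e ≤ qn bs * ‖e‖ ^ 2 := qf_le bs e
        _ ≤ qn bs * ((2 * ‖x‖ + 3) ^ 2 * ω ^ 3) := by gcongr
        _ = _ := by ring
    linarith
  -- AM-GM
  have hx2 : 0 < ‖x‖ ^ 2 := by positivity
  have a1 : 2 * κ * (‖s‖ * ‖⟪U x, u⟫_ℂ‖) ≤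
      κ * ‖x‖ ^ 2 / 8 * ‖s‖ ^ 2 + (8 * κ / ‖x‖ ^ 2) * ‖⟪U x, u⟫_ℂ‖ ^ 2 := by
    have := sq_nonneg (‖x‖ * ‖s‖ - 8 * ‖⟪U x, u⟫_ℂ‖ / ‖x‖)
    have e1 : (‖x‖ * ‖s‖ - 8 * ‖⟪U x, u⟫_ℂ‖ / ‖x‖) ^ 2 =
        ‖x‖ ^ 2 * ‖s‖ ^ 2 - 16 * (‖s‖ * ‖⟪U x, u⟫_ℂ‖) + 64 / ‖x‖ ^ 2 * ‖⟪U x, u⟫_ℂ‖ ^ 2 := by
      field_simp
      ring
    rw [e1] at this
    have e2 : (8 * κ / ‖x‖ ^ 2) * ‖⟪U x, u⟫_ℂ‖ ^ 2 =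
        κ / 8 * (64 / ‖x‖ ^ 2 * ‖⟪U x, u⟫_ℂ‖ ^ 2) := by
      field_simp
      ring
    rw [e2]
    nlinarith [mul_nonneg hκ.le this]
  have a2 : ‖s‖ * ‖⟪(star U) ℓ, u⟫_ℂ‖ ≤
      κ * ‖x‖ ^ 2 / 8 * ‖s‖ ^ 2 + (2 / (κ * ‖x‖ ^ 2)) * ‖⟪(star U) ℓ, u⟫_ℂ‖ ^ 2 := by
    set y : ℝ := ‖⟪(star U) ℓ, u⟫_ℂ‖ with hy
    set K : ℝ := κ * ‖x‖ ^ 2 with hK
    have hKp : 0 < K := by positivity
    have e1 : K / 8 * ‖s‖ ^ 2 + 2 / K * y ^ 2 - ‖s‖ * y =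
        (K * ‖s‖ - 4 * y) ^ 2 / (8 * K) := by
      field_simp
      ring
    have e2 : 0 ≤ (K * ‖s‖ - 4 * y) ^ 2 / (8 * K) := by positivity
    linarith
  have hsc : (s * c).re ≤ τ * ‖s‖ := by
    calc (s * c).re ≤ ‖s * c‖ := Complex.re_le_norm _
      _ = ‖s‖ * ‖c‖ := norm_mul _ _
      _ ≤ ‖s‖ * τ := by gcongr
      _ = τ * ‖s‖ := mul_comm _ _
  rw [qf_nbs hκ]
  have hmm1 : mm x κ ≤ κ / 2 := min_le_left _ _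
  have hmm2 : mm x κ ≤ κ * ‖x‖ ^ 2 / 2 := min_le_right _ _
  have hmm0 : 0 < mm x κ := lt_min (by positivity) (by positivity)
  have q1 : κ * (‖u‖ ^ 2 + ‖s‖ ^ 2 * ‖x‖ ^ 2 - 2 * (‖s‖ * ‖⟪U x, u⟫_ℂ‖) -
      2 * ((1 + ‖x‖) * (2 * ‖x‖ + 3)) * ω ^ 3) ≤ κ * ‖v‖ ^ 2 :=
    mul_le_mul_of_nonneg_left k2 hκ.le
  have q2 : 4 * τ * ‖s‖ ^ 2 ≤ κ * ‖x‖ ^ 2 / 4 * ‖s‖ ^ 2 := by
    have : 4 * τ ≤ κ * ‖x‖ ^ 2 / 4 := by linarith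
    gcongr
  have q3 : mm x κ / 2 * ω ^ 2 ≤ κ / 2 * ‖u‖ ^ 2 + κ * ‖x‖ ^ 2 / 2 * ‖s‖ ^ 2 := by
    have e1 : ω ^ 2 ≤ 2 * (‖u‖ ^ 2 + ‖s‖ ^ 2) := by
      rw [hω]; nlinarith [sq_nonneg (‖u‖ - ‖s‖)]
    have e2 : mm x κ * ‖u‖ ^ 2 ≤ κ / 2 * ‖u‖ ^ 2 := by gcongr
    have e3 : mm x κ * ‖s‖ ^ 2 ≤ κ * ‖x‖ ^ 2 / 2 * ‖s‖ ^ 2 := by gcongr
    nlinarith
  have q4 : Gam x ℓ κ bs * ω ^ 3 ≤ mm x κ / 4 * ω ^ 2 := by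
    have hG0 : 0 ≤ Gam x ℓ κ bs := by unfold Gam; positivity
    calc Gam x ℓ κ bs * ω ^ 3 = (Gam x ℓ κ bs * ω) * ω ^ 2 := by ring
      _ ≤ (Gam x ℓ κ bs * (2 * δ)) * ω ^ 2 := by gcongr
      _ ≤ mm x κ / 4 * ω ^ 2 := by gcongr
  have q5 : Gam x ℓ κ bs * ω ^ 3 = ‖ℓ‖ * (2 * ‖x‖ + 3) * ω ^ 3 +
      κ * (2 * ((1 + ‖x‖) * (2 * ‖x‖ + 3)) * ω ^ 3) +
      3 * (qn bs * (2 * ‖x‖ + 3) ^ 2) * ω ^ 3 := by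
    unfold Gam; ring
  have q6 : τ * ‖s‖ ≤ τ * ω := by
    have hτ0 : 0 ≤ τ := (norm_nonneg _).trans h1
    gcongr
  linarith

end R289.NH
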