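import Pool.Agent.R289.NH4

/-!
# The minimisation step
-/

namespace R289.NH

open Filter Topology
open scoped InnerProductSpace
open R289.VN

variable {H : Type*} [NormedAddCommGroup H] [InnerProductSpace ℂ H] [CompleteSpace H]

theorem minprob {Φ : H → ℂ → ℝ} {x : H} {δ : ℝ} (hδ : 0 ≤ δ)
    (hcont : ContinuousOn (fun z : H × ℂ => Φ z.1 z.2) {z | ‖z.1 - x‖ ≤ δ ∧ ‖z.2‖ ≤ δ})
    (hbdd : ∃ c, ∀ h s, ‖h - x‖ ≤ δ → ‖s‖ ≤ δ → c ≤ Φ h s) {lam : ℝ} (hl : 0 < lam) :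
    ∃ (p : H) (σ : ℂ) (h0 : H) (s0 : ℂ), ‖h0 - x‖ ≤ δ ∧ ‖s0‖ ≤ δ ∧ ‖p - x‖ ≤ 2 * δ ∧
      ‖σ‖ ≤ 2 * δ ∧ ∀ h s, ‖h - x‖ ≤ δ → ‖s‖ ≤ δ →
        Φ h0 s0 + lam * (‖h0 - p‖ ^ 2 + ‖s0 - σ‖ ^ 2) ≤
          Φ h s + lam * (‖h - p‖ ^ 2 + ‖s - σ‖ ^ 2) := by
  let E := WithLp 2 (H × ℂ)
  let D : Set E := {z | ‖z.fst - x‖ ≤ δ ∧ ‖z.snd‖ ≤ δ}
  have hfst : Continuous (fun z : E => z.fst) := WithLp.continuous_fst 2 H ℂ
  have hsnd : Continuous (fun z : E => z.snd) := WithLp.continuous_snd 2 H ℂ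
  have hD : IsClosed D :=
    (isClosed_le (hfst.sub continuous_const).norm continuous_const).inter
      (isClosed_le hsnd.norm continuous_const)
  let z0 : E := WithLp.toLp 2 (x, 0)
  have hz0 : z0 ∈ D := by
    constructor
    · show ‖x - x‖ ≤ δ
      rw [sub_self, norm_zero]; exact hδ
    · show ‖(0 : ℂ)‖ ≤ δ
      rw [norm_zero]; exact hδ
  have hnsq : ∀ z : E, ‖z‖ ^ 2 = ‖z.fst‖ ^ 2 + ‖z.snd‖ ^ 2 := fun z =>
    WithLp.prod_norm_sq_eq_of_L2 z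
  have hR : ∀ z ∈ D, ‖z - z0‖ ≤ 2 * δ := by
    intro z hz
    have h1 : ‖z - z0‖ ^ 2 ≤ (2 * δ) ^ 2 := by
      rw [hnsq, WithLp.sub_fst, WithLp.sub_snd]
      have e1 : ‖z.fst - z0.fst‖ ≤ δ := hz.1
      have e2 : ‖z.snd - z0.snd‖ ≤ δ := by
        show ‖z.snd - 0‖ ≤ δ
        rw [sub_zero]; exact hz.2
      have e3 : ‖z.fst - z0.fst‖ ^ 2 ≤ δ ^ 2 := by gcongr
      have e4 : ‖z.snd - z0.snd‖ ^ 2 ≤ δ ^ 2 := by gcongr
      nlinarith [sq_nonneg δ]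
    exact le_of_sq_le_sq h1 (by positivity)
  let Ψ : E → ℝ := fun z => Φ z.fst z.snd
  have hΨ : ContinuousOn Ψ D := by
    have h1 : Set.MapsTo (fun z : E => ((z.fst, z.snd) : H × ℂ)) D
        {z | ‖z.1 - x‖ ≤ δ ∧ ‖z.2‖ ≤ δ} := fun z hz => hz
    exact hcont.comp ((hfst.prodMk hsnd).continuousOn) h1
  have hb : BddBelow (Ψ '' D) := by
    obtain ⟨c, hc⟩ := hbdd
    refine ⟨c, ?_⟩
    rintro _ ⟨z, hz, rfl⟩
    exact hc _ _ hz.1 hz.2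
  obtain ⟨p, zb, hzb, hp, hmin⟩ := quad_min hD hΨ hb hz0 hR hl
  have hpn : ‖p - z0‖ ^ 2 ≤ (2 * δ) ^ 2 := by gcongr
  rw [hnsq, WithLp.sub_fst, WithLp.sub_snd] at hpn
  refine ⟨p.fst, p.snd, zb.fst, zb.snd, hzb.1, hzb.2, ?_, ?_, ?_⟩
  · have e1 : ‖p.fst - x‖ ^ 2 ≤ (2 * δ) ^ 2 := by
      have e2 : 0 ≤ ‖p.snd - z0.snd‖ ^ 2 := by positivity
      have e3 : ‖p.fst - z0.fst‖ ^ 2 ≤ (2 * δ) ^ 2 := by linarith
      exact e3
    exact le_of_sq_le_sq e1 (by positivity)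
  · have e1 : ‖p.snd‖ ^ 2 ≤ (2 * δ) ^ 2 := by
      have e2 : 0 ≤ ‖p.fst - z0.fst‖ ^ 2 := by positivity
      have e3 : ‖p.snd - z0.snd‖ ^ 2 ≤ (2 * δ) ^ 2 := by linarith
      have e4 : p.snd - z0.snd = p.snd := by
        show p.snd - 0 = p.snd
        rw [sub_zero]
      rwa [e4] at e3
    exact le_of_sq_le_sq e1 (by positivity)
  · intro h s hh hs
    have h1 := hmin (WithLp.toLp 2 (h, s)) ⟨hh, hs⟩
    rw [hnsq, hnsq, WithLp.sub_fst, WithLp.sub_snd, WithLp.sub_fst, WithLp.sub_snd] at h1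
    exact h1

theorem stat_zero {a : ℂ} {K η : ℝ} (hη : 0 < η)
    (h : ∀ σ : ℂ, ‖σ‖ ≤ η → 0 ≤ (σ * a).re + K * ‖σ‖ ^ 2) : a = 0 := by
  by_contra ha
  have ha' : 0 < ‖a‖ := norm_pos_iff.2 ha
  obtain ⟨t, ht0, ht1, ht2⟩ : ∃ t : ℝ, 0 < t ∧ t * ‖a‖ ≤ η ∧ K * t < 1 := by
    refine ⟨min (η / ‖a‖) (1 / (|K| + 1)), by positivity, ?_, ?_⟩
    · calc min (η / ‖a‖) (1 / (|K| + 1)) * ‖a‖ ≤ η / ‖a‖ * ‖a‖ := by gcongr; exact min_le_left _ _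
        _ = η := by field_simp
    · have h1 : min (η / ‖a‖) (1 / (|K| + 1)) ≤ 1 / (|K| + 1) := min_le_right _ _
      have h2 : 0 < min (η / ‖a‖) (1 / (|K| + 1)) := by positivity
      calc K * min (η / ‖a‖) (1 / (|K| + 1)) ≤ |K| * min (η / ‖a‖) (1 / (|K| + 1)) := by
            gcongr; exact le_abs_self K
        _ ≤ |K| * (1 / (|K| + 1)) := by gcongr
        _ < 1 := by
            rw [mul_one_div, div_lt_one (by positivity)]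
            linarith
  have h1 := h (-(t : ℂ) * (starRingEnd ℂ) a) (by
    rw [norm_mul, norm_neg, Complex.norm_real, Real.norm_eq_abs, abs_of_pos ht0, RCLike.norm_conj]
    exact ht1)
  have h2 : (-(t : ℂ) * (starRingEnd ℂ) a * a).re = -(t * ‖a‖ ^ 2) := by
    rw [mul_assoc, ← Complex.normSq_eq_conj_mul_self, Complex.normSq_eq_norm_sq,
      ← Complex.ofReal_neg, ← Complex.ofReal_mul, Complex.ofReal_re]
    ring
  have h3 : ‖-(t : ℂ) * (starRingEnd ℂ) a‖ ^ 2 = t ^ 2 * ‖a‖ ^ 2 := by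
    rw [norm_mul, norm_neg, Complex.norm_real, Real.norm_eq_abs, abs_of_pos ht0, RCLike.norm_conj]
    ring
  rw [h2, h3] at h1
  have h4 : 0 < t * ‖a‖ ^ 2 * (1 - K * t) := by
    have : 0 < 1 - K * t := by linarith
    positivity
  nlinarith

theorem minim {q : H → ℝ} {a b : ℝ} (hq : EqN q a b) {x ℓ : H} {κ ρ : ℝ} {bs : List H}
    (hSt : St q x ℓ κ bs ρ)
    {U : H →L[ℂ] H} (hUi : ∀ v, ‖U v‖ = ‖v‖) (hU : ‖U‖ ≤ 1) {τ δ t lam : ℝ} {c : ℂ}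
    (hδ0 : 0 < δ) (hδ1 : 2 * δ ≤ 1) (hδρ : 2 * δ * (3 * ‖x‖ + 4) ≤ ρ)
    (hδΓ : Gam x ℓ κ bs * (2 * δ) ≤ mm x κ / 4)
    (hτ : 16 * τ ≤ κ * ‖x‖ ^ 2) (h1 : ‖⟪ℓ, U x⟫_ℂ‖ ≤ τ) (h2 : ‖⟪ℓ, U (U x)⟫_ℂ‖ ≤ τ)
    (h3 : qf bs (U x) ≤ τ) (hc : ‖c‖ ≤ τ)
    (ht0 : 0 < t) (htδ : t ≤ δ / 2) (hτt : 16 * τ ≤ mm x κ * t) (hlam : 0 < lam)
    (hlamt : 32 * (lam * (2 * δ ^ 2)) < mm x κ * t ^ 2) (hlamκ : lam ≤ κ / 4) :
    ∃ y0 ℓ' : H, Good q y0 ℓ' ∧ ‖y0 - x‖ ≤ (3 * ‖x‖ + 4) * t ∧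
      ‖ℓ' - ℓ‖ ≤ 2 * (2 * (qn (nbs κ U x ℓ bs) * t) + κ * t + 8 * (lam * δ)) + 2 * (t * ‖ℓ‖) ∧
      ‖⟪ℓ', U y0⟫_ℂ - c‖ ≤ 8 * (lam * δ) := by
  have hlower := @lower H _ _ _ q x ℓ κ ρ bs hSt U hUi hU τ δ c hδ1 hδρ hδΓ hτ h1 h2 h3 hc
  obtain ⟨hκ, hρ, hρx, hmain⟩ := hSt
  have hx0 : 0 < ‖x‖ := hρ.trans hρx
  have hmm0 : 0 < mm x κ := lt_min (by positivity) (by positivity)
  have hτ0 : 0 ≤ τ := (norm_nonneg _).trans h1
  have hδx : δ < ‖x‖ := by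
    have : δ ≤ 2 * δ * (3 * ‖x‖ + 4) := by nlinarith
    linarith
  set bs' := nbs κ U x ℓ bs with hbs'
  have hqn' : 0 ≤ qn bs' := qn_nonneg _
  let Φ : H → ℂ → ℝ := fun h s => Real.log (q ((EU U s) h)) - RCLike.re ⟪ℓ, h - x⟫_ℂ -
    (s * c).re + qf bs' (h - x) - κ / 2 * ‖h - x‖ ^ 2
  have hEne : ∀ (s : ℂ) (h : H), h ≠ 0 → (EU U s) h ≠ 0 := by
    intro s h hh h0
    apply hh
    have : (EU U (-s)) ((EU U s) h) = h := by
      rw [← mul_apply_eq_comp, EU_neg_mul, one_apply_eq_self]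
    rw [← this, h0, map_zero]
  have hcont : ContinuousOn (fun z : H × ℂ => Φ z.1 z.2) {z | ‖z.1 - x‖ ≤ δ ∧ ‖z.2‖ ≤ δ} := by
    have c1 : Continuous (fun z : H × ℂ => (EU U z.2) z.1) :=
      ((EU_continuous (U := U)).comp continuous_snd).clm_apply continuous_fst
    have c2 : ContinuousOn (fun z : H × ℂ => Real.log (q ((EU U z.2) z.1)))
        {z | ‖z.1 - x‖ ≤ δ ∧ ‖z.2‖ ≤ δ} := by
      apply ContinuousOn.log (hq.cont.comp c1).continuousOn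
      rintro ⟨h, s⟩ ⟨hh, _⟩
      apply (hq.qpos _).ne'
      apply hEne
      rintro rfl
      rw [zero_sub, norm_neg] at hh
      linarith
    have c3 : Continuous (fun z : H × ℂ => RCLike.re ⟪ℓ, z.1 - x⟫_ℂ) := by fun_prop
    have c4 : Continuous (fun z : H × ℂ => (z.2 * c).re) := by fun_prop
    have c5 : Continuous (fun z : H × ℂ => qf bs' (z.1 - x)) :=
      (qf_continuous bs').comp (continuous_fst.sub continuous_const)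
    have c6 : Continuous (fun z : H × ℂ => κ / 2 * ‖z.1 - x‖ ^ 2) := by fun_prop
    exact (((c2.sub c3.continuousOn).sub c4.continuousOn).add c5.continuousOn).sub c6.continuousOn
  have hΦlow : ∀ h s, ‖h - x‖ ≤ δ → ‖s‖ ≤ δ →
      Real.log (q x) - 2 * τ * (‖h - x‖ + ‖s‖) + mm x κ / 4 * (‖h - x‖ + ‖s‖) ^ 2 ≤ Φ h s := by
    intro h s hh hs
    have := hlower hh hs
    rwa [show x + (h - x) = h by abel] at this
  have hbdd : ∃ c0, ∀ h s, ‖h - x‖ ≤ δ → ‖s‖ ≤ δ → c0 ≤ Φ h s := by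
    refine ⟨Real.log (q x) - 2 * τ * (2 * δ), fun h s hh hs => ?_⟩
    have e1 := hΦlow h s hh hs
    have e2 : 2 * τ * (‖h - x‖ + ‖s‖) ≤ 2 * τ * (2 * δ) := by
      have : ‖h - x‖ + ‖s‖ ≤ 2 * δ := by linarith
      gcongr
    have e3 : 0 ≤ mm x κ / 4 * (‖h - x‖ + ‖s‖) ^ 2 := by positivity
    linarith
  obtain ⟨p, σ, h0, s0, hh0, hs0, hp, hσ, hmin⟩ := minprob hδ0.le hcont hbdd hlam
  set u0 : H := h0 - x with hu0
  have hh0u : h0 = x + u0 := by rw [hu0]; abel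
  -- the minimiser is close to `(x, 0)`
  have hΦx : Φ x 0 = Real.log (q x) := by
    show Real.log (q ((EU U 0) x)) - RCLike.re ⟪ℓ, x - x⟫_ℂ - ((0 : ℂ) * c).re + qf bs' (x - x) -
      κ / 2 * ‖x - x‖ ^ 2 = _
    rw [EU_zero, one_apply_eq_self, sub_self, inner_zero_right, zero_mul, norm_zero]
    have : qf bs' (0 : H) = 0 := by
      have e1 := qf_le bs' (0 : H)
      have e2 := qf_nonneg bs' (0 : H)
      rw [norm_zero] at e1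
      have e3 : qn bs' * (0 : ℝ) ^ 2 = 0 := by ring
      linarith
    rw [this]
    simp
  have hω : ‖u0‖ + ‖s0‖ < t := by
    by_contra hcon
    push Not at hcon
    set ω : ℝ := ‖u0‖ + ‖s0‖ with hω
    have e1 := hmin x 0 (by rw [sub_self, norm_zero]; exact hδ0.le) (by rw [norm_zero]; exact hδ0.le)
    rw [hΦx] at e1
    have e2 := hΦlow h0 s0 hh0 hs0
    rw [← hu0, ← hω] at e2
    have e3 : ‖x - p‖ ^ 2 ≤ (2 * δ) ^ 2 := by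
      rw [norm_sub_rev]; gcongr
    have e4 : ‖(0 : ℂ) - σ‖ ^ 2 ≤ (2 * δ) ^ 2 := by
      rw [zero_sub, norm_neg]; gcongr
    have e5 : 0 ≤ lam * (‖h0 - p‖ ^ 2 + ‖s0 - σ‖ ^ 2) := by positivity
    have e6 : lam * (‖x - p‖ ^ 2 + ‖(0 : ℂ) - σ‖ ^ 2) ≤ lam * ((2 * δ) ^ 2 + (2 * δ) ^ 2) := by
      gcongr
    have e7 : mm x κ / 4 * ω ^ 2 - 2 * τ * ω ≤ lam * ((2 * δ) ^ 2 + (2 * δ) ^ 2) := by linarith
    have hω0 : 0 ≤ ω := by positivity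
    have e8 : 2 * τ ≤ mm x κ / 8 * ω := by
      have : mm x κ * t ≤ mm x κ * ω := by gcongr
      linarith
    have e9 : 2 * τ * ω ≤ mm x κ / 8 * ω * ω := by gcongr
    have e10 : mm x κ / 8 * t ^ 2 ≤ mm x κ / 8 * ω ^ 2 := by gcongr
    linarith
  have hu0t : ‖u0‖ < t := by linarith [norm_nonneg s0]
  have hs0t : ‖s0‖ < t := by linarith [norm_nonneg u0]
  obtain ⟨qv, hqv, hqvp⟩ := qf_polar bs' u0
  set D : H := ℓ - (2 : ℂ) • qv + (κ : ℂ) • u0 - ((2 * lam : ℝ) : ℂ) • (h0 - p) with hD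
  have hDin : ∀ g, RCLike.re ⟪D, g⟫_ℂ = RCLike.re ⟪ℓ, g⟫_ℂ - 2 * RCLike.re ⟪qv, g⟫_ℂ +
      κ * RCLike.re ⟪u0, g⟫_ℂ - 2 * lam * RCLike.re ⟪h0 - p, g⟫_ℂ := by
    intro g
    rw [hD, inner_sub_left, inner_add_left, inner_sub_left, inner_smul_left, inner_smul_left,
      inner_smul_left, map_sub, map_add, map_sub]
    have f1 : RCLike.re ((starRingEnd ℂ) (2 : ℂ) * ⟪qv, g⟫_ℂ) = 2 * RCLike.re ⟪qv, g⟫_ℂ := by
      have : (starRingEnd ℂ) (2 : ℂ) = ((2 : ℝ) : ℂ) := by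
        rw [← Complex.ofReal_ofNat, Complex.conj_ofReal]
      rw [this, RCLike.re_to_complex, Complex.re_ofReal_mul]; rfl
    have f2 : RCLike.re ((starRingEnd ℂ) (κ : ℂ) * ⟪u0, g⟫_ℂ) = κ * RCLike.re ⟪u0, g⟫_ℂ := by
      rw [Complex.conj_ofReal, RCLike.re_to_complex, Complex.re_ofReal_mul]; rfl
    have f3 : RCLike.re ((starRingEnd ℂ) ((2 * lam : ℝ) : ℂ) * ⟪h0 - p, g⟫_ℂ) =
        2 * lam * RCLike.re ⟪h0 - p, g⟫_ℂ := by
      rw [Complex.conj_ofReal, RCLike.re_to_complex, Complex.re_ofReal_mul]; rfl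
    rw [f1, f2, f3]
  -- the reformulated minimality
  have hmin' : ∀ (g : H) (s : ℂ), ‖u0 + g‖ ≤ δ → ‖s‖ ≤ δ →
      Real.log (q ((EU U s0) h0)) + RCLike.re ⟪D, g⟫_ℂ + (κ / 2 - lam) * ‖g‖ ^ 2 - qf bs' g +
        ((s - s0) * c).re - lam * (‖s - σ‖ ^ 2 - ‖s0 - σ‖ ^ 2) ≤
      Real.log (q ((EU U s) (h0 + g))) := by
    intro g s hg hs
    have e0 : h0 + g - x = u0 + g := by rw [hu0]; abel
    have e1 := hmin (h0 + g) s (by rw [e0]; exact hg) hs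
    simp only [Φ] at e1
    rw [e0, ← hu0, hqvp g] at e1
    have e2 : RCLike.re ⟪ℓ, u0 + g⟫_ℂ = RCLike.re ⟪ℓ, u0⟫_ℂ + RCLike.re ⟪ℓ, g⟫_ℂ := by
      rw [inner_add_right, map_add]
    have e3 : ‖u0 + g‖ ^ 2 = ‖u0‖ ^ 2 + 2 * RCLike.re ⟪u0, g⟫_ℂ + ‖g‖ ^ 2 :=
      @norm_add_sq ℂ _ _ _ _ _ _
    have e4 : ‖h0 + g - p‖ ^ 2 = ‖h0 - p‖ ^ 2 + 2 * RCLike.re ⟪h0 - p, g⟫_ℂ + ‖g‖ ^ 2 := by
      rw [show h0 + g - p = (h0 - p) + g by abel]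
      exact @norm_add_sq ℂ _ _ _ _ _ _
    have e5 : ((s - s0) * c).re = (s * c).re - (s0 * c).re := by
      rw [sub_mul, Complex.sub_re]
    rw [e2, e3, e4] at e1
    rw [hDin g, e5]
    linarith
  -- the new point
  set y0 : H := (EU U s0) h0 with hy0
  set A : H →L[ℂ] H := EU U (-s0) with hA
  have hAy : A y0 = h0 := by
    rw [hA, hy0, ← mul_apply_eq_comp, EU_neg_mul, one_apply_eq_self]
  have hs01 : ‖s0‖ ≤ 1 / 4 := by linarith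
  have hA1 : ‖A - 1‖ ≤ 2 * ‖s0‖ := by
    have := EU_bound1 (U := U) hU (s := -s0) (by rw [norm_neg]; linarith)
    rwa [norm_neg] at this
  have hE1 : ‖EU U s0 - 1‖ ≤ 2 * ‖s0‖ := EU_bound1 (U := U) hU (by linarith)
  have hAv : ∀ v, ‖A v‖ ≤ 2 * ‖v‖ := by
    intro v
    have e1 : A v = v + (A - 1) v := by rw [sub_apply, one_apply_eq_self]; abel
    calc ‖A v‖ ≤ ‖v‖ + ‖(A - 1) v‖ := by rw [e1]; exact norm_add_le _ _
      _ ≤ ‖v‖ + (2 * ‖s0‖) * ‖v‖ := by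
          gcongr
          exact (ContinuousLinearMap.le_opNorm _ _).trans (by gcongr)
      _ ≤ 2 * ‖v‖ := by nlinarith [norm_nonneg v]
  have hEv : ∀ v, ‖(EU U s0) v‖ ≤ 2 * ‖v‖ := by
    intro v
    have e1 : (EU U s0) v = v + (EU U s0 - 1) v := by rw [sub_apply, one_apply_eq_self]; abel
    calc ‖(EU U s0) v‖ ≤ ‖v‖ + ‖(EU U s0 - 1) v‖ := by rw [e1]; exact norm_add_le _ _
      _ ≤ ‖v‖ + (2 * ‖s0‖) * ‖v‖ := by
          gcongr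
          exact (ContinuousLinearMap.le_opNorm _ _).trans (by gcongr)
      _ ≤ 2 * ‖v‖ := by nlinarith [norm_nonneg v]
  have hEA : ∀ v, (EU U s0) (A v) = v := by
    intro v
    rw [hA, ← mul_apply_eq_comp, EU_mul_neg, one_apply_eq_self]
  have hh0ne : h0 ≠ 0 := by
    intro h
    have : ‖u0‖ = ‖x‖ := by rw [hu0, h, zero_sub, norm_neg]
    linarith
  have hy0ne : y0 ≠ 0 := hEne s0 h0 hh0ne
  have hy0p : 0 < ‖y0‖ := norm_pos_iff.2 hy0ne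
  set ℓ' : H := (star A) D with hℓ'
  have hgood : Good q y0 ℓ' := by
    refine ⟨κ / 16, bs'.map (fun b => (star A) b), min (δ / 4) (‖y0‖ / 2), by positivity,
      by positivity, ?_, ?_⟩
    · exact lt_of_le_of_lt (min_le_right _ _) (by linarith)
    · intro v hv
      have hv4 : ‖v‖ ≤ δ / 4 := hv.trans (min_le_left _ _)
      have e1 := hmin' (A v) s0 (by
        calc ‖u0 + A v‖ ≤ ‖u0‖ + ‖A v‖ := norm_add_le _ _
          _ ≤ δ / 2 + 2 * (δ / 4) := by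
            have := hAv v
            linarith
          _ = δ := by ring) hs0
      rw [map_add, hEA, ← hy0, sub_self, sub_self, zero_mul, Complex.zero_re, mul_zero,
        qf_comp] at e1
      have e2 : RCLike.re ⟪D, A v⟫_ℂ = RCLike.re ⟪ℓ', v⟫_ℂ := by
        rw [hℓ', inner_star_left]
      rw [e2] at e1
      have e3 : ‖v‖ ≤ 2 * ‖A v‖ := by
        have := hEv (A v)
        rwa [hEA] at this
      have e4 : κ / 16 * ‖v‖ ^ 2 ≤ (κ / 2 - lam) * ‖A v‖ ^ 2 := by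
        have e5 : ‖v‖ ^ 2 ≤ (2 * ‖A v‖) ^ 2 := by gcongr
        have e6 : κ / 4 ≤ κ / 2 - lam := by linarith
        calc κ / 16 * ‖v‖ ^ 2 ≤ κ / 16 * (2 * ‖A v‖) ^ 2 := by gcongr
          _ = κ / 4 * ‖A v‖ ^ 2 := by ring
          _ ≤ (κ / 2 - lam) * ‖A v‖ ^ 2 := by gcongr
      linarith
  -- stationarity along the fibre
  have hstat : ⟪D, U h0⟫_ℂ - c + ((2 * lam : ℝ) : ℂ) * (starRingEnd ℂ) (s0 - σ) = 0 := by
    apply stat_zero (K := 2 * (‖D‖ * ‖h0‖) + qn bs' * (2 * ‖h0‖) ^ 2 + lam)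
      (η := min (δ / 2) (δ / (4 * (‖h0‖ + 1)))) (by positivity)
    intro ς hς
    have hς1 : ‖ς‖ ≤ δ / 2 := hς.trans (min_le_left _ _)
    have hς2 : ‖ς‖ ≤ δ / (4 * (‖h0‖ + 1)) := hς.trans (min_le_right _ _)
    have hς3 : ‖ς‖ * ‖h0‖ ≤ δ / 4 := by
      have e1 : 0 < ‖h0‖ + 1 := by positivity
      calc ‖ς‖ * ‖h0‖ ≤ δ / (4 * (‖h0‖ + 1)) * (‖h0‖ + 1) := by
            gcongr; linarith
        _ = δ / 4 := by field_simp
    have hςn : ‖-ς‖ ≤ 1 := by rw [norm_neg]; linarith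
    set g : H := (EU U (-ς)) h0 - h0 with hg
    have hg1 : ‖g‖ ≤ 2 * ‖ς‖ * ‖h0‖ := by
      have e1 : g = (EU U (-ς) - 1) h0 := by rw [sub_apply, one_apply_eq_self]
      rw [e1]
      refine (ContinuousLinearMap.le_opNorm _ _).trans ?_
      have := EU_bound1 (U := U) hU hςn
      rw [norm_neg] at this
      gcongr
    have hg2 : ‖g + ς • U h0‖ ≤ 2 * ‖ς‖ ^ 2 * ‖h0‖ := by
      have e1 : g + ς • U h0 = (EU U (-ς) - 1 - (-ς) • U) h0 := by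
        rw [sub_apply, sub_apply, smul_apply, one_apply_eq_self, neg_smul, hg]
        abel
      rw [e1]
      refine (ContinuousLinearMap.le_opNorm _ _).trans ?_
      have := EU_bound2 (U := U) hU hςn
      rw [norm_neg] at this
      gcongr
    have e1 := hmin' g (s0 + ς) (by
      calc ‖u0 + g‖ ≤ ‖u0‖ + ‖g‖ := norm_add_le _ _
        _ ≤ δ / 2 + 2 * (δ / 4) := by
          have : 2 * ‖ς‖ * ‖h0‖ = 2 * (‖ς‖ * ‖h0‖) := by ring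
          linarith
        _ = δ := by ring) (by
      calc ‖s0 + ς‖ ≤ ‖s0‖ + ‖ς‖ := norm_add_le _ _
        _ ≤ δ := by linarith)
    have e2 : (EU U (s0 + ς)) (h0 + g) = y0 := by
      have f1 : h0 + g = (EU U (-ς)) h0 := by rw [hg]; abel
      rw [f1, ← mul_apply_eq_comp, ← EU_add, add_neg_cancel_right]
    rw [e2, add_sub_cancel_left] at e1
    have e3 : RCLike.re ⟪D, g⟫_ℂ ≥ -(ς * ⟪D, U h0⟫_ℂ).re - ‖D‖ * (2 * ‖ς‖ ^ 2 * ‖h0‖) := by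
      have f1 : ⟪D, g⟫_ℂ = ⟪D, g + ς • U h0⟫_ℂ - ς * ⟪D, U h0⟫_ℂ := by
        rw [inner_add_right, inner_smul_right]; ring
      have f2 : ‖⟪D, g + ς • U h0⟫_ℂ‖ ≤ ‖D‖ * (2 * ‖ς‖ ^ 2 * ‖h0‖) :=
        (norm_inner_le_norm _ _).trans (by gcongr)
      have f3 := Complex.abs_re_le_norm ⟪D, g + ς • U h0⟫_ℂ
      rw [RCLike.re_to_complex, f1, Complex.sub_re]
      linarith [neg_abs_le (⟪D, g + ς • U h0⟫_ℂ).re]
    have e4 : qf bs' g ≤ qn bs' * (2 * ‖h0‖) ^ 2 * ‖ς‖ ^ 2 := by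
      calc qf bs' g ≤ qn bs' * ‖g‖ ^ 2 := qf_le _ _
        _ ≤ qn bs' * (2 * ‖ς‖ * ‖h0‖) ^ 2 := by gcongr
        _ = _ := by ring
    have e5 : ‖s0 + ς - σ‖ ^ 2 - ‖s0 - σ‖ ^ 2 =
        2 * (ς * (starRingEnd ℂ) (s0 - σ)).re + ‖ς‖ ^ 2 := by
      rw [show s0 + ς - σ = (s0 - σ) + ς by ring, Complex.sq_norm, Complex.sq_norm,
        Complex.sq_norm, Complex.normSq_add]
      have f1 : ((s0 - σ) * (starRingEnd ℂ) ς).re = (ς * (starRingEnd ℂ) (s0 - σ)).re := by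
        rw [← Complex.conj_re, map_mul, Complex.conj_conj, mul_comm]
      rw [f1]; ring
    have e6 : 0 ≤ (κ / 2 - lam) * ‖g‖ ^ 2 := by
      have : 0 ≤ κ / 2 - lam := by linarith
      positivity
    rw [e5] at e1
    have e7 : (ς * (⟪D, U h0⟫_ℂ - c + ((2 * lam : ℝ) : ℂ) * (starRingEnd ℂ) (s0 - σ))).re =
        (ς * ⟪D, U h0⟫_ℂ).re - (ς * c).re + 2 * lam * (ς * (starRingEnd ℂ) (s0 - σ)).re := by
      have f1 : ς * (⟪D, U h0⟫_ℂ - c + ((2 * lam : ℝ) : ℂ) * (starRingEnd ℂ) (s0 - σ)) =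
          ς * ⟪D, U h0⟫_ℂ - ς * c + ((2 * lam : ℝ) : ℂ) * (ς * (starRingEnd ℂ) (s0 - σ)) := by ring
      rw [f1, Complex.add_re, Complex.sub_re, Complex.re_ofReal_mul]
    rw [e7]
    linarith
  have hs0σ : ‖s0 - σ‖ ≤ 3 * δ := (norm_sub_le _ _).trans (by linarith)
  have hh0p : ‖h0 - p‖ ≤ 3 * δ := by
    have f1 : h0 - p = u0 - (p - x) := by rw [hu0]; abel
    calc ‖h0 - p‖ = ‖u0 - (p - x)‖ := by rw [f1]
      _ ≤ ‖u0‖ + ‖p - x‖ := norm_sub_le _ _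
      _ ≤ 3 * δ := by linarith
  refine ⟨y0, ℓ', hgood, ?_, ?_, ?_⟩
  · -- distance of the points
    have e1 := disp hU x u0 (s := s0) (by linarith) (by linarith)
    rw [← hh0u, ← hy0] at e1
    have e2 : y0 - x = (u0 + s0 • U x) + (y0 - x - (u0 + s0 • U x)) := by abel
    have e3 : ‖u0 + s0 • U x‖ ≤ ‖u0‖ + ‖s0‖ * ‖x‖ := by
      refine (norm_add_le _ _).trans ?_
      rw [norm_smul, hUi]
    have e4 : ‖s0‖ * (‖u0‖ + ‖s0‖) ≤ 1 * t := by gcongr; linarith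
    calc ‖y0 - x‖ ≤ ‖u0 + s0 • U x‖ + ‖y0 - x - (u0 + s0 • U x)‖ := by
          conv_lhs => rw [e2]
          exact norm_add_le _ _
      _ ≤ (‖u0‖ + ‖s0‖ * ‖x‖) + (2 * ‖x‖ + 3) * (1 * t) := by
          gcongr
          exact e1.trans (by gcongr)
      _ ≤ (3 * ‖x‖ + 4) * t := by nlinarith
  · -- distance of the functionals
    have e1 : ℓ' - ℓ = (star A) (D - ℓ) + (star A - 1) ℓ := by
      rw [hℓ', map_sub (star A) D ℓ, sub_apply, one_apply_eq_self]; abel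
    have e2 : ‖star A‖ ≤ 2 := by
      rw [norm_star]
      exact ContinuousLinearMap.opNorm_le_bound _ (by norm_num) hAv
    have e3 : ‖star A - 1‖ ≤ 2 * ‖s0‖ := by
      have : star A - 1 = star (A - 1) := by rw [star_sub, star_one]
      rw [this, norm_star]
      exact hA1
    have e4 : ‖D - ℓ‖ ≤ 2 * (qn bs' * t) + κ * t + 8 * (lam * δ) := by
      have f1 : D - ℓ = -((2 : ℂ) • qv) + (κ : ℂ) • u0 - ((2 * lam : ℝ) : ℂ) • (h0 - p) := by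
        rw [hD]; abel
      rw [f1]
      calc _ ≤ ‖-((2 : ℂ) • qv) + (κ : ℂ) • u0‖ + ‖((2 * lam : ℝ) : ℂ) • (h0 - p)‖ := norm_sub_le _ _
        _ ≤ ‖-((2 : ℂ) • qv)‖ + ‖(κ : ℂ) • u0‖ + ‖((2 * lam : ℝ) : ℂ) • (h0 - p)‖ := by
            gcongr; exact norm_add_le _ _
        _ ≤ 2 * (qn bs' * t) + κ * t + 2 * lam * (3 * δ) := by
            rw [norm_neg, norm_smul, norm_smul, norm_smul, Complex.norm_real, Complex.norm_real,
              Real.norm_eq_abs, Real.norm_eq_abs, abs_of_pos hκ,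
              abs_of_pos (by positivity : 0 < 2 * lam)]
            have g1 : ‖(2 : ℂ)‖ = 2 := by simp
            rw [g1]
            have g2 : ‖qv‖ ≤ qn bs' * t := hqv.trans (by gcongr)
            gcongr
        _ ≤ _ := by nlinarith [mul_pos hlam hδ0]
    calc ‖ℓ' - ℓ‖ ≤ ‖(star A) (D - ℓ)‖ + ‖(star A - 1) ℓ‖ := by rw [e1]; exact norm_add_le _ _
      _ ≤ 2 * ‖D - ℓ‖ + (2 * ‖s0‖) * ‖ℓ‖ := by
          gcongr
          · exact (ContinuousLinearMap.le_opNorm _ _).trans (by gcongr)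
          · exact (ContinuousLinearMap.le_opNorm _ _).trans (by gcongr)
      _ ≤ 2 * (2 * (qn bs' * t) + κ * t + 8 * (lam * δ)) + 2 * (t * ‖ℓ‖) := by
          have := norm_nonneg ℓ
          nlinarith
  · have e1 : ⟪ℓ', U y0⟫_ℂ = ⟪D, U h0⟫_ℂ := by
      rw [hℓ', inner_star_left, ← mul_apply_eq_comp, hA, EU_comm, mul_apply_eq_comp, ← hA, hAy]
    have e2 : ⟪ℓ', U y0⟫_ℂ - c = -(((2 * lam : ℝ) : ℂ) * (starRingEnd ℂ) (s0 - σ)) := by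
      rw [e1]
      linear_combination hstat
    rw [e2, norm_neg, norm_mul, Complex.norm_real, Real.norm_eq_abs,
      abs_of_pos (by positivity : 0 < 2 * lam), RCLike.norm_conj]
    calc 2 * lam * ‖s0 - σ‖ ≤ 2 * lam * (3 * δ) := by gcongr
      _ ≤ 8 * (lam * δ) := by nlinarith [mul_pos hlam hδ0]

end R289.NH
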