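import Pool.Agent.R289.NH5

/-!
# The step, the initial state and the category argument
-/

namespace R289.NH

open Filter Topology
open scoped InnerProductSpace
open R289.VN

variable {H : Type*} [NormedAddCommGroup H] [InnerProductSpace ℂ H] [CompleteSpace H]

theorem qf_small (bs : List H) {v : H} {ε : ℝ} (h : ∀ b ∈ bs, ‖⟪b, v⟫_ℂ‖ ≤ ε) :
    qf bs v ≤ bs.length * ε ^ 2 := by
  induction bs with
  | nil => simp
  | cons b bs ih =>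
    rw [qf_cons, List.length_cons]
    have h1 := h b (List.mem_cons_self ..)
    have h2 := ih (fun b' hb' => h b' (List.mem_cons_of_mem _ hb'))
    have h3 : ‖⟪b, v⟫_ℂ‖ ^ 2 ≤ ε ^ 2 := by gcongr
    push_cast
    linarith

theorem step {q : H → ℝ} {a b : ℝ} (hq : EqN q a b) {T : H →L[ℂ] H} (hT : UNE T) {x ℓ : H}
    (hg : Good q x ℓ) {r : ℝ} (hr : 1 < r) (w : ℂ) {ε θ : ℝ} (hε : 0 < ε) (hθ : 0 < θ) :
    ∃ x' ℓ' : H, Good q x' ℓ' ∧ ‖x' - x‖ < θ ∧ ‖ℓ' - ℓ‖ < θ ∧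
      ∃ n : ℕ, ‖⟪ℓ', (T ^ n) x'⟫_ℂ * (r : ℂ) ^ n - w‖ < ε := by
  classical
  obtain ⟨κ, bs, ρ, hSt⟩ := hg
  have hSt' := hSt
  obtain ⟨hκ, hρ, hρx, _⟩ := hSt
  have hx0 : 0 < ‖x‖ := hρ.trans hρx
  have hmm0 : 0 < mm x κ := lt_min (by positivity) (by positivity)
  have hqn := qn_nonneg bs
  have hG0 : 0 ≤ Gam x ℓ κ bs := by unfold Gam; positivity
  have hl0 := norm_nonneg ℓ
  -- `δ`
  obtain ⟨δ, hδ0, hδ1, hδρ, hδΓ⟩ : ∃ δ : ℝ, 0 < δ ∧ 2 * δ ≤ 1 ∧ 2 * δ * (3 * ‖x‖ + 4) ≤ ρ ∧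
      Gam x ℓ κ bs * (2 * δ) ≤ mm x κ / 4 := by
    refine ⟨min (1 / 2) (min (ρ / (2 * (3 * ‖x‖ + 4))) (mm x κ / (8 * (Gam x ℓ κ bs + 1)))),
      by positivity, ?_, ?_, ?_⟩
    · have := min_le_left (1 / 2 : ℝ) (min (ρ / (2 * (3 * ‖x‖ + 4))) (mm x κ / (8 * (Gam x ℓ κ bs + 1))))
      linarith
    · have h1 : min (1 / 2 : ℝ) (min (ρ / (2 * (3 * ‖x‖ + 4))) (mm x κ / (8 * (Gam x ℓ κ bs + 1)))) ≤
          ρ / (2 * (3 * ‖x‖ + 4)) := (min_le_right _ _).trans (min_le_left _ _)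
      calc _ ≤ 2 * (ρ / (2 * (3 * ‖x‖ + 4))) * (3 * ‖x‖ + 4) := by gcongr
        _ = ρ := by field_simp
    · have h1 : min (1 / 2 : ℝ) (min (ρ / (2 * (3 * ‖x‖ + 4))) (mm x κ / (8 * (Gam x ℓ κ bs + 1)))) ≤
          mm x κ / (8 * (Gam x ℓ κ bs + 1)) := (min_le_right _ _).trans (min_le_right _ _)
      calc _ ≤ (Gam x ℓ κ bs + 1) * (2 * (mm x κ / (8 * (Gam x ℓ κ bs + 1)))) := by
            gcongr; linarith
        _ = mm x κ / 4 := by field_simp; norm_num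
  -- bound for the new form, independent of `n`
  set Bn : ℝ := (8 * κ / ‖x‖ ^ 2) * ‖x‖ ^ 2 + (2 / (κ * ‖x‖ ^ 2)) * ‖ℓ‖ ^ 2 + 3 * qn bs with hBn
  have hBn0 : 0 ≤ Bn := by positivity
  -- `t`
  obtain ⟨t, ht0, htδ, htx, htl⟩ : ∃ t : ℝ, 0 < t ∧ t ≤ δ / 2 ∧ (3 * ‖x‖ + 4) * t < θ ∧
      2 * (2 * (Bn * t) + κ * t) + 2 * (t * ‖ℓ‖) < θ / 2 := by
    refine ⟨min (δ / 2) (min (θ / (2 * (3 * ‖x‖ + 4))) (θ / (4 * (4 * Bn + 2 * κ + 2 * ‖ℓ‖ + 1)))),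
      by positivity, min_le_left _ _, ?_, ?_⟩
    · have h1 : min (δ / 2) (min (θ / (2 * (3 * ‖x‖ + 4))) (θ / (4 * (4 * Bn + 2 * κ + 2 * ‖ℓ‖ + 1)))) ≤
          θ / (2 * (3 * ‖x‖ + 4)) := (min_le_right _ _).trans (min_le_left _ _)
      calc _ ≤ (3 * ‖x‖ + 4) * (θ / (2 * (3 * ‖x‖ + 4))) := by gcongr
        _ = θ / 2 := by field_simp
        _ < θ := by linarith
    · have h1 : min (δ / 2) (min (θ / (2 * (3 * ‖x‖ + 4))) (θ / (4 * (4 * Bn + 2 * κ + 2 * ‖ℓ‖ + 1)))) ≤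
          θ / (4 * (4 * Bn + 2 * κ + 2 * ‖ℓ‖ + 1)) := (min_le_right _ _).trans (min_le_right _ _)
      set t' := min (δ / 2) (min (θ / (2 * (3 * ‖x‖ + 4))) (θ / (4 * (4 * Bn + 2 * κ + 2 * ‖ℓ‖ + 1))))
        with ht'
      have ht'0 : 0 ≤ t' := (lt_min (by positivity) (lt_min (by positivity) (by positivity))).le
      calc 2 * (2 * (Bn * t') + κ * t') + 2 * (t' * ‖ℓ‖) = (4 * Bn + 2 * κ + 2 * ‖ℓ‖) * t' := by ring
        _ ≤ (4 * Bn + 2 * κ + 2 * ‖ℓ‖ + 1) * (θ / (4 * (4 * Bn + 2 * κ + 2 * ‖ℓ‖ + 1))) :=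
            mul_le_mul (by linarith) h1 ht'0 (by positivity)
        _ = θ / 4 := by field_simp
        _ < θ / 2 := by linarith
  -- `τ`
  obtain ⟨τ, hτ0, hτ1, hτt⟩ : ∃ τ : ℝ, 0 < τ ∧ 16 * τ ≤ κ * ‖x‖ ^ 2 ∧ 16 * τ ≤ mm x κ * t := by
    refine ⟨min (κ * ‖x‖ ^ 2 / 16) (mm x κ * t / 16), by positivity, ?_, ?_⟩
    · have := min_le_left (κ * ‖x‖ ^ 2 / 16) (mm x κ * t / 16)
      linarith
    · have := min_le_right (κ * ‖x‖ ^ 2 / 16) (mm x κ * t / 16)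
      linarith
  -- `n`
  obtain ⟨n0, hn0⟩ : ∃ n0 : ℕ, ∀ n ≥ n0, ‖w‖ ≤ τ * r ^ n := by
    have h1 : Tendsto (fun n : ℕ => τ * r ^ n) atTop atTop :=
      (tendsto_pow_atTop_atTop_of_one_lt hr).const_mul_atTop hτ0
    obtain ⟨n0, hn0⟩ := (h1.eventually_ge_atTop ‖w‖).exists_forall_of_atTop
    exact ⟨n0, hn0⟩
  set τ' : ℝ := min τ (Real.sqrt (τ / (bs.length + 1))) with hτ'
  have hτ'0 : 0 < τ' := lt_min hτ0 (Real.sqrt_pos.2 (by positivity))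
  obtain ⟨n, hn, hmix⟩ := mixing hT (insert x (insert ℓ bs.toFinset)) hτ'0 n0
  have hxF : x ∈ insert x (insert ℓ bs.toFinset) := Finset.mem_insert_self _ _
  have hlF : ℓ ∈ insert x (insert ℓ bs.toFinset) :=
    Finset.mem_insert_of_mem (Finset.mem_insert_self _ _)
  set U : H →L[ℂ] H := T ^ n with hU
  have hUi : ∀ v, ‖U v‖ = ‖v‖ := hT.pow_isom n
  have hUn : ‖U‖ ≤ 1 := ContinuousLinearMap.opNorm_le_bound _ zero_le_one
    (fun v => by rw [hUi, one_mul])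
  have hUU : U (U x) = (T ^ (2 * n)) x := by
    rw [hU, ← mul_apply_eq_comp, ← pow_add, two_mul]
  have h1 : ‖⟪ℓ, U x⟫_ℂ‖ ≤ τ := (hmix ℓ hlF x hxF).1.le.trans (min_le_left _ _)
  have h2 : ‖⟪ℓ, U (U x)⟫_ℂ‖ ≤ τ := by
    rw [hUU]; exact (hmix ℓ hlF x hxF).2.le.trans (min_le_left _ _)
  have h3 : qf bs (U x) ≤ τ := by
    have e1 := qf_small bs (v := U x) (ε := τ') (fun b hb =>
      (hmix b (Finset.mem_insert_of_mem (Finset.mem_insert_of_mem (List.mem_toFinset.2 hb))) x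
        hxF).1.le)
    have e2 : τ' ^ 2 ≤ τ / (bs.length + 1) := by
      calc τ' ^ 2 ≤ (Real.sqrt (τ / (bs.length + 1))) ^ 2 := by
            gcongr; exact min_le_right _ _
        _ = τ / (bs.length + 1) := Real.sq_sqrt (by positivity)
    calc qf bs (U x) ≤ bs.length * τ' ^ 2 := e1
      _ ≤ (bs.length + 1) * (τ / (bs.length + 1)) := by gcongr; linarith
      _ = τ := by field_simp
  have hrn : 0 < r ^ n := by positivity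
  set c : ℂ := w * (((r ^ n)⁻¹ : ℝ) : ℂ) with hc
  have hcn : ‖c‖ ≤ τ := by
    rw [hc, norm_mul, Complex.norm_real, Real.norm_eq_abs, abs_of_pos (inv_pos.2 hrn)]
    rw [mul_inv_le_iff₀ hrn]
    exact hn0 n hn
  -- `lam`
  obtain ⟨lam, hlam, hlamt, hlamκ, hlamθ, hlamε⟩ : ∃ lam : ℝ, 0 < lam ∧
      32 * (lam * (2 * δ ^ 2)) < mm x κ * t ^ 2 ∧ lam ≤ κ / 4 ∧ 16 * (lam * δ) < θ / 2 ∧
      8 * (lam * δ) * r ^ n < ε := by
    have hcont : ∀ C : ℝ, Tendsto (fun l : ℝ => l * C) (𝓝[>] 0) (𝓝 0) := by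
      intro C
      have : Tendsto (fun l : ℝ => l * C) (𝓝 0) (𝓝 (0 * C)) := tendsto_id.mul_const C
      rw [zero_mul] at this
      exact this.mono_left nhdsWithin_le_nhds
    have e1 := (hcont (64 * δ ^ 2)).eventually (gt_mem_nhds (by positivity : 0 < mm x κ * t ^ 2))
    have e2 := (hcont 4).eventually (gt_mem_nhds hκ)
    have e3 := (hcont (16 * δ)).eventually (gt_mem_nhds (by positivity : 0 < θ / 2))
    have e4 := (hcont (8 * δ * r ^ n)).eventually (gt_mem_nhds hε)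
    obtain ⟨l, ⟨⟨⟨⟨g1, g2⟩, g3⟩, g4⟩, g5⟩⟩ :=
      ((((e1.and e2).and e3).and e4).and self_mem_nhdsWithin).exists
    refine ⟨l, g5, ?_, ?_, ?_, ?_⟩
    · linarith
    · linarith
    · linarith
    · linarith
  obtain ⟨x', ℓ', hgood, hx', hℓ', hval⟩ := minim hq hSt' hUi hUn hδ0 hδ1 hδρ hδΓ hτ1 h1 h2 h3 hcn
    ht0 htδ hτt hlam hlamt hlamκ
  refine ⟨x', ℓ', hgood, lt_of_le_of_lt hx' htx, ?_, n, ?_⟩
  · have hqb : qn (nbs κ U x ℓ bs) ≤ Bn := qn_nbs hκ hUn x ℓ bs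
    have e1 : 2 * (2 * (qn (nbs κ U x ℓ bs) * t) + κ * t + 8 * (lam * δ)) + 2 * (t * ‖ℓ‖) ≤
        2 * (2 * (Bn * t) + κ * t + 8 * (lam * δ)) + 2 * (t * ‖ℓ‖) := by gcongr
    calc ‖ℓ' - ℓ‖ ≤ _ := hℓ'
      _ ≤ _ := e1
      _ < θ := by linarith
  · have e1 : ⟪ℓ', U x'⟫_ℂ * (r : ℂ) ^ n - w = (⟪ℓ', U x'⟫_ℂ - c) * (r : ℂ) ^ n := by
      have : c * (r : ℂ) ^ n = w := by
        rw [hc, mul_assoc]
        have : (((r ^ n)⁻¹ : ℝ) : ℂ) * (r : ℂ) ^ n = 1 := by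
          rw [← Complex.ofReal_pow, ← Complex.ofReal_mul, inv_mul_cancel₀ hrn.ne',
            Complex.ofReal_one]
        rw [this, mul_one]
      rw [sub_mul, this]
    rw [e1, norm_mul, norm_pow, Complex.norm_real, Real.norm_eq_abs,
      abs_of_pos (by linarith : (0 : ℝ) < r)]
    calc _ ≤ 8 * (lam * δ) * r ^ n := by gcongr
      _ < ε := hlamε

/-! ### the initial state -/

theorem log_lower {X : ℝ} (hX : -(1 / 2) ≤ X) : X - 2 * X ^ 2 ≤ Real.log (1 + X) := by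
  have h1 : 0 < 1 + X := by linarith
  have h2 := Real.one_sub_inv_le_log_of_pos h1
  have h3 : X - 2 * X ^ 2 ≤ 1 - (1 + X)⁻¹ := by
    have h4 : 1 - (1 + X)⁻¹ = X / (1 + X) := by field_simp; ring
    rw [h4, le_div_iff₀ h1]
    nlinarith [sq_nonneg X, mul_nonneg (sq_nonneg X) (by linarith : 0 ≤ 1 + 2 * X)]
  linarith

theorem log_norm_lower {y u : H} (hy : ‖y‖ = 1) (hu : ‖u‖ ≤ 1 / 8) :
    RCLike.re ⟪y, u⟫_ℂ + 1 / 4 * ‖u‖ ^ 2 - 8 * ‖⟪y, u⟫_ℂ‖ ^ 2 ≤ Real.log ‖y + u‖ := by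
  have hu0 := norm_nonneg u
  have hre := Complex.abs_re_le_norm ⟪y, u⟫_ℂ
  have hin : ‖⟪y, u⟫_ℂ‖ ≤ ‖u‖ := by
    have := norm_inner_le_norm (𝕜 := ℂ) y u
    rwa [hy, one_mul] at this
  set R : ℝ := RCLike.re ⟪y, u⟫_ℂ with hR
  have hR2 : R ^ 2 ≤ ‖⟪y, u⟫_ℂ‖ ^ 2 := by
    rw [← sq_abs R]
    gcongr
    exact hre
  have hRl : -(1 / 8) ≤ R := by
    have := neg_abs_le R
    have h2 : |R| ≤ ‖⟪y, u⟫_ℂ‖ := hre
    linarith
  set X : ℝ := 2 * R + ‖u‖ ^ 2 with hX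
  have hsq : ‖y + u‖ ^ 2 = 1 + X := by
    rw [@norm_add_sq ℂ, hy]
    ring
  have hX1 : -(1 / 2) ≤ X := by
    rw [hX]; nlinarith
  have h1 := log_lower hX1
  have h2 : Real.log (1 + X) = 2 * Real.log ‖y + u‖ := by
    rw [← hsq, Real.log_pow]; norm_num
  have h3 : X ^ 2 ≤ 8 * R ^ 2 + 2 * ‖u‖ ^ 4 := by
    rw [hX]; nlinarith [sq_nonneg (2 * R - ‖u‖ ^ 2)]
  have h4 : ‖u‖ ^ 4 ≤ 1 / 64 * ‖u‖ ^ 2 := by
    have : ‖u‖ ^ 2 ≤ 1 / 64 := by nlinarith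
    nlinarith [sq_nonneg ‖u‖]
  rw [h2] at h1
  nlinarith

theorem init {q : H → ℝ} {a b : ℝ} (hq : EqN q a b) [Nontrivial H] :
    ∃ x ℓ : H, Good q x ℓ := by
  -- near-minimiser of `q` on the unit sphere
  let S : Set ℝ := q '' {y : H | ‖y‖ = 1}
  have hSne : S.Nonempty := by
    obtain ⟨y, hy⟩ := exists_norm_eq H (c := 1) zero_le_one
    exact ⟨_, y, hy, rfl⟩
  have hSb : BddBelow S := by
    refine ⟨a, ?_⟩
    rintro _ ⟨y, hy, rfl⟩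
    have h1 := hq.lo y
    have h2 : ‖y‖ = 1 := hy
    rwa [h2, mul_one] at h1
  set a0 : ℝ := sInf S with ha0
  have ha0p : 0 < a0 := by
    have : a ≤ a0 := le_csInf hSne (by
      rintro _ ⟨y, hy, rfl⟩
      have h1 := hq.lo y
      have h2 : ‖y‖ = 1 := hy
      rwa [h2, mul_one] at h1)
    linarith [hq.pos]
  have hlow : ∀ y : H, y ≠ 0 → Real.log a0 + Real.log ‖y‖ ≤ Real.log (q y) := by
    intro y hy
    have hyp : 0 < ‖y‖ := norm_pos_iff.2 hy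
    rw [← Real.log_mul ha0p.ne' hyp.ne']
    apply Real.log_le_log (by positivity)
    have h1 : a0 ≤ q (((‖y‖⁻¹ : ℝ) : ℂ) • y) := csInf_le hSb ⟨_, by
      show ‖((‖y‖⁻¹ : ℝ) : ℂ) • y‖ = 1
      rw [norm_smul, Complex.norm_real, norm_inv, norm_norm, inv_mul_cancel₀ hyp.ne'], rfl⟩
    rw [hq.smul, Complex.norm_real, norm_inv, norm_norm] at h1
    rw [← le_div_iff₀ hyp, div_eq_inv_mul]
    exact h1
  obtain ⟨_, ⟨y, hy, rfl⟩, hlt⟩ : ∃ s ∈ S, s < a0 * Real.exp (1 / 8192) :=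
    exists_lt_of_csInf_lt hSne (by
      have : (1 : ℝ) < Real.exp (1 / 8192) := Real.one_lt_exp_iff.2 (by norm_num)
      nlinarith)
  have hy1 : ‖y‖ = 1 := hy
  have hyne : y ≠ 0 := by
    intro h
    rw [h, norm_zero] at hy1
    exact zero_ne_one hy1
  have hqy : Real.log (q y) ≤ Real.log a0 + 1 / 8192 := by
    have h1 : Real.log (q y) < Real.log (a0 * Real.exp (1 / 8192)) :=
      Real.log_lt_log (hq.qpos hyne) hlt
    rw [Real.log_mul ha0p.ne' (Real.exp_pos _).ne', Real.log_exp] at h1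
    exact h1.le
  -- the function to be minimised
  let Φ : H → ℝ := fun h => Real.log (q h) - RCLike.re ⟪y, h - y⟫_ℂ -
    1 / 8 * ‖h - y‖ ^ 2 + 8 * ‖⟪y, h - y⟫_ℂ‖ ^ 2
  let D : Set H := Metric.closedBall y (1 / 8)
  have hne : ∀ h ∈ D, h ≠ 0 := by
    rintro h hh rfl
    rw [Metric.mem_closedBall, dist_eq_norm, zero_sub, norm_neg, hy1] at hh
    norm_num at hh
  have hcont : ContinuousOn Φ D := by
    have c1 : ContinuousOn (fun h => Real.log (q h)) D :=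
      ContinuousOn.log hq.cont.continuousOn (fun h hh => (hq.qpos (hne h hh)).ne')
    have c2 : Continuous (fun h : H => RCLike.re ⟪y, h - y⟫_ℂ) := by fun_prop
    have c3 : Continuous (fun h : H => 1 / 8 * ‖h - y‖ ^ 2) := by fun_prop
    have c4 : Continuous (fun h : H => 8 * ‖⟪y, h - y⟫_ℂ‖ ^ 2) := by fun_prop
    exact ((c1.sub c2.continuousOn).sub c3.continuousOn).add c4.continuousOn
  have hΦ : ∀ h ∈ D, Real.log a0 + 1 / 8 * ‖h - y‖ ^ 2 ≤ Φ h := by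
    intro h hh
    have h1 := hlow h (hne h hh)
    have h2 : ‖h - y‖ ≤ 1 / 8 := by rw [← dist_eq_norm]; exact hh
    have h3 := log_norm_lower hy1 h2
    rw [show y + (h - y) = h by abel] at h3
    show _ ≤ Real.log (q h) - RCLike.re ⟪y, h - y⟫_ℂ - 1 / 8 * ‖h - y‖ ^ 2 +
      8 * ‖⟪y, h - y⟫_ℂ‖ ^ 2
    linarith
  have hbdd : BddBelow (Φ '' D) := by
    refine ⟨Real.log a0, ?_⟩
    rintro _ ⟨h, hh, rfl⟩
    have := hΦ h hh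
    have h2 : 0 ≤ 1 / 8 * ‖h - y‖ ^ 2 := by positivity
    linarith
  have hyD : y ∈ D := Metric.mem_closedBall_self (by norm_num)
  obtain ⟨p, h0, hh0, hp, hmin⟩ := quad_min Metric.isClosed_closedBall hcont hbdd hyD
    (R := 1 / 8) (fun z hz => by rw [← dist_eq_norm]; exact hz)
    (lam := 1 / 128) (by norm_num)
  set u0 : H := h0 - y with hu0
  have hu0n : ‖u0‖ < 1 / 16 := by
    have e1 := hmin y hyD
    have e2 := hΦ h0 hh0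
    have e3 : Φ y = Real.log (q y) := by
      show Real.log (q y) - RCLike.re ⟪y, y - y⟫_ℂ - 1 / 8 * ‖y - y‖ ^ 2 +
        8 * ‖⟪y, y - y⟫_ℂ‖ ^ 2 = _
      rw [sub_self, inner_zero_right]; simp
    rw [e3] at e1
    have e4 : ‖y - p‖ ^ 2 ≤ (1 / 8) ^ 2 := by rw [norm_sub_rev]; gcongr
    have e5 : 0 ≤ ‖h0 - p‖ ^ 2 := by positivity
    have e6 : ‖u0‖ ^ 2 < (1 / 16) ^ 2 := by
      rw [← hu0] at e2
      nlinarith
    exact lt_of_pow_lt_pow_left₀ 2 (by norm_num) e6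
  have hh0ne : h0 ≠ 0 := hne h0 hh0
  have hh0n : 7 / 8 ≤ ‖h0‖ := by
    have : y = h0 - u0 := by rw [hu0]; abel
    have h1 : ‖y‖ ≤ ‖h0‖ + ‖u0‖ := by
      conv_lhs => rw [this]
      exact norm_sub_le _ _
    rw [hy1] at h1
    linarith
  obtain ⟨qv, _, hqvp⟩ := qf_polar [((Real.sqrt 8 : ℝ) : ℂ) • y] u0
  have hqf : ∀ v, qf [((Real.sqrt 8 : ℝ) : ℂ) • y] v = 8 * ‖⟪y, v⟫_ℂ‖ ^ 2 := by
    intro v
    rw [qf_cons, qf_nil, inner_smul_left, norm_mul, Complex.conj_ofReal, Complex.norm_real,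
      Real.norm_eq_abs, mul_pow, sq_abs, Real.sq_sqrt (by norm_num), add_zero]
  refine ⟨h0, y - (2 : ℂ) • qv + ((1 / 4 : ℝ) : ℂ) • u0 - ((1 / 64 : ℝ) : ℂ) • (h0 - p), 1 / 16,
    [((Real.sqrt 8 : ℝ) : ℂ) • y], 1 / 16, by norm_num, by norm_num, by linarith, ?_⟩
  intro v hv
  have hDin : RCLike.re ⟪y - (2 : ℂ) • qv + ((1 / 4 : ℝ) : ℂ) • u0 -
      ((1 / 64 : ℝ) : ℂ) • (h0 - p), v⟫_ℂ = RCLike.re ⟪y, v⟫_ℂ - 2 * RCLike.re ⟪qv, v⟫_ℂ +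
      1 / 4 * RCLike.re ⟪u0, v⟫_ℂ - 1 / 64 * RCLike.re ⟪h0 - p, v⟫_ℂ := by
    rw [inner_sub_left, inner_add_left, inner_sub_left, inner_smul_left, inner_smul_left,
      inner_smul_left, map_sub, map_add, map_sub]
    have f1 : RCLike.re ((starRingEnd ℂ) (2 : ℂ) * ⟪qv, v⟫_ℂ) = 2 * RCLike.re ⟪qv, v⟫_ℂ := by
      have : (starRingEnd ℂ) (2 : ℂ) = ((2 : ℝ) : ℂ) := by
        rw [← Complex.ofReal_ofNat, Complex.conj_ofReal]
      rw [this, RCLike.re_to_complex, Complex.re_ofReal_mul]; rfl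
    have f2 : RCLike.re ((starRingEnd ℂ) ((1 / 4 : ℝ) : ℂ) * ⟪u0, v⟫_ℂ) =
        1 / 4 * RCLike.re ⟪u0, v⟫_ℂ := by
      rw [Complex.conj_ofReal, RCLike.re_to_complex, Complex.re_ofReal_mul]; rfl
    have f3 : RCLike.re ((starRingEnd ℂ) ((1 / 64 : ℝ) : ℂ) * ⟪h0 - p, v⟫_ℂ) =
        1 / 64 * RCLike.re ⟪h0 - p, v⟫_ℂ := by
      rw [Complex.conj_ofReal, RCLike.re_to_complex, Complex.re_ofReal_mul]; rfl
    rw [f1, f2, f3]
  have e0 : h0 + v - y = u0 + v := by rw [hu0]; abel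
  have hmem : h0 + v ∈ D := by
    rw [Metric.mem_closedBall, dist_eq_norm, e0]
    calc ‖u0 + v‖ ≤ ‖u0‖ + ‖v‖ := norm_add_le _ _
      _ ≤ 1 / 8 := by linarith
  have e1 := hmin (h0 + v) hmem
  simp only [Φ] at e1
  rw [e0, ← hu0] at e1
  have e2 := hqvp v
  rw [hqf, hqf, hqf] at e2
  have e3 : ‖u0 + v‖ ^ 2 = ‖u0‖ ^ 2 + 2 * RCLike.re ⟪u0, v⟫_ℂ + ‖v‖ ^ 2 :=
    @norm_add_sq ℂ _ _ _ _ _ _
  have e4 : ‖h0 + v - p‖ ^ 2 = ‖h0 - p‖ ^ 2 + 2 * RCLike.re ⟪h0 - p, v⟫_ℂ + ‖v‖ ^ 2 := by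
    rw [show h0 + v - p = (h0 - p) + v by abel]
    exact @norm_add_sq ℂ _ _ _ _ _ _
  have e5 : RCLike.re ⟪y, u0 + v⟫_ℂ = RCLike.re ⟪y, u0⟫_ℂ + RCLike.re ⟪y, v⟫_ℂ := by
    rw [inner_add_right, map_add]
  rw [e2, e3, e4, e5] at e1
  rw [hDin, hqf]
  have e6 : 0 ≤ ‖v‖ ^ 2 := by positivity
  linarith

end R289.NH
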