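import Pool.Agent.R289.NH6

/-!
# The category argument
-/

namespace R289.NH

open Filter Topology
open scoped InnerProductSpace
open R289.VN

variable {H : Type*} [NormedAddCommGroup H] [InnerProductSpace ℂ H] [CompleteSpace H]

theorem le_of_small {A B C η : ℝ} (hη : 0 < η) (h : ∀ t, 0 < t → t ≤ η → t * A ≤ t * B + t ^ 2 * C) :
    A ≤ B := by
  apply le_of_forall_pos_le_add
  intro ε hε
  set t : ℝ := min η (ε / (|C| + 1)) with ht
  have ht0 : 0 < t := lt_min hη (by positivity)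
  have h1 := h t ht0 (min_le_left _ _)
  have h2 : A ≤ B + t * C := by
    have : t * A ≤ t * (B + t * C) := by nlinarith
    exact le_of_mul_le_mul_left this ht0
  have h3 : t * C ≤ ε := by
    calc t * C ≤ t * |C| := by gcongr; exact le_abs_self C
      _ ≤ ε / (|C| + 1) * |C| := by gcongr; exact min_le_right _ _
      _ ≤ ε := by
        rw [div_mul_eq_mul_div, div_le_iff₀ (by positivity)]
        nlinarith [abs_nonneg C]
  linarith

theorem good_support {q : H → ℝ} {a b : ℝ} (hq : EqN q a b) {x ℓ : H} (hg : Good q x ℓ) :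
    ⟪ℓ, x⟫_ℂ = 1 ∧ ∀ v, ‖⟪ℓ, v⟫_ℂ‖ * q x ≤ q v := by
  obtain ⟨κ, bs, ρ, hκ, hρ, hρx, hmain⟩ := hg
  have hx0 : 0 < ‖x‖ := hρ.trans hρx
  have hxne : x ≠ 0 := norm_pos_iff.1 hx0
  have hqx := hq.qpos hxne
  have hqn := qn_nonneg bs
  have hre : ∀ v, RCLike.re ⟪ℓ, v⟫_ℂ ≤ q v / q x := by
    intro v
    apply le_of_small (C := qn bs * ‖v‖ ^ 2) (η := ρ / (‖v‖ + 1)) (by positivity)
    intro t ht0 ht1
    have htv : ‖(t : ℂ) • v‖ ≤ ρ := by
      rw [norm_smul, Complex.norm_real, Real.norm_eq_abs, abs_of_pos ht0]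
      calc t * ‖v‖ ≤ ρ / (‖v‖ + 1) * (‖v‖ + 1) := by gcongr; linarith
        _ = ρ := by field_simp
    have h1 := hmain _ htv
    have h2 : RCLike.re ⟪ℓ, (t : ℂ) • v⟫_ℂ = t * RCLike.re ⟪ℓ, v⟫_ℂ := by
      rw [inner_smul_right, RCLike.re_to_complex, Complex.re_ofReal_mul]; rfl
    have h3 : qf bs ((t : ℂ) • v) ≤ t ^ 2 * (qn bs * ‖v‖ ^ 2) := by
      rw [qf_smul, Complex.norm_real, Real.norm_eq_abs, sq_abs]
      gcongr
      exact qf_le _ _
    have h4 : q (x + (t : ℂ) • v) ≤ q x + t * q v := by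
      refine (hq.add _ _).trans ?_
      rw [hq.smul, Complex.norm_real, Real.norm_eq_abs, abs_of_pos ht0]
    have hxtv : x + (t : ℂ) • v ≠ 0 := by
      intro h
      have : x = -((t : ℂ) • v) := eq_neg_of_add_eq_zero_left h
      have h5 : ‖x‖ = ‖(t : ℂ) • v‖ := by
        conv_lhs => rw [this]
        rw [norm_neg]
      linarith
    have h5 := hq.qpos hxtv
    have hqv : 0 ≤ q v := by
      have e1 := hq.lo v
      have e2 : 0 ≤ a * ‖v‖ := mul_nonneg hq.pos.le (norm_nonneg _)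
      linarith
    have h6 : Real.log (q (x + (t : ℂ) • v)) ≤ Real.log (q x) + t * (q v / q x) := by
      calc Real.log (q (x + (t : ℂ) • v)) ≤ Real.log (q x * (1 + t * (q v / q x))) := by
            apply Real.log_le_log h5
            refine h4.trans (le_of_eq ?_)
            field_simp
        _ = Real.log (q x) + Real.log (1 + t * (q v / q x)) := by
            rw [Real.log_mul hqx.ne' (by positivity)]
        _ ≤ _ := by
            gcongr
            have := Real.log_le_sub_one_of_pos (by positivity : 0 < 1 + t * (q v / q x))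
            linarith
    have h7 : 0 ≤ κ * ‖(t : ℂ) • v‖ ^ 2 := by positivity
    rw [h2] at h1
    linarith
  have hnorm : ∀ v, ‖⟪ℓ, v⟫_ℂ‖ ≤ q v / q x := by
    intro v
    by_cases h0 : ⟪ℓ, v⟫_ℂ = 0
    · rw [h0, norm_zero]
      have e1 := hq.lo v
      have e2 : 0 ≤ a * ‖v‖ := mul_nonneg hq.pos.le (norm_nonneg _)
      have : 0 ≤ q v := by linarith
      positivity
    · set z : ℂ := ⟪ℓ, v⟫_ℂ with hz
      have hzn : 0 < ‖z‖ := norm_pos_iff.2 h0
      set c : ℂ := (starRingEnd ℂ) z / ‖z‖ with hc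
      have hcn : ‖c‖ = 1 := by
        rw [hc, norm_div, RCLike.norm_conj, Complex.norm_real, norm_norm, div_self hzn.ne']
      have h1 := hre (c • v)
      rw [inner_smul_right, ← hz, hq.smul, hcn, one_mul] at h1
      have h2 : c * z = ((‖z‖ : ℝ) : ℂ) := by
        rw [hc, div_mul_eq_mul_div, ← Complex.normSq_eq_conj_mul_self, Complex.normSq_eq_norm_sq]
        have : ((‖z‖ : ℝ) : ℂ) ≠ 0 := by exact_mod_cast hzn.ne'
        push_cast
        field_simp
      rw [h2] at h1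
      exact h1
  constructor
  · have h1 : ‖⟪ℓ, x⟫_ℂ‖ ≤ 1 := by
      have := hnorm x
      rwa [div_self hqx.ne'] at this
    have h2 : 1 ≤ RCLike.re ⟪ℓ, x⟫_ℂ := by
      apply le_of_small (C := qn bs * ‖x‖ ^ 2) (η := min (1 / 2) (ρ / (‖x‖ + 1))) (by positivity)
      intro t ht0 ht1
      have ht2 : t ≤ 1 / 2 := ht1.trans (min_le_left _ _)
      have htv : ‖((-t : ℝ) : ℂ) • x‖ ≤ ρ := by
        rw [norm_smul, Complex.norm_real, Real.norm_eq_abs, abs_neg, abs_of_pos ht0]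
        calc t * ‖x‖ ≤ ρ / (‖x‖ + 1) * (‖x‖ + 1) := by
              gcongr
              · exact ht1.trans (min_le_right _ _)
              · linarith
          _ = ρ := by field_simp
      have h1 := hmain _ htv
      have h2 : RCLike.re ⟪ℓ, ((-t : ℝ) : ℂ) • x⟫_ℂ = -(t * RCLike.re ⟪ℓ, x⟫_ℂ) := by
        rw [inner_smul_right, RCLike.re_to_complex, Complex.re_ofReal_mul, neg_mul]; rfl
      have h3 : qf bs (((-t : ℝ) : ℂ) • x) ≤ t ^ 2 * (qn bs * ‖x‖ ^ 2) := by
        rw [qf_smul, Complex.norm_real, Real.norm_eq_abs, sq_abs, neg_sq]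
        gcongr
        exact qf_le _ _
      have h4 : q (x + ((-t : ℝ) : ℂ) • x) = (1 - t) * q x := by
        have e1 : x + ((-t : ℝ) : ℂ) • x = ((1 - t : ℝ) : ℂ) • x := by
          push_cast; module
        rw [e1, hq.smul, Complex.norm_real, Real.norm_eq_abs, abs_of_pos (by linarith)]
      have h5 : Real.log ((1 - t) * q x) ≤ -t + Real.log (q x) := by
        rw [Real.log_mul (by linarith) hqx.ne']
        have := Real.log_le_sub_one_of_pos (by linarith : 0 < 1 - t)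
        linarith
      have h7 : 0 ≤ κ * ‖((-t : ℝ) : ℂ) • x‖ ^ 2 := by positivity
      rw [h2, h4] at h1
      linarith
    have h3 : RCLike.re ⟪ℓ, x⟫_ℂ = 1 := le_antisymm ((RCLike.re_le_norm _).trans h1) h2
    have h4 : (⟪ℓ, x⟫_ℂ).re = 1 := h3
    have h5 : (⟪ℓ, x⟫_ℂ).im = 0 := by
      have e1 : ‖⟪ℓ, x⟫_ℂ‖ ^ 2 ≤ 1 := pow_le_one₀ (norm_nonneg _) h1
      rw [Complex.sq_norm, Complex.normSq_apply, h4] at e1
      nlinarith
    exact Complex.ext (by rw [h4, Complex.one_re]) (by rw [h5, Complex.one_im])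
  · intro v
    have := hnorm v
    rwa [le_div_iff₀ hqx] at this

theorem exists_dense {q : H → ℝ} {a b : ℝ} (hq : EqN q a b) {T : H →L[ℂ] H} (hT : UNE T)
    [Nontrivial H] {r : ℝ} (hr : 1 < r) :
    ∃ x ℓ : H, ⟪ℓ, x⟫_ℂ = 1 ∧ (∀ v, ‖⟪ℓ, v⟫_ℂ‖ * q x ≤ q v) ∧
      Dense (Set.range fun n : ℕ => ⟪ℓ, (T ^ n) x⟫_ℂ * (r : ℂ) ^ n) := by
  let G : Set (H × H) := {z | Good q z.1 z.2}
  let X := closure G
  have hXc : IsClosed X := isClosed_closure
  have : CompleteSpace X := hXc.completeSpace_coe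
  have hXne : Nonempty X := by
    obtain ⟨x, ℓ, hx⟩ := init hq
    exact ⟨⟨(x, ℓ), subset_closure hx⟩⟩
  let O : Set ℂ → Set X := fun V => {z | ∃ n : ℕ, ⟪z.1.2, (T ^ n) z.1.1⟫_ℂ * (r : ℂ) ^ n ∈ V}
  have hOo : ∀ V, IsOpen V → IsOpen (O V) := by
    intro V hV
    have : O V = ⋃ n : ℕ, {z : X | ⟪z.1.2, (T ^ n) z.1.1⟫_ℂ * (r : ℂ) ^ n ∈ V} := by
      ext z; simp [O]
    rw [this]
    refine isOpen_iUnion fun n => hV.preimage ?_
    have c1 : Continuous (fun z : X => (T ^ n) z.1.1) := by fun_prop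
    have c2 : Continuous (fun z : X => z.1.2) := by fun_prop
    exact (c2.inner c1).mul continuous_const
  have hOd : ∀ V, IsOpen V → V.Nonempty → Dense (O V) := by
    rintro V hV ⟨w, hw⟩
    obtain ⟨ε, hε, hεV⟩ := Metric.isOpen_iff.1 hV w hw
    intro z
    rw [Metric.mem_closure_iff]
    intro θ hθ
    obtain ⟨⟨x, ℓ⟩, hg, hd⟩ := Metric.mem_closure_iff.1 z.2 (θ / 2) (by linarith)
    obtain ⟨x', ℓ', hg', hx', hℓ', n, hn⟩ := step hq hT hg hr w hε (half_pos hθ)
    refine ⟨⟨(x', ℓ'), subset_closure hg'⟩, ⟨n, hεV ?_⟩, ?_⟩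
    · rw [Metric.mem_ball, dist_eq_norm]
      exact hn
    · rw [Subtype.dist_eq]
      calc dist z.1 (x', ℓ') ≤ dist z.1 (x, ℓ) + dist (x, ℓ) (x', ℓ') := dist_triangle _ _ _
        _ < θ / 2 + θ / 2 := by
            apply add_lt_add hd
            rw [Prod.dist_eq]
            apply max_lt
            · rw [dist_comm, dist_eq_norm]; exact hx'
            · rw [dist_comm, dist_eq_norm]; exact hℓ'
        _ = θ := by ring
  have hBasis := TopologicalSpace.isBasis_countableBasis ℂ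
  have hdense : Dense (⋂ V ∈ TopologicalSpace.countableBasis ℂ, O V) := by
    apply dense_biInter_of_isOpen
    · intro V hV; exact hOo V (hBasis.isOpen hV)
    · exact TopologicalSpace.countable_countableBasis ℂ
    · intro V hV
      exact hOd V (hBasis.isOpen hV) (TopologicalSpace.nonempty_of_mem_countableBasis hV)
  obtain ⟨z, hz⟩ := hdense.nonempty
  refine ⟨z.1.1, z.1.2, ?_, ?_, ?_⟩
  · have hcl : IsClosed {z : H × H | ⟪z.2, z.1⟫_ℂ = 1} :=
      isClosed_eq (continuous_snd.inner continuous_fst) continuous_const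
    have hsub : G ⊆ {z : H × H | ⟪z.2, z.1⟫_ℂ = 1} := fun w hw => (good_support hq hw).1
    exact closure_minimal hsub hcl z.2
  · intro v
    have hcl : IsClosed {z : H × H | ‖⟪z.2, v⟫_ℂ‖ * q z.1 ≤ q v} := by
      apply isClosed_le _ continuous_const
      have c1 : Continuous (fun z : H × H => ‖⟪z.2, v⟫_ℂ‖) := by fun_prop
      exact c1.mul (hq.cont.comp continuous_fst)
    have hsub : G ⊆ {z : H × H | ‖⟪z.2, v⟫_ℂ‖ * q z.1 ≤ q v} := fun w hw =>
      (good_support hq hw).2 v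
    exact closure_minimal hsub hcl z.2
  · rw [hBasis.dense_iff]
    intro V hV hVne
    rw [Set.mem_iInter₂] at hz
    obtain ⟨n, hn⟩ := hz V hV
    exact ⟨_, hn, n, rfl⟩

end R289.NH
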