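import Pool.Agent.R289.RS

set_option autoImplicit false
set_option linter.unusedSectionVars false

/-!
# The operator is not a combination of positive operators
-/

namespace Pool.Agent.R289.NotReg

open scoped ENNReal
open Filter Topology Pool.Agent.R289.Conv Pool.Agent.R289.L1 Pool.Agent.R289.RS

variable {G : Type} [Group G]

/-- The function `f` is nonnegative. -/
def Pos (f : Ell G 2) : Prop := ∀ x, 0 ≤ (f x).re ∧ (f x).im = 0

theorem pos_add {f g : Ell G 2} (hf : Pos f) (hg : Pos g) : Pos (f + g) := fun x => by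
  have h : (f + g) x = f x + g x := rfl
  rw [h, Complex.add_re, Complex.add_im, (hf x).2, (hg x).2]
  exact ⟨add_nonneg (hf x).1 (hg x).1, by simp⟩

theorem pos_zero : Pos (0 : Ell G 2) := fun x => by
  have h : (0 : Ell G 2) x = 0 := rfl
  rw [h]; simp

theorem pos_smul {f : Ell G 2} (hf : Pos f) (r : ℝ) (hr : 0 ≤ r) : Pos ((r : ℂ) • f) := fun x => by
  have h : ((r : ℂ) • f) x = (r : ℂ) * f x := rfl
  rw [h, Complex.mul_re, Complex.mul_im, (hf x).2, Complex.ofReal_re, Complex.ofReal_im]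
  exact ⟨by have := mul_nonneg hr (hf x).1; simpa using this, by simp⟩

theorem pos_sum {ι : Type} (s : Finset ι) (f : ι → Ell G 2) (h : ∀ i, Pos (f i)) :
    Pos (∑ i ∈ s, f i) := by
  classical
  induction s using Finset.induction_on with
  | empty => exact pos_zero
  | insert a s ha ih => rw [Finset.sum_insert ha]; exact pos_add (h a) ih

theorem pos_hasSum {f : ℕ → Ell G 2} {s : Ell G 2} (h : HasSum f s) (hf : ∀ n, Pos (f n)) :
    Pos s := fun x => by
  have h1 := h.mapL (evp (p := 2) x)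
  have h2 := h1.mapL Complex.reCLM
  have h3 := (h1.mapL (Complex.imCLM))
  constructor
  · exact h2.nonneg fun n => (hf n x).1
  · refine h3.unique ?_
    have : (fun n => Complex.imCLM (evp (p := 2) x (f n))) = fun _ => 0 := by
      funext n
      exact (hf n x).2
    rw [this]
    exact hasSum_zero

/-- the point mass at `g` -/
noncomputable def dg (g : G) : Ell G 2 := R hp2 g⁻¹ (delta 2)

theorem dg_apply (g x : G) [Decidable (x = g)] : dg g x = if x = g then 1 else 0 := by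
  classical
  rw [dg, RS.R_apply, delta_apply]
  by_cases h : x = g
  · rw [if_pos h, if_pos (by rw [h, mul_inv_cancel])]
  · rw [if_neg h, if_neg (fun h' => h (by rwa [mul_inv_eq_one] at h'))]

theorem dg_pos (g : G) : Pos (dg g) := fun x => by
  classical
  rw [dg_apply]
  split_ifs <;> simp

/-- `v_k = ∑_{j < 2^k} δ_{a^j}` -/
noncomputable def vk (a : G) (k : ℕ) : Ell G 2 := ∑ j ∈ Finset.range (2 ^ k), dg (a ^ j)

theorem vk_pos (a : G) (k : ℕ) : Pos (vk a k) := pos_sum _ _ fun _ => dg_pos _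

theorem norm_vk (a : G) (ha : Function.Injective fun n : ℕ => a ^ n) (k : ℕ) :
    ‖vk a k‖ = Real.sqrt 2 ^ k := by
  classical
  have h1 : vk a k = ∑ g ∈ (Finset.range (2 ^ k)).map ⟨_, ha⟩, lp.single 2 g
      ((fun _ : G => (1 : ℂ)) g) := by
    rw [Finset.sum_map, vk]
    refine Finset.sum_congr rfl fun j _ => ?_
    ext x
    rw [dg_apply]
    show _ = lp.single (E := fun _ : G => ℂ) 2 (a ^ j) (1 : ℂ) x
    by_cases h : x = a ^ j
    · subst h; rw [if_pos rfl, lp.single_apply_self]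
    · rw [if_neg h, lp.single_apply_ne _ _ _ h]
  have h2 := lp.norm_sum_single (E := fun _ : G => ℂ) (p := 2) hp2 (fun _ : G => (1 : ℂ))
    ((Finset.range (2 ^ k)).map ⟨_, ha⟩)
  rw [← h1] at h2
  simp at h2
  rw [← Real.sqrt_sq (norm_nonneg (vk a k)), h2]
  rw [Real.sqrt_eq_iff_eq_sq (by positivity) (by positivity), ← pow_mul, mul_comm, pow_mul,
    Real.sq_sqrt (by norm_num)]

theorem summable_V (a : G) (ha : Function.Injective fun n : ℕ => a ^ n) :
    Summable fun k : ℕ => ((rr ^ k : ℝ) : ℂ) • vk a k := by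
  refine Summable.of_norm_bounded (g := fun k : ℕ => (rr * Real.sqrt 2) ^ k)
    (summable_geometric_of_lt_one (mul_nonneg rr_nonneg (Real.sqrt_nonneg _)) rr_sqrt)
    fun k => ?_
  rw [norm_smul, Complex.norm_real, Real.norm_of_nonneg (pow_nonneg rr_nonneg k), norm_vk a ha,
    mul_pow]

/-- the test vector -/
noncomputable def V (a : G) : Ell G 2 := ∑' k : ℕ, ((rr ^ k : ℝ) : ℂ) • vk a k

theorem V_sub_pos (a : G) (ha : Function.Injective fun n : ℕ => a ^ n) (k : ℕ) :
    Pos (V a - ((rr ^ k : ℝ) : ℂ) • vk a k) := by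
  classical
  have h1 := (summable_V a ha).hasSum
  have h2 : HasSum (fun j => if j = k then ((rr ^ k : ℝ) : ℂ) • vk a k else 0)
      (((rr ^ k : ℝ) : ℂ) • vk a k) := hasSum_ite_eq k _
  refine pos_hasSum (h1.sub h2) fun j => ?_
  by_cases h : j = k
  · subst h
    rw [if_pos rfl, sub_self]
    exact pos_zero
  · rw [if_neg h, sub_zero]
    exact pos_smul (vk_pos a j) _ (pow_nonneg rr_nonneg j)

/-- the kernel of the operator -/
theorem norm_T_delta (a : G) (ha : Function.Injective fun n : ℕ => a ^ n) (k n : ℕ)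
    (h1 : 2 ^ k ≤ n) (h2 : n < 2 ^ (k + 1)) : ‖T a (delta 2) (a ^ n)‖ = rr ^ k := by
  have h3 := (T_apply a (delta 2)).mapL (evp (p := 2) (a ^ n))
  have h4 : ∀ j, evp (p := 2) (a ^ n) (((rr : ℂ) ^ j) • lam hp2 (blk a j) (delta 2)) =
      (rr : ℂ) ^ j * (blk a j).coeff (a ^ n) := by
    intro j
    rw [map_smul, evp_apply, lam_delta, smul_eq_mul]
  simp only [h4] at h3
  have h5 : ∀ j, j ≠ k → (rr : ℂ) ^ j * (blk a j).coeff (a ^ n) = 0 := by
    intro j hj
    have h6 := blk_coeff a ha j n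
    rw [if_neg] at h6
    · rw [norm_eq_zero.1 h6, mul_zero]
    · rintro ⟨h7, h8⟩
      rcases lt_or_gt_of_ne hj with h | h
      · have := Nat.pow_le_pow_right (show 0 < 2 by norm_num) (show j + 1 ≤ k by omega)
        omega
      · have := Nat.pow_le_pow_right (show 0 < 2 by norm_num) (show k + 1 ≤ j by omega)
        omega
  have h6 := h3.unique (hasSum_single k h5)
  have h7 : T a (delta 2) (a ^ n) = (rr : ℂ) ^ k * (blk a k).coeff (a ^ n) := h6
  rw [h7, norm_mul, blk_coeff a ha, if_pos ⟨h1, h2⟩, mul_one, norm_pow, Complex.norm_real,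
    Real.norm_of_nonneg rr_nonneg]

theorem T_dg (a g x : G) : T a (dg g) x = T a (delta 2) (x * g⁻¹) := by
  rw [dg, T_R]; rfl

/-- Cauchy–Schwarz along the powers of `a`. -/
theorem sum_le (a : G) (ha : Function.Injective fun n : ℕ => a ^ n) (w : Ell G 2) (M : ℕ) :
    (∑ m ∈ Finset.range M, ‖w (a ^ m)‖) ^ 2 ≤ M * ‖w‖ ^ 2 := by
  classical
  have h0 := lp.sum_rpow_le_norm_rpow (E := fun _ : G => ℂ) (p := 2) hp2 w
    ((Finset.range M).map ⟨_, ha⟩)
  rw [Finset.sum_map] at h0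
  have h1 : ∑ m ∈ Finset.range M, ‖w (a ^ m)‖ ^ 2 ≤ ‖w‖ ^ 2 := by
    simpa using h0
  have h2 := Finset.sum_mul_sq_le_sq_mul_sq (Finset.range M) (fun _ => (1 : ℝ))
    (fun m => ‖w (a ^ m)‖)
  simp only [one_mul, one_pow, Finset.sum_const, Finset.card_range, nsmul_eq_mul, mul_one] at h2
  exact h2.trans (mul_le_mul_of_nonneg_left h1 (Nat.cast_nonneg M))

/-- The operator `T` is not a combination of positive linear maps. -/
theorem not_regular (a : G) (ha : Function.Injective fun n : ℕ => a ^ n) (r : ℕ) (c : Fin r → ℂ)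
    (S : Fin r → (Ell G 2 →ₗ[ℂ] Ell G 2)) (hS : ∀ i f, Pos f → Pos (S i f)) :
    ¬ ∀ f, T a f = ∑ i, c i • S i f := by
  intro hT
  set W : Ell G 2 := ∑ i, ((‖c i‖ : ℝ) : ℂ) • S i (V a) with hW
  -- evaluation of sums
  have hsum : ∀ (F : Fin r → Ell G 2) (x : G), (∑ i, F i) x = ∑ i, F i x := by
    intro F x
    exact map_sum (evp (p := 2) x) F Finset.univ
  have key : ∀ (k : ℕ) (x : G), rr ^ k * ∑ j ∈ Finset.range (2 ^ k), ‖T a (dg (a ^ j)) x‖ ≤
      ‖W x‖ := by
    intro k x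
    have h1 : ∀ j, ‖T a (dg (a ^ j)) x‖ ≤ ∑ i, ‖c i‖ * (S i (dg (a ^ j)) x).re := by
      intro j
      rw [hT, hsum]
      refine (norm_sum_le _ _).trans (Finset.sum_le_sum fun i _ => ?_)
      have e1 : (c i • S i (dg (a ^ j))) x = c i * S i (dg (a ^ j)) x := rfl
      rw [e1, norm_mul]
      refine mul_le_mul_of_nonneg_left (le_of_eq ?_) (norm_nonneg _)
      have h3 := hS i _ (dg_pos (a ^ j)) x
      have h4 : S i (dg (a ^ j)) x = (((S i (dg (a ^ j)) x).re : ℝ) : ℂ) := by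
        apply Complex.ext
        · rw [Complex.ofReal_re]
        · rw [Complex.ofReal_im, h3.2]
      rw [h4, Complex.norm_real, Real.norm_of_nonneg h3.1, Complex.ofReal_re]
    have h2 : ∑ j ∈ Finset.range (2 ^ k), ‖T a (dg (a ^ j)) x‖ ≤
        ∑ i, ‖c i‖ * (S i (vk a k) x).re := by
      refine (Finset.sum_le_sum fun j _ => h1 j).trans (le_of_eq ?_)
      rw [Finset.sum_comm]
      refine Finset.sum_congr rfl fun i _ => ?_
      rw [← Finset.mul_sum, vk, map_sum]
      congr 1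
      have e1 : (∑ j ∈ Finset.range (2 ^ k), S i (dg (a ^ j))) x =
          ∑ j ∈ Finset.range (2 ^ k), S i (dg (a ^ j)) x :=
        map_sum (evp (p := 2) x) (fun j => S i (dg (a ^ j))) _
      rw [e1, Complex.re_sum]
    have h3 : rr ^ k * ∑ i, ‖c i‖ * (S i (vk a k) x).re ≤ (W x).re := by
      rw [hW, hsum, Complex.re_sum, Finset.mul_sum]
      refine Finset.sum_le_sum fun i _ => ?_
      have e1 : (((‖c i‖ : ℝ) : ℂ) • S i (V a)) x = ((‖c i‖ : ℝ) : ℂ) * S i (V a) x := rfl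
      rw [e1, Complex.re_ofReal_mul]
      have e2 := (hS i _ (V_sub_pos a ha k) x).1
      rw [map_sub, map_smul] at e2
      have e3 : (S i (V a) - ((rr ^ k : ℝ) : ℂ) • S i (vk a k)) x =
          S i (V a) x - ((rr ^ k : ℝ) : ℂ) * S i (vk a k) x := rfl
      rw [e3, Complex.sub_re, Complex.re_ofReal_mul] at e2
      have e4 := mul_le_mul_of_nonneg_left (sub_nonneg.1 e2) (norm_nonneg (c i))
      calc rr ^ k * (‖c i‖ * (S i (vk a k) x).re) = ‖c i‖ * (rr ^ k * (S i (vk a k) x).re) := by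
            ring
        _ ≤ _ := e4
    have h5 := mul_le_mul_of_nonneg_left h2 (pow_nonneg rr_nonneg k)
    exact (h5.trans h3).trans (Complex.re_le_norm _)
  -- lower bound
  have lower : ∀ k : ℕ, rr ^ k * (2 ^ k * (2 ^ k * rr ^ k)) ≤
      ∑ m ∈ Finset.range (2 ^ (k + 2)), ‖W (a ^ m)‖ := by
    intro k
    have h1 := Finset.sum_le_sum fun m (_ : m ∈ Finset.range (2 ^ (k + 2))) => key k (a ^ m)
    refine le_trans ?_ h1
    rw [← Finset.mul_sum]
    refine mul_le_mul_of_nonneg_left ?_ (pow_nonneg rr_nonneg k)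
    rw [Finset.sum_comm]
    have h2 : ∀ j ∈ Finset.range (2 ^ k), (2 : ℝ) ^ k * rr ^ k ≤
        ∑ m ∈ Finset.range (2 ^ (k + 2)), ‖T a (dg (a ^ j)) (a ^ m)‖ := by
      intro j hj
      rw [Finset.mem_range] at hj
      have h3 : ∑ m ∈ (Finset.range (2 ^ k)).map ⟨fun n => 2 ^ k + n + j, fun x y h => by
          simpa using h⟩, ‖T a (dg (a ^ j)) (a ^ m)‖ ≤
          ∑ m ∈ Finset.range (2 ^ (k + 2)), ‖T a (dg (a ^ j)) (a ^ m)‖ := by
        refine Finset.sum_le_sum_of_subset_of_nonneg ?_ fun _ _ _ => norm_nonneg _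
        intro m hm
        rw [Finset.mem_map] at hm
        obtain ⟨n, hn, rfl⟩ := hm
        rw [Finset.mem_range] at hn ⊢
        show 2 ^ k + n + j < 2 ^ (k + 2)
        rw [pow_add]
        omega
      refine le_trans (le_of_eq ?_) h3
      rw [Finset.sum_map]
      have h4 : ∀ n ∈ Finset.range (2 ^ k), ‖T a (dg (a ^ j)) (a ^ (2 ^ k + n + j))‖ = rr ^ k := by
        intro n hn
        rw [Finset.mem_range] at hn
        rw [T_dg, pow_add a (2 ^ k + n) j, mul_inv_cancel_right]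
        exact norm_T_delta a ha k _ (by omega) (by rw [pow_succ]; omega)
      show _ = ∑ n ∈ Finset.range (2 ^ k), ‖T a (dg (a ^ j)) (a ^ (2 ^ k + n + j))‖
      rw [Finset.sum_congr rfl h4]
      simp
    have h3 := Finset.sum_le_sum h2
    refine le_trans (le_of_eq ?_) h3
    simp
  -- conclusion
  have fin : ∀ k : ℕ, (8 * rr ^ 4) ^ k ≤ 4 * ‖W‖ ^ 2 := by
    intro k
    have h1 := pow_le_pow_left₀ (by have := rr_nonneg; positivity) (lower k) 2
    have h2 := h1.trans (sum_le a ha W _)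
    push_cast at h2
    have e1 : (rr ^ k * (2 ^ k * (2 ^ k * rr ^ k))) ^ 2 = 2 ^ k * (8 * rr ^ 4) ^ k := by
      have : (2 : ℝ) * (8 * rr ^ 4) = (rr * (2 * (2 * rr))) ^ 2 := by ring
      rw [← mul_pow 2 (8 * rr ^ 4) k, this, ← pow_mul, mul_comm 2 k, pow_mul]
      congr 1
      rw [mul_pow, mul_pow, mul_pow]
    rw [e1, pow_add] at h2
    have h3 : (2 : ℝ) ^ k * (8 * rr ^ 4) ^ k ≤ 2 ^ k * (4 * ‖W‖ ^ 2) := by
      refine h2.trans (le_of_eq ?_)
      ring
    exact le_of_mul_le_mul_left h3 (by positivity)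
  obtain ⟨k, hk⟩ := pow_unbounded_of_one_lt (4 * ‖W‖ ^ 2)
    (show (1 : ℝ) < 8 * rr ^ 4 by unfold rr; norm_num)
  exact absurd (fin k) (not_le.2 hk)

end Pool.Agent.R289.NotReg
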