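import Mathlib
import Pool.Agent.R289.Kron2

/-!
# Numerical hypercyclicity of two Jordan blocks in every norm

Every norm on `ℂ⁴ = (ℂ × ℂ) × (ℂ × ℂ)` has, for every small `β`, a pair `(v, f)` of norm one with
`f v = 1` and `f (Tⁿ v) = l₁ⁿ (1/2 + n β) + l₂ⁿ (1/2 + n conj β)`: one maximises
`1/2 log |a'| + 1/2 log |b'| + Re (β (a/a' + conj (b/b')))` over the unit ball.
-/

set_option autoImplicit false

namespace Pool.Agent.R289.NumHyp

open Filter Topology Set ComplexConjugate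

noncomputable section

/-- the orbit -/
def vv (l₁ l₂ β : ℂ) (n : ℕ) : ℂ := l₁ ^ n * (1 / 2 + n * β) + l₂ ^ n * (1 / 2 + n * conj β)

lemma continuous_vv (l₁ l₂ : ℂ) (n : ℕ) : Continuous fun β => vv l₁ l₂ β n := by
  unfold vv
  exact (continuous_const.mul (continuous_const.add (continuous_const.mul continuous_id))).add
    (continuous_const.mul (continuous_const.add (continuous_const.mul Complex.continuous_conj)))

lemma exists_beta_near {σ τ : ℂ} {ρ : ℝ} (hσ : ‖σ‖ = 1) (hτ : ‖τ‖ = 1) (hρ : 1 ≤ ρ)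
    (hind : ∀ m k : ℤ, σ ^ m * τ ^ k = 1 → m = 0 ∧ k = 0) {w : ℂ} (hw : w ≠ 0) {ε : ℝ} (hε : 0 < ε)
    {β₁ : ℂ} (hβ : β₁ ≠ 0) {δ : ℝ} (hδ : 0 < δ) :
    ∃ β : ℂ, ‖β - β₁‖ < δ ∧ ∃ n : ℕ, ‖vv (ρ * σ * τ) (ρ * σ * conj τ) β n - w‖ < ε := by
  have hwn : 0 < ‖w‖ := norm_pos_iff.2 hw
  have hβn : 0 < ‖β₁‖ := norm_pos_iff.2 hβ
  have hwc : (‖w‖ : ℂ) ≠ 0 := by exact_mod_cast hwn.ne'
  have hβc : (‖β₁‖ : ℂ) ≠ 0 := by exact_mod_cast hβn.ne'
  set a : ℂ := w / ‖w‖ with ha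
  set b : ℂ := Complex.I * conj β₁ / ‖β₁‖ with hb
  have ha1 : ‖a‖ = 1 := by
    rw [ha, norm_div, Complex.norm_real, norm_norm, div_self hwn.ne']
  have hb1 : ‖b‖ = 1 := by
    rw [hb, norm_div, norm_mul, Complex.norm_real, norm_norm, Complex.norm_I, one_mul,
      RCLike.norm_conj, div_self hβn.ne']
  obtain ⟨N, hN⟩ := exists_nat_gt ((‖w‖ / 2 + 1 / 2) / (δ / 2))
  have hε' : 0 < min (ε / ‖w‖) (δ / (2 * ‖β₁‖)) := lt_min (by positivity) (by positivity)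
  obtain ⟨n, hn, h1, h2⟩ := Kron2.exists_pow_near hσ hτ hind ha1 hb1 hε' (N + 1)
  have hn0 : (0 : ℝ) < n := by
    have : 0 < n := by omega
    exact_mod_cast this
  have hnc : (n : ℂ) ≠ 0 := by exact_mod_cast hn0.ne'
  have hρn : (1 : ℝ) ≤ ρ ^ n := one_le_pow₀ hρ
  have hρn0 : (0 : ℝ) < ρ ^ n := by linarith
  set t : ℂ := τ ^ n with ht
  have htn : ‖t‖ = 1 := by rw [ht, norm_pow, hτ, one_pow]
  have htt : t * conj t = 1 := by
    rw [Complex.mul_conj, Complex.normSq_eq_norm_sq, htn]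
    simp
  set r : ℝ := (‖w‖ / (2 * ρ ^ n) - t.re / 2) / n - (t * β₁).re with hr
  refine ⟨β₁ + conj t * r, ?_, n, ?_⟩
  · rw [add_sub_cancel_left, norm_mul, RCLike.norm_conj, htn, one_mul, Complex.norm_real,
      Real.norm_eq_abs]
    have h3 : |(t * β₁).re| < δ / 2 := by
      have h4 : (t * β₁).re = ((t - b) * β₁).re := by
        have h5 : b * β₁ = Complex.I * ‖β₁‖ := by
          rw [hb, div_mul_eq_mul_div, mul_assoc, mul_comm (conj β₁) β₁, Complex.mul_conj,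
            Complex.normSq_eq_norm_sq]
          push_cast
          field_simp
        rw [sub_mul, Complex.sub_re, h5]
        simp
      rw [h4]
      refine (Complex.abs_re_le_norm _).trans_lt ?_
      rw [norm_mul]
      have h6 : ‖t - b‖ < δ / (2 * ‖β₁‖) := h2.trans_le (min_le_right _ _)
      calc ‖t - b‖ * ‖β₁‖ < δ / (2 * ‖β₁‖) * ‖β₁‖ := mul_lt_mul_of_pos_right h6 hβn
        _ = δ / 2 := by field_simp
    have h7 : |(‖w‖ / (2 * ρ ^ n) - t.re / 2) / n| < δ / 2 := by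
      rw [abs_div, abs_of_pos hn0, div_lt_iff₀ hn0]
      have h8 : |‖w‖ / (2 * ρ ^ n) - t.re / 2| ≤ ‖w‖ / 2 + 1 / 2 := by
        have h9 : |t.re| ≤ 1 := (Complex.abs_re_le_norm _).trans_eq htn
        have h10 : ‖w‖ / (2 * ρ ^ n) ≤ ‖w‖ / 2 := by
          apply div_le_div_of_nonneg_left hwn.le (by norm_num) (by linarith)
        have h11 : 0 ≤ ‖w‖ / (2 * ρ ^ n) := by positivity
        rw [abs_le] at h9 ⊢
        constructor <;> linarith [h9.1, h9.2]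
      have h12 : (‖w‖ / 2 + 1 / 2) < δ / 2 * n := by
        rw [div_lt_iff₀ (by positivity)] at hN
        have h13 : (N : ℝ) ≤ n := by
          have : N ≤ n := by omega
          exact_mod_cast this
        nlinarith
      linarith
    rw [hr]
    calc |(‖w‖ / (2 * ρ ^ n) - t.re / 2) / n - (t * β₁).re|
        ≤ |(‖w‖ / (2 * ρ ^ n) - t.re / 2) / n| + |(t * β₁).re| := abs_sub _ _
      _ < δ := by linarith
  · have h3 : vv (ρ * σ * τ) (ρ * σ * conj τ) (β₁ + conj t * r) n = σ ^ n * ‖w‖ := by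
      unfold vv
      set q : ℂ := 1 / 2 + n * (β₁ + conj t * r) with hq
      have h4 : (1 / 2 + n * conj (β₁ + conj t * r) : ℂ) = conj q := by
        rw [hq]
        simp only [map_add, map_mul, map_div₀, map_one, map_ofNat, map_natCast]
      have h5 : (t * q).re = ‖w‖ / (2 * ρ ^ n) := by
        have h6 : t * q = t / 2 + n * (t * β₁) + n * (t * conj t) * r := by
          rw [hq]; ring
        rw [h6, htt, mul_one]
        have h7 : ((n : ℂ) * (r : ℂ)) = ((n * r : ℝ) : ℂ) := by push_cast; ring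
        have h8 : (t / 2).re = t.re / 2 := by
          rw [show t / 2 = t / ((2 : ℝ) : ℂ) by norm_num, Complex.div_ofReal_re]
        have h9 : ((n : ℂ) * (t * β₁)).re = n * (t * β₁).re := by
          rw [show (n : ℂ) = ((n : ℝ) : ℂ) by norm_num, Complex.re_ofReal_mul]
        rw [Complex.add_re, Complex.add_re, h7, h8, h9, Complex.ofReal_re, hr]
        field_simp
        ring
      rw [h4, mul_pow, mul_pow, mul_pow (ρ * σ : ℂ), mul_pow (ρ : ℂ), ← map_pow, ← ht]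
      have h10 : (ρ : ℂ) ^ n * σ ^ n * t * q + (ρ : ℂ) ^ n * σ ^ n * conj t * conj q =
          (ρ : ℂ) ^ n * σ ^ n * (t * q + conj (t * q)) := by
        rw [map_mul]; ring
      rw [h10, Complex.add_conj, h5]
      have h11 : ((ρ ^ n : ℝ) : ℂ) ≠ 0 := by exact_mod_cast hρn0.ne'
      push_cast at h11 ⊢
      field_simp
    rw [h3]
    have h4 : σ ^ n * (‖w‖ : ℂ) - w = (σ ^ n - a) * ‖w‖ := by
      rw [ha, sub_mul, div_mul_cancel₀ _ hwc]
    rw [h4, norm_mul, Complex.norm_real, norm_norm]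
    have h5 : ‖σ ^ n - a‖ < ε / ‖w‖ := h1.trans_le (min_le_left _ _)
    rwa [lt_div_iff₀ hwn] at h5

theorem exists_beta {l₁ l₂ : ℂ} (hn : ‖l₁‖ = ‖l₂‖) (h1 : 1 ≤ ‖l₁‖)
    (hind : ∀ m k : ℤ, (l₁ / ‖l₁‖) ^ m * (l₂ / ‖l₂‖) ^ k = 1 → m = 0 ∧ k = 0) {r : ℝ}
    (hr : 0 < r) : ∃ β : ℂ, ‖β‖ < r ∧ Dense (range (vv l₁ l₂ β)) := by
  have hpos : 0 < ‖l₁‖ := by linarith
  have hpos2 : 0 < ‖l₂‖ := by linarith
  have hc1 : (‖l₁‖ : ℂ) ≠ 0 := by exact_mod_cast hpos.ne'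
  have hc2 : (‖l₂‖ : ℂ) ≠ 0 := by exact_mod_cast hpos2.ne'
  obtain ⟨μ₁, hμ₁⟩ := IsAlgClosed.exists_pow_nat_eq (l₁ / ‖l₁‖) (n := 2) (by norm_num)
  obtain ⟨μ₂, hμ₂⟩ := IsAlgClosed.exists_pow_nat_eq (l₂ / ‖l₂‖) (n := 2) (by norm_num)
  have hz1 : ‖l₁ / (‖l₁‖ : ℂ)‖ = 1 := by
    rw [norm_div, Complex.norm_real, norm_norm, div_self hpos.ne']
  have hz2 : ‖l₂ / (‖l₂‖ : ℂ)‖ = 1 := by
    rw [norm_div, Complex.norm_real, norm_norm, div_self hpos2.ne']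
  have hm1 : ‖μ₁‖ = 1 := by
    have : ‖μ₁‖ ^ 2 = 1 := by rw [← norm_pow, hμ₁, hz1]
    exact (pow_eq_one_iff_of_nonneg (norm_nonneg _) (by norm_num)).1 this
  have hm2 : ‖μ₂‖ = 1 := by
    have : ‖μ₂‖ ^ 2 = 1 := by rw [← norm_pow, hμ₂, hz2]
    exact (pow_eq_one_iff_of_nonneg (norm_nonneg _) (by norm_num)).1 this
  have hm10 : μ₁ ≠ 0 := by rw [← norm_ne_zero_iff, hm1]; norm_num
  have hm20 : μ₂ ≠ 0 := by rw [← norm_ne_zero_iff, hm2]; norm_num
  have hm2c : μ₂ * conj μ₂ = 1 := by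
    rw [Complex.mul_conj, Complex.normSq_eq_norm_sq, hm2]; simp
  have hm1c : μ₁ * conj μ₁ = 1 := by
    rw [Complex.mul_conj, Complex.normSq_eq_norm_sq, hm1]; simp
  set σ : ℂ := μ₁ * μ₂ with hσd
  set τ : ℂ := μ₁ * conj μ₂ with hτd
  have hσ : ‖σ‖ = 1 := by rw [hσd, norm_mul, hm1, hm2, one_mul]
  have hτ : ‖τ‖ = 1 := by rw [hτd, norm_mul, RCLike.norm_conj, hm1, hm2, one_mul]
  have hστ : σ * τ = l₁ / ‖l₁‖ := by
    rw [hσd, hτd, ← hμ₁, show μ₁ * μ₂ * (μ₁ * conj μ₂) = μ₁ ^ 2 * (μ₂ * conj μ₂) by ring, hm2c,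
      mul_one]
  have hστ' : σ * conj τ = l₂ / ‖l₂‖ := by
    rw [hσd, hτd, ← hμ₂, map_mul, Complex.conj_conj,
      show μ₁ * μ₂ * (conj μ₁ * μ₂) = μ₂ ^ 2 * (μ₁ * conj μ₁) by ring, hm1c, mul_one]
  have hl1 : l₁ = (‖l₁‖ : ℂ) * σ * τ := by
    rw [mul_assoc, hστ, mul_div_cancel₀ _ hc1]
  have hl2 : l₂ = (‖l₁‖ : ℂ) * σ * conj τ := by
    rw [mul_assoc, hστ', hn, mul_div_cancel₀ _ hc2]
  have hconj : conj μ₂ = μ₂⁻¹ := by
    exact eq_inv_of_mul_eq_one_left (by rw [mul_comm]; exact hm2c)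
  have hind' : ∀ m k : ℤ, σ ^ m * τ ^ k = 1 → m = 0 ∧ k = 0 := by
    intro m k h
    have h2 : (l₁ / ‖l₁‖) ^ (m + k) * (l₂ / ‖l₂‖) ^ (m - k) = 1 := by
      rw [← hμ₁, ← hμ₂]
      have h3 : (σ ^ m * τ ^ k) ^ 2 = 1 := by rw [h, one_pow]
      rw [← h3, hσd, hτd, hconj, mul_zpow, mul_zpow, inv_zpow', zpow_add₀ (pow_ne_zero 2 hm10),
        zpow_sub₀ (pow_ne_zero 2 hm20), ← zpow_natCast μ₁ 2, ← zpow_natCast μ₂ 2,
        ← zpow_mul, ← zpow_mul, ← zpow_mul, ← zpow_mul, div_eq_mul_inv, ← zpow_neg]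
      have e : ∀ (x : ℂ) (j : ℤ), x ^ ((2 : ℕ) * j : ℤ) = (x ^ j) ^ 2 := by
        intro x j
        rw [mul_comm, zpow_mul, zpow_natCast]
      rw [e, e, e, show -(((2 : ℕ) : ℤ) * k) = ((2 : ℕ) : ℤ) * (-k) by ring, e]
      ring
    obtain ⟨h4, h5⟩ := hind _ _ h2
    omega
  -- the Baire argument
  let B := TopologicalSpace.countableBasis ℂ
  have hBc : B.Countable := TopologicalSpace.countable_countableBasis ℂ
  let A : Set ℂ → Set ℂ := fun U => {β | ∃ n, vv l₁ l₂ β n ∈ U}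
  have hAo : ∀ U ∈ B, IsOpen (A U) := by
    intro U hU
    have hUo := TopologicalSpace.isOpen_of_mem_countableBasis hU
    have : A U = ⋃ n, (fun β => vv l₁ l₂ β n) ⁻¹' U := by
      ext β; simp [A]
    rw [this]
    exact isOpen_iUnion fun n => hUo.preimage (continuous_vv l₁ l₂ n)
  have hAd : ∀ U ∈ B, Dense (A U) := by
    intro U hU
    have hUo := TopologicalSpace.isOpen_of_mem_countableBasis hU
    have hUne := TopologicalSpace.nonempty_of_mem_countableBasis hU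
    obtain ⟨w, hwU, hw0⟩ := (dense_compl_singleton (0 : ℂ)).inter_open_nonempty U hUo hUne
    have hw0' : w ≠ 0 := hw0
    obtain ⟨ε, hε, hball⟩ := Metric.isOpen_iff.1 hUo w hwU
    have hsub : ({0}ᶜ : Set ℂ) ⊆ closure (A U) := by
      intro β₁ hβ₁
      rw [Metric.mem_closure_iff]
      intro δ hδ
      obtain ⟨β, h3, n, h4⟩ := exists_beta_near hσ hτ h1 hind' hw0' hε hβ₁ hδ
      rw [← hl1, ← hl2] at h4
      refine ⟨β, ⟨n, hball ?_⟩, ?_⟩
      · rw [Metric.mem_ball, dist_eq_norm]; exact h4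
      · rw [dist_comm, dist_eq_norm]; exact h3
    have h5 := closure_mono hsub
    rw [closure_closure, (dense_compl_singleton (0 : ℂ)).closure_eq] at h5
    exact fun x => h5 (mem_univ x)
  have hD : Dense (⋂ U ∈ B, A U) := dense_biInter_of_isOpen hAo hBc hAd
  obtain ⟨β, hβ1, hβ2⟩ := hD.inter_open_nonempty (Metric.ball 0 r) Metric.isOpen_ball
    ⟨0, Metric.mem_ball_self hr⟩
  refine ⟨β, by simpa using hβ1, ?_⟩
  rw [(TopologicalSpace.isBasis_countableBasis ℂ).dense_iff]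
  intro U hU _
  have := mem_iInter₂.1 hβ2 U hU
  obtain ⟨n, hn'⟩ := this
  exact ⟨_, hn', n, rfl⟩

end

end Pool.Agent.R289.NumHyp
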