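import Mathlib
import Pool.Agent.R289.NumHyp

/-!
# The maximisation
-/

set_option autoImplicit false

namespace Pool.Agent.R289.NumHyp

open Filter Topology Set ComplexConjugate

noncomputable section

/-- the space of the two blocks -/
abbrev E4 : Type := (ℂ × ℂ) × (ℂ × ℂ)

/-- the functional -/
def ff (β : ℂ) (v w : E4) : ℂ :=
  1 / 2 * (w.1.2 / v.1.2) + 1 / 2 * (w.2.2 / v.2.2) +
    β * ((w.1.1 * v.1.2 - v.1.1 * w.1.2) / v.1.2 ^ 2) +
    conj β * ((w.2.1 * v.2.2 - v.2.1 * w.2.2) / v.2.2 ^ 2)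

/-- the functional as a linear map -/
def ffL (β : ℂ) (v : E4) : E4 →ₗ[ℂ] ℂ where
  toFun w := ff β v w
  map_add' x y := by
    unfold ff
    simp only [Prod.fst_add, Prod.snd_add]
    ring
  map_smul' c x := by
    unfold ff
    simp only [Prod.smul_fst, Prod.smul_snd, smul_eq_mul, RingHom.id_apply]
    ring

lemma ff_self {β : ℂ} {v : E4} (h1 : v.1.2 ≠ 0) (h2 : v.2.2 ≠ 0) : ff β v v = 1 := by
  unfold ff
  rw [div_self h1, div_self h2, sub_self, sub_self]
  norm_num

/-- the variable `z` -/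
def zz (v : E4) : ℂ := v.1.1 / v.1.2 + conj (v.2.1 / v.2.2)

/-- the function to be maximised -/
def GG (β : ℂ) (v : E4) : ℝ :=
  1 / 2 * Real.log ‖v.1.2‖ + 1 / 2 * Real.log ‖v.2.2‖ + (β * zz v).re

lemma re_zz (β : ℂ) (v : E4) :
    (β * zz v).re = (β * (v.1.1 / v.1.2)).re + (conj β * (v.2.1 / v.2.2)).re := by
  unfold zz
  rw [mul_add, Complex.add_re]
  congr 1
  rw [← Complex.conj_re, map_mul, Complex.conj_conj]

/-- the derivative of `GG` -/
lemma GG_deriv (β : ℂ) {v : E4} (h1 : v.1.2 ≠ 0) (h2 : v.2.2 ≠ 0) (w : E4) :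
    ∃ h : ℝ → ℝ, HasDerivAt h (ff β v w).re 0 ∧
      ∀ᶠ t : ℝ in 𝓝 0, GG β (v + (t : ℂ) • w) = h t + (GG β v - h 0) := by
  let Φ : ℂ → ℂ := fun e =>
    1 / 2 * Complex.log (1 + e * (w.1.2 / v.1.2)) + 1 / 2 * Complex.log (1 + e * (w.2.2 / v.2.2)) +
      β * ((v.1.1 + e * w.1.1) / (v.1.2 + e * w.1.2)) +
      conj β * ((v.2.1 + e * w.2.1) / (v.2.2 + e * w.2.2))
  have hlin : ∀ a b : ℂ, HasDerivAt (fun e : ℂ => a + e * b) b 0 := by
    intro a b
    have := (hasDerivAt_mul_const (x := (0 : ℂ)) b).const_add a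
    exact this
  have hΦ : HasDerivAt Φ (ff β v w) 0 := by
    have hlog : ∀ c : ℂ, HasDerivAt (fun e : ℂ => 1 / 2 * Complex.log (1 + e * c)) (1 / 2 * c) 0 := by
      intro c
      have h3 : HasDerivAt (fun e : ℂ => Complex.log (1 + e * c)) (c / (1 + 0 * c)) 0 := by
        apply (hlin 1 c).clog
        simp
      have h4 := h3.const_mul (1 / 2 : ℂ)
      rw [zero_mul, add_zero, div_one] at h4
      exact h4
    have hdiv : ∀ (γ a a' b b' : ℂ), a' ≠ 0 → HasDerivAt
        (fun e : ℂ => γ * ((a + e * b) / (a' + e * b'))) (γ * ((b * a' - a * b') / a' ^ 2)) 0 := by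
      intro γ a a' b b' ha'
      have h3 := (hlin a b).div (hlin a' b') (by simpa using ha')
      have h4 := h3.const_mul γ
      simp only [zero_mul, add_zero] at h4
      exact h4
    exact (((hlog _).add (hlog _)).add (hdiv β v.1.1 v.1.2 w.1.1 w.1.2 h1)).add
      (hdiv (conj β) v.2.1 v.2.2 w.2.1 w.2.2 h2)
  refine ⟨fun t => (Φ t).re, ?_, ?_⟩
  · exact HasDerivAt.real_of_complex (by simpa using hΦ)
  · have hne : ∀ a b : ℂ, a ≠ 0 → ∀ᶠ t : ℝ in 𝓝 0, a + (t : ℂ) * b ≠ 0 := by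
      intro a b ha
      have hc : Continuous fun t : ℝ => a + (t : ℂ) * b := by fun_prop
      have h3 : Tendsto (fun t : ℝ => a + (t : ℂ) * b) (𝓝 0) (𝓝 (a + ((0 : ℝ) : ℂ) * b)) :=
        hc.tendsto 0
      rw [Complex.ofReal_zero, zero_mul, add_zero] at h3
      exact h3.eventually_ne ha
    filter_upwards [hne v.1.2 w.1.2 h1, hne v.2.2 w.2.2 h2] with t ht1 ht2
    have hl : ∀ a b : ℂ, a ≠ 0 → a + (t : ℂ) * b ≠ 0 →
        Real.log ‖a + (t : ℂ) * b‖ = (Complex.log (1 + t * (b / a))).re + Real.log ‖a‖ := by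
      intro a b ha hab
      rw [Complex.log_re]
      have h5 : a + (t : ℂ) * b = (1 + t * (b / a)) * a := by
        field_simp
      have h6 : (1 + t * (b / a) : ℂ) ≠ 0 := by
        intro h
        rw [h5, h, zero_mul] at hab
        exact hab rfl
      rw [h5, norm_mul, Real.log_mul (norm_ne_zero_iff.2 h6) (norm_ne_zero_iff.2 ha)]
    have hhalf : ∀ x : ℂ, (1 / 2 * x).re = 1 / 2 * x.re := by
      intro x
      rw [show (1 / 2 * x : ℂ) = ((1 / 2 : ℝ) : ℂ) * x by push_cast; ring, Complex.re_ofReal_mul]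
    show GG β (v + (t : ℂ) • w) = (Φ t).re + (GG β v - (Φ (0 : ℝ)).re)
    have hΦt : (Φ t).re = 1 / 2 * (Complex.log (1 + t * (w.1.2 / v.1.2))).re +
        1 / 2 * (Complex.log (1 + t * (w.2.2 / v.2.2))).re +
        (β * ((v.1.1 + t * w.1.1) / (v.1.2 + t * w.1.2))).re +
        (conj β * ((v.2.1 + t * w.2.1) / (v.2.2 + t * w.2.2))).re := by
      simp only [Φ, Complex.add_re, hhalf]
    have hΦ0 : (Φ (0 : ℝ)).re = (β * (v.1.1 / v.1.2)).re + (conj β * (v.2.1 / v.2.2)).re := by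
      simp only [Φ, Complex.add_re, Complex.ofReal_zero, zero_mul, add_zero,
        Complex.log_one, Complex.zero_re, mul_zero, zero_add]
    rw [hΦt, hΦ0]
    unfold GG
    rw [re_zz, re_zz]
    simp only [Prod.fst_add, Prod.snd_add, Prod.smul_fst, Prod.smul_snd, smul_eq_mul]
    rw [hl _ _ h1 ht1, hl _ _ h2 ht2]
    ring

section main

variable {X : Type*} [NormedAddCommGroup X] [NormedSpace ℂ X]

theorem exists_max (L : E4 →L[ℂ] X) (hL : Function.Injective L) :
    ∃ r₀ > (0 : ℝ), ∀ β : ℂ, ‖β‖ < r₀ → ∃ v : E4, v.1.2 ≠ 0 ∧ v.2.2 ≠ 0 ∧ ‖L v‖ ≤ 1 ∧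
      ∀ w, ‖ff β v w‖ ≤ ‖L w‖ := by
  obtain ⟨K, hK0, hK⟩ := L.toLinearMap.exists_antilipschitzWith (LinearMap.ker_eq_bot.2 hL)
  obtain ⟨C, hC⟩ : ∃ C : ℝ, C = (K : ℝ) := ⟨_, rfl⟩
  have hC0 : 0 < C := by rw [hC]; exact_mod_cast hK0
  have hbd : ∀ v, ‖v‖ ≤ C * ‖L v‖ := by
    intro v
    have := hK.le_mul_dist v 0
    rw [hC]
    simpa [dist_eq_norm] using this
  -- the reference point
  set e0 : E4 := ((0, 1), (0, 1)) with he0
  set c : ℝ := 1 / (‖L e0‖ + 1) with hc
  have hc0 : 0 < c := by positivity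
  set v0 : E4 := (c : ℂ) • e0 with hv0
  have hLv0 : ‖L v0‖ ≤ 1 := by
    rw [hv0, map_smul, norm_smul, Complex.norm_real, Real.norm_eq_abs, abs_of_pos hc0, hc,
      div_mul_eq_mul_div, one_mul, div_le_one (by positivity)]
    linarith
  have hv011 : v0.1.1 = 0 := by simp [hv0, he0]
  have hv021 : v0.2.1 = 0 := by simp [hv0, he0]
  have hv012 : v0.1.2 = c := by simp [hv0, he0]
  have hv022 : v0.2.2 = c := by simp [hv0, he0]
  have hnc : ‖(c : ℂ)‖ = c := by rw [Complex.norm_real, Real.norm_eq_abs, abs_of_pos hc0]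
  have hcoord : ∀ v : E4, ‖L v‖ ≤ 1 → ‖v.1.1‖ ≤ C ∧ ‖v.1.2‖ ≤ C ∧ ‖v.2.1‖ ≤ C ∧ ‖v.2.2‖ ≤ C := by
    intro v hv
    have h1 : ‖v‖ ≤ C := (hbd v).trans (by nlinarith)
    have h2 : ‖v.1‖ ≤ C := (norm_fst_le v).trans h1
    have h3 : ‖v.2‖ ≤ C := (norm_snd_le v).trans h1
    exact ⟨(norm_fst_le _).trans h2, (norm_snd_le _).trans h2, (norm_fst_le _).trans h3,
      (norm_snd_le _).trans h3⟩
  have hcC : c ≤ C := by
    have := (hcoord v0 hLv0).2.1
    rwa [hv012, hnc] at this
  set η : ℝ := c ^ 2 / (C * Real.exp 2) with hη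
  have hη0 : 0 < η := by positivity
  have he2 : 1 < Real.exp 2 := Real.one_lt_exp_iff.2 (by norm_num)
  have hηc : η ≤ c := by
    rw [hη, div_le_iff₀ (by positivity)]
    have h1 : c * c ≤ c * C := mul_le_mul_of_nonneg_left hcC hc0.le
    have h2 : c * C ≤ c * C * Real.exp 2 := by
      have : 0 < c * C := by positivity
      nlinarith
    nlinarith
  set R : ℝ := 2 * C / η with hR
  have hR0 : 0 < R := by positivity
  refine ⟨1 / (2 * R), by positivity, ?_⟩
  intro β hβ
  have hβR : ‖β‖ * R ≤ 1 / 2 := by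
    rw [lt_div_iff₀ (by positivity)] at hβ
    linarith
  -- the compact set
  let S' : Set E4 := {v | ‖L v‖ ≤ 1 ∧ η ≤ ‖v.1.2‖ ∧ η ≤ ‖v.2.2‖}
  have hS'c : IsCompact S' := by
    have hcl : IsClosed S' := by
      have i1 : IsClosed {v : E4 | ‖L v‖ ≤ 1} := isClosed_le (by fun_prop) continuous_const
      have i2 : IsClosed {v : E4 | η ≤ ‖v.1.2‖} := isClosed_le continuous_const (by fun_prop)
      have i3 : IsClosed {v : E4 | η ≤ ‖v.2.2‖} := isClosed_le continuous_const (by fun_prop)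
      exact i1.inter (i2.inter i3)
    have hb : S' ⊆ Metric.closedBall 0 C := by
      rintro v ⟨hv, -⟩
      rw [mem_closedBall_zero_iff]
      exact (hbd v).trans (by nlinarith)
    exact (isCompact_closedBall (0 : E4) C).of_isClosed_subset hcl hb
  have hne : ∀ v ∈ S', v.1.2 ≠ 0 ∧ v.2.2 ≠ 0 := by
    rintro v ⟨-, h1, h2⟩
    exact ⟨norm_pos_iff.1 (hη0.trans_le h1), norm_pos_iff.1 (hη0.trans_le h2)⟩
  have hzc : ContinuousOn zz S' := by
    unfold zz
    refine ContinuousOn.add ?_ (Complex.continuous_conj.comp_continuousOn ?_)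
    · exact ContinuousOn.div (by fun_prop) (by fun_prop) fun v hv => (hne v hv).1
    · exact ContinuousOn.div (by fun_prop) (by fun_prop) fun v hv => (hne v hv).2
  let S : Set E4 := S' ∩ zz ⁻¹' Metric.closedBall 0 R
  have hSc : IsCompact S :=
    hS'c.of_isClosed_subset (hzc.preimage_isClosed_of_isClosed hS'c.isClosed
      Metric.isClosed_closedBall) inter_subset_left
  have hGc : ContinuousOn (GG β) S := by
    have hz' : ContinuousOn zz S := hzc.mono inter_subset_left
    unfold GG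
    refine ContinuousOn.add (ContinuousOn.add ?_ ?_) ?_
    · refine ContinuousOn.mul continuousOn_const (ContinuousOn.log (by fun_prop) ?_)
      intro v hv
      exact norm_ne_zero_iff.2 (hne v hv.1).1
    · refine ContinuousOn.mul continuousOn_const (ContinuousOn.log (by fun_prop) ?_)
      intro v hv
      exact norm_ne_zero_iff.2 (hne v hv.1).2
    · exact Complex.continuous_re.comp_continuousOn (continuousOn_const.mul hz')
  have hv0S : v0 ∈ S := by
    refine ⟨⟨hLv0, ?_, ?_⟩, ?_⟩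
    · rw [hv012, hnc]; exact hηc
    · rw [hv022, hnc]; exact hηc
    · show zz v0 ∈ Metric.closedBall 0 R
      unfold zz
      rw [hv011, hv021, zero_div, zero_div, map_zero, add_zero]
      exact Metric.mem_closedBall_self hR0.le
  obtain ⟨v, hvS, hmax⟩ := hSc.exists_isMaxOn ⟨v0, hv0S⟩ hGc
  have hG0 : GG β v0 = Real.log c := by
    unfold GG zz
    rw [hv011, hv012, hv021, hv022, hnc]
    simp only [zero_div, map_zero, add_zero, mul_zero, Complex.zero_re]
    ring
  have hGv : Real.log c ≤ GG β v := by rw [← hG0]; exact hmax hv0S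
  obtain ⟨⟨hv1, hv2, hv3⟩, hv4⟩ := hvS
  have hv4' : ‖zz v‖ ≤ R := by simpa using hv4
  obtain ⟨hc11, hc12, hc21, hc22⟩ := hcoord v hv1
  have hn12 : 0 < ‖v.1.2‖ := hη0.trans_le hv2
  have hn22 : 0 < ‖v.2.2‖ := hη0.trans_le hv3
  have hlogη : Real.log η = 2 * Real.log c - Real.log C - 2 := by
    rw [hη, Real.log_div (by positivity) (by positivity), Real.log_pow,
      Real.log_mul hC0.ne' (Real.exp_pos 2).ne', Real.log_exp]
    push_cast
    ring
  have hreb : (β * zz v).re ≤ 1 / 2 := by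
    refine (Complex.re_le_norm _).trans ?_
    rw [norm_mul]
    exact (mul_le_mul_of_nonneg_left hv4' (norm_nonneg _)).trans hβR
  have hup : ¬ (‖v.1.2‖ ≤ η ∨ ‖v.2.2‖ ≤ η) := by
    intro h
    have h1 : Real.log ‖v.1.2‖ + Real.log ‖v.2.2‖ ≤ Real.log η + Real.log C := by
      rcases h with h | h
      · have h2 := Real.log_le_log hn12 h
        have h3 := Real.log_le_log hn22 hc22
        linarith
      · have h2 := Real.log_le_log hn22 h
        have h3 := Real.log_le_log hn12 hc12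
        linarith
    have h2 : GG β v ≤ 1 / 2 * (Real.log η + Real.log C) + 1 / 2 := by
      unfold GG
      linarith
    rw [hlogη] at h2
    linarith
  push Not at hup
  obtain ⟨hs1, hs2⟩ := hup
  have hs3 : ‖zz v‖ < R := by
    have h1 : ‖v.1.1 / v.1.2‖ < C / η := by
      rw [norm_div]
      exact (div_le_div_of_nonneg_right hc11 hn12.le).trans_lt
        (div_lt_div_of_pos_left hC0 hη0 hs1)
    have h2 : ‖v.2.1 / v.2.2‖ < C / η := by
      rw [norm_div]
      exact (div_le_div_of_nonneg_right hc21 hn22.le).trans_lt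
        (div_lt_div_of_pos_left hC0 hη0 hs2)
    unfold zz
    refine (norm_add_le _ _).trans_lt ?_
    rw [RCLike.norm_conj]
    calc _ < C / η + C / η := add_lt_add h1 h2
      _ = R := by rw [hR]; ring
  have hvne1 : v.1.2 ≠ 0 := norm_pos_iff.1 hn12
  have hvne2 : v.2.2 ≠ 0 := norm_pos_iff.1 hn22
  -- first order condition
  have hfirst : ∀ y : E4, ‖L y‖ ≤ 1 → (ff β v y).re ≤ 1 := by
    intro y hy
    obtain ⟨h, hh, hev⟩ := GG_deriv β hvne1 hvne2 (y - v)
    have hcv : Continuous fun t : ℝ => v + (t : ℂ) • (y - v) := by fun_prop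
    have hv00 : v + ((0 : ℝ) : ℂ) • (y - v) = v := by simp
    have ev1 : ∀ᶠ t : ℝ in 𝓝 0, η < ‖(v + (t : ℂ) • (y - v)).1.2‖ := by
      have hc1 : Continuous fun t : ℝ => ‖(v + (t : ℂ) • (y - v)).1.2‖ := by fun_prop
      refine hc1.continuousAt.eventually (lt_mem_nhds ?_)
      beta_reduce
      rw [hv00]; exact hs1
    have ev2 : ∀ᶠ t : ℝ in 𝓝 0, η < ‖(v + (t : ℂ) • (y - v)).2.2‖ := by
      have hc1 : Continuous fun t : ℝ => ‖(v + (t : ℂ) • (y - v)).2.2‖ := by fun_prop
      refine hc1.continuousAt.eventually (lt_mem_nhds ?_)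
      beta_reduce
      rw [hv00]; exact hs2
    have ev3 : ∀ᶠ t : ℝ in 𝓝 0, ‖zz (v + (t : ℂ) • (y - v))‖ < R := by
      have hza : ContinuousAt zz v := by
        unfold zz
        refine ContinuousAt.add ?_ (Complex.continuous_conj.continuousAt.comp ?_)
        · exact ContinuousAt.div (by fun_prop) (by fun_prop) hvne1
        · exact ContinuousAt.div (by fun_prop) (by fun_prop) hvne2
      have hc1 : ContinuousAt (fun t : ℝ => ‖zz (v + (t : ℂ) • (y - v))‖) 0 := by
        refine ContinuousAt.norm ?_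
        refine ContinuousAt.comp (g := zz) ?_ hcv.continuousAt
        rw [hv00]; exact hza
      refine hc1.eventually (gt_mem_nhds ?_)
      beta_reduce
      rw [hv00]; exact hs3
    have hle : ∀ᶠ t : ℝ in 𝓝[>] 0, h t - h 0 ≤ 0 := by
      have h01 : ∀ᶠ t : ℝ in 𝓝[>] 0, t < 1 := by
        exact (Filter.eventually_of_mem (mem_nhdsWithin_of_mem_nhds (Iio_mem_nhds one_pos))
          fun _ h => h)
      filter_upwards [mem_nhdsWithin_of_mem_nhds hev, mem_nhdsWithin_of_mem_nhds ev1,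
        mem_nhdsWithin_of_mem_nhds ev2, mem_nhdsWithin_of_mem_nhds ev3, h01,
        self_mem_nhdsWithin] with t ht0 ht1 ht2 ht3 ht4 ht5
      have ht5' : (0 : ℝ) < t := ht5
      have ht0' : GG β (v + (t : ℂ) • (y - v)) = h t + (GG β v - h 0) := ht0
      have hin : v + (t : ℂ) • (y - v) ∈ S := by
        refine ⟨⟨?_, le_of_lt ht1, le_of_lt ht2⟩, ?_⟩
        · have e : v + (t : ℂ) • (y - v) = ((1 - t : ℝ) : ℂ) • v + (t : ℂ) • y := by
            push_cast
            rw [smul_sub, sub_smul, one_smul]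
            abel
          rw [e, map_add, map_smul, map_smul]
          refine (norm_add_le _ _).trans ?_
          rw [norm_smul, norm_smul, Complex.norm_real, Complex.norm_real, Real.norm_eq_abs,
            Real.norm_eq_abs, abs_of_pos ht5', abs_of_pos (by linarith : 0 < 1 - t)]
          nlinarith
        · show zz (v + (t : ℂ) • (y - v)) ∈ Metric.closedBall 0 R
          rw [mem_closedBall_zero_iff]
          exact le_of_lt ht3
      have := hmax hin
      have h3 : GG β (v + (t : ℂ) • (y - v)) ≤ GG β v := this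
      linarith
    have hslope := hh.tendsto_slope_zero_right
    have hres : (ff β v (y - v)).re ≤ 0 := by
      refine le_of_tendsto hslope ?_
      filter_upwards [hle, self_mem_nhdsWithin] with t ht ht5
      have ht5' : (0 : ℝ) < t := ht5
      rw [zero_add, smul_eq_mul]
      exact mul_nonpos_of_nonneg_of_nonpos (by positivity) ht
    have hlin : ff β v (y - v) = ff β v y - ff β v v := (ffL β v).map_sub y v
    rw [hlin, ff_self hvne1 hvne2, Complex.sub_re, Complex.one_re] at hres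
    linarith
  refine ⟨v, hvne1, hvne2, hv1, ?_⟩
  intro w
  by_cases hw : L w = 0
  · have hw0 : w = 0 := hL (by rw [hw, map_zero])
    rw [hw0]
    have : ff β v 0 = 0 := (ffL β v).map_zero
    rw [this, norm_zero]
    exact norm_nonneg _
  by_cases hf : ff β v w = 0
  · rw [hf, norm_zero]; exact norm_nonneg _
  have hLw : 0 < ‖L w‖ := norm_pos_iff.2 hw
  have hfw : 0 < ‖ff β v w‖ := norm_pos_iff.2 hf
  set s : ℂ := conj (ff β v w) / (‖ff β v w‖ * ‖L w‖) with hs
  have h1 : ‖L (s • w)‖ ≤ 1 := by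
    rw [map_smul, norm_smul, hs, norm_div, RCLike.norm_conj, norm_mul, Complex.norm_real,
      Complex.norm_real, norm_norm, norm_norm]
    field_simp
    exact le_rfl
  have h2 := hfirst _ h1
  have h3 : ff β v (s • w) = s * ff β v w := (ffL β v).map_smul s w
  have h4 : s * ff β v w = ((‖ff β v w‖ / ‖L w‖ : ℝ) : ℂ) := by
    rw [hs, div_mul_eq_mul_div, mul_comm (conj _) _, Complex.mul_conj, Complex.normSq_eq_norm_sq]
    have e1 : (‖ff β v w‖ : ℂ) ≠ 0 := by exact_mod_cast hfw.ne'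
    have e2 : (‖L w‖ : ℂ) ≠ 0 := by exact_mod_cast hLw.ne'
    push_cast
    field_simp
  rw [h3, h4, Complex.ofReal_re, div_le_one hLw] at h2
  exact h2

end main

end

end Pool.Agent.R289.NumHyp
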