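import Pool.Agent.R853.Obs.Stm

/-!
# MP_0a8f24_an: pieces OB-W and OB-T
-/

set_option autoImplicit false

open MeasureTheory FourierTransform SchwartzMap Complex Filter Topology
open scoped ENNReal InnerProductSpace ComplexConjugate ContDiff

namespace Pool.Agent.R853.Obs

theorem OBWaux.ne (t : ℝ) : (t : ℂ) + I ≠ 0 := by
  intro h
  have := congrArg Complex.im h
  simp at this

theorem OBWaux.nsq (t : ℝ) : ‖((t : ℂ) + I)⁻¹‖ ^ 2 = (1 + t ^ 2)⁻¹ := by
  rw [norm_inv, inv_pow, Complex.sq_norm, Complex.normSq_apply]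
  simp
  ring

theorem OBWaux.integrable (d : ℕ) : Integrable (fun x : E d => ∏ j, (1 + (x j) ^ 2)⁻¹) := by
  have h : Integrable (fun x : Fin d → ℝ => ∏ j, (1 + (x j) ^ 2)⁻¹) := by
    apply MeasureTheory.Integrable.fintype_prod (f := fun _ (t : ℝ) => (1 + t ^ 2)⁻¹)
    intro _
    exact integrable_inv_one_add_sq
  exact (PiLp.volume_preserving_ofLp (Fin d)).integrable_comp_of_integrable h

theorem stW : StW := by
  intro d
  refine ⟨?_, ?_, ?_, ?_, ?_⟩
  · unfold wt
    apply Finset.measurable_fun_prod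
    intro j _
    have h1 : Measurable (fun x : E d => x j) := by fun_prop
    exact ((Complex.measurable_ofReal.comp h1).add_const I).inv
  · intro x
    unfold wt
    rw [norm_prod]
    apply Finset.prod_le_one
    · intro j _
      exact norm_nonneg _
    · intro j _
      have h := OBWaux.nsq (x j)
      have h2 : (1 + (x j) ^ 2)⁻¹ ≤ 1 := by
        apply inv_le_one_of_one_le₀
        nlinarith [sq_nonneg (x j)]
      have h3 : ‖((x j : ℂ) + I)⁻¹‖ ^ 2 ≤ 1 := by rw [h]; exact h2
      have h4 := norm_nonneg (((x j : ℂ) + I)⁻¹)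
      nlinarith
  · intro x
    unfold bt wt
    rw [map_prod, ← Finset.prod_mul_distrib]
    apply Finset.prod_eq_one
    intro j _
    have : conj ((x j : ℂ) - I) = (x j : ℂ) + I := by simp
    rw [this]
    exact mul_inv_cancel₀ (OBWaux.ne _)
  · intro x
    unfold wt
    rw [Finset.prod_ne_zero_iff]
    intro j _
    exact inv_ne_zero (OBWaux.ne _)
  · have h := (OBWaux.integrable d).lintegral_lt_top
    have e : ∀ x : E d, ‖wt x‖ₑ ^ 2 = ENNReal.ofReal (∏ j, (1 + (x j) ^ 2)⁻¹) := by
      intro x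
      rw [← ofReal_norm_eq_enorm, ← ENNReal.ofReal_pow (norm_nonneg _)]
      congr 1
      unfold wt
      rw [norm_prod, ← Finset.prod_pow]
      apply Finset.prod_congr rfl
      intro j _
      exact OBWaux.nsq (x j)
    simp only [e]
    exact h.ne

theorem stT : StT := by
  intro f T δ m hT hm hf hf0 hint
  have hm' : (0 : ℝ) < m := by exact_mod_cast hm
  have key : ∀ j : Fin m, ∃ τ : ℝ, (j : ℝ) * T / m ≤ τ ∧ τ ≤ ((j : ℝ) + 1) * T / m ∧
      f τ ≤ m * δ / T := by
    intro j
    have hj : ((j : ℕ) : ℝ) + 1 ≤ m := by exact_mod_cast j.2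
    have hj0 : (0 : ℝ) ≤ ((j : ℕ) : ℝ) := Nat.cast_nonneg _
    have hab : (j : ℝ) * T / m ≤ ((j : ℝ) + 1) * T / m := by
      apply div_le_div_of_nonneg_right _ hm'.le
      nlinarith
    have ha : 0 ≤ (j : ℝ) * T / m := by positivity
    have hb : ((j : ℝ) + 1) * T / m ≤ T := by
      rw [div_le_iff₀ hm']
      nlinarith
    have hsub : Set.Icc ((j : ℝ) * T / m) (((j : ℝ) + 1) * T / m) ⊆ Set.Icc 0 T :=
      Set.Icc_subset_Icc ha hb
    obtain ⟨τ, hτ, hmin⟩ := isCompact_Icc.exists_isMinOn (Set.nonempty_Icc.2 hab) (hf.mono hsub)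
    refine ⟨τ, hτ.1, hτ.2, ?_⟩
    have hii : IntervalIntegrable f volume 0 T := by
      apply ContinuousOn.intervalIntegrable
      rwa [Set.uIcc_of_le hT.le]
    have hii2 : IntervalIntegrable f volume ((j : ℝ) * T / m) (((j : ℝ) + 1) * T / m) := by
      apply ContinuousOn.intervalIntegrable
      rw [Set.uIcc_of_le hab]
      exact hf.mono hsub
    have h1 : ∫ t in ((j : ℝ) * T / m)..(((j : ℝ) + 1) * T / m), f τ ≤
        ∫ t in ((j : ℝ) * T / m)..(((j : ℝ) + 1) * T / m), f t := by
      apply intervalIntegral.integral_mono_on hab (by simp) hii2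
      intro t ht
      exact hmin ht
    have h2 : ∫ t in ((j : ℝ) * T / m)..(((j : ℝ) + 1) * T / m), f t ≤ ∫ t in (0:ℝ)..T, f t := by
      apply intervalIntegral.integral_mono_interval ha hab hb _ hii
      rw [Filter.EventuallyLE, ae_restrict_iff' measurableSet_Ioc]
      apply Filter.Eventually.of_forall
      intro t ht
      exact hf0 t (Set.Ioc_subset_Icc_self ht)
    rw [intervalIntegral.integral_const, smul_eq_mul] at h1
    have h3 : (((j : ℝ) + 1) * T / m - (j : ℝ) * T / m) * f τ ≤ δ := h1.trans (h2.trans hint)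
    have h4 : ((j : ℝ) + 1) * T / m - (j : ℝ) * T / m = T / m := by ring
    rw [h4] at h3
    rw [le_div_iff₀ hT]
    rw [div_mul_eq_mul_div, div_le_iff₀ hm'] at h3
    linarith
  choose τ hτ using key
  exact ⟨τ, hτ⟩

end Pool.Agent.R853.Obs
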