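import Pool.Agent.R289.L1

set_option autoImplicit false
set_option linter.unusedSectionVars false

/-!
# A convolution operator on `ℓ²(G)` with large kernel (Rudin–Shapiro polynomials)
-/

namespace Pool.Agent.R289.RS

open scoped ENNReal
open Filter Topology Pool.Agent.R289.Conv Pool.Agent.R289.L1

universe u

variable {G : Type u} [Group G]

theorem hp2 : 0 < (2 : ℝ≥0∞).toReal := by simp

/-- group elements as elements of the group algebra -/
noncomputable def dl (g : G) : MonoidAlgebra ℂ G := MonoidAlgebra.single g 1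

theorem dl_mul (g h : G) : dl g * dl h = dl (g * h) := by
  rw [dl, dl, MonoidAlgebra.single_mul_single, one_mul]; rfl

theorem dl_pow (g : G) (n : ℕ) : dl g ^ n = dl (g ^ n) := by
  induction n with
  | zero => rw [pow_zero, pow_zero]; rfl
  | succ n ih => rw [pow_succ, pow_succ, ih, dl_mul]

/-- Right translation `(R_s f)(x) = f (x s)` on `ℓ^p(G)`, `p < ∞`. -/
noncomputable def R {p : ℝ≥0∞} [Fact (1 ≤ p)] (hp : 0 < p.toReal) (s : G) :
    Ell G p →L[ℂ] Ell G p :=
  LinearMap.mkContinuous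
    { toFun := fun f => ⟨fun x => f (x * s), memlp_comp hp (Equiv.mulRight s) f⟩
      map_add' := fun _ _ => rfl
      map_smul' := fun _ _ => rfl } 1 (fun f => by
      rw [one_mul]
      exact (norm_comp hp (Equiv.mulRight s) f _ (fun _ => rfl)).le)

theorem R_apply {p : ℝ≥0∞} [Fact (1 ≤ p)] (hp : 0 < p.toReal) (s : G) (f : Ell G p) (x : G) :
    R hp s f x = f (x * s) := rfl

theorem lam_R {p : ℝ≥0∞} [Fact (1 ≤ p)] (hp : 0 < p.toReal) (a : MonoidAlgebra ℂ G) (s : G)
    (f : Ell G p) : lam hp a (R hp s f) = R hp s (lam hp a f) := by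
  ext x
  rw [R_apply, lam_apply, lam_apply, conv, conv]
  refine tsum_congr fun y => ?_
  rw [R_apply, mul_assoc]

/-- The Rudin–Shapiro pairs. -/
noncomputable def rs (a : G) : ℕ → MonoidAlgebra ℂ G × MonoidAlgebra ℂ G
  | 0 => (1, 1)
  | k + 1 => ((rs a k).1 + dl a ^ (2 ^ k) * (rs a k).2, (rs a k).1 - dl a ^ (2 ^ k) * (rs a k).2)

theorem norm_lam_dl (g : G) (x : Ell G 2) : ‖lam hp2 (dl g) x‖ = ‖x‖ := by
  rw [dl, lam_single, one_smul]
  exact norm_L_apply hp2 g x

theorem rs_norm (a : G) (k : ℕ) (x : Ell G 2) :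
    ‖lam hp2 (rs a k).1 x‖ ^ 2 + ‖lam hp2 (rs a k).2 x‖ ^ 2 = 2 ^ (k + 1) * ‖x‖ ^ 2 := by
  induction k with
  | zero =>
    have : lam hp2 (1 : MonoidAlgebra ℂ G) x = x := by rw [map_one]; rfl
    simp only [rs]
    rw [this]; ring
  | succ k ih =>
    have h := parallelogram_law_with_norm ℂ (lam hp2 (rs a k).1 x)
      (lam hp2 (dl a ^ (2 ^ k)) (lam hp2 (rs a k).2 x))
    have e1 : lam hp2 (rs a (k + 1)).1 x = lam hp2 (rs a k).1 x +
        lam hp2 (dl a ^ (2 ^ k)) (lam hp2 (rs a k).2 x) := by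
      simp only [rs]
      rw [map_add, map_mul]; rfl
    have e2 : lam hp2 (rs a (k + 1)).2 x = lam hp2 (rs a k).1 x -
        lam hp2 (dl a ^ (2 ^ k)) (lam hp2 (rs a k).2 x) := by
      simp only [rs]
      rw [map_sub, map_mul]; rfl
    rw [e1, e2]
    have e3 : ‖lam hp2 (dl a ^ (2 ^ k)) (lam hp2 (rs a k).2 x)‖ = ‖lam hp2 (rs a k).2 x‖ := by
      rw [dl_pow, norm_lam_dl]
    rw [e3] at h
    rw [pow_succ 2 (k + 1)]
    nlinarith

/-- the building blocks of the operator -/
noncomputable def blk (a : G) (k : ℕ) : MonoidAlgebra ℂ G := dl a ^ (2 ^ k) * (rs a k).1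

theorem norm_blk (a : G) (k : ℕ) (x : Ell G 2) :
    ‖lam hp2 (blk a k) x‖ ≤ Real.sqrt 2 * Real.sqrt 2 ^ k * ‖x‖ := by
  have e1 : lam hp2 (blk a k) x = lam hp2 (dl a ^ (2 ^ k)) (lam hp2 (rs a k).1 x) := by
    rw [blk, map_mul]; rfl
  rw [e1, dl_pow, norm_lam_dl]
  refine (sq_le_sq₀ (norm_nonneg _) (by positivity)).1 ?_
  have h := rs_norm a k x
  have e2 : (Real.sqrt 2 * Real.sqrt 2 ^ k * ‖x‖) ^ 2 = 2 ^ (k + 1) * ‖x‖ ^ 2 := by
    rw [mul_pow, mul_pow, ← pow_mul, mul_comm k 2, pow_mul, Real.sq_sqrt (by norm_num)]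
    ring
  rw [e2]
  nlinarith [sq_nonneg ‖lam hp2 (rs a k).2 x‖]

theorem rs_coeff (a : G) (k : ℕ) : ∃ p q : ℕ → ℂ, (∀ n, ‖p n‖ = 1) ∧ (∀ n, ‖q n‖ = 1) ∧
    (rs a k).1 = ∑ n ∈ Finset.range (2 ^ k), p n • dl (a ^ n) ∧
    (rs a k).2 = ∑ n ∈ Finset.range (2 ^ k), q n • dl (a ^ n) := by
  induction k with
  | zero =>
    refine ⟨fun _ => 1, fun _ => 1, fun _ => norm_one, fun _ => norm_one, ?_, ?_⟩ <;>
    · simp only [rs, pow_zero, Finset.range_one, Finset.sum_singleton, one_smul]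
      rfl
  | succ k ih =>
    obtain ⟨p, q, hp, hq, h1, h2⟩ := ih
    refine ⟨fun n => if n < 2 ^ k then p n else q (n - 2 ^ k),
      fun n => if n < 2 ^ k then p n else - q (n - 2 ^ k), ?_, ?_, ?_, ?_⟩
    · intro n
      show ‖(if n < 2 ^ k then p n else q (n - 2 ^ k))‖ = 1
      split_ifs
      · exact hp n
      · exact hq _
    · intro n
      show ‖(if n < 2 ^ k then p n else - q (n - 2 ^ k))‖ = 1
      split_ifs
      · exact hp n
      · rw [norm_neg]; exact hq _
    · show (rs a k).1 + dl a ^ (2 ^ k) * (rs a k).2 = _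
      rw [pow_succ 2 k, mul_two, Finset.sum_range_add, h1, h2, Finset.mul_sum]
      congr 1
      · refine Finset.sum_congr rfl fun n hn => ?_
        beta_reduce
        rw [if_pos (Finset.mem_range.1 hn)]
      · refine Finset.sum_congr rfl fun n hn => ?_
        beta_reduce
        rw [if_neg (by omega), Nat.add_sub_cancel_left, mul_smul_comm, dl_pow, dl_mul, ← pow_add]
    · show (rs a k).1 - dl a ^ (2 ^ k) * (rs a k).2 = _
      rw [pow_succ 2 k, mul_two, Finset.sum_range_add, h1, h2, Finset.mul_sum, sub_eq_add_neg,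
        ← Finset.sum_neg_distrib]
      congr 1
      · refine Finset.sum_congr rfl fun n hn => ?_
        beta_reduce
        rw [if_pos (Finset.mem_range.1 hn)]
      · refine Finset.sum_congr rfl fun n hn => ?_
        beta_reduce
        rw [if_neg (by omega), Nat.add_sub_cancel_left, mul_smul_comm, dl_pow, dl_mul, ← pow_add,
          neg_smul]

theorem dl_coeff (g x : G) [Decidable (x = g)] : (dl g).coeff x = if x = g then 1 else 0 := by
  show (Finsupp.single g 1 : G →₀ ℂ) x = _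
  split_ifs with h
  · subst h; rw [Finsupp.single_eq_same]
  · rw [Finsupp.single_eq_of_ne h]

/-- the coefficients of the blocks -/
theorem blk_coeff (a : G) (ha : Function.Injective fun n : ℕ => a ^ n) (k n : ℕ) :
    ‖(blk a k).coeff (a ^ n)‖ = if 2 ^ k ≤ n ∧ n < 2 ^ (k + 1) then 1 else 0 := by
  classical
  obtain ⟨p, q, hp, hq, h1, -⟩ := rs_coeff a k
  have e1 : blk a k = ∑ m ∈ Finset.range (2 ^ k), p m • dl (a ^ (2 ^ k + m)) := by
    rw [blk, h1, Finset.mul_sum]
    refine Finset.sum_congr rfl fun m _ => ?_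
    rw [mul_smul_comm, dl_pow, dl_mul, ← pow_add]
  have e2 : (blk a k).coeff (a ^ n) =
      ∑ m ∈ Finset.range (2 ^ k), p m * (if n = 2 ^ k + m then 1 else 0) := by
    rw [e1, MonoidAlgebra.coeff_sum, Finsupp.finsetSum_apply]
    refine Finset.sum_congr rfl fun m _ => ?_
    rw [MonoidAlgebra.coeff_smul, Finsupp.smul_apply, smul_eq_mul, dl_coeff]
    congr 1
    by_cases h : n = 2 ^ k + m
    · rw [if_pos h, if_pos (by rw [h])]
    · rw [if_neg h, if_neg (fun h' => h (ha h'))]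
  rw [e2]
  split_ifs with h
  · obtain ⟨h3, h4⟩ := h
    rw [Finset.sum_eq_single (n - 2 ^ k)]
    · rw [if_pos (by omega), mul_one, hp]
    · intro b _ hb
      rw [if_neg (by omega), mul_zero]
    · intro hn
      exfalso
      apply hn
      rw [Finset.mem_range]
      rw [pow_succ] at h4
      omega
  · rw [Finset.sum_eq_zero, norm_zero]
    intro m hm
    rw [Finset.mem_range] at hm
    rw [if_neg, mul_zero]
    intro h'
    apply h
    rw [pow_succ]
    constructor <;> omega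

/-- the ratio -/
noncomputable def rr : ℝ := 13 / 20

theorem rr_sqrt : rr * Real.sqrt 2 < 1 := by
  have h : Real.sqrt 2 < 3 / 2 := by
    rw [Real.sqrt_lt' (by norm_num)]
    norm_num
  unfold rr
  nlinarith

theorem rr_nonneg : 0 ≤ rr := by unfold rr; norm_num

theorem summable_blk (a : G) : Summable fun k : ℕ => ((rr : ℂ) ^ k) • lam hp2 (blk a k) := by
  refine Summable.of_norm_bounded (g := fun k : ℕ => Real.sqrt 2 * (rr * Real.sqrt 2) ^ k)
    ((summable_geometric_of_lt_one (mul_nonneg rr_nonneg (Real.sqrt_nonneg _)) rr_sqrt).mul_left _)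
    fun k => ?_
  rw [norm_smul, norm_pow, Complex.norm_real, Real.norm_of_nonneg rr_nonneg]
  have h := ContinuousLinearMap.opNorm_le_bound (lam hp2 (blk a k))
    (show 0 ≤ Real.sqrt 2 * Real.sqrt 2 ^ k by positivity) (norm_blk a k)
  calc rr ^ k * ‖lam hp2 (blk a k)‖ ≤ rr ^ k * (Real.sqrt 2 * Real.sqrt 2 ^ k) :=
        mul_le_mul_of_nonneg_left h (pow_nonneg rr_nonneg k)
    _ = _ := by rw [mul_pow]; ring

/-- the operator -/
noncomputable def T (a : G) : Ell G 2 →L[ℂ] Ell G 2 := ∑' k : ℕ, ((rr : ℂ) ^ k) • lam hp2 (blk a k)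

theorem T_apply (a : G) (f : Ell G 2) :
    HasSum (fun k : ℕ => ((rr : ℂ) ^ k) • lam hp2 (blk a k) f) (T a f) := by
  have h := (summable_blk a).hasSum.mapL (ContinuousLinearMap.apply ℂ (Ell G 2) f)
  exact h

theorem T_R (a s : G) (f : Ell G 2) : T a (R hp2 s f) = R hp2 s (T a f) := by
  have h1 := T_apply a (R hp2 s f)
  have h2 := (T_apply a f).mapL (R hp2 s)
  have h3 : (fun k : ℕ => R hp2 s (((rr : ℂ) ^ k) • lam hp2 (blk a k) f)) =
      fun k : ℕ => ((rr : ℂ) ^ k) • lam hp2 (blk a k) (R hp2 s f) := by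
    funext k
    rw [map_smul, lam_R]
  rw [h3] at h2
  exact h1.unique h2

end Pool.Agent.R289.RS
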