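import Mathlib

/-!
# Spectral slices and basic facts on von Neumann algebras
-/

namespace R289.VN

open scoped InnerProductSpace
open ContinuousLinearMap

variable {H : Type*} [NormedAddCommGroup H] [InnerProductSpace ℂ H] [CompleteSpace H]



/-- Orthogonal projection, as a self-adjoint idempotent. -/
structure IsP (q : H →L[ℂ] H) : Prop where
  sa : star q = q
  idem : q * q = q

theorem inner_star_left (x : (H →L[ℂ] H)) (ξ η : H) : ⟪star x ξ, η⟫_ℂ = ⟪ξ, x η⟫_ℂ := by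
  rw [ContinuousLinearMap.star_eq_adjoint, ContinuousLinearMap.adjoint_inner_left]

theorem inner_star_right (x : (H →L[ℂ] H)) (ξ η : H) : ⟪ξ, star x η⟫_ℂ = ⟪x ξ, η⟫_ℂ := by
  rw [ContinuousLinearMap.star_eq_adjoint, ContinuousLinearMap.adjoint_inner_right]

theorem inner_sa {x : (H →L[ℂ] H)} (hx : star x = x) (ξ η : H) : ⟪x ξ, η⟫_ℂ = ⟪ξ, x η⟫_ℂ := by
  conv_lhs => rw [← hx]
  exact inner_star_left x ξ η

theorem ext_inner' {x y : (H →L[ℂ] H)} (h : ∀ ξ η, ⟪ξ, x η⟫_ℂ = ⟪ξ, y η⟫_ℂ) : x = y := by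
  ext η
  exact ext_inner_left ℂ (fun ξ => h ξ η)

theorem isP_starProjection (K : Submodule ℂ H) [K.HasOrthogonalProjection] :
    IsP (K.starProjection) := by
  constructor
  · apply ext_inner'
    intro ξ η
    rw [inner_star_right]
    exact K.inner_starProjection_left_eq_right ξ η
  · exact K.isIdempotentElem_starProjection

theorem IsP.norm_apply_le {q : (H →L[ℂ] H)} (hq : IsP q) (ξ : H) : ‖q ξ‖ ≤ ‖ξ‖ := by
  have h1 : ‖q ξ‖ ^ 2 ≤ ‖q ξ‖ * ‖ξ‖ := by
    have h2 : (‖q ξ‖ : ℂ) ^ 2 = ⟪q ξ, ξ⟫_ℂ := by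
      have := inner_self_eq_norm_sq_to_K (𝕜 := ℂ) (q ξ)
      rw [show ((‖q ξ‖ : ℂ) ^ 2) = ⟪q ξ, q ξ⟫_ℂ from this.symm, ← inner_sa hq.sa,
        ← mul_apply_eq_comp, hq.idem]
    have h3 := norm_inner_le_norm (𝕜 := ℂ) (q ξ) ξ
    rw [← h2] at h3
    simpa using h3
  by_cases h : ‖q ξ‖ = 0
  · rw [h]; positivity
  · have : 0 < ‖q ξ‖ := lt_of_le_of_ne (norm_nonneg _) (Ne.symm h)
    nlinarith

theorem IsP.norm_le {q : (H →L[ℂ] H)} (hq : IsP q) : ‖q‖ ≤ 1 :=
  ContinuousLinearMap.opNorm_le_bound _ zero_le_one (fun ξ => by simpa using hq.norm_apply_le ξ)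

theorem IsP.compl {q : (H →L[ℂ] H)} (hq : IsP q) : IsP (1 - q) := by
  refine ⟨by rw [star_sub, star_one, hq.sa], ?_⟩
  rw [sub_mul, mul_sub, mul_sub, one_mul, one_mul, mul_one, hq.idem]
  abel

theorem IsP.re_inner {q : (H →L[ℂ] H)} (hq : IsP q) (ξ : H) : RCLike.re ⟪q ξ, ξ⟫_ℂ = ‖q ξ‖ ^ 2 := by
  have : ⟪q ξ, ξ⟫_ℂ = ⟪q ξ, q ξ⟫_ℂ := by
    rw [← inner_sa hq.sa, ← mul_apply_eq_comp, hq.idem]
  rw [this, inner_self_eq_norm_sq_to_K]
  norm_cast

/-- spectral slicing of a self-adjoint operator -/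
theorem slice (a : (H →L[ℂ] H)) (ha : star a = a) (μ : ℝ) :
    ∃ q : (H →L[ℂ] H), IsP q ∧ (∀ y, a * y = y * a → q * y = y * q) ∧
      (∀ ξ, q ξ = ξ → μ * ‖ξ‖ ^ 2 ≤ RCLike.re ⟪a ξ, ξ⟫_ℂ) ∧
      (∀ ξ, q ξ = 0 → RCLike.re ⟪a ξ, ξ⟫_ℂ ≤ μ * ‖ξ‖ ^ 2) := by
  set b : (H →L[ℂ] H) := a - (μ : ℂ) • 1 with hb
  have hbs : IsSelfAdjoint b := by
    show star b = b
    rw [hb, star_sub, star_smul, star_one, ha]
    simp
  have hpos : (0 : (H →L[ℂ] H)) ≤ b⁺ := CFC.posPart_nonneg b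
  have hneg : (0 : (H →L[ℂ] H)) ≤ b⁻ := CFC.negPart_nonneg b
  have hsub : b⁺ - b⁻ = b := CFC.posPart_sub_negPart b hbs
  have hmul : b⁺ * b⁻ = 0 := CFC.posPart_mul_negPart b
  have hpos' : (b⁺).IsPositive := (ContinuousLinearMap.nonneg_iff_isPositive _).1 hpos
  have hneg' : (b⁻).IsPositive := (ContinuousLinearMap.nonneg_iff_isPositive _).1 hneg
  let K : Submodule ℂ H := LinearMap.ker (b⁺ : (H →L[ℂ] H)).toLinearMap
  have hKc : IsClosed (K : Set H) := ContinuousLinearMap.isClosed_ker (b⁺ : (H →L[ℂ] H))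
  have : CompleteSpace K := hKc.completeSpace_coe
  have hnegsa : star (b⁻) = b⁻ := hneg'.isSelfAdjoint
  have hpossa : star (b⁺) = b⁺ := hpos'.isSelfAdjoint
  have hform : ∀ ξ, RCLike.re ⟪a ξ, ξ⟫_ℂ = RCLike.re ⟪b ξ, ξ⟫_ℂ + μ * ‖ξ‖ ^ 2 := by
    intro ξ
    have h1 : a ξ = b ξ + (μ : ℂ) • ξ := by
      rw [hb]; simp
    rw [h1, inner_add_left, inner_smul_left, inner_self_eq_norm_sq_to_K, map_add]
    congr 1
    simp only [Complex.conj_ofReal, RCLike.re_to_complex]
    rw [Complex.re_ofReal_mul, ← RCLike.ofReal_pow]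
    rfl
  refine ⟨1 - K.starProjection, (isP_starProjection K).compl, ?_, ?_, ?_⟩
  · intro y hy
    -- y commutes with b, and y* commutes with b
    have hcomm : ∀ z : (H →L[ℂ] H), a * z = z * a → Commute z (b⁺) := by
      intro z hz
      have h1 : Commute b z := by
        show b * z = z * b
        rw [hb, sub_mul, mul_sub, hz]
        simp
      rw [CFC.posPart_def]
      exact (h1.cfcₙ_real (fun x => x⁺)).symm
    have hys : a * star y = star y * a := by
      have := congrArg star hy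
      rw [star_mul, star_mul, ha] at this
      exact this.symm
    have h1 := hcomm y hy
    have h2 := hcomm (star y) hys
    have hK1 : ∀ ξ ∈ K, y ξ ∈ K := by
      intro ξ hξ
      have h3 : (b⁺ : (H →L[ℂ] H)) ξ = 0 := hξ
      show (b⁺ : (H →L[ℂ] H)) (y ξ) = 0
      rw [← mul_apply_eq_comp, ← h1.eq, mul_apply_eq_comp, h3, map_zero]
    have hK2 : ∀ ξ ∈ K, (star y) ξ ∈ K := by
      intro ξ hξ
      have h3 : (b⁺ : (H →L[ℂ] H)) ξ = 0 := hξ
      show (b⁺ : (H →L[ℂ] H)) (star y ξ) = 0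
      rw [← mul_apply_eq_comp, ← h2.eq, mul_apply_eq_comp, h3, map_zero]
    have hK3 : K.starProjection * y = y * K.starProjection := by
      ext ξ
      rw [mul_apply_eq_comp, mul_apply_eq_comp]
      apply K.eq_starProjection_of_mem_orthogonal
      · exact hK1 _ (K.starProjection_apply_mem ξ)
      · rw [← map_sub]
        intro η hη
        rw [← inner_star_left]
        exact (K.sub_starProjection_mem_orthogonal ξ) _ (hK2 η hη)
    rw [sub_mul, mul_sub, hK3, one_mul, mul_one]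
  · intro ξ hξ
    have hξ' : K.starProjection ξ = 0 := by
      have : ξ - K.starProjection ξ = ξ := by simpa using hξ
      simpa using this
    have horth : ξ ∈ Kᗮ := by
      have := K.sub_starProjection_mem_orthogonal ξ
      rwa [hξ', sub_zero] at this
    have h0 : (b⁻ : (H →L[ℂ] H)) ξ = 0 := by
      apply ext_inner_left ℂ
      intro η
      rw [inner_zero_right, ← inner_sa hnegsa]
      apply horth
      show (b⁺ : (H →L[ℂ] H)) ((b⁻ : (H →L[ℂ] H)) η) = 0
      rw [← mul_apply_eq_comp, hmul, zero_apply]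
    rw [hform]
    have : b ξ = (b⁺ : (H →L[ℂ] H)) ξ := by
      conv_lhs => rw [← hsub]
      rw [sub_apply, h0, sub_zero]
    rw [this]
    have := hpos'.re_inner_nonneg_left ξ
    linarith
  · intro ξ hξ
    have hξ' : K.starProjection ξ = ξ := by
      have : ξ - K.starProjection ξ = 0 := by simpa using hξ
      exact (sub_eq_zero.1 this).symm
    have hmem : (b⁺ : (H →L[ℂ] H)) ξ = 0 := by
      have : ξ ∈ K := by
        rw [← hξ']; exact K.starProjection_apply_mem ξ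
      exact this
    rw [hform]
    have : b ξ = - (b⁻ : (H →L[ℂ] H)) ξ := by
      conv_lhs => rw [← hsub]
      rw [sub_apply, hmem, zero_sub]
    rw [this, inner_neg_left, map_neg]
    have := hneg'.re_inner_nonneg_left ξ
    linarith

/-! ### membership in `M` -/

variable (M : VonNeumannAlgebra H)

theorem mem_iff (x : (H →L[ℂ] H)) : x ∈ M ↔ ∀ y : (H →L[ℂ] H), (∀ g ∈ M, g * y = y * g) → x * y = y * x := by
  conv_lhs => rw [← VonNeumannAlgebra.commutant_commutant M]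
  rw [VonNeumannAlgebra.mem_commutant_iff]
  constructor
  · intro h y hy
    exact (h y (VonNeumannAlgebra.mem_commutant_iff.2 hy)).symm
  · intro h g hg
    exact (h g (VonNeumannAlgebra.mem_commutant_iff.1 hg)).symm

theorem smul_mem' (c : ℂ) {x : (H →L[ℂ] H)} (hx : x ∈ M) : c • x ∈ M := by
  rw [mem_iff] at hx ⊢
  intro y hy
  rw [smul_mul_assoc, mul_smul_comm, hx y hy]

theorem inv_mem {x y : (H →L[ℂ] H)} (hx : x ∈ M) (h1 : x * y = 1) (h2 : y * x = 1) : y ∈ M := by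
  rw [mem_iff] at hx ⊢
  intro z hz
  have h3 := hx z hz
  calc y * z = y * z * (x * y) := by rw [h1, mul_one]
    _ = y * (z * x) * y := by simp only [mul_assoc]
    _ = y * (x * z) * y := by rw [h3]
    _ = (y * x) * z * y := by simp only [mul_assoc]
    _ = z * y := by rw [h2, one_mul]

/-- the slice of an element of `M` is in `M`. -/
theorem slice_mem {a q : (H →L[ℂ] H)} (ha : a ∈ M) (hq : ∀ y, a * y = y * a → q * y = y * q) : q ∈ M := by
  rw [mem_iff]
  intro y hy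
  exact hq y (hy a ha)

theorem one_mem' : (1 : (H →L[ℂ] H)) ∈ M := one_mem M

end R289.VN
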