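import Pool.Agent.R289.VN1

/-!
# The weak closure of the unitaries; equivalent copies of a minimal projection; rotations
-/

namespace R289.VN

open scoped InnerProductSpace
open ContinuousLinearMap

variable {H : Type*} [NormedAddCommGroup H] [InnerProductSpace ℂ H] [CompleteSpace H]



variable (M : VonNeumannAlgebra H)

/-- unitaries of `M` -/
def IsU (u : H →L[ℂ] H) : Prop := u ∈ M ∧ star u * u = 1 ∧ u * star u = 1

/-- weak operator closure of the unitaries -/
def InW (x : H →L[ℂ] H) : Prop :=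
  ∀ (F : Finset H) (ε : ℝ), 0 < ε → ∃ u, IsU M u ∧ ∀ ξ ∈ F, ∀ η ∈ F, ‖⟪ξ, (x - u) η⟫_ℂ‖ < ε

variable {M}

theorem IsU.mul {u v : (H →L[ℂ] H)} (hu : IsU M u) (hv : IsU M v) : IsU M (u * v) := by
  refine ⟨mul_mem hu.1 hv.1, ?_, ?_⟩
  · rw [star_mul, mul_assoc, ← mul_assoc (star u), hu.2.1, one_mul, hv.2.1]
  · rw [star_mul, mul_assoc, ← mul_assoc v, hv.2.2, one_mul, hu.2.2]

theorem IsU.star' {u : (H →L[ℂ] H)} (hu : IsU M u) : IsU M (star u) := by
  refine ⟨star_mem hu.1, ?_, ?_⟩
  · rw [star_star, hu.2.2]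
  · rw [star_star, hu.2.1]

theorem IsU.inW {u : (H →L[ℂ] H)} (hu : IsU M u) : InW M u := by
  intro F ε hε
  exact ⟨u, hu, fun ξ _ η _ => by simpa using hε⟩

theorem InW.closure {x : (H →L[ℂ] H)}
    (h : ∀ (F : Finset H) (ε : ℝ), 0 < ε → ∃ y, InW M y ∧ ∀ ξ ∈ F, ∀ η ∈ F, ‖⟪ξ, (x - y) η⟫_ℂ‖ < ε) :
    InW M x := by
  intro F ε hε
  obtain ⟨y, hy, hxy⟩ := h F (ε / 2) (by linarith)
  obtain ⟨u, hu, hyu⟩ := hy F (ε / 2) (by linarith)
  refine ⟨u, hu, fun ξ hξ η hη => ?_⟩
  have h1 : (x - u) η = (x - y) η + (y - u) η := by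
    simp [sub_apply]
  rw [h1, inner_add_right]
  calc ‖⟪ξ, (x - y) η⟫_ℂ + ⟪ξ, (y - u) η⟫_ℂ‖ ≤ ‖⟪ξ, (x - y) η⟫_ℂ‖ + ‖⟪ξ, (y - u) η⟫_ℂ‖ := norm_add_le _ _
    _ < ε / 2 + ε / 2 := add_lt_add (hxy ξ hξ η hη) (hyu ξ hξ η hη)
    _ = ε := by ring

theorem InW.norm_closure {x : (H →L[ℂ] H)} (h : ∀ δ : ℝ, 0 < δ → ∃ y, InW M y ∧ ‖x - y‖ ≤ δ) : InW M x := by
  apply InW.closure
  intro F ε hε
  set R : ℝ := 1 + ∑ ξ ∈ F, ‖ξ‖ with hR
  have hRpos : 0 < R := by
    have : 0 ≤ ∑ ξ ∈ F, ‖ξ‖ := Finset.sum_nonneg (fun _ _ => norm_nonneg _)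
    linarith
  have hle : ∀ ξ ∈ F, ‖ξ‖ ≤ R := by
    intro ξ hξ
    have := Finset.single_le_sum (f := fun ξ : H => ‖ξ‖) (fun _ _ => norm_nonneg _) hξ
    linarith
  obtain ⟨y, hy, hxy⟩ := h (ε / (2 * R ^ 2)) (by positivity)
  refine ⟨y, hy, fun ξ hξ η hη => ?_⟩
  calc ‖⟪ξ, (x - y) η⟫_ℂ‖ ≤ ‖ξ‖ * ‖(x - y) η‖ := norm_inner_le_norm _ _
    _ ≤ ‖ξ‖ * (‖x - y‖ * ‖η‖) := by gcongr; exact ContinuousLinearMap.le_opNorm _ _
    _ ≤ R * (ε / (2 * R ^ 2) * R) := by
        gcongr
        · exact hle ξ hξ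
        · exact hle η hη
    _ = ε / 2 := by field_simp
    _ < ε := by linarith

theorem InW.mul {x y : (H →L[ℂ] H)} (hx : InW M x) (hy : InW M y) : InW M (x * y) := by
  classical
  intro F ε hε
  obtain ⟨u, hu, hxu⟩ := hx (F ∪ F.image (fun ξ => y ξ)) (ε / 2) (by linarith)
  obtain ⟨v, hv, hyv⟩ := hy (F ∪ F.image (fun ξ => (star u : (H →L[ℂ] H)) ξ)) (ε / 2) (by linarith)
  refine ⟨u * v, hu.mul hv, fun ξ hξ η hη => ?_⟩
  have h1 : (x * y - u * v) η = (x - u) (y η) + u ((y - v) η) := by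
    simp only [sub_apply, mul_apply_eq_comp, map_sub]
    abel
  rw [h1, inner_add_right, ← inner_star_left u ξ]
  calc ‖⟪ξ, (x - u) (y η)⟫_ℂ + ⟪star u ξ, (y - v) η⟫_ℂ‖
      ≤ ‖⟪ξ, (x - u) (y η)⟫_ℂ‖ + ‖⟪star u ξ, (y - v) η⟫_ℂ‖ := norm_add_le _ _
    _ < ε / 2 + ε / 2 := by
        apply add_lt_add
        · exact hxu ξ (Finset.mem_union_left _ hξ) _
            (Finset.mem_union_right _ (Finset.mem_image_of_mem _ hη))
        · exact hyv _ (Finset.mem_union_right _ (Finset.mem_image_of_mem _ hξ)) η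
            (Finset.mem_union_left _ hη)
    _ = ε := by ring

variable (M)

/-- no nonzero finite-dimensional direct summand -/
def NoFD : Prop :=
  ∀ z : H →L[ℂ] H, z ∈ M → IsP z → (∀ x ∈ M, x * z = z * x) →
    FiniteDimensional ℂ (Submodule.span ℂ {y : H →L[ℂ] H | ∃ x ∈ M, y = z * x}) → z = 0

/-- a family of partial isometries with common initial projection `e` and orthogonal ranges -/
structure Fam (e : H →L[ℂ] H) (n : ℕ) (v : ℕ → H →L[ℂ] H) : Prop where
  mem : ∀ i ≤ n, v i ∈ M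
  zero : v 0 = e
  orth : ∀ i ≤ n, ∀ j ≤ n, star (v i) * v j = if i = j then e else 0

/-- the sum of the final projections -/
noncomputable def zsum (v : ℕ → H →L[ℂ] H) (n : ℕ) : H →L[ℂ] H :=
  ∑ i ∈ Finset.range (n + 1), v i * star (v i)

variable {M}

theorem eq_zero_of_star_mul {w : (H →L[ℂ] H)} (h : star w * w = 0) : w = 0 :=
  CStarRing.star_mul_self_eq_zero_iff w |>.1 h

theorem Fam.mul_e {e : (H →L[ℂ] H)} {n : ℕ} {v : ℕ → (H →L[ℂ] H)} (hv : Fam M e n v) (he : IsP e) {i : ℕ}
    (hi : i ≤ n) : v i * e = v i := by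
  have h1 : star (v i) * v i = e := by simpa using hv.orth i hi i hi
  have h2 : star (v i * e - v i) * (v i * e - v i) = 0 := by
    rw [star_sub, star_mul, he.sa, sub_mul, mul_sub, mul_sub, mul_assoc, mul_assoc,
      ← mul_assoc (star (v i)), h1, he.idem, he.idem]
    simp
  have := eq_zero_of_star_mul h2
  exact sub_eq_zero.1 this

theorem Fam.e_mul {e : (H →L[ℂ] H)} {n : ℕ} {v : ℕ → (H →L[ℂ] H)} (hv : Fam M e n v) (he : IsP e) {i : ℕ}
    (hi : i ≤ n) : e * star (v i) = star (v i) := by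
  have := congrArg star (hv.mul_e he hi)
  rwa [star_mul, he.sa] at this

theorem Fam.zsum_mul {e : (H →L[ℂ] H)} {n : ℕ} {v : ℕ → (H →L[ℂ] H)} (hv : Fam M e n v) (he : IsP e) {i : ℕ}
    (hi : i ≤ n) : zsum v n * v i = v i := by
  rw [zsum, Finset.sum_mul, Finset.sum_eq_single i]
  · rw [mul_assoc, hv.orth i hi i hi, if_pos rfl, hv.mul_e he hi]
  · intro j hj hji
    rw [mul_assoc, hv.orth j (by simpa [Nat.lt_succ_iff] using hj) i hi, if_neg hji, mul_zero]
  · intro h
    exact absurd (Finset.mem_range.2 (Nat.lt_succ_of_le hi)) h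

theorem Fam.isP_zsum {e : (H →L[ℂ] H)} {n : ℕ} {v : ℕ → (H →L[ℂ] H)} (hv : Fam M e n v) (he : IsP e) :
    IsP (zsum v n) := by
  constructor
  · rw [zsum, star_sum]
    exact Finset.sum_congr rfl (fun i _ => by rw [star_mul, star_star])
  · conv_lhs => rw [show zsum v n * zsum v n = ∑ i ∈ Finset.range (n + 1),
      zsum v n * (v i * star (v i)) from by conv_lhs => rw [show zsum v n * zsum v n =
        zsum v n * (∑ i ∈ Finset.range (n + 1), v i * star (v i)) from rfl, Finset.mul_sum]]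
    rw [zsum]
    refine Finset.sum_congr rfl (fun i hi => ?_)
    have hi' : i ≤ n := by simpa [Nat.lt_succ_iff] using hi
    rw [← mul_assoc]
    rw [show (∑ i ∈ Finset.range (n + 1), v i * star (v i)) * v i = v i from hv.zsum_mul he hi']

theorem Fam.zsum_mem {e : (H →L[ℂ] H)} {n : ℕ} {v : ℕ → (H →L[ℂ] H)} (hv : Fam M e n v) : zsum v n ∈ M := by
  refine sum_mem (fun i hi => ?_)
  have hi' : i ≤ n := by simpa [Nat.lt_succ_iff] using hi
  exact mul_mem (hv.mem i hi') (star_mem (hv.mem i hi'))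

theorem Fam.bessel {e : (H →L[ℂ] H)} {n : ℕ} {v : ℕ → (H →L[ℂ] H)} (hv : Fam M e n v) (he : IsP e) (ξ : H) :
    ∑ i ∈ Finset.range (n + 1), ‖star (v i) ξ‖ ^ 2 ≤ ‖ξ‖ ^ 2 := by
  have h1 : RCLike.re ⟪zsum v n ξ, ξ⟫_ℂ = ∑ i ∈ Finset.range (n + 1), ‖star (v i) ξ‖ ^ 2 := by
    rw [zsum, sum_apply, sum_inner, map_sum]
    refine Finset.sum_congr rfl (fun i _ => ?_)
    rw [mul_apply_eq_comp, ← inner_star_right, inner_self_eq_norm_sq_to_K]
    norm_cast
  rw [← h1, (hv.isP_zsum he).re_inner]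
  have := (hv.isP_zsum he).norm_apply_le ξ
  gcongr

theorem fam_exists (hM : NoFD M) {e : (H →L[ℂ] H)} (heM : e ∈ M) (he : IsP e) (he0 : e ≠ 0)
    (hmin : ∀ x ∈ M, ∃ c : ℂ, e * x * e = c • e) (n : ℕ) : ∃ v : ℕ → (H →L[ℂ] H), Fam M e n v := by
  induction n with
  | zero =>
    refine ⟨fun _ => e, ⟨fun _ _ => heM, rfl, ?_⟩⟩
    intro i hi j hj
    rw [if_pos (by omega), he.sa, he.idem]
  | succ n ih =>
    obtain ⟨v, hv⟩ := ih
    set z : (H →L[ℂ] H) := zsum v n with hz
    have hzP : IsP z := hv.isP_zsum he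
    have hzM : z ∈ M := hv.zsum_mem
    have hez : z * e = e := by
      have := hv.zsum_mul he (Nat.zero_le n)
      rwa [hv.zero] at this
    have hex : ∃ x ∈ M, (1 - z) * x * e ≠ 0 := by
      by_contra hcon
      push Not at hcon
      have h1 : ∀ x ∈ M, x * z = z * x * z := by
        intro x hx
        have h2 : (1 - z) * x * z = 0 := by
          conv_lhs => rw [hz, zsum, Finset.mul_sum]
          refine Finset.sum_eq_zero (fun i hi => ?_)
          have hi' : i ≤ n := by simpa [Nat.lt_succ_iff] using hi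
          have h3 : (1 - z) * x * v i = 0 := by
            have := hcon (x * v i) (mul_mem hx (hv.mem i hi'))
            rwa [mul_assoc, mul_assoc x, hv.mul_e he hi', ← mul_assoc] at this
          rw [← mul_assoc]
          change (1 - z) * x * v i * star (v i) = 0
          rw [h3, zero_mul]
        rw [sub_mul, sub_mul, one_mul, sub_eq_zero] at h2
        exact h2
      have h2 : ∀ x ∈ M, z * x = z * x * z := by
        intro x hx
        have := congrArg star (h1 (star x) (star_mem hx))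
        simp only [star_mul, star_star, hzP.sa] at this
        rw [mul_assoc]; exact this
      have h3 : ∀ x ∈ M, x * z = z * x := fun x hx => by rw [h1 x hx, ← h2 x hx]
      have hz0 : z = 0 := by
        apply hM z hzM hzP h3
        let S : Submodule ℂ (H →L[ℂ] H) := Submodule.span ℂ
          (Set.range (fun p : Fin (n + 1) × Fin (n + 1) => v p.1 * star (v p.2)))
        have hS : FiniteDimensional ℂ S :=
          FiniteDimensional.span_of_finite ℂ (Set.finite_range _)
        have hle : Submodule.span ℂ {y : (H →L[ℂ] H) | ∃ x ∈ M, y = z * x} ≤ S := by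
          rw [Submodule.span_le]
          rintro y ⟨x, hx, rfl⟩
          rw [SetLike.mem_coe, h2 x hx]
          have h4 : z * x * z = ∑ i ∈ Finset.range (n + 1), ∑ j ∈ Finset.range (n + 1),
              v i * (star (v i) * x * v j) * star (v j) := by
            conv_lhs => rw [hz, zsum, Finset.sum_mul, Finset.sum_mul]
            refine Finset.sum_congr rfl (fun i _ => ?_)
            rw [Finset.mul_sum]
            refine Finset.sum_congr rfl (fun j _ => ?_)
            simp only [mul_assoc]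
          rw [h4]
          refine S.sum_mem (fun i hi => S.sum_mem (fun j hj => ?_))
          have hi' : i ≤ n := by simpa [Nat.lt_succ_iff] using hi
          have hj' : j ≤ n := by simpa [Nat.lt_succ_iff] using hj
          have h5 : star (v i) * x * v j = e * (star (v i) * x * v j) * e := by
            calc star (v i) * x * v j = (e * star (v i)) * x * (v j * e) := by
                  rw [hv.e_mul he hi', hv.mul_e he hj']
              _ = _ := by simp only [mul_assoc]
          obtain ⟨c, hc⟩ := hmin (star (v i) * x * v j)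
            (mul_mem (mul_mem (star_mem (hv.mem i hi')) hx) (hv.mem j hj'))
          rw [h5, hc, mul_smul_comm, hv.mul_e he hi', smul_mul_assoc]
          apply S.smul_mem
          apply Submodule.subset_span
          exact ⟨(⟨i, Nat.lt_succ_of_le hi'⟩, ⟨j, Nat.lt_succ_of_le hj'⟩), rfl⟩
        exact Submodule.finiteDimensional_of_le hle
      rw [hz0, zero_mul] at hez
      exact he0 hez.symm
    obtain ⟨x, hx, hw0⟩ := hex
    set w : (H →L[ℂ] H) := (1 - z) * x * e with hw
    have hwM : w ∈ M := mul_mem (mul_mem (sub_mem (one_mem M) hzM) hx) heM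
    have hwe : w * e = w := by rw [hw, mul_assoc, he.idem]
    obtain ⟨c, hc⟩ := hmin (star w * w) (mul_mem (star_mem hwM) hwM)
    have hc' : star w * w = c • e := by
      rw [← hc]
      calc star w * w = star (w * e) * (w * e) := by rw [hwe]
        _ = _ := by rw [star_mul, he.sa]; simp only [mul_assoc]
    obtain ⟨ξ0, hξ0⟩ : ∃ ξ, e ξ ≠ 0 := by
      by_contra hcon
      push Not at hcon
      exact he0 (by ext ξ; simpa using hcon ξ)
    set ζ : H := e ξ0 with hζ
    have heζ : e ζ = ζ := by rw [hζ, ← mul_apply_eq_comp, he.idem]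
    have hcr : c = ((‖w ζ‖ ^ 2 / ‖ζ‖ ^ 2 : ℝ) : ℂ) := by
      have h1 : ⟪ζ, (star w * w) ζ⟫_ℂ = ((‖w ζ‖ ^ 2 : ℝ) : ℂ) := by
        rw [mul_apply_eq_comp, inner_star_right, inner_self_eq_norm_sq_to_K]
        norm_cast
      have h2 : ⟪ζ, (star w * w) ζ⟫_ℂ = c * ((‖ζ‖ ^ 2 : ℝ) : ℂ) := by
        rw [hc', smul_apply, heζ, inner_smul_right, inner_self_eq_norm_sq_to_K]
        norm_cast
      have hζn : (((‖ζ‖ ^ 2 : ℝ)) : ℂ) ≠ 0 := by
        have : (0 : ℝ) < ‖ζ‖ ^ 2 := by
          have := norm_pos_iff.2 hξ0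
          positivity
        exact_mod_cast this.ne'
      rw [Complex.ofReal_div, ← h1, h2]
      field_simp
    set r : ℝ := ‖w ζ‖ ^ 2 / ‖ζ‖ ^ 2 with hr
    have hr0 : 0 ≤ r := by positivity
    have hrpos : 0 < r := by
      rcases hr0.lt_or_eq with h | h
      · exact h
      · exfalso
        rw [← h] at hcr
        rw [hcr] at hc'
        apply hw0
        apply eq_zero_of_star_mul
        rw [hc']
        simp
    set w' : (H →L[ℂ] H) := (((Real.sqrt r)⁻¹ : ℝ) : ℂ) • w with hw'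
    have hw'M : w' ∈ M := smul_mem' M _ hwM
    have hw'w' : star w' * w' = e := by
      rw [hw', star_smul, smul_mul_assoc, mul_smul_comm, hc', hcr, smul_smul, smul_smul]
      have : star ((((Real.sqrt r)⁻¹ : ℝ)) : ℂ) * ((((Real.sqrt r)⁻¹ : ℝ)) : ℂ) * (r : ℂ) = 1 := by
        rw [Complex.star_def, Complex.conj_ofReal]
        norm_cast
        have := Real.mul_self_sqrt hr0
        have h2 : Real.sqrt r ≠ 0 := (Real.sqrt_pos.2 hrpos).ne'
        field_simp
        nlinarith
      rw [this, one_smul]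
    have horth : ∀ i ≤ n, star (v i) * w' = 0 := by
      intro i hi
      have h1 : star (v i) * (1 - z) = 0 := by
        have : (1 - z) * v i = 0 := by
          rw [sub_mul, one_mul, hv.zsum_mul he hi, sub_self]
        have := congrArg star this
        rwa [star_mul, star_zero, star_sub, star_one, hzP.sa] at this
      rw [hw', mul_smul_comm, hw, ← mul_assoc, ← mul_assoc, h1, zero_mul, zero_mul, smul_zero]
    refine ⟨fun i => if i ≤ n then v i else w', ⟨?_, ?_, ?_⟩⟩
    · intro i _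
      split_ifs with h
      · exact hv.mem i h
      · exact hw'M
    · simp only [Nat.zero_le, if_true]
      exact hv.zero
    · intro i hi j hj
      by_cases h1 : i ≤ n
      · by_cases h2 : j ≤ n
        · simp only [h1, h2, if_true]
          exact hv.orth i h1 j h2
        · simp only [h1, h2, if_true, if_false]
          rw [horth i h1, if_neg (by omega)]
      · by_cases h2 : j ≤ n
        · simp only [h1, h2, if_true, if_false]
          have := congrArg star (horth j h2)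
          rw [star_mul, star_star, star_zero] at this
          rw [this, if_neg (by omega)]
        · simp only [h1, h2, if_false]
          rw [hw'w', if_pos (by omega)]

end R289.VN
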