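import Pool.Agent.R289.VN2

/-!
# Rotations: `t e + (1 - e)` is a weak limit of unitaries for a minimal projection `e`
-/

namespace R289.VN

open scoped InnerProductSpace
open ContinuousLinearMap

variable {H : Type*} [NormedAddCommGroup H] [InnerProductSpace ℂ H] [CompleteSpace H]



variable {M : VonNeumannAlgebra H}

theorem rot_mul {k : (H →L[ℂ] H)} (hk3 : k * k * k = -k) (s t : ℂ) (hst : s ^ 2 + t ^ 2 = 1) :
    (1 - s • k + (1 - t) • (k * k)) * (1 + s • k + (1 - t) • (k * k)) = 1 := by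
  have hk3' : k * (k * k) = -k := by rw [← mul_assoc, hk3]
  have hk4 : k * k * (k * k) = -(k * k) := by rw [← mul_assoc, hk3, neg_mul]
  have h1 : (1 - s • k + (1 - t) • (k * k)) * (1 + s • k + (1 - t) • (k * k)) =
      1 + (2 * (1 - t) - s ^ 2 - (1 - t) ^ 2) • (k * k) := by
    simp only [add_mul, sub_mul, mul_add, smul_mul_assoc, mul_smul_comm, one_mul, mul_one,
      hk3, hk3', hk4]
    module
  rw [h1, show 2 * (1 - t) - s ^ 2 - (1 - t) ^ 2 = 0 by linear_combination -hst, zero_smul,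
    add_zero]

theorem rot_unitary {k : (H →L[ℂ] H)} (hks : star k = -k) (hk3 : k * k * k = -k) (s t : ℝ)
    (hst : s ^ 2 + t ^ 2 = 1) :
    star (1 + (s : ℂ) • k + (1 - (t : ℂ)) • (k * k)) *
      (1 + (s : ℂ) • k + (1 - (t : ℂ)) • (k * k)) = 1 ∧
    (1 + (s : ℂ) • k + (1 - (t : ℂ)) • (k * k)) *
      star (1 + (s : ℂ) • k + (1 - (t : ℂ)) • (k * k)) = 1 := by
  have hst' : (s : ℂ) ^ 2 + (t : ℂ) ^ 2 = 1 := by exact_mod_cast hst
  have hstar : star (1 + (s : ℂ) • k + (1 - (t : ℂ)) • (k * k)) =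
      1 - (s : ℂ) • k + (1 - (t : ℂ)) • (k * k) := by
    simp only [star_add, star_one, star_smul, star_mul, hks, neg_mul_neg, star_sub,
      Complex.star_def, Complex.conj_ofReal, smul_neg]
    simp [sub_eq_add_neg]
  rw [hstar]
  refine ⟨rot_mul hk3 _ _ hst', ?_⟩
  have := rot_mul hk3 (-(s : ℂ)) t (by rw [neg_sq]; exact hst')
  simpa only [neg_smul, sub_neg_eq_add, ← sub_eq_add_neg] using this

theorem rotation (hM : NoFD M) {e : (H →L[ℂ] H)} (heM : e ∈ M) (he : IsP e)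
    (hmin : ∀ x ∈ M, ∃ c : ℂ, e * x * e = c • e) (t : ℝ) (ht : |t| ≤ 1) :
    InW M ((t : ℂ) • e + (1 - e)) := by
  by_cases he0 : e = 0
  · subst he0
    rw [smul_zero, zero_add, sub_zero]
    apply IsU.inW
    exact ⟨one_mem M, by simp, by simp⟩
  intro F ε hε
  set R : ℝ := 1 + ∑ ξ ∈ F, ‖ξ‖ with hR
  have hsum0 : 0 ≤ ∑ ξ ∈ F, ‖ξ‖ := Finset.sum_nonneg (fun _ _ => norm_nonneg _)
  have hRpos : 1 ≤ R := by linarith
  have hle : ∀ ξ ∈ F, ‖ξ‖ ≤ R := by
    intro ξ hξ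
    have := Finset.single_le_sum (f := fun ξ : H => ‖ξ‖) (fun _ _ => norm_nonneg _) hξ
    linarith
  set δ : ℝ := min 1 (ε / (8 * R)) with hδ
  have hδ0 : 0 < δ := by
    apply lt_min one_pos
    positivity
  have hδ1 : δ ≤ 1 := min_le_left _ _
  have hδ2 : δ * R ≤ ε / 8 := by
    have h1 : δ ≤ ε / (8 * R) := min_le_right _ _
    calc δ * R ≤ ε / (8 * R) * R := by gcongr
      _ = ε / 8 := by field_simp
  set S : ℝ := ∑ ξ ∈ F, ‖ξ‖ ^ 2 with hS
  obtain ⟨n, hn⟩ := exists_nat_gt (S / δ ^ 2)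
  obtain ⟨v, hv⟩ := fam_exists hM heM he he0 hmin n
  obtain ⟨i, hi1, hin, hi⟩ : ∃ i, 1 ≤ i ∧ i ≤ n ∧ ∑ ξ ∈ F, ‖star (v i) ξ‖ ^ 2 ≤ δ ^ 2 := by
    by_contra hcon
    push Not at hcon
    have h1 : (n : ℝ) * δ ^ 2 ≤ ∑ i ∈ Finset.range n, ∑ ξ ∈ F, ‖star (v (i + 1)) ξ‖ ^ 2 := by
      have : ∑ _i ∈ Finset.range n, δ ^ 2 ≤
          ∑ i ∈ Finset.range n, ∑ ξ ∈ F, ‖star (v (i + 1)) ξ‖ ^ 2 := by
        apply Finset.sum_le_sum
        intro i hi
        exact (hcon (i + 1) (by omega) (by have := Finset.mem_range.1 hi; omega)).le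
      simpa using this
    have h2 : ∑ i ∈ Finset.range n, ∑ ξ ∈ F, ‖star (v (i + 1)) ξ‖ ^ 2 ≤ S := by
      rw [Finset.sum_comm]
      apply Finset.sum_le_sum
      intro ξ _
      have h3 := hv.bessel he ξ
      rw [Finset.sum_range_succ'] at h3
      have h4 : 0 ≤ ‖star (v 0) ξ‖ ^ 2 := by positivity
      linarith
    have h3 : S < n * δ ^ 2 := by
      rwa [div_lt_iff₀ (by positivity)] at hn
    linarith
  set w : (H →L[ℂ] H) := v i with hw
  have hwM : w ∈ M := hv.mem i hin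
  have hww : star w * w = e := by simpa using hv.orth i hin i hin
  have hwe : w * e = w := hv.mul_e he hin
  have hew : e * star w = star w := hv.e_mul he hin
  have hse : star w * e = 0 := by
    have := hv.orth i hin 0 (Nat.zero_le _)
    rwa [if_neg (by omega), hv.zero] at this
  have hes : e * w = 0 := by
    have := congrArg star hse
    rwa [star_mul, star_star, star_zero, he.sa] at this
  have hw2 : w * w = 0 := by
    calc w * w = (w * e) * w := by rw [hwe]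
      _ = w * (e * w) := mul_assoc _ _ _
      _ = 0 := by rw [hes, mul_zero]
  have hs2 : star w * star w = 0 := by
    calc star w * star w = star w * (e * star w) := by rw [hew]
      _ = (star w * e) * star w := (mul_assoc _ _ _).symm
      _ = 0 := by rw [hse, zero_mul]
  set k : (H →L[ℂ] H) := w - star w with hk
  have hks : star k = -k := by rw [hk, star_sub, star_star]; abel
  have hk2 : k * k = -(w * star w + e) := by
    rw [hk, sub_mul, mul_sub, mul_sub, hw2, hs2, hww]; abel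
  have hk3 : k * k * k = -k := by
    rw [hk2, hk, neg_mul, add_mul, mul_sub, mul_sub, mul_assoc, hww, hwe, mul_assoc w (star w) (star w),
      hs2, hes, hew]
    simp [sub_eq_add_neg]
  set s : ℝ := Real.sqrt (1 - t ^ 2) with hs
  have ht2 : t ^ 2 ≤ 1 := by
    rw [← sq_abs]; exact pow_le_one₀ (abs_nonneg _) ht
  have hst : s ^ 2 + t ^ 2 = 1 := by
    rw [hs, Real.sq_sqrt (by linarith)]; ring
  have hs1 : |s| ≤ 1 := by
    rw [abs_le_one_iff_mul_self_le_one]; nlinarith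
  obtain ⟨hu1, hu2⟩ := rot_unitary hks hk3 s t hst
  have hkM : k ∈ M := sub_mem hwM (star_mem hwM)
  refine ⟨1 + (s : ℂ) • k + (1 - (t : ℂ)) • (k * k), ⟨?_, hu1, hu2⟩, ?_⟩
  · exact add_mem (add_mem (one_mem M) (smul_mem' M _ hkM)) (smul_mem' M _ (mul_mem hkM hkM))
  have hdiff : (t : ℂ) • e + (1 - e) - (1 + (s : ℂ) • k + (1 - (t : ℂ)) • (k * k)) =
      (1 - (t : ℂ)) • (w * star w) - (s : ℂ) • w + (s : ℂ) • star w := by
    rw [hk2, hk]
    module
  intro ξ hξ η hη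
  rw [hdiff]
  have hsmall : ∀ ξ ∈ F, ‖star w ξ‖ ≤ δ := by
    intro ξ hξ
    have h1 : ‖star w ξ‖ ^ 2 ≤ δ ^ 2 := by
      have := Finset.single_le_sum (f := fun ξ : H => ‖star w ξ‖ ^ 2)
        (fun _ _ => by positivity) hξ
      exact this.trans hi
    exact le_of_sq_le_sq h1 hδ0.le |> id
  have e1 : ⟪ξ, ((1 - (t : ℂ)) • (w * star w) - (s : ℂ) • w + (s : ℂ) • star w) η⟫_ℂ =
      (1 - (t : ℂ)) * ⟪star w ξ, star w η⟫_ℂ - (s : ℂ) * ⟪star w ξ, η⟫_ℂ + (s : ℂ) * ⟪ξ, star w η⟫_ℂ := by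
    rw [add_apply, sub_apply, smul_apply, smul_apply, smul_apply, mul_apply_eq_comp,
      inner_add_right, inner_sub_right, inner_smul_right, inner_smul_right, inner_smul_right,
      inner_star_left w ξ (star w η), inner_star_left w ξ η]
  rw [e1]
  have b1 : ‖(1 - (t : ℂ)) * ⟪star w ξ, star w η⟫_ℂ‖ ≤ 2 * (δ * δ) := by
    rw [norm_mul]
    have h1 : ‖(1 - (t : ℂ))‖ ≤ 2 := by
      calc ‖(1 - (t : ℂ))‖ ≤ ‖(1 : ℂ)‖ + ‖(t : ℂ)‖ := norm_sub_le _ _
        _ ≤ 1 + 1 := by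
          rw [norm_one, Complex.norm_real, Real.norm_eq_abs]; linarith
        _ = 2 := by norm_num
    have h2 : ‖⟪star w ξ, star w η⟫_ℂ‖ ≤ δ * δ :=
      (norm_inner_le_norm _ _).trans
        (mul_le_mul (hsmall ξ hξ) (hsmall η hη) (norm_nonneg _) hδ0.le)
    exact mul_le_mul h1 h2 (norm_nonneg _) (by norm_num)
  have b2 : ‖(s : ℂ) * ⟪star w ξ, η⟫_ℂ‖ ≤ δ * R := by
    rw [norm_mul, Complex.norm_real, Real.norm_eq_abs]
    have h2 : ‖⟪star w ξ, η⟫_ℂ‖ ≤ δ * R :=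
      (norm_inner_le_norm _ _).trans
        (mul_le_mul (hsmall ξ hξ) (hle η hη) (norm_nonneg _) hδ0.le)
    calc |s| * ‖⟪star w ξ, η⟫_ℂ‖ ≤ 1 * (δ * R) := mul_le_mul hs1 h2 (norm_nonneg _) (by norm_num)
      _ = δ * R := one_mul _
  have b3 : ‖(s : ℂ) * ⟪ξ, star w η⟫_ℂ‖ ≤ R * δ := by
    rw [norm_mul, Complex.norm_real, Real.norm_eq_abs]
    have h2 : ‖⟪ξ, star w η⟫_ℂ‖ ≤ R * δ :=
      (norm_inner_le_norm _ _).trans
        (mul_le_mul (hle ξ hξ) (hsmall η hη) (norm_nonneg _) (by linarith))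
    calc |s| * ‖⟪ξ, star w η⟫_ℂ‖ ≤ 1 * (R * δ) := mul_le_mul hs1 h2 (norm_nonneg _) (by norm_num)
      _ = R * δ := one_mul _
  have hδδ : δ * δ ≤ δ * R := by
    apply mul_le_mul_of_nonneg_left _ hδ0.le
    linarith
  calc ‖(1 - (t : ℂ)) * ⟪star w ξ, star w η⟫_ℂ - (s : ℂ) * ⟪star w ξ, η⟫_ℂ + (s : ℂ) * ⟪ξ, star w η⟫_ℂ‖
      ≤ ‖(1 - (t : ℂ)) * ⟪star w ξ, star w η⟫_ℂ‖ + ‖(s : ℂ) * ⟪star w ξ, η⟫_ℂ‖
        + ‖(s : ℂ) * ⟪ξ, star w η⟫_ℂ‖ := by
          refine (norm_add_le _ _).trans ?_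
          gcongr
          exact norm_sub_le _ _
    _ ≤ 2 * (δ * δ) + δ * R + R * δ := by gcongr
    _ < ε := by nlinarith

end R289.VN
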