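import Pool.Agent.R289.VN3

/-!
# `2a - 1` is a weak limit of unitaries when `a - a²` cuts down to a finite-dimensional space
-/

namespace R289.VN

open scoped InnerProductSpace
open ContinuousLinearMap Module

variable {H : Type*} [NormedAddCommGroup H] [InnerProductSpace ℂ H] [CompleteSpace H]



variable (M : VonNeumannAlgebra H)

/-- the space `d M d` -/
def cut (d : H →L[ℂ] H) : Submodule ℂ (H →L[ℂ] H) where
  carrier := {y | ∃ x ∈ M, y = d * x * d}
  add_mem' := by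
    rintro _ _ ⟨x, hx, rfl⟩ ⟨y, hy, rfl⟩
    exact ⟨x + y, add_mem hx hy, by rw [mul_add, add_mul]⟩
  zero_mem' := ⟨0, zero_mem M, by simp⟩
  smul_mem' := by
    rintro c _ ⟨x, hx, rfl⟩
    exact ⟨c • x, smul_mem' M c hx, by rw [mul_smul_comm, smul_mul_assoc]⟩

theorem mem_cut {d y : (H →L[ℂ] H)} : y ∈ cut M d ↔ ∃ x ∈ M, y = d * x * d := Iff.rfl

variable {M}

theorem re_inner_self (ξ : H) : RCLike.re ⟪ξ, ξ⟫_ℂ = ‖ξ‖ ^ 2 := by
  rw [inner_self_eq_norm_sq_to_K]
  norm_cast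

theorem eq_zero_of_form {T : (H →L[ℂ] H)} (hT : star T = T) (h : ∀ ξ, RCLike.re ⟪T ξ, ξ⟫_ℂ = 0) : T = 0 := by
  have h1 : ∀ ξ, ⟪T ξ, ξ⟫_ℂ = 0 := by
    intro ξ
    have hconj : (starRingEnd ℂ) ⟪T ξ, ξ⟫_ℂ = ⟪T ξ, ξ⟫_ℂ := by
      rw [inner_conj_symm, inner_sa hT]
    have h2 : (⟪T ξ, ξ⟫_ℂ : ℂ).im = 0 := Complex.conj_eq_iff_im.1 hconj
    have h3 : (⟪T ξ, ξ⟫_ℂ : ℂ).re = 0 := h ξ
    exact Complex.ext h3 h2
  have h2 := (inner_map_self_eq_zero (T : H →ₗ[ℂ] H)).1 h1
  ext ξ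
  exact congrArg (fun L : H →ₗ[ℂ] H => L ξ) h2

theorem IsP.norm_split {q : (H →L[ℂ] H)} (hq : IsP q) (ξ : H) :
    ‖ξ‖ ^ 2 = ‖q ξ‖ ^ 2 + ‖(1 - q) ξ‖ ^ 2 := by
  rw [← hq.re_inner ξ, ← hq.compl.re_inner ξ, ← re_inner_self ξ, ← map_add, ← inner_add_left]
  congr 2
  simp [sub_apply]

theorem slice_scalar {e b : (H →L[ℂ] H)} (C : Set (H →L[ℂ] H)) (heM : e ∈ M) (he : IsP e)
    (hmin : ∀ f ∈ M, IsP f → e * f = f → (∀ c ∈ C, c * f = f * c) → f = 0 ∨ f = e)
    (hbM : b ∈ M) (hb : star b = b) (heb : e * b = b) (hCb : ∀ c ∈ C, c * b = b * c)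
    (hCe : ∀ c ∈ C, c * e = e * c) : ∃ l : ℝ, b = (l : ℂ) • e := by
  have hbe : b * e = b := by
    have := congrArg star heb
    rwa [star_mul, hb, he.sa] at this
  by_cases he0 : e = 0
  · exact ⟨0, by rw [← hbe, he0]; simp⟩
  have hdich : ∀ μ : ℝ, (∀ ξ, e ξ = ξ → μ * ‖ξ‖ ^ 2 ≤ RCLike.re ⟪b ξ, ξ⟫_ℂ) ∨
      (∀ ξ, e ξ = ξ → RCLike.re ⟪b ξ, ξ⟫_ℂ ≤ μ * ‖ξ‖ ^ 2) := by
    intro μ
    obtain ⟨q, hq, hqc, hq1, hq2⟩ := slice b hb μ
    have hqe : q * e = e * q := hqc e (by rw [hbe, heb])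
    have hqM : q ∈ M := slice_mem M hbM hqc
    have hfP : IsP (q * e) := by
      refine ⟨by rw [star_mul, hq.sa, he.sa, hqe], ?_⟩
      calc q * e * (q * e) = q * (e * q) * e := by simp only [mul_assoc]
        _ = q * (q * e) * e := by rw [hqe]
        _ = (q * q) * (e * e) := by simp only [mul_assoc]
        _ = q * e := by rw [hq.idem, he.idem]
    rcases hmin (q * e) (mul_mem hqM heM) hfP (by rw [hqe, ← mul_assoc, he.idem])
      (fun c hc => by rw [← mul_assoc, ← hqc c (hCb c hc).symm, mul_assoc, hCe c hc, mul_assoc])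
      with h | h
    · right
      intro ξ hξ
      apply hq2
      rw [← hξ, ← mul_apply_eq_comp, h, zero_apply]
    · left
      intro ξ hξ
      apply hq1
      conv_lhs => rw [← hξ, ← mul_apply_eq_comp, h]
      exact hξ
  obtain ⟨ξ0, hξ0⟩ : ∃ ξ, e ξ ≠ 0 := by
    by_contra hcon
    push Not at hcon
    exact he0 (by ext ξ; simpa using hcon ξ)
  set ζ : H := e ξ0 with hζ
  have heζ : e ζ = ζ := by rw [hζ, ← mul_apply_eq_comp, he.idem]
  have hζn : 0 < ‖ζ‖ ^ 2 := by
    have := norm_pos_iff.2 hξ0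
    positivity
  set l : ℝ := RCLike.re ⟪b ζ, ζ⟫_ℂ / ‖ζ‖ ^ 2 with hl
  have hl' : RCLike.re ⟪b ζ, ζ⟫_ℂ = l * ‖ζ‖ ^ 2 := by rw [hl]; field_simp
  have hall : ∀ ξ, e ξ = ξ → RCLike.re ⟪b ξ, ξ⟫_ℂ = l * ‖ξ‖ ^ 2 := by
    intro ξ hξ
    by_cases hξ0 : ξ = 0
    · subst hξ0; simp
    have hξn : 0 < ‖ξ‖ ^ 2 := by
      have := norm_pos_iff.2 hξ0
      positivity
    set l' : ℝ := RCLike.re ⟪b ξ, ξ⟫_ℂ / ‖ξ‖ ^ 2 with hl2
    have hl2' : RCLike.re ⟪b ξ, ξ⟫_ℂ = l' * ‖ξ‖ ^ 2 := by rw [hl2]; field_simp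
    rcases hdich ((l + l') / 2) with h | h
    · have h1 := h ζ heζ
      have h2 := h ξ hξ
      rw [hl'] at h1
      rw [hl2'] at h2
      have h3 := le_of_mul_le_mul_right h1 hζn
      have h4 := le_of_mul_le_mul_right h2 hξn
      rw [hl2', show l' = l by linarith]
    · have h1 := h ζ heζ
      have h2 := h ξ hξ
      rw [hl'] at h1
      rw [hl2'] at h2
      have h3 := le_of_mul_le_mul_right h1 hζn
      have h4 := le_of_mul_le_mul_right h2 hξn
      rw [hl2', show l' = l by linarith]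
  refine ⟨l, ?_⟩
  have hT : b - (l : ℂ) • e = 0 := by
    apply eq_zero_of_form
    · rw [star_sub, star_smul, hb, he.sa]
      simp
    · intro ξ
      have h1 : ⟪b ξ, ξ⟫_ℂ = ⟪b (e ξ), e ξ⟫_ℂ := by
        rw [← inner_sa he.sa, ← mul_apply_eq_comp, ← mul_apply_eq_comp, heb, hbe]
      have h2 := hall (e ξ) (by rw [← mul_apply_eq_comp, he.idem])
      rw [sub_apply, smul_apply, inner_sub_left, inner_smul_left, map_sub, h1, h2,
        Complex.conj_ofReal, RCLike.re_to_complex, Complex.re_ofReal_mul]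
      have h3 := he.re_inner ξ
      rw [RCLike.re_to_complex] at h3
      rw [h3, sub_self]
  exact sub_eq_zero.1 hT

theorem exists_cut_proj {d : (H →L[ℂ] H)} (hdM : d ∈ M) (hd : star d = d)
    (hpos : ∀ ξ, 0 ≤ RCLike.re ⟪d ξ, ξ⟫_ℂ) (hd0 : d ≠ 0) :
    ∃ q ∈ M, IsP q ∧ q ≠ 0 ∧ q ∈ cut M d ∧ ∀ y, d * y = y * d → q * y = y * q := by
  obtain ⟨μ, hμ, q, hq, hqc, hq1, hq0⟩ : ∃ μ : ℝ, 0 < μ ∧ ∃ q : (H →L[ℂ] H), IsP q ∧
      (∀ y, d * y = y * d → q * y = y * q) ∧
      (∀ ξ, q ξ = ξ → μ * ‖ξ‖ ^ 2 ≤ RCLike.re ⟪d ξ, ξ⟫_ℂ) ∧ q ≠ 0 := by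
    by_contra hcon
    push Not at hcon
    apply hd0
    apply eq_zero_of_form hd
    intro ξ
    apply le_antisymm _ (hpos ξ)
    apply le_of_forall_pos_le_add
    intro ε hε
    have hμ : 0 < ε / (‖ξ‖ ^ 2 + 1) := by positivity
    obtain ⟨q, hq, hqc, hq1, hq2⟩ := slice d hd (ε / (‖ξ‖ ^ 2 + 1))
    have h0 := hcon _ hμ q hq hqc hq1
    have h1 := hq2 ξ (by rw [h0]; simp)
    refine h1.trans ?_
    rw [zero_add, div_mul_eq_mul_div, div_le_iff₀ (by positivity)]
    nlinarith [sq_nonneg ‖ξ‖]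
  have hqM : q ∈ M := slice_mem M hdM hqc
  have hqd : q * d = d * q := hqc d rfl
  set T : (H →L[ℂ] H) := d * q + (1 - q) with hT
  have hTM : T ∈ M := add_mem (mul_mem hdM hqM) (sub_mem (one_mem M) hqM)
  have hform : ∀ ξ, min μ 1 * ‖ξ‖ ^ 2 ≤ RCLike.re ⟪T ξ, ξ⟫_ℂ := by
    intro ξ
    have h1 : T ξ = d (q ξ) + (1 - q) ξ := by
      rw [hT, add_apply, mul_apply_eq_comp]
    have h2 : ⟪d (q ξ), ξ⟫_ℂ = ⟪d (q ξ), q ξ⟫_ℂ := by
      rw [← inner_sa hq.sa, ← mul_apply_eq_comp, ← mul_apply_eq_comp, ← mul_assoc, hqd, mul_assoc,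
        hq.idem]
    rw [h1, inner_add_left, map_add, h2, hq.compl.re_inner, hq.norm_split ξ, mul_add]
    have h3 := hq1 (q ξ) (by rw [← mul_apply_eq_comp, hq.idem])
    have h4 : min μ 1 * ‖q ξ‖ ^ 2 ≤ μ * ‖q ξ‖ ^ 2 := by
      gcongr; exact min_le_left _ _
    have h5 : min μ 1 * ‖(1 - q) ξ‖ ^ 2 ≤ 1 * ‖(1 - q) ξ‖ ^ 2 := by
      gcongr; exact min_le_right _ _
    linarith
  have hunit : IsUnit T := by
    apply ContinuousLinearMap.isUnit_of_forall_le_norm_inner_map (c := ⟨min μ 1, by positivity⟩)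
    · show (0 : ℝ) < min μ 1
      exact lt_min hμ one_pos
    · intro ξ
      have h1 := hform ξ
      have h2 : RCLike.re ⟪T ξ, ξ⟫_ℂ ≤ ‖⟪T ξ, ξ⟫_ℂ‖ := RCLike.re_le_norm _
      show ‖ξ‖ ^ 2 * (min μ 1) ≤ _
      linarith
  obtain ⟨U, hU⟩ := hunit
  set S : (H →L[ℂ] H) := ((U⁻¹ : ((H →L[ℂ] H))ˣ) : (H →L[ℂ] H)) with hS
  have hTS : T * S = 1 := by rw [← hU]; exact Units.mul_inv U
  have hST : S * T = 1 := by rw [← hU]; exact Units.inv_mul U
  have hSM : S ∈ M := inv_mem M hTM hTS hST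
  have hTq : T * q = d * q := by
    rw [hT, add_mul, mul_assoc, hq.idem, sub_mul, one_mul, hq.idem, sub_self, add_zero]
  have hqT : q * T = d * q := by
    rw [hT, mul_add, ← mul_assoc, hqd, mul_assoc, hq.idem, mul_sub, mul_one, hq.idem, sub_self,
      add_zero]
  have hqS : q * S = S * q := by
    calc q * S = (S * T) * (q * S) := by rw [hST, one_mul]
      _ = S * (T * q) * S := by simp only [mul_assoc]
      _ = S * (q * T) * S := by rw [hTq, hqT]
      _ = S * q * (T * S) := by simp only [mul_assoc]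
      _ = S * q := by rw [hTS, mul_one]
  have e1 : q = d * (q * S) := by
    calc q = q * (T * S) := by rw [hTS, mul_one]
      _ = (q * T) * S := (mul_assoc _ _ _).symm
      _ = d * q * S := by rw [hqT]
      _ = d * (q * S) := mul_assoc _ _ _
  have e2 : q = (S * q) * d := by
    calc q = (S * T) * q := by rw [hST, one_mul]
      _ = S * (T * q) := mul_assoc _ _ _
      _ = S * (q * d) := by rw [hTq, hqd]
      _ = _ := (mul_assoc _ _ _).symm
  refine ⟨q, hqM, hq, hq0, ⟨(q * S) * (S * q), mul_mem (mul_mem hqM hSM) (mul_mem hSM hqM), ?_⟩, hqc⟩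
  calc q = q * q := hq.idem.symm
    _ = (d * (q * S)) * ((S * q) * d) := by rw [← e1, ← e2]
    _ = _ := by simp only [mul_assoc]

/-- `0 ≤ a ≤ 1` in the sense of forms. -/
def Unit01 (a : H →L[ℂ] H) : Prop :=
  star a = a ∧ ∀ ξ, 0 ≤ RCLike.re (inner ℂ (a ξ) ξ) ∧ RCLike.re (inner ℂ (a ξ) ξ) ≤ ‖ξ‖ ^ 2

theorem Unit01.sq_le {a : (H →L[ℂ] H)} (ha : Unit01 a) (ξ : H) : ‖a ξ‖ ^ 2 ≤ RCLike.re ⟪a ξ, ξ⟫_ℂ := by
  have h1 := (ha.2 (ξ - a ξ)).1
  have h2 := (ha.2 (a ξ)).2
  have h3 : RCLike.re ⟪a (ξ - a ξ), ξ - a ξ⟫_ℂ =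
      RCLike.re ⟪a ξ, ξ⟫_ℂ - 2 * ‖a ξ‖ ^ 2 + RCLike.re ⟪a (a ξ), a ξ⟫_ℂ := by
    rw [map_sub, inner_sub_left, inner_sub_right, inner_sub_right, map_sub, map_sub, map_sub,
      re_inner_self]
    have h4 : RCLike.re ⟪a (a ξ), ξ⟫_ℂ = ‖a ξ‖ ^ 2 := by
      rw [inner_sa ha.1 (a ξ) ξ, re_inner_self]
    rw [h4]
    ring
  linarith

theorem two_sub_one_inW (hM : NoFD M) (n : ℕ) : ∀ a ∈ M, Unit01 a →
    FiniteDimensional ℂ (cut M (a - a * a)) → finrank ℂ (cut M (a - a * a)) < n →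
    InW M ((2 : ℂ) • a - 1) := by
  induction n with
  | zero => intro a _ _ _ h; exact absurd h (Nat.not_lt_zero _)
  | succ n ih =>
    intro a haM ha hfd hrk
    set d : (H →L[ℂ] H) := a - a * a with hd
    have hdM : d ∈ M := sub_mem haM (mul_mem haM haM)
    have hds : star d = d := by rw [hd, star_sub, star_mul, ha.1]
    have hda : d * a = a * d := by rw [hd, sub_mul, mul_sub, mul_assoc]
    by_cases hd0 : d = 0
    · have haa : a * a = a := by
        have : a - a * a = 0 := hd0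
        exact (sub_eq_zero.1 this).symm
      apply IsU.inW
      have hs : star ((2 : ℂ) • a - 1) = (2 : ℂ) • a - 1 := by
        rw [star_sub, star_smul, star_one, ha.1]
        simp
      have hm : ((2 : ℂ) • a - 1) * ((2 : ℂ) • a - 1) = 1 := by
        rw [sub_mul, mul_sub, smul_mul_assoc, mul_smul_comm, haa]
        simp only [mul_one, one_mul]
        module
      refine ⟨sub_mem (smul_mem' M _ haM) (one_mem M), ?_, ?_⟩
      · rw [hs, hm]
      · rw [hs, hm]
    -- a minimal projection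
    have hposd : ∀ ξ, 0 ≤ RCLike.re ⟪d ξ, ξ⟫_ℂ := by
      intro ξ
      have h1 := ha.sq_le ξ
      have h2 : RCLike.re ⟪d ξ, ξ⟫_ℂ = RCLike.re ⟪a ξ, ξ⟫_ℂ - ‖a ξ‖ ^ 2 := by
        rw [hd, sub_apply, mul_apply_eq_comp, inner_sub_left, map_sub, inner_sa ha.1 (a ξ) ξ,
          re_inner_self]
      rw [h2]; linarith
    let S : Set (H →L[ℂ] H) := {q | q ∈ M ∧ IsP q ∧ q ≠ 0 ∧ q ∈ cut M d ∧ a * q = q * a}
    have hSne : S.Nonempty := by
      obtain ⟨q, hqM, hq, hq0, hqcut, hqc⟩ := exists_cut_proj hdM hds hposd hd0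
      exact ⟨q, hqM, hq, hq0, hqcut, (hqc a hda).symm⟩
    obtain ⟨e, ⟨heM, he, he0, hecut, hae⟩, hemin⟩ :=
      (measure (fun q : (H →L[ℂ] H) => finrank ℂ (cut M q))).wf.has_min S hSne
    have hcute : cut M e ≤ cut M d := by
      rintro y ⟨x, hx, rfl⟩
      obtain ⟨z, hz, hez⟩ := hecut
      refine ⟨z * d * x * (d * z), mul_mem (mul_mem (mul_mem hz hdM) hx) (mul_mem hdM hz), ?_⟩
      conv_lhs => rw [hez]
      simp only [mul_assoc]
    have hfde : FiniteDimensional ℂ (cut M e) := Submodule.finiteDimensional_of_le hcute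
    have hminf : ∀ f ∈ M, IsP f → e * f = f → (∀ c ∈ ({a} : Set (H →L[ℂ] H)), c * f = f * c) →
        f = 0 ∨ f = e := by
      intro f hfM hf hef hcf
      by_cases hf0 : f = 0
      · exact Or.inl hf0
      right
      have hfe : f * e = f := by
        have := congrArg star hef
        rwa [star_mul, hf.sa, he.sa] at this
      have hfS : f ∈ S := by
        refine ⟨hfM, hf, hf0, ?_, hcf a rfl⟩
        apply hcute
        exact ⟨f, hfM, by rw [hef, hfe]⟩
      have hle : cut M f ≤ cut M e := by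
        rintro y ⟨x, hx, rfl⟩
        refine ⟨f * x * f, mul_mem (mul_mem hfM hx) hfM, ?_⟩
        calc f * x * f = (e * f) * x * (f * e) := by rw [hef, hfe]
          _ = _ := by simp only [mul_assoc]
      have hrk2 : finrank ℂ (cut M e) ≤ finrank ℂ (cut M f) := not_lt.1 (hemin f hfS)
      have heq := Submodule.eq_of_le_of_finrank_le hle hrk2
      have hemem : e ∈ cut M e := ⟨1, one_mem M, by rw [mul_one, he.idem]⟩
      rw [← heq] at hemem
      obtain ⟨x, _, hex⟩ := hemem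
      have h1 : f * e = e := by
        conv_lhs => rw [hex]
        rw [← mul_assoc, ← mul_assoc, hf.idem]
        exact hex.symm
      rw [← hfe, h1]
    obtain ⟨l, hl⟩ := slice_scalar ({a} : Set (H →L[ℂ] H)) heM he hminf (b := a * e) (mul_mem haM heM)
      (by rw [star_mul, ha.1, he.sa, hae]) (by rw [hae, ← mul_assoc, he.idem])
      (by rintro c rfl; rw [mul_assoc, ← hae, ← mul_assoc])
      (by rintro c rfl; exact hae)
    have hlea : e * a = (l : ℂ) • e := by rw [← hae, hl]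
    have hmin1 : ∀ x ∈ M, star x = x → ∃ c : ℝ, e * x * e = (c : ℂ) • e := by
      intro x hx hxs
      apply slice_scalar ({a} : Set (H →L[ℂ] H)) heM he hminf (mul_mem (mul_mem heM hx) heM)
      · rw [star_mul, star_mul, he.sa, hxs, mul_assoc]
      · rw [← mul_assoc, ← mul_assoc, he.idem]
      · rintro c rfl
        calc c * (e * x * e) = (c * e) * x * e := by simp only [mul_assoc]
          _ = (l : ℂ) • (e * x * e) := by rw [hl, smul_mul_assoc, smul_mul_assoc]
          _ = e * x * (e * c) := by rw [hlea, mul_smul_comm]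
          _ = e * x * e * c := by simp only [mul_assoc]
      · rintro c rfl; exact hae
    have hmin : ∀ x ∈ M, ∃ c : ℂ, e * x * e = c • e := by
      intro x hx
      obtain ⟨c1, hc1⟩ := hmin1 (x + star x) (add_mem hx (star_mem hx))
        (by rw [star_add, star_star, add_comm])
      obtain ⟨c2, hc2⟩ := hmin1 (Complex.I • (x - star x))
        (smul_mem' M _ (sub_mem hx (star_mem hx)))
        (by
          rw [star_smul, star_sub, star_star, Complex.star_def, Complex.conj_I, neg_smul,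
            ← smul_neg, neg_sub])
      refine ⟨(c1 / 2 : ℂ) - Complex.I * (c2 / 2 : ℂ), ?_⟩
      have hx2 : x = (1 / 2 : ℂ) • (x + star x) - (Complex.I / 2) • (Complex.I • (x - star x)) := by
        rw [smul_smul]
        have : Complex.I / 2 * Complex.I = -(1 / 2 : ℂ) := by
          have := Complex.I_mul_I
          linear_combination this / 2
        rw [this]
        module
      conv_lhs => rw [hx2]
      rw [mul_sub, sub_mul, mul_smul_comm, mul_smul_comm, smul_mul_assoc, smul_mul_assoc, hc1, hc2]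
      module
    -- the modified element
    have heP := he.compl
    set a' : (H →L[ℂ] H) := a * (1 - e) + e with ha'
    have ha'M : a' ∈ M := add_mem (mul_mem haM (sub_mem (one_mem M) heM)) heM
    have hac : a * (1 - e) = (1 - e) * a := by rw [mul_sub, sub_mul, mul_one, one_mul, hae]
    have hee : (1 - e) * e = 0 := by rw [sub_mul, one_mul, he.idem, sub_self]
    have hee' : e * (1 - e) = 0 := by rw [mul_sub, mul_one, he.idem, sub_self]
    have haform : ∀ ξ, RCLike.re ⟪a' ξ, ξ⟫_ℂ =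
        RCLike.re ⟪a ((1 - e) ξ), (1 - e) ξ⟫_ℂ + ‖e ξ‖ ^ 2 := by
      intro ξ
      have h1 : a' ξ = a ((1 - e) ξ) + e ξ := by
        rw [ha', add_apply, mul_apply_eq_comp]
      have h2 : ⟪a ((1 - e) ξ), ξ⟫_ℂ = ⟪a ((1 - e) ξ), (1 - e) ξ⟫_ℂ := by
        rw [← inner_sa heP.sa, ← mul_apply_eq_comp, ← mul_apply_eq_comp, ← mul_assoc, ← hac,
          mul_assoc, heP.idem]
      rw [h1, inner_add_left, map_add, h2, he.re_inner]
    have ha'U : Unit01 a' := by
      refine ⟨by rw [ha', star_add, star_mul, heP.sa, ha.1, he.sa, hac], fun ξ => ?_⟩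
      rw [haform]
      have h1 := ha.2 ((1 - e) ξ)
      have h2 := he.norm_split ξ
      constructor
      · have : 0 ≤ ‖e ξ‖ ^ 2 := by positivity
        linarith [h1.1]
      · linarith [h1.2]
    have hd' : a' - a' * a' = d * (1 - e) := by
      have h1 : a' * a' = a * a * (1 - e) + e := by
        rw [ha', add_mul, mul_add, mul_add, he.idem]
        have h2 : a * (1 - e) * (a * (1 - e)) = a * a * (1 - e) := by
          calc a * (1 - e) * (a * (1 - e)) = a * ((1 - e) * a) * (1 - e) := by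
                simp only [mul_assoc]
            _ = a * (a * (1 - e)) * (1 - e) := by rw [hac]
            _ = a * a * ((1 - e) * (1 - e)) := by simp only [mul_assoc]
            _ = _ := by rw [heP.idem]
        have h3 : a * (1 - e) * e = 0 := by rw [mul_assoc, hee, mul_zero]
        have h4 : e * (a * (1 - e)) = 0 := by rw [hac, ← mul_assoc, hee', zero_mul]
        rw [h2, h3, h4, add_zero, zero_add]
      rw [h1, ha', hd, sub_mul]
      abel
    have hdc : d * (1 - e) = (1 - e) * d := by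
      have haa2 : a * a * (1 - e) = (1 - e) * (a * a) := by
        rw [mul_assoc, hac, ← mul_assoc, hac, mul_assoc]
      rw [hd, sub_mul, haa2, hac, mul_sub]
    have hlt : cut M (a' - a' * a') < cut M d := by
      rw [hd']
      refine lt_of_le_of_ne ?_ ?_
      · rintro y ⟨x, hx, rfl⟩
        refine ⟨(1 - e) * x * (1 - e), mul_mem (mul_mem (sub_mem (one_mem M) heM) hx)
          (sub_mem (one_mem M) heM), ?_⟩
        calc d * (1 - e) * x * (d * (1 - e)) = d * (1 - e) * x * ((1 - e) * d) := by rw [← hdc]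
          _ = _ := by simp only [mul_assoc]
      · intro heq
        have h1 : e ∈ cut M (d * (1 - e)) := by rw [heq]; exact hecut
        obtain ⟨x, _, hx⟩ := h1
        apply he0
        calc e = e * e := he.idem.symm
          _ = e * (d * (1 - e) * x * (d * (1 - e))) := by rw [← hx]
          _ = (e * (1 - e)) * d * x * (d * (1 - e)) := by rw [hdc]; simp only [mul_assoc]
          _ = 0 := by rw [hee']; simp
    have hfd' : FiniteDimensional ℂ (cut M (a' - a' * a')) :=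
      Submodule.finiteDimensional_of_le hlt.le
    have hrk' : finrank ℂ (cut M (a' - a' * a')) < n :=
      lt_of_lt_of_le (Submodule.finrank_lt_finrank_of_lt hlt) (Nat.lt_succ_iff.1 hrk)
    have hind := ih a' ha'M ha'U hfd' hrk'
    -- the scalar `l` is in `[0,1]`
    obtain ⟨ξ0, hξ0⟩ : ∃ ξ, e ξ ≠ 0 := by
      by_contra hcon
      push Not at hcon
      exact he0 (by ext ξ; simpa using hcon ξ)
    have hζn : 0 < ‖e ξ0‖ ^ 2 := by
      have := norm_pos_iff.2 hξ0
      positivity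
    have hlζ : RCLike.re ⟪a (e ξ0), e ξ0⟫_ℂ = l * ‖e ξ0‖ ^ 2 := by
      have h1 : a (e ξ0) = (l : ℂ) • e ξ0 := by
        rw [← mul_apply_eq_comp, hl, smul_apply]
      rw [h1, inner_smul_left, Complex.conj_ofReal, RCLike.re_to_complex, Complex.re_ofReal_mul]
      have h3 := re_inner_self (e ξ0)
      rw [RCLike.re_to_complex] at h3
      rw [h3]
    have hl01 := ha.2 (e ξ0)
    rw [hlζ] at hl01
    have hl0 : 0 ≤ l := by
      by_contra hneg
      push Not at hneg
      nlinarith [hl01.1]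
    have hl1 : l ≤ 1 := by
      by_contra hneg
      push Not at hneg
      nlinarith [hl01.2]
    have hrot := rotation hM heM he hmin (2 * l - 1) (by rw [abs_le]; constructor <;> linarith)
    have hprod : (2 : ℂ) • a - 1 =
        (((2 * l - 1 : ℝ) : ℂ) • e + (1 - e)) * ((2 : ℂ) • a' - 1) := by
      have h1 : e * a' = e := by
        rw [ha', mul_add, hac, ← mul_assoc, hee', zero_mul, zero_add, he.idem]
      have h2 : (1 - e) * a' = a - a * e := by
        rw [ha', mul_add, hee, add_zero, hac, ← mul_assoc, heP.idem, ← hac, mul_sub, mul_one]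
      rw [add_mul, smul_mul_assoc, mul_sub, mul_sub, mul_smul_comm, mul_smul_comm, h1, h2, hl,
        mul_one, mul_one]
      push_cast
      module
    rw [hprod]
    exact hrot.mul hind

end R289.VN
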