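import Pool.Agent.R289.VN5

/-!
# Density of the unitaries in the unit ball
-/

namespace R289.VN

open scoped InnerProductSpace
open ContinuousLinearMap Module Set

variable {H : Type*} [NormedAddCommGroup H] [InnerProductSpace ℂ H] [CompleteSpace H]



variable {M : VonNeumannAlgebra H}

theorem unit_inW (hM : NoFD M) {x y : (H →L[ℂ] H)} (hx : x ∈ M) (hx1 : ‖x‖ ≤ 1) (hxy : x * y = 1)
    (hyx : y * x = 1) : InW M x := by
  have hyM : y ∈ M := inv_mem M hx hxy hyx
  set b : (H →L[ℂ] H) := star x * x with hb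
  have hbM : b ∈ M := mul_mem (star_mem hx) hx
  have hb0 : (0 : (H →L[ℂ] H)) ≤ b := star_mul_self_nonneg x
  set a : (H →L[ℂ] H) := CFC.sqrt b with ha
  have haa : a * a = b := CFC.sqrt_mul_sqrt_self b hb0
  have ha0 : (0 : (H →L[ℂ] H)) ≤ a := CFC.sqrt_nonneg b
  have has : star a = a := ((ContinuousLinearMap.nonneg_iff_isPositive _).1 ha0).isSelfAdjoint
  have haM : a ∈ M := by
    rw [mem_iff]
    intro z hz
    have h1 : Commute b z := hz b hbM
    rw [ha, CFC.sqrt]
    exact h1.cfcₙ_nnreal _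
  have ha1 : ‖a‖ ≤ 1 := by
    have h1 : ‖a‖ * ‖a‖ = ‖x‖ * ‖x‖ := by
      rw [← CStarRing.norm_star_mul_self (x := x), ← hb, ← haa]
      conv_rhs => rw [show a * a = star a * a by rw [has]]
      rw [CStarRing.norm_star_mul_self]
    nlinarith [norm_nonneg a, norm_nonneg x]
  clear_value a
  set a' : (H →L[ℂ] H) := a * (y * star y) with ha'
  have e1 : a * a' = 1 := by
    rw [ha', ← mul_assoc, haa, hb]
    calc star x * x * (y * star y) = star x * (x * y) * star y := by simp only [mul_assoc]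
      _ = star (y * x) := by rw [hxy, mul_one, star_mul]
      _ = 1 := by rw [hyx, star_one]
  have e2 : (y * star y * a) * a = 1 := by
    rw [mul_assoc, haa, hb]
    calc y * star y * (star x * x) = y * (star y * star x) * x := by simp only [mul_assoc]
      _ = y * star (x * y) * x := by rw [star_mul]
      _ = 1 := by rw [hxy, star_one, mul_one, hyx]
  have e3 : a' * a = 1 := by
    have : y * star y * a = a' := by
      calc y * star y * a = (y * star y * a) * (a * a') := by rw [e1, mul_one]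
        _ = ((y * star y * a) * a) * a' := (mul_assoc _ _ _).symm
        _ = a' := by rw [e2, one_mul]
    rw [← this, e2]
  set u : (H →L[ℂ] H) := x * a' with hu
  have hsu : star u * u = 1 := by
    rw [hu, star_mul]
    calc star a' * star x * (x * a') = star a' * (star x * x) * a' := by simp only [mul_assoc]
      _ = star a' * (a * a) * a' := by rw [haa]
      _ = (star a' * star a) * (a * a') := by rw [has]; simp only [mul_assoc]
      _ = 1 := by rw [← star_mul, e1, star_one, mul_one]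
  have huay : u * (a * y) = 1 := by
    rw [hu, mul_assoc, ← mul_assoc a', e3, one_mul, hxy]
  have hus : u * star u = 1 := by
    calc u * star u = u * star u * (u * (a * y)) := by rw [huay, mul_one]
      _ = u * (star u * u) * (a * y) := by simp only [mul_assoc]
      _ = 1 := by rw [hsu, mul_one, huay]
  have huU : IsU M u :=
    ⟨mul_mem hx (mul_mem haM (mul_mem hyM (star_mem hyM))), hsu, hus⟩
  have hxu : x = u * a := by rw [hu, mul_assoc, e3, mul_one]
  rw [hxu]
  exact huU.inW.mul (sa_inW hM haM has ha1)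

theorem ball_inW' (hM : NoFD M) {x : (H →L[ℂ] H)} (hx : x ∈ M) (hx1 : ‖x‖ < 1) : InW M x := by
  -- step: averaging with a unitary
  have step1 : ∀ u : (H →L[ℂ] H), IsU M u → InW M ((1 / 2 : ℂ) • (u + x)) := by
    intro u hu
    have hun : ‖u‖ ≤ 1 := by
      have h1 : ‖u‖ * ‖u‖ = ‖(1 : (H →L[ℂ] H))‖ := by
        rw [← CStarRing.norm_star_mul_self (x := u), hu.2.1]
      have h2 : ‖(1 : (H →L[ℂ] H))‖ ≤ 1 := ContinuousLinearMap.norm_id_le
      nlinarith [norm_nonneg u]
    have hlt : ‖-(star u * x)‖ < 1 := by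
      rw [norm_neg]
      calc ‖star u * x‖ ≤ ‖star u‖ * ‖x‖ := norm_mul_le _ _
        _ = ‖u‖ * ‖x‖ := by rw [norm_star]
        _ ≤ 1 * ‖x‖ := by gcongr
        _ < 1 := by rw [one_mul]; exact hx1
    let V := Units.oneSub (-(star u * x)) hlt
    set W : (H →L[ℂ] H) := ((V⁻¹ : ((H →L[ℂ] H))ˣ) : (H →L[ℂ] H)) with hW
    have hVv : (V : (H →L[ℂ] H)) = 1 + star u * x := by
      show 1 - -(star u * x) = _
      rw [sub_neg_eq_add]
    have h1 : (1 + star u * x) * W = 1 := by rw [← hVv]; exact V.mul_inv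
    have h2 : W * (1 + star u * x) = 1 := by rw [← hVv]; exact V.inv_mul
    have h3 : u + x = u * (1 + star u * x) := by
      rw [mul_add, mul_one, ← mul_assoc, hu.2.2, one_mul]
    apply unit_inW hM (y := (2 : ℂ) • (W * star u))
      (smul_mem' M _ (add_mem hu.1 hx))
    · rw [norm_smul]
      calc ‖(1 / 2 : ℂ)‖ * ‖u + x‖ ≤ (1 / 2) * (‖u‖ + ‖x‖) := by
            have : ‖(1 / 2 : ℂ)‖ = 1 / 2 := by simp
            rw [this]
            gcongr
            exact norm_add_le _ _
        _ ≤ 1 := by linarith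
    · rw [h3, smul_mul_assoc, mul_smul_comm, smul_smul]
      have : u * (1 + star u * x) * (W * star u) = 1 := by
        calc u * (1 + star u * x) * (W * star u) = u * ((1 + star u * x) * W) * star u := by
              simp only [mul_assoc]
          _ = 1 := by rw [h1, mul_one, hu.2.2]
      rw [this]
      norm_num
    · rw [h3, smul_mul_assoc, mul_smul_comm, smul_smul]
      have : (W * star u) * (u * (1 + star u * x)) = 1 := by
        calc (W * star u) * (u * (1 + star u * x)) = W * (star u * u) * (1 + star u * x) := by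
              simp only [mul_assoc]
          _ = 1 := by rw [hu.2.1, mul_one, h2]
      rw [this]
      norm_num
  have step2 : ∀ w : (H →L[ℂ] H), InW M w → InW M ((1 / 2 : ℂ) • (w + x)) := by
    intro w hw
    apply InW.closure
    intro F ε hε
    obtain ⟨u, hu, huF⟩ := hw F ε hε
    refine ⟨_, step1 u hu, fun ξ hξ η hη => ?_⟩
    have h1 : ((1 / 2 : ℂ) • (w + x) - (1 / 2 : ℂ) • (u + x)) η = (1 / 2 : ℂ) • ((w - u) η) := by
      simp only [sub_apply, smul_apply, add_apply]
      module
    rw [h1, inner_smul_right, norm_mul]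
    have h2 : ‖(1 / 2 : ℂ)‖ = 1 / 2 := by simp
    rw [h2]
    have h3 := huF ξ hξ η hη
    have h4 := norm_nonneg (⟪ξ, (w - u) η⟫_ℂ : ℂ)
    linarith
  have step3 : ∀ n : ℕ, InW M (x + ((1 / 2 : ℂ)) ^ n • (1 - x)) := by
    intro n
    induction n with
    | zero =>
      rw [pow_zero, one_smul, add_sub_cancel]
      apply IsU.inW
      exact ⟨one_mem M, by simp, by simp⟩
    | succ n ih =>
      have h1 := step2 _ ih
      have h2 : (1 / 2 : ℂ) • (x + ((1 / 2 : ℂ)) ^ n • (1 - x) + x) =
          x + ((1 / 2 : ℂ)) ^ (n + 1) • (1 - x) := by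
        rw [pow_succ]
        module
      rwa [h2] at h1
  apply InW.norm_closure
  intro δ hδ
  have hlim : Filter.Tendsto (fun n : ℕ => (1 / 2 : ℝ) ^ n * ‖(1 : (H →L[ℂ] H)) - x‖) Filter.atTop
      (nhds (0 * ‖(1 : (H →L[ℂ] H)) - x‖)) :=
    (tendsto_pow_atTop_nhds_zero_of_lt_one (by norm_num) (by norm_num)).mul_const _
  rw [zero_mul] at hlim
  obtain ⟨n, hn⟩ := (hlim.eventually (gt_mem_nhds hδ)).exists
  refine ⟨_, step3 n, ?_⟩
  rw [sub_add_cancel_left, norm_neg, norm_smul, norm_pow]
  have h2 : ‖(1 / 2 : ℂ)‖ = 1 / 2 := by simp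
  rw [h2]
  exact hn.le

theorem ball_inW (hM : NoFD M) {x : (H →L[ℂ] H)} (hx : x ∈ M) (hx1 : ‖x‖ ≤ 1) : InW M x := by
  apply InW.norm_closure
  intro δ hδ
  set r : ℝ := 1 - min δ (1 / 2) with hr
  have hm : 0 < min δ (1 / 2) := lt_min hδ (by norm_num)
  have hm2 : min δ (1 / 2) ≤ 1 / 2 := min_le_right _ _
  have hr0 : 0 ≤ r := by rw [hr]; linarith
  refine ⟨(r : ℂ) • x, ball_inW' hM (smul_mem' M _ hx) ?_, ?_⟩
  · rw [norm_smul, Complex.norm_real, Real.norm_eq_abs, abs_of_nonneg hr0]
    calc r * ‖x‖ ≤ r * 1 := by gcongr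
      _ < 1 := by rw [hr]; linarith
  · have h1 : x - (r : ℂ) • x = ((min δ (1 / 2) : ℝ) : ℂ) • x := by
      rw [hr]; push_cast; module
    rw [h1, norm_smul, Complex.norm_real, Real.norm_eq_abs, abs_of_pos hm]
    calc min δ (1 / 2) * ‖x‖ ≤ min δ (1 / 2) * 1 := by gcongr
      _ ≤ δ := by rw [mul_one]; exact min_le_left _ _

end R289.VN
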