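import Pool.Agent.R289.VN6

/-!
# The unit ball with the σ-weak topology; cyclic projections; the two directions
-/

namespace R289.VN

open scoped InnerProductSpace
open ContinuousLinearMap Module Set Topology

variable {H : Type*} [NormedAddCommGroup H] [InnerProductSpace ℂ H] [CompleteSpace H]



/-- The closed unit ball of `M`, as a bare type. -/
def Ball (M : VonNeumannAlgebra H) : Type _ := {x : H →L[ℂ] H // x ∈ M ∧ ‖x‖ ≤ 1}

variable (H) in
/-- Pairs of square-summable sequences of vectors; they index the normal functionals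
`x ↦ ∑ ⟪η n, x (ξ n)⟫_ℂ`. -/
def SqPair : Type _ :=
  {p : (ℕ → H) × (ℕ → H) // Summable (fun n => ‖p.1 n‖ ^ 2) ∧ Summable (fun n => ‖p.2 n‖ ^ 2)}

/-- the normal functional `x ↦ ∑ ⟪η n, x (ξ n)⟫_ℂ` attached to `p = (ξ, η)`. -/
noncomputable def nrm (x : H →L[ℂ] H) (p : SqPair H) : ℂ := ∑' n, inner ℂ (p.1.2 n) (x (p.1.1 n))

/-- The weak* (σ-weak) topology on the unit ball: the coarsest topology that makes all normal
functionals continuous. -/
noncomputable instance instTopBall (M : VonNeumannAlgebra H) : TopologicalSpace (Ball M) :=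
  TopologicalSpace.induced (fun (x : Ball M) (p : SqPair H) => nrm x.1 p) inferInstance

/-- the unitaries of `M` as a subset of the unit ball -/
def unitaries (M : VonNeumannAlgebra H) : Set (Ball M) :=
  {x | star x.1 * x.1 = 1 ∧ x.1 * star x.1 = 1}

/-- Property (R): the non-unitary elements of the unit ball form a set of first category for
the weak* topology. -/
def PropertyR (M : VonNeumannAlgebra H) : Prop := IsMeagre (unitaries M)ᶜ

/-- `M` is σ-finite: every set of pairwise orthogonal nonzero projections of `M` is countable. -/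
def SigmaFin (M : VonNeumannAlgebra H) : Prop :=
  ∀ P : Set (H →L[ℂ] H), (∀ p ∈ P, p ∈ M ∧ IsP p ∧ p ≠ 0) →
    (∀ p ∈ P, ∀ q ∈ P, p ≠ q → p * q = 0) → P.Countable

variable {M : VonNeumannAlgebra H}

theorem isInducing_frm : IsInducing (fun x : Ball M => frm x.1) := by
  refine ⟨le_antisymm ?_ ?_⟩
  · rw [← continuous_iff_le_induced]
    apply continuous_pi
    rintro ⟨ξ, η⟩
    let p : SqPair H := ⟨(Pi.single 0 η, Pi.single 0 ξ), by
      constructor
      · apply summable_of_ne_finset_zero (s := {0})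
        intro n hn
        have : n ≠ 0 := by simpa using hn
        simp [Pi.single_eq_of_ne this]
      · apply summable_of_ne_finset_zero (s := {0})
        intro n hn
        have : n ≠ 0 := by simpa using hn
        simp [Pi.single_eq_of_ne this]⟩
    have h1 : (fun x : Ball M => frm x.1 (ξ, η)) = (fun x : Ball M => nrm x.1 p) := by
      funext x
      show ⟪ξ, x.1 η⟫_ℂ = ∑' n, ⟪(Pi.single 0 ξ : ℕ → H) n, x.1 ((Pi.single 0 η : ℕ → H) n)⟫_ℂ
      rw [tsum_eq_single 0]
      · simp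
      · intro n hn
        simp [Pi.single_eq_of_ne hn]
    rw [h1]
    have h2 : Continuous (fun (x : Ball M) (p : SqPair H) => nrm x.1 p) := continuous_induced_dom
    exact (continuous_apply p).comp h2
  · letI t : TopologicalSpace (Ball M) :=
      TopologicalSpace.induced (fun x : Ball M => frm x.1) inferInstance
    have hcoord : ∀ ξ η : H, Continuous (fun x : Ball M => ⟪ξ, x.1 η⟫_ℂ) := by
      intro ξ η
      have : Continuous (fun x : Ball M => frm x.1) := continuous_induced_dom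
      exact (continuous_apply (ξ, η)).comp this
    have : Continuous (fun (x : Ball M) (p : SqPair H) => nrm x.1 p) := by
      apply continuous_pi
      intro p
      apply continuous_tsum (u := fun n => (‖p.1.2 n‖ ^ 2 + ‖p.1.1 n‖ ^ 2) / 2)
      · intro n
        exact hcoord _ _
      · exact (p.2.2.add p.2.1).div_const 2
      · intro n x
        calc ‖⟪p.1.2 n, x.1 (p.1.1 n)⟫_ℂ‖ ≤ ‖p.1.2 n‖ * ‖x.1 (p.1.1 n)‖ := norm_inner_le_norm _ _
          _ ≤ ‖p.1.2 n‖ * (‖x.1‖ * ‖p.1.1 n‖) := by gcongr; exact x.1.le_opNorm _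
          _ ≤ ‖p.1.2 n‖ * (1 * ‖p.1.1 n‖) := by gcongr; exact x.2.2
          _ ≤ (‖p.1.2 n‖ ^ 2 + ‖p.1.1 n‖ ^ 2) / 2 := by
            nlinarith [sq_nonneg (‖p.1.2 n‖ - ‖p.1.1 n‖)]
    exact continuous_iff_le_induced.1 this

theorem continuous_coord (ξ η : H) : Continuous (fun x : Ball M => ⟪ξ, x.1 η⟫_ℂ) :=
  (continuous_apply (ξ, η)).comp isInducing_frm.continuous

theorem frm_ball_injective : Function.Injective (fun x : Ball M => frm x.1) := by
  intro x y h
  exact Subtype.ext (frm_injective h)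

instance instT2Ball : T2Space (Ball M) :=
  IsEmbedding.t2Space ⟨isInducing_frm, frm_ball_injective⟩

instance instCompactBall : CompactSpace (Ball M) := by
  rw [← isCompact_univ_iff, isInducing_frm.isCompact_iff, Set.image_univ]
  have : Set.range (fun x : Ball M => frm x.1) = (frm '' {x : (H →L[ℂ] H) | ‖x‖ ≤ 1}) ∩
      {f | ∀ y : (H →L[ℂ] H), (∀ g ∈ M, g * y = y * g) → ∀ ξ η, f (ξ, y η) = f (star y ξ, η)} := by
    ext f
    constructor
    · rintro ⟨x, rfl⟩
      exact ⟨⟨x.1, x.2.2, rfl⟩, (mem_iff_frm M x.1).1 x.2.1⟩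
    · rintro ⟨⟨x, hx, rfl⟩, hxM⟩
      exact ⟨⟨x, (mem_iff_frm M x).2 hxM, hx⟩, rfl⟩
  rw [this]
  exact compact_ball.inter_right (closed_mem M)

instance instBaireBall : BaireSpace (Ball M) := inferInstance

theorem basic_nhd {V : Set (H × H → ℂ)} (hV : IsOpen V) {f : H × H → ℂ} (hf : f ∈ V) :
    ∃ (F : Finset H) (ε : ℝ), 0 < ε ∧
      ∀ g : H × H → ℂ, (∀ ξ ∈ F, ∀ η ∈ F, ‖f (ξ, η) - g (ξ, η)‖ < ε) → g ∈ V := by
  classical
  obtain ⟨I, u, hu, huV⟩ := isOpen_pi_iff.1 hV f hf
  have h1 : ∃ ε : ℝ, 0 < ε ∧ ∀ i ∈ I, Metric.ball (f i) ε ⊆ u i := by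
    clear huV hf hV
    induction I using Finset.induction_on with
    | empty => exact ⟨1, one_pos, by simp⟩
    | insert a s ha ih =>
      obtain ⟨ε, hε, h⟩ := ih (fun i hi => hu i (Finset.mem_insert_of_mem hi))
      obtain ⟨δ, hδ, h'⟩ := Metric.isOpen_iff.1 (hu a (Finset.mem_insert_self _ _)).1 (f a)
        (hu a (Finset.mem_insert_self _ _)).2
      refine ⟨min ε δ, lt_min hε hδ, fun i hi => ?_⟩
      rcases Finset.mem_insert.1 hi with rfl | hi
      · exact (Metric.ball_subset_ball (min_le_right _ _)).trans h'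
      · exact (Metric.ball_subset_ball (min_le_left _ _)).trans (h i hi)
  obtain ⟨ε, hε, h⟩ := h1
  refine ⟨I.image Prod.fst ∪ I.image Prod.snd, ε, hε, fun g hg => ?_⟩
  apply huV
  intro i hi
  apply h i hi
  rw [Metric.mem_ball, dist_comm, dist_eq_norm]
  exact hg i.1 (Finset.mem_union_left _ (Finset.mem_image_of_mem _ hi)) i.2
    (Finset.mem_union_right _ (Finset.mem_image_of_mem _ hi))

theorem basic_nhd_ball {V : Set (Ball M)} (hV : IsOpen V) {x : Ball M} (hx : x ∈ V) :
    ∃ (F : Finset H) (ε : ℝ), 0 < ε ∧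
      ∀ y : Ball M, (∀ ξ ∈ F, ∀ η ∈ F, ‖⟪ξ, x.1 η⟫_ℂ - ⟪ξ, y.1 η⟫_ℂ‖ < ε) → y ∈ V := by
  obtain ⟨W, hW, rfl⟩ := isInducing_frm.isOpen_iff.1 hV
  obtain ⟨F, ε, hε, h⟩ := basic_nhd hW (f := frm x.1) hx
  exact ⟨F, ε, hε, fun y hy => h (frm y.1) hy⟩

theorem dense_unitaries (hM : NoFD M) : Dense (unitaries M) := by
  intro x
  rw [mem_closure_iff]
  intro V hV hxV
  obtain ⟨F, ε, hε, h⟩ := basic_nhd_ball hV hxV
  obtain ⟨u, hu, huF⟩ := ball_inW hM x.2.1 x.2.2 F ε hε
  have hun : ‖u‖ ≤ 1 := by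
    have h1 : ‖u‖ * ‖u‖ = ‖(1 : (H →L[ℂ] H))‖ := by
      rw [← CStarRing.norm_star_mul_self (x := u), hu.2.1]
    have h2 : ‖(1 : (H →L[ℂ] H))‖ ≤ 1 := ContinuousLinearMap.norm_id_le
    nlinarith [norm_nonneg u]
  refine ⟨⟨u, hu.1, hun⟩, ?_, hu.2⟩
  apply h
  intro ξ hξ η hη
  have := huF ξ hξ η hη
  rwa [sub_apply, inner_sub_right] at this

/-! ### cyclic projections -/

theorem proj_commute (K : Submodule ℂ H) [K.HasOrthogonalProjection] {y : (H →L[ℂ] H)}
    (h1 : ∀ ξ ∈ K, y ξ ∈ K) (h2 : ∀ ξ ∈ K, (star y) ξ ∈ K) :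
    K.starProjection * y = y * K.starProjection := by
  ext ξ
  rw [mul_apply_eq_comp, mul_apply_eq_comp]
  apply K.eq_starProjection_of_mem_orthogonal
  · exact h1 _ (K.starProjection_apply_mem ξ)
  · rw [← map_sub]
    intro η hη
    rw [← inner_star_left]
    exact (K.sub_starProjection_mem_orthogonal ξ) _ (h2 η hη)

variable (M) in
/-- the closed span of `M' X` -/
noncomputable def cyc (X : Set H) : Submodule ℂ H :=
  (Submodule.span ℂ {ζ | ∃ y : H →L[ℂ] H, (∀ g ∈ M, g * y = y * g) ∧ ∃ ξ ∈ X, ζ = y ξ}).topologicalClosure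

theorem cyc_closed (X : Set H) : IsClosed (cyc M X : Set H) :=
  Submodule.isClosed_topologicalClosure _

instance (X : Set H) : (cyc M X).HasOrthogonalProjection := by
  have : CompleteSpace (cyc M X) := (cyc_closed X).completeSpace_coe
  infer_instance

variable (M) in
/-- the projection onto the closed span of `M' X` -/
noncomputable def cycP (X : Set H) : H →L[ℂ] H := (cyc M X).starProjection

theorem star_comm {y : (H →L[ℂ] H)} (hy : ∀ g ∈ M, g * y = y * g) : ∀ g ∈ M, g * star y = star y * g := by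
  intro g hg
  have := congrArg star (hy (star g) (star_mem hg))
  rw [star_mul, star_mul, star_star] at this
  exact this.symm

theorem cyc_inv {X : Set H} {y : (H →L[ℂ] H)} (hy : ∀ g ∈ M, g * y = y * g) :
    ∀ ξ ∈ cyc M X, y ξ ∈ cyc M X := by
  set S : Submodule ℂ H :=
    Submodule.span ℂ {ζ | ∃ y : H →L[ℂ] H, (∀ g ∈ M, g * y = y * g) ∧ ∃ ξ ∈ X, ζ = y ξ} with hS
  have h1 : ∀ ξ ∈ S, y ξ ∈ S := by
    intro ξ hξ
    rw [hS] at hξ
    induction hξ using Submodule.span_induction with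
    | mem ζ h =>
      obtain ⟨w, hw, ξ, hξ, rfl⟩ := h
      apply Submodule.subset_span
      refine ⟨y * w, fun g hg => ?_, ξ, hξ, rfl⟩
      rw [← mul_assoc, hy g hg, mul_assoc, hw g hg, mul_assoc]
    | zero => rw [map_zero]; exact S.zero_mem
    | add a b _ _ ha hb => rw [map_add]; exact S.add_mem ha hb
    | smul c a _ ha => rw [map_smul]; exact S.smul_mem c ha
  intro ξ hξ
  have h2 : ξ ∈ closure (S : Set H) := by
    rw [← Submodule.topologicalClosure_coe]; exact hξ
  have h3 : y ξ ∈ closure (S : Set H) :=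
    map_mem_closure y.continuous h2 (fun ζ hζ => h1 ζ hζ)
  rw [← Submodule.topologicalClosure_coe] at h3
  exact h3

theorem cycP_isP (X : Set H) : IsP (cycP M X) := isP_starProjection _

theorem cycP_mem (X : Set H) : cycP M X ∈ M := by
  rw [mem_iff]
  intro y hy
  exact proj_commute _ (cyc_inv hy) (cyc_inv (star_comm hy))

theorem cycP_apply {X : Set H} {y : (H →L[ℂ] H)} (hy : ∀ g ∈ M, g * y = y * g) {ξ : H} (hξ : ξ ∈ X) :
    cycP M X (y ξ) = y ξ := by
  rw [cycP, Submodule.starProjection_eq_self_iff]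
  apply Submodule.le_topologicalClosure
  apply Submodule.subset_span
  exact ⟨y, hy, ξ, hξ, rfl⟩

theorem cycP_self {X : Set H} {ξ : H} (hξ : ξ ∈ X) : cycP M X ξ = ξ := by
  have := cycP_apply (M := M) (y := 1) (fun g _ => by rw [mul_one, one_mul]) hξ
  simpa using this

theorem mul_cycP {X : Set H} {x : (H →L[ℂ] H)} (hx : x ∈ M) (h : ∀ ξ ∈ X, x ξ = 0) : x * cycP M X = 0 := by
  ext ζ
  rw [mul_apply_eq_comp, zero_apply]
  have hmem : cycP M X ζ ∈ cyc M X := Submodule.starProjection_apply_mem _ _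
  have hker : cyc M X ≤ LinearMap.ker (x : (H →L[ℂ] H)).toLinearMap := by
    apply Submodule.topologicalClosure_minimal
    · rw [Submodule.span_le]
      rintro _ ⟨y, hy, ξ, hξ, rfl⟩
      show x (y ξ) = 0
      rw [← mul_apply_eq_comp, hy x hx, mul_apply_eq_comp, h ξ hξ, map_zero]
    · exact ContinuousLinearMap.isClosed_ker x
  exact hker hmem

/-! ### a countable separating family -/

theorem exists_separating (hσ : SigmaFin M) :
    ∃ v : ℕ → H, ∀ x ∈ M, (∀ n, x (v n) = 0) → x = 0 := by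
  let 𝒮 : Set (Set H) := {S | (∀ ξ ∈ S, ξ ≠ 0) ∧ ∀ ξ ∈ S, ∀ ζ ∈ S, ξ ≠ ζ →
    ∀ y : (H →L[ℂ] H), (∀ g ∈ M, g * y = y * g) → ⟪y ξ, ζ⟫_ℂ = 0}
  obtain ⟨S, hS⟩ := zorn_subset 𝒮 (by
    intro c hc hchain
    refine ⟨⋃₀ c, ⟨?_, ?_⟩, fun s hs => Set.subset_sUnion_of_mem hs⟩
    · rintro ξ ⟨s, hs, hξ⟩
      exact (hc hs).1 ξ hξ
    · rintro ξ ⟨s, hs, hξ⟩ ζ ⟨t, ht, hζ⟩ hne
      rcases hchain.total hs ht with h | h
      · exact (hc ht).2 ξ (h hξ) ζ hζ hne
      · exact (hc hs).2 ξ hξ ζ (h hζ) hne)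
  have hSS : S ∈ 𝒮 := hS.prop
  have hcycne : ∀ ξ ∈ S, cycP M {ξ} ≠ 0 := by
    intro ξ hξ h0
    have h1 := cycP_self (M := M) (X := {ξ}) (ξ := ξ) rfl
    rw [h0, zero_apply] at h1
    exact hSS.1 ξ hξ h1.symm
  have horth : ∀ ξ ∈ S, ∀ ζ ∈ S, ξ ≠ ζ → cycP M {ξ} * cycP M {ζ} = 0 := by
    intro ξ hξ ζ hζ hne
    apply mul_cycP (cycP_mem _)
    intro ζ' hζ'
    rw [Set.mem_singleton_iff] at hζ'
    subst hζ'
    rw [cycP, Submodule.starProjection_apply_eq_zero_iff]
    have h1 : cyc M {ξ} ≤ (Submodule.span ℂ {ζ'})ᗮ := by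
      apply Submodule.topologicalClosure_minimal
      · rw [Submodule.span_le]
        rintro _ ⟨y, hy, ξ', hξ', rfl⟩
        rw [Set.mem_singleton_iff] at hξ'
        subst hξ'
        rw [SetLike.mem_coe, Submodule.mem_orthogonal_singleton_iff_inner_left]
        exact hSS.2 ξ' hξ ζ' hζ hne y hy
      · exact Submodule.isClosed_orthogonal _
    intro w hw
    have := h1 hw
    rwa [Submodule.mem_orthogonal_singleton_iff_inner_left] at this
  have hinj : Set.InjOn (fun ξ => cycP M {ξ}) S := by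
    intro ξ hξ ζ hζ h
    by_contra hne
    have h1 := horth ξ hξ ζ hζ hne
    simp only at h
    rw [h, (cycP_isP _).idem] at h1
    exact hcycne ζ hζ h1
  have hcount : S.Countable := by
    have h1 : ((fun ξ => cycP M {ξ}) '' S).Countable := by
      apply hσ
      · rintro _ ⟨ξ, hξ, rfl⟩
        exact ⟨cycP_mem _, cycP_isP _, hcycne ξ hξ⟩
      · rintro _ ⟨ξ, hξ, rfl⟩ _ ⟨ζ, hζ, rfl⟩ hne
        exact horth ξ hξ ζ hζ (fun h => hne (by rw [h]))
    exact Set.countable_of_injective_of_countable_image hinj h1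
  have hsep : ∀ x ∈ M, (∀ ξ ∈ S, x ξ = 0) → x = 0 := by
    intro x hx hxS
    by_contra hx0
    have hsx : star x ≠ 0 := by
      intro h
      exact hx0 (by rw [← star_star x, h, star_zero])
    obtain ⟨η, hη⟩ : ∃ η, (star x) η ≠ 0 := by
      by_contra hcon
      push Not at hcon
      exact hsx (by ext η; simpa using hcon η)
    set ζ : H := (star x) η with hζ
    have hq : ∀ ξ ∈ S, cycP M {ξ} ζ = 0 := by
      intro ξ hξ
      have h1 : x * cycP M {ξ} = 0 := mul_cycP hx (by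
        intro ξ' hξ'
        rw [Set.mem_singleton_iff] at hξ'
        subst hξ'
        exact hxS _ hξ)
      have h2 := congrArg star h1
      rw [star_mul, (cycP_isP _).sa, star_zero] at h2
      rw [hζ, ← mul_apply_eq_comp, h2, zero_apply]
    have horth2 : ∀ ξ ∈ S, ∀ y : (H →L[ℂ] H), (∀ g ∈ M, g * y = y * g) → ⟪y ξ, ζ⟫_ℂ = 0 := by
      intro ξ hξ y hy
      rw [← cycP_apply (M := M) hy (Set.mem_singleton ξ), inner_sa (cycP_isP _).sa, hq ξ hξ,
        inner_zero_right]
    have hζS : ζ ∉ S := by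
      intro h
      have h1 := hq ζ h
      rw [cycP_self (M := M) (Set.mem_singleton ζ)] at h1
      exact hη h1
    have hins : insert ζ S ∈ 𝒮 := by
      constructor
      · intro ξ hξ
        rcases Set.mem_insert_iff.1 hξ with rfl | hξ
        · exact hη
        · exact hSS.1 ξ hξ
      · intro ξ hξ ζ' hζ' hne y hy
        rcases Set.mem_insert_iff.1 hξ with rfl | hξ'
        · rcases Set.mem_insert_iff.1 hζ' with rfl | hζ''
          · exact absurd rfl hne
          · have h1 := horth2 ζ' hζ'' (star y) (star_comm hy)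
            rw [inner_star_left] at h1
            rw [← inner_conj_symm, h1, map_zero]
        · rcases Set.mem_insert_iff.1 hζ' with rfl | hζ''
          · exact horth2 ξ hξ' y hy
          · exact hSS.2 ξ hξ' ζ' hζ'' hne y hy
    have := hS.le_of_ge hins (Set.subset_insert _ _)
    exact hζS (this (Set.mem_insert _ _))
  by_cases hne : S.Nonempty
  · obtain ⟨v, hv⟩ := hcount.exists_eq_range hne
    refine ⟨v, fun x hx h => hsep x hx ?_⟩
    rw [hv]
    rintro _ ⟨n, rfl⟩
    exact h n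
  · rw [Set.not_nonempty_iff_eq_empty] at hne
    refine ⟨fun _ => 0, fun x hx _ => hsep x hx ?_⟩
    rw [hne]
    simp

end R289.VN
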