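import Pool.Agent.R289.VN7

/-!
# Property (R): both directions
-/

namespace R289.VN

open scoped InnerProductSpace
open ContinuousLinearMap Module Set Topology

variable {H : Type*} [NormedAddCommGroup H] [InnerProductSpace ℂ H] [CompleteSpace H]



variable {M : VonNeumannAlgebra H}

/-! ### sufficiency -/

theorem isOpen_norm_gt (g : Ball M → H) (hg : ∀ η : H, Continuous (fun x : Ball M => ⟪η, g x⟫_ℂ))
    (c : ℝ) : IsOpen {x : Ball M | c < ‖g x‖} := by
  have h1 : {x : Ball M | c < ‖g x‖} = ⋃ η : {η : H // ‖η‖ ≤ 1}, {x : Ball M | c < ‖⟪η.1, g x⟫_ℂ‖} := by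
    ext x
    simp only [Set.mem_iUnion]
    constructor
    · intro hx
      refine ⟨⟨((‖g x‖⁻¹ : ℝ) : ℂ) • g x, ?_⟩, ?_⟩
      · rw [norm_smul, Complex.norm_real, norm_inv, norm_norm]
        by_cases h : ‖g x‖ = 0
        · rw [h]; simp
        · rw [inv_mul_cancel₀ h]
      · show c < ‖⟪((‖g x‖⁻¹ : ℝ) : ℂ) • g x, g x⟫_ℂ‖
        rw [inner_smul_left, Complex.conj_ofReal, inner_self_eq_norm_sq_to_K, norm_mul,
          Complex.norm_real, norm_inv, norm_norm, norm_pow]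
        have h2 : ‖((‖g x‖ : ℝ) : ℂ)‖ = ‖g x‖ := by simp
        have h3 : ‖g x‖⁻¹ * ‖g x‖ ^ 2 = ‖g x‖ := by
          by_cases h : ‖g x‖ = 0
          · rw [h]; simp
          · field_simp
        change c < ‖g x‖⁻¹ * ‖((‖g x‖ : ℝ) : ℂ)‖ ^ 2
        rw [h2, h3]
        exact hx
    · rintro ⟨η, hη⟩
      have h2 : c < ‖⟪η.1, g x⟫_ℂ‖ := hη
      calc c < ‖⟪η.1, g x⟫_ℂ‖ := h2
        _ ≤ ‖η.1‖ * ‖g x‖ := norm_inner_le_norm _ _
        _ ≤ 1 * ‖g x‖ := by gcongr; exact η.2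
        _ = ‖g x‖ := one_mul _
  rw [h1]
  exact isOpen_iUnion fun η => isOpen_lt continuous_const (hg η.1).norm

theorem isGδ_norm_ge (g : Ball M → H) (hg : ∀ η : H, Continuous (fun x : Ball M => ⟪η, g x⟫_ℂ))
    (c : ℝ) : IsGδ {x : Ball M | c ≤ ‖g x‖} := by
  have h1 : {x : Ball M | c ≤ ‖g x‖} = ⋂ k : ℕ, {x : Ball M | c - 1 / ((k : ℝ) + 1) < ‖g x‖} := by
    ext x
    simp only [Set.mem_iInter]
    constructor
    · intro hx k
      have h2 : c ≤ ‖g x‖ := hx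
      have h3 : 0 < 1 / ((k : ℝ) + 1) := by positivity
      show c - 1 / ((k : ℝ) + 1) < ‖g x‖
      linarith
    · intro hx
      show c ≤ ‖g x‖
      apply le_of_forall_pos_le_add
      intro ε hε
      obtain ⟨k, hk⟩ := exists_nat_one_div_lt hε
      have h2 : c - 1 / ((k : ℝ) + 1) < ‖g x‖ := hx k
      linarith
  rw [h1]
  exact IsGδ.iInter_of_isOpen fun k => isOpen_norm_gt g hg _

theorem unit01_of_contraction {x : (H →L[ℂ] H)} (hx : ‖x‖ ≤ 1) : Unit01 (1 - star x * x) := by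
  refine ⟨by rw [star_sub, star_one, star_mul, star_star], fun ξ => ?_⟩
  have h1 : RCLike.re ⟪(1 - star x * x) ξ, ξ⟫_ℂ = ‖ξ‖ ^ 2 - ‖x ξ‖ ^ 2 := by
    rw [sub_apply, inner_sub_left, map_sub, one_apply_eq_self, re_inner_self, mul_apply_eq_comp,
      inner_star_left, re_inner_self]
  have h2 : ‖x ξ‖ ≤ ‖ξ‖ := by
    calc ‖x ξ‖ ≤ ‖x‖ * ‖ξ‖ := x.le_opNorm _
      _ ≤ 1 * ‖ξ‖ := by gcongr
      _ = ‖ξ‖ := one_mul _
  rw [h1]
  constructor
  · have : ‖x ξ‖ ^ 2 ≤ ‖ξ‖ ^ 2 := by gcongr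
    linarith
  · have : 0 ≤ ‖x ξ‖ ^ 2 := by positivity
    linarith

theorem isometric_on {x : (H →L[ℂ] H)} (hxM : x ∈ M) (hx : ‖x‖ ≤ 1) {v : ℕ → H}
    (hv : ∀ x ∈ M, (∀ n, x (v n) = 0) → x = 0) (h : ∀ n, ‖v n‖ ≤ ‖x (v n)‖) :
    star x * x = 1 := by
  have h1 := unit01_of_contraction hx
  have h2 : 1 - star x * x = 0 := by
    apply hv _ (sub_mem (one_mem M) (mul_mem (star_mem hxM) hxM))
    intro n
    have h3 := h1.sq_le (v n)
    have h4 : RCLike.re ⟪(1 - star x * x) (v n), v n⟫_ℂ = ‖v n‖ ^ 2 - ‖x (v n)‖ ^ 2 := by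
      rw [sub_apply, inner_sub_left, map_sub, one_apply_eq_self, re_inner_self, mul_apply_eq_comp,
        inner_star_left, re_inner_self]
    rw [h4] at h3
    have h5 : ‖v n‖ ^ 2 ≤ ‖x (v n)‖ ^ 2 := by
      have := h n
      gcongr
    have h6 : ‖(1 - star x * x) (v n)‖ ^ 2 ≤ 0 := by linarith
    have h7 : ‖(1 - star x * x) (v n)‖ = 0 := by nlinarith [norm_nonneg ((1 - star x * x) (v n))]
    exact norm_eq_zero.1 h7
  exact (sub_eq_zero.1 h2).symm

theorem propertyR_of (hσ : SigmaFin M) (hM : NoFD M) : PropertyR M := by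
  obtain ⟨v, hv⟩ := exists_separating hσ
  have hG : IsGδ (unitaries M) := by
    have h1 : unitaries M = (⋂ n : ℕ, {x : Ball M | ‖v n‖ ≤ ‖x.1 (v n)‖}) ∩
        (⋂ n : ℕ, {x : Ball M | ‖v n‖ ≤ ‖(star x.1) (v n)‖}) := by
      ext x
      simp only [Set.mem_inter_iff, Set.mem_iInter]
      constructor
      · rintro ⟨h1, h2⟩
        have key : ∀ y : (H →L[ℂ] H), star y * y = 1 → ∀ ξ, ‖ξ‖ ≤ ‖y ξ‖ := by
          intro y hy ξ
          have h3 : ‖y ξ‖ ^ 2 = ‖ξ‖ ^ 2 := by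
            rw [← re_inner_self, ← re_inner_self, ← inner_star_right, ← mul_apply_eq_comp, hy,
              one_apply_eq_self]
          exact le_of_sq_le_sq h3.ge (norm_nonneg _)
        refine ⟨fun n => key _ h1 _, fun n => key _ (by rw [star_star]; exact h2) _⟩
      · rintro ⟨h1, h2⟩
        refine ⟨isometric_on x.2.1 x.2.2 hv h1, ?_⟩
        have h3 := isometric_on (M := M) (x := star x.1) (star_mem x.2.1)
          (by rw [norm_star]; exact x.2.2) hv h2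
        rwa [star_star] at h3
    rw [h1]
    refine (IsGδ.iInter fun n => isGδ_norm_ge _ (fun η => continuous_coord η (v n)) _).inter
      (IsGδ.iInter fun n => isGδ_norm_ge (fun x : Ball M => (star x.1) (v n)) (fun η => ?_) _)
    have h2 : (fun x : Ball M => ⟪η, (star x.1) (v n)⟫_ℂ) =
        fun x : Ball M => (starRingEnd ℂ) ⟪v n, x.1 η⟫_ℂ := by
      funext x
      rw [inner_star_right, inner_conj_symm]
    rw [h2]
    exact Complex.continuous_conj.comp (continuous_coord (v n) η)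
  have h2 : unitaries M ∈ residual (Ball M) := residual_of_dense_Gδ hG (dense_unitaries hM)
  show (unitaries M)ᶜᶜ ∈ residual (Ball M)
  rwa [compl_compl]

/-! ### necessity -/

theorem mem_residual_of (h : PropertyR M) : unitaries M ∈ residual (Ball M) := by
  have h1 : (unitaries M)ᶜᶜ ∈ residual (Ball M) := h
  rwa [compl_compl] at h1

theorem noFD_of (h : PropertyR M) : NoFD M := by
  intro z hzM hz hzc hfd
  have hdense : Dense (unitaries M) := dense_of_mem_residual (mem_residual_of h)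
  set V : Submodule ℂ (H →L[ℂ] H) := Submodule.span ℂ {y : (H →L[ℂ] H) | ∃ x ∈ M, y = z * x} with hV
  have hVfd : FiniteDimensional ℂ V := hfd
  let C : Set V := {v | star (v : (H →L[ℂ] H)) * (v : (H →L[ℂ] H)) = z ∧ ‖v‖ ≤ 1}
  have hCc : IsCompact C := by
    have : ProperSpace V := FiniteDimensional.proper ℂ V
    apply Metric.isCompact_of_isClosed_isBounded
    · apply IsClosed.inter
      · exact isClosed_eq (by fun_prop) continuous_const
      · exact isClosed_le continuous_norm continuous_const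
    · apply (Metric.isBounded_closedBall (x := (0 : V)) (r := 1)).subset
      rintro v ⟨_, hv⟩
      rw [mem_closedBall_zero_iff]
      exact hv
  have hfc : Continuous (fun v : V => frm (v : (H →L[ℂ] H))) := by
    apply continuous_pi
    rintro ⟨ξ, η⟩
    show Continuous (fun v : V => ⟪ξ, (v : (H →L[ℂ] H)) η⟫_ℂ)
    have : Continuous (fun v : V => (v : (H →L[ℂ] H)) η) := by fun_prop
    exact continuous_const.inner this
  have hcl : IsClosed ((fun v : V => frm (v : (H →L[ℂ] H))) '' C) := (hCc.image hfc).isClosed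
  have hgc : Continuous (fun x : Ball M => frm (z * x.1)) := by
    apply continuous_pi
    rintro ⟨ξ, η⟩
    have h1 : (fun x : Ball M => frm (z * x.1) (ξ, η)) = fun x : Ball M => ⟪z ξ, x.1 η⟫_ℂ := by
      funext x
      show ⟪ξ, (z * x.1) η⟫_ℂ = _
      rw [mul_apply_eq_comp, inner_sa hz.sa]
    rw [h1]
    exact continuous_coord _ _
  have hpre : IsClosed ((fun x : Ball M => frm (z * x.1)) ⁻¹' ((fun v : V => frm (v : (H →L[ℂ] H))) '' C)) :=
    hcl.preimage hgc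
  have hsub : unitaries M ⊆
      ((fun x : Ball M => frm (z * x.1)) ⁻¹' ((fun v : V => frm (v : (H →L[ℂ] H))) '' C)) := by
    intro u hu
    refine ⟨⟨z * u.1, Submodule.subset_span ⟨u.1, u.2.1, rfl⟩⟩, ⟨?_, ?_⟩, rfl⟩
    · show star (z * u.1) * (z * u.1) = z
      rw [star_mul, hz.sa]
      calc star u.1 * z * (z * u.1) = star u.1 * (z * z) * u.1 := by simp only [mul_assoc]
        _ = star u.1 * (z * u.1) := by rw [hz.idem, mul_assoc]
        _ = star u.1 * (u.1 * z) := by rw [hzc u.1 u.2.1]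
        _ = z := by rw [← mul_assoc, hu.1, one_mul]
    · show ‖z * u.1‖ ≤ 1
      calc ‖z * u.1‖ ≤ ‖z‖ * ‖u.1‖ := norm_mul_le _ _
        _ ≤ 1 * 1 := by
          gcongr
          · exact hz.norm_le
          · exact u.2.2
        _ = 1 := one_mul _
  have huniv : (fun x : Ball M => frm (z * x.1)) ⁻¹' ((fun v : V => frm (v : (H →L[ℂ] H))) '' C) =
      Set.univ := by
    apply Set.eq_univ_of_univ_subset
    rw [← hdense.closure_eq]
    exact closure_minimal hsub hpre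
  let o : Ball M := ⟨0, zero_mem M, by simp⟩
  have ho : o ∈ (fun x : Ball M => frm (z * x.1)) ⁻¹' ((fun v : V => frm (v : (H →L[ℂ] H))) '' C) := by
    rw [huniv]; trivial
  obtain ⟨v, ⟨hv1, _⟩, hv2⟩ := ho
  have hv3 : (v : (H →L[ℂ] H)) = 0 := by
    apply frm_injective
    have : frm (v : (H →L[ℂ] H)) = frm (z * (0 : (H →L[ℂ] H))) := hv2
    rw [this, mul_zero]
  rw [← hv1, hv3, mul_zero]

theorem isP_sum {s : Finset (H →L[ℂ] H)} (h1 : ∀ p ∈ s, IsP p) (h2 : ∀ p ∈ s, ∀ q ∈ s, p ≠ q → p * q = 0) :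
    IsP (∑ p ∈ s, p) := by
  constructor
  · rw [star_sum]
    exact Finset.sum_congr rfl (fun p hp => (h1 p hp).sa)
  · rw [Finset.sum_mul]
    refine Finset.sum_congr rfl (fun p hp => ?_)
    rw [Finset.mul_sum, Finset.sum_eq_single p]
    · exact (h1 p hp).idem
    · intro q hq hne
      exact h2 p hp q hq (Ne.symm hne)
    · intro h; exact absurd hp h

theorem countable_support {P : Set (H →L[ℂ] H)} (h1 : ∀ p ∈ P, IsP p)
    (h2 : ∀ p ∈ P, ∀ q ∈ P, p ≠ q → p * q = 0) (ξ : H) : {p ∈ P | p ξ ≠ 0}.Countable := by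
  have hsum : Summable (fun p : P => ‖p.1 ξ‖ ^ 2) := by
    apply summable_of_sum_le (c := ‖ξ‖ ^ 2)
    · intro p; positivity
    · intro s
      have h3 : IsP (∑ p ∈ s.map (Function.Embedding.subtype _), p) := by
        apply isP_sum
        · intro p hp
          obtain ⟨q, _, rfl⟩ := Finset.mem_map.1 hp
          exact h1 _ q.2
        · intro p hp q hq hne
          obtain ⟨p', _, rfl⟩ := Finset.mem_map.1 hp
          obtain ⟨q', _, rfl⟩ := Finset.mem_map.1 hq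
          exact h2 _ p'.2 _ q'.2 hne
      have h4 : ∑ p ∈ s, ‖p.1 ξ‖ ^ 2 =
          RCLike.re ⟪(∑ p ∈ s.map (Function.Embedding.subtype _), p : (H →L[ℂ] H)) ξ, ξ⟫_ℂ := by
        rw [Finset.sum_map, sum_apply, sum_inner, map_sum]
        refine Finset.sum_congr rfl (fun p _ => ?_)
        rw [Function.Embedding.subtype_apply, (h1 _ p.2).re_inner]
      rw [h4, h3.re_inner]
      have := h3.norm_apply_le ξ
      gcongr
  have h3 := hsum.countable_support
  have h4 : {p ∈ P | p ξ ≠ 0} = Subtype.val '' (Function.support (fun p : P => ‖p.1 ξ‖ ^ 2)) := by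
    ext p
    constructor
    · rintro ⟨hp, hpξ⟩
      refine ⟨⟨p, hp⟩, ?_, rfl⟩
      rw [Function.mem_support]
      exact pow_ne_zero 2 (norm_ne_zero_iff.2 hpξ)
    · rintro ⟨q, hq, rfl⟩
      refine ⟨q.2, fun h => ?_⟩
      rw [Function.mem_support] at hq
      apply hq
      show ‖q.1 ξ‖ ^ 2 = 0
      rw [h]; simp
  rw [h4]
  exact h3.image _

/-- closed basic sets -/
def cbox (s : Ball M × Finset H × ℝ) : Set (Ball M) :=
  {y | ∀ ξ ∈ s.2.1, ∀ η ∈ s.2.1, ‖⟪ξ, s.1.1 η⟫_ℂ - ⟪ξ, y.1 η⟫_ℂ‖ ≤ s.2.2}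

theorem cbox_closed (s : Ball M × Finset H × ℝ) : IsClosed (cbox s) := by
  have : cbox s = ⋂ ξ ∈ s.2.1, ⋂ η ∈ s.2.1, {y : Ball M | ‖⟪ξ, s.1.1 η⟫_ℂ - ⟪ξ, y.1 η⟫_ℂ‖ ≤ s.2.2} := by
    ext y; simp [cbox]
  rw [this]
  exact isClosed_biInter fun ξ _ => isClosed_biInter fun η _ =>
    isClosed_le (continuous_const.sub (continuous_coord ξ η)).norm continuous_const

theorem obox_open (s : Ball M × Finset H × ℝ) :
    IsOpen {y : Ball M | ∀ ξ ∈ s.2.1, ∀ η ∈ s.2.1, ‖⟪ξ, s.1.1 η⟫_ℂ - ⟪ξ, y.1 η⟫_ℂ‖ < s.2.2} := by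
  have : {y : Ball M | ∀ ξ ∈ s.2.1, ∀ η ∈ s.2.1, ‖⟪ξ, s.1.1 η⟫_ℂ - ⟪ξ, y.1 η⟫_ℂ‖ < s.2.2} =
      ⋂ ξ ∈ s.2.1, ⋂ η ∈ s.2.1, {y : Ball M | ‖⟪ξ, s.1.1 η⟫_ℂ - ⟪ξ, y.1 η⟫_ℂ‖ < s.2.2} := by
    ext y; simp
  rw [this]
  exact isOpen_biInter_finset fun ξ _ => isOpen_biInter_finset fun η _ =>
    isOpen_lt (continuous_const.sub (continuous_coord ξ η)).norm continuous_const

theorem box_step (s : Ball M × Finset H × ℝ) (hs : 0 < s.2.2) {O : Set (Ball M)} (hO : IsOpen O)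
    (hOd : Dense O) : ∃ t : Ball M × Finset H × ℝ, 0 < t.2.2 ∧ cbox t ⊆ O ∩ cbox s := by
  have h1 := obox_open s
  have hne : {y : Ball M | ∀ ξ ∈ s.2.1, ∀ η ∈ s.2.1, ‖⟪ξ, s.1.1 η⟫_ℂ - ⟪ξ, y.1 η⟫_ℂ‖ < s.2.2}.Nonempty :=
    ⟨s.1, fun ξ _ η _ => by rw [sub_self, norm_zero]; exact hs⟩
  obtain ⟨x, hx1, hx2⟩ := hOd.inter_open_nonempty _ h1 hne
  obtain ⟨F, ε, hε, h⟩ := basic_nhd_ball (h1.inter hO) ⟨hx1, hx2⟩
  refine ⟨(x, F, ε / 2), by show 0 < ε / 2; linarith, fun y hy => ?_⟩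
  have h2 := h y (fun ξ hξ η hη => lt_of_le_of_lt (hy ξ hξ η hη) (by show ε / 2 < ε; linarith))
  exact ⟨h2.2, fun ξ hξ η hη => (h2.1 ξ hξ η hη).le⟩

theorem sigmaFin_of (h : PropertyR M) : SigmaFin M := by
  intro P hP1 hP2
  obtain ⟨S, hSo, hSd, hSc, hSsub⟩ := mem_residual_iff.1 (mem_residual_of h)
  have hS' : (insert Set.univ S).Countable := hSc.insert _
  obtain ⟨O, hO⟩ := hS'.exists_eq_range ⟨_, Set.mem_insert _ _⟩
  have hOo : ∀ n, IsOpen (O n) := by
    intro n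
    have : O n ∈ insert Set.univ S := by rw [hO]; exact ⟨n, rfl⟩
    rcases Set.mem_insert_iff.1 this with h | h
    · rw [h]; exact isOpen_univ
    · exact hSo _ h
  have hOd : ∀ n, Dense (O n) := by
    intro n
    have : O n ∈ insert Set.univ S := by rw [hO]; exact ⟨n, rfl⟩
    rcases Set.mem_insert_iff.1 this with h | h
    · rw [h]; exact dense_univ
    · exact hSd _ h
  have hOsub : ∀ x : Ball M, (∀ n, x ∈ O n) → x ∈ unitaries M := by
    intro x hx
    apply hSsub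
    intro t ht
    have : t ∈ Set.range O := by rw [← hO]; exact Set.mem_insert_of_mem _ ht
    obtain ⟨n, rfl⟩ := this
    exact hx n
  -- the sequence of boxes
  let St := {s : Ball M × Finset H × ℝ // 0 < s.2.2}
  have hstep : ∀ (n : ℕ) (s : St), ∃ t : St, cbox t.1 ⊆ O n ∩ cbox s.1 := by
    intro n s
    obtain ⟨t, ht, ht2⟩ := box_step s.1 s.2 (hOo n) (hOd n)
    exact ⟨⟨t, ht⟩, ht2⟩
  choose nxt hnxt using hstep
  let seq : ℕ → St := fun n => Nat.rec
    (⟨(⟨0, zero_mem M, by simp⟩, ∅, 1), one_pos⟩ : St) (fun n s => nxt n s) n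
  have hseq : ∀ n, cbox (seq (n + 1)).1 ⊆ O n ∩ cbox (seq n).1 := fun n => hnxt n (seq n)
  have hne : (⋂ n, cbox (seq n).1).Nonempty := by
    apply IsCompact.nonempty_iInter_of_sequence_nonempty_isCompact_isClosed
    · intro n; exact (hseq n).trans Set.inter_subset_right
    · intro n
      refine ⟨(seq n).1.1, fun ξ _ η _ => ?_⟩
      rw [sub_self, norm_zero]
      exact (seq n).2.le
    · exact (cbox_closed _).isCompact
    · intro n; exact cbox_closed _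
  obtain ⟨x, hx⟩ := hne
  rw [Set.mem_iInter] at hx
  set K : Set H := ⋃ n, ((seq n).1.2.1 : Set H) with hK
  have hKc : K.Countable := Set.countable_iUnion fun n => Finset.countable_toSet _
  set q : (H →L[ℂ] H) := cycP M K with hq
  have hqP : IsP q := cycP_isP K
  have hqM : q ∈ M := cycP_mem K
  have hqK : ∀ ξ ∈ K, q ξ = ξ := fun ξ hξ => cycP_self hξ
  let x' : Ball M := ⟨q * x.1 * q, mul_mem (mul_mem hqM x.2.1) hqM, by
    calc ‖q * x.1 * q‖ ≤ ‖q * x.1‖ * ‖q‖ := norm_mul_le _ _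
      _ ≤ (‖q‖ * ‖x.1‖) * ‖q‖ := by gcongr; exact norm_mul_le _ _
      _ ≤ (1 * 1) * 1 := by
        gcongr
        · exact hqP.norm_le
        · exact x.2.2
        · exact hqP.norm_le
      _ = 1 := by norm_num⟩
  have hx' : ∀ n, x' ∈ cbox (seq n).1 := by
    intro n ξ hξ η hη
    have h1 : ξ ∈ K := Set.mem_iUnion.2 ⟨n, hξ⟩
    have h2 : η ∈ K := Set.mem_iUnion.2 ⟨n, hη⟩
    have h3 : ⟪ξ, x'.1 η⟫_ℂ = ⟪ξ, x.1 η⟫_ℂ := by
      show ⟪ξ, (q * x.1 * q) η⟫_ℂ = _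
      rw [mul_apply_eq_comp, mul_apply_eq_comp, hqK η h2, ← inner_sa hqP.sa, hqK ξ h1]
    rw [h3]
    exact hx n ξ hξ η hη
  have hx'U : x' ∈ unitaries M := hOsub x' (fun n => (hseq n (hx' (n + 1))).1)
  have hq1 : q = 1 := by
    have h1 : x'.1 * star x'.1 = 1 := hx'U.2
    have h2 : q * x'.1 = x'.1 := by
      show q * (q * x.1 * q) = q * x.1 * q
      rw [← mul_assoc, ← mul_assoc, hqP.idem]
    calc q = q * (x'.1 * star x'.1) := by rw [h1, mul_one]
      _ = (q * x'.1) * star x'.1 := (mul_assoc _ _ _).symm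
      _ = 1 := by rw [h2, h1]
  have hcover : P ⊆ ⋃ ξ ∈ K, {p ∈ P | p ξ ≠ 0} := by
    intro p hp
    by_contra hcon
    simp only [Set.mem_iUnion, not_exists] at hcon
    have h1 : ∀ ξ ∈ K, p ξ = 0 := by
      intro ξ hξ
      by_contra h2
      exact hcon ξ hξ ⟨hp, h2⟩
    have h2 := mul_cycP (M := M) (hP1 p hp).1 h1
    rw [← hq, hq1, mul_one] at h2
    exact (hP1 p hp).2.2 h2
  refine Set.Countable.mono hcover (hKc.biUnion fun ξ _ => ?_)
  exact countable_support (fun p hp => (hP1 p hp).2.1) hP2 ξ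

/-- **Characterisation of property (R).** -/
theorem propertyR_iff (M : VonNeumannAlgebra H) : PropertyR M ↔ SigmaFin M ∧ NoFD M :=
  ⟨fun h => ⟨sigmaFin_of h, noFD_of h⟩, fun h => propertyR_of h.1 h.2⟩

end R289.VN
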